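import Pool.Agent.BOR.BDef

/-!
# BOR / BCO: the lifts of the angle functions along the first ellipse

Along `cB t` (`x = 2 cos 2πt`, `y = sin 2πt`, `z = 0`): `ph2 = (1 - y²/4)/10 ∈ [3/40, 1/10]` is
positive, `ph3 = 1 - x²`.

PROOF.
* `la2` is continuous: `ph2 > 0`. `A2 (cB t) = exp (π i la2)`: if `ph2 ≤ |x|` then `x/ph2` has
  absolute value `≥ 1`, `la2 = ± 1` and `exp (± π i) = -1`; otherwise `la2 = x / ph2`.
* `la3` on `[0,1]`: for `t ∈ [1/2, 1]` it is `1`. For `t ∈ [0,1/2]`, `y ≥ 0`. If `x² ≥ 1` it is `1`.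
  If `x² < 1` then `y = sqrt(1 - x²/4) ≥ 0.866` and the value is `clamp (y / (1-x²) - 6)`; when
  `1 - x² ≤ 1/10` we have `y/(1-x²) - 6 ≥ 8.66 - 6 ≥ 1`, so the value is `1` in a neighbourhood of
  the points with `x² = 1`; so `la3` is continuous on `[0,1/2]`: it is equal to
  `max (-1) (min 1 (y / max (ph3) (1/20) - 6))` on the open set `x² < 1 + small`, and to `1` on the
  set `x² > 19/20` (and `y ≥ 1/2`...): both sets are open in `[0,1/2]` and cover it. At `t = 1/2`,
  `x = -2`, value `1` on both sides.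
  `A3 (cB t) = exp (π i la3)`: argument is `Ew (y - 6 max(ph3,0)) ph3`. For `t ≥ 1/2`: `y ≤ 0`; if
  `ph3 ≤ 0` then `Ew = -1`; if `ph3 > 0` then `|y - 6 ph3| ≥ 6 ph3 ≥ ph3`, so `Ew = -1 = exp (π i)`.
  For `t < 1/2`, `x² ≥ 1`: `ph3 ≤ 0`, `Ew = -1`. For `x² < 1`: `ph3 > 0` and
  `(y - 6 ph3)/ph3 = y/ph3 - 6`; if its absolute value is `≥ 1` then `Ew = -1`, `la3 = ± 1`,
  otherwise `Ew = exp (π i (y/ph3 - 6))`.
* Pieces: take `t1 = arccos (1/4) / (2π) ∈ (0, 1/4)`, `t2 = 1/2 - t1`. On `[0,1/2]` `x` is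
  decreasing, `x(t1) = 1/2`, `x(t2) = -1/2`. On `[0,t1]`: `x ≥ 1/2 ≥ ph2` so `la2 = 1`. On
  `[t1,t2]`: `x² ≤ 1/4`, `ph3 ≥ 3/4`, `y ≤ 1`, `y/ph3 - 6 ≤ 4/3 - 6 < -1`, so `la3 = -1`. On
  `[t2,1/2]`: `x ≤ -1/2`, `la2 = -1`. On `[1/2,1]`: `la3 = 1`. At `t = 0, 1`: `x = 2`, `la2 = 1`,
  `la3 = 1`.
-/

noncomputable section

namespace BOR

open Set

private theorem cB0 (t : ℝ) : (cB t) 0 = 2 * Real.cos (2 * Real.pi * t) := by
  unfold cB
  rw [pt_0]

private theorem cB1 (t : ℝ) : (cB t) 1 = Real.sin (2 * Real.pi * t) := by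
  unfold cB
  rw [pt_1]

private theorem cB2 (t : ℝ) : (cB t) 2 = 0 := by
  unfold cB
  rw [pt_2]

private theorem cB_rel (t : ℝ) : (cB t) 0 ^ 2 / 4 + (cB t) 1 ^ 2 = 1 := by
  rw [cB0, cB1]
  have h := Real.sin_sq_add_cos_sq (2 * Real.pi * t)
  linarith

private theorem ph2_cB (t : ℝ) : ph2 (cB t) = 1 / 10 * (1 - (cB t) 1 ^ 2 / 4) := by
  unfold ph2
  rw [cB2]
  ring

private theorem ph3_cB (t : ℝ) : ph3 (cB t) = 1 - (cB t) 0 ^ 2 := by
  unfold ph3
  rw [cB2]
  ring

private theorem ph2_pos (t : ℝ) : 0 < ph2 (cB t) := by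
  rw [ph2_cB]
  have h := cB_rel t
  nlinarith [sq_nonneg ((cB t) 0)]

private theorem ph2_le (t : ℝ) : ph2 (cB t) ≤ 1 / 10 := by
  rw [ph2_cB]
  nlinarith [sq_nonneg ((cB t) 1)]

private theorem c0_cont : Continuous fun t => (cB t) 0 := by
  have : (fun t => (cB t) 0) = fun t => 2 * Real.cos (2 * Real.pi * t) := funext cB0
  rw [this]
  fun_prop

private theorem c1_cont : Continuous fun t => (cB t) 1 := by
  have : (fun t => (cB t) 1) = fun t => Real.sin (2 * Real.pi * t) := funext cB1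
  rw [this]
  fun_prop

private theorem p2_cont : Continuous fun t => ph2 (cB t) := by
  have : (fun t => ph2 (cB t)) = fun t => 1 / 10 * (1 - (cB t) 1 ^ 2 / 4) := funext ph2_cB
  rw [this]
  have := c1_cont
  fun_prop

private theorem p3_cont : Continuous fun t => ph3 (cB t) := by
  have : (fun t => ph3 (cB t)) = fun t => 1 - (cB t) 0 ^ 2 := funext ph3_cB
  rw [this]
  have := c0_cont
  fun_prop

private theorem expm : Complex.exp ((Real.pi * (-1) : ℝ) * Complex.I) = -1 := by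
  rw [mul_neg, mul_one, Complex.ofReal_neg, neg_mul, Complex.exp_neg, Complex.exp_pi_mul_I]
  norm_num

private theorem expp : Complex.exp ((Real.pi * 1 : ℝ) * Complex.I) = -1 := by
  rw [mul_one, Complex.exp_pi_mul_I]

/-- the value of `Ew` as an exponential of a clamped number -/
private theorem Ew_clamp {x f v : ℝ} (hf : 0 < f) (hv : v = x / f) :
    Ew x f = Complex.exp ((Real.pi * max (-1) (min 1 v) : ℝ) * Complex.I) := by
  unfold Ew
  split_ifs with h
  · rcases le_total 0 x with hx | hx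
    · rw [abs_of_nonneg hx] at h
      have h1 : 1 ≤ v := by
        rw [hv, one_le_div hf]
        exact h
      rw [min_eq_left h1, max_eq_right (by norm_num), expp]
    · rw [abs_of_nonpos hx] at h
      have h1 : v ≤ -1 := by
        rw [hv, div_le_iff₀ hf]
        linarith
      rw [min_eq_right (by linarith), max_eq_left h1, expm]
  · push Not at h
    rw [abs_lt] at h
    have h1 : v < 1 := by
      rw [hv, div_lt_one hf]
      exact h.2
    have h2 : -1 < v := by
      rw [hv, lt_div_iff₀ hf]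
      linarith
    rw [min_eq_right h1.le, max_eq_right h2.le, hv]

theorem la2_cont : ContinuousOn la2 (Icc 0 1) := by
  have h0 := c0_cont
  have h2 := p2_cont
  have h3 : Continuous fun t => (cB t) 0 / ph2 (cB t) := h0.div h2 fun t => (ph2_pos t).ne'
  have h4 : Continuous la2 := by
    unfold la2
    exact continuous_const.max (continuous_const.min h3)
  exact h4.continuousOn

private theorem sin_nn {t : ℝ} (h0 : 0 ≤ t) (h1 : t ≤ 1 / 2) : 0 ≤ (cB t) 1 := by
  rw [cB1]
  have := Real.pi_pos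
  exact Real.sin_nonneg_of_nonneg_of_le_pi (by positivity) (by nlinarith)

private theorem sin_np {t : ℝ} (h0 : 1 / 2 ≤ t) (h1 : t ≤ 1) : (cB t) 1 ≤ 0 := by
  rw [cB1]
  have := Real.pi_pos
  have h2 : 0 ≤ Real.sin (2 * Real.pi * t - Real.pi) :=
    Real.sin_nonneg_of_nonneg_of_le_pi (by nlinarith) (by nlinarith)
  rw [Real.sin_sub_pi] at h2
  linarith

private def G3 (t : ℝ) : ℝ :=
  max (-1) (min 1 (max ((cB t) 1 / max (ph3 (cB t)) (1 / 20) - 6) (40 * ((cB t) 0 ^ 2 - 37 / 40))))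

private theorem G3_cont : Continuous G3 := by
  have h0 := c0_cont
  have h1 := c1_cont
  have h3 := p3_cont
  have h4 : Continuous fun t => (cB t) 1 / max (ph3 (cB t)) (1 / 20) :=
    h1.div (h3.max continuous_const) fun t => by
      have : (0 : ℝ) < max (ph3 (cB t)) (1 / 20) := lt_max_of_lt_right (by norm_num)
      exact this.ne'
  unfold G3
  exact continuous_const.max (continuous_const.min ((h4.sub continuous_const).max
    (continuous_const.mul ((h0.pow 2).sub continuous_const))))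

private theorem big_quot {t : ℝ} (h0 : 0 ≤ (cB t) 1) (h1 : 9 / 10 < (cB t) 0 ^ 2)
    (h2 : (cB t) 0 ^ 2 < 1) : 1 ≤ (cB t) 1 / ph3 (cB t) - 6 := by
  have h3 := cB_rel t
  have h4 : 7 / 10 ≤ (cB t) 1 := by nlinarith
  have h5 : 0 < ph3 (cB t) := by
    rw [ph3_cB]
    linarith
  have h6 : ph3 (cB t) < 1 / 10 := by
    rw [ph3_cB]
    linarith
  have h7 : 7 ≤ (cB t) 1 / ph3 (cB t) := by
    rw [le_div_iff₀ h5]
    linarith
  linarith

private theorem clamp_one {v : ℝ} (h : 1 ≤ v) : max (-1) (min 1 v) = 1 := by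
  rw [min_eq_left h]
  norm_num

private theorem clamp_neg {v : ℝ} (h : v ≤ -1) : max (-1) (min 1 v) = -1 := by
  rw [min_eq_right (by linarith), max_eq_left h]

private theorem la3_eq {t : ℝ} (h0 : 0 ≤ t) (h1 : t ≤ 1 / 2) : la3 t = G3 t := by
  have hy := sin_nn h0 h1
  have hrel := cB_rel t
  rcases h1.lt_or_eq with h1 | h1
  · rcases le_or_gt 1 ((cB t) 0 ^ 2) with hx | hx
    · unfold la3 G3
      rw [if_pos (Or.inr hx), clamp_one]
      refine le_trans ?_ (le_max_right _ _)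
      linarith
    · unfold la3 G3
      rw [if_neg (by
        push Not
        exact ⟨h1, hx⟩)]
      rcases le_or_gt ((cB t) 0 ^ 2) (9 / 10) with hx2 | hx2
      · have e : max (ph3 (cB t)) (1 / 20) = ph3 (cB t) := by
          rw [ph3_cB]
          exact max_eq_left (by linarith)
        rw [e]
        have hb : 40 * ((cB t) 0 ^ 2 - 37 / 40) ≤ -1 := by linarith
        rcases le_total (40 * ((cB t) 0 ^ 2 - 37 / 40)) ((cB t) 1 / ph3 (cB t) - 6) with hh | hh
        · rw [max_eq_left hh]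
        · rw [max_eq_right hh, clamp_neg hb, clamp_neg (hh.trans hb)]
      · have hq := big_quot hy hx2 hx
        rw [clamp_one hq]
        rcases le_or_gt ((cB t) 0 ^ 2) (19 / 20) with hx3 | hx3
        · have e : max (ph3 (cB t)) (1 / 20) = ph3 (cB t) := by
            rw [ph3_cB]
            exact max_eq_left (by linarith)
          rw [e, clamp_one (le_trans hq (le_max_left _ _))]
        · rw [clamp_one]
          refine le_trans ?_ (le_max_right _ _)
          linarith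
  · have hx : (cB t) 0 ^ 2 = 4 := by
      rw [cB0, h1, show 2 * Real.pi * (1 / 2) = Real.pi by ring, Real.cos_pi]
      norm_num
    unfold la3 G3
    rw [if_pos (Or.inl h1.ge), clamp_one]
    refine le_trans ?_ (le_max_right _ _)
    rw [hx]
    norm_num

theorem la3_cont : ContinuousOn la3 (Icc 0 1) := by
  have h1 : Continuous fun t : ℝ => if t ≤ 1 / 2 then G3 t else (1 : ℝ) := by
    refine Continuous.if_le G3_cont continuous_const continuous_id continuous_const ?_
    intro t ht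
    have h0 : 0 ≤ t := by
      rw [show t = 1 / 2 from ht]
      norm_num
    rw [← la3_eq h0 (le_of_eq ht)]
    unfold la3
    rw [if_pos (Or.inl (ge_of_eq ht))]
  refine h1.continuousOn.congr ?_
  intro t ht
  show la3 t = if t ≤ 1 / 2 then G3 t else 1
  split_ifs with h
  · exact la3_eq ht.1 h
  · unfold la3
    rw [if_pos (Or.inl (not_le.1 h).le)]

theorem A2_cB (t : ℝ) (ht : t ∈ Icc (0 : ℝ) 1) :
    A2 (cB t) = Complex.exp ((Real.pi * la2 t : ℝ) * Complex.I) := by
  unfold A2 la2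
  exact Ew_clamp (ph2_pos t) rfl

theorem A3_cB (t : ℝ) (ht : t ∈ Icc (0 : ℝ) 1) :
    A3 (cB t) = Complex.exp ((Real.pi * la3 t : ℝ) * Complex.I) := by
  unfold A3 la3
  by_cases h : 1 / 2 ≤ t ∨ 1 ≤ (cB t) 0 ^ 2
  · rw [if_pos h, expp]
    unfold Ew
    rw [if_pos]
    rcases le_or_gt (ph3 (cB t)) 0 with h3 | h3
    · exact h3.trans (abs_nonneg _)
    · rcases h with h | h
      · have hy := sin_np h ht.2
        rw [max_eq_left h3.le]
        have h4 := neg_le_abs ((cB t) 1 - 6 * ph3 (cB t))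
        linarith
      · rw [ph3_cB] at h3
        linarith
  · rw [if_neg h]
    push Not at h
    have h3 : 0 < ph3 (cB t) := by
      rw [ph3_cB]
      linarith [h.2]
    rw [max_eq_left h3.le]
    refine Ew_clamp h3 ?_
    field_simp

theorem la_pieces : ∃ t1 t2 : ℝ, 0 ≤ t1 ∧ t1 ≤ t2 ∧ t2 ≤ 1 / 2 ∧
    (∀ t ∈ Icc 0 t1, la2 t = 1) ∧ (∀ t ∈ Icc t1 t2, la3 t = -1) ∧
    (∀ t ∈ Icc t2 (1 / 2), la2 t = -1) ∧ (∀ t ∈ Icc (1 / 2 : ℝ) 1, la3 t = 1) ∧
    la3 0 = 1 ∧ la2 1 = 1 := by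
  have hpi := Real.pi_pos
  obtain ⟨a, ha⟩ : ∃ a, a = Real.arccos (1 / 4) := ⟨_, rfl⟩
  have hcos : Real.cos a = 1 / 4 := by
    rw [ha]
    exact Real.cos_arccos (by norm_num) (by norm_num)
  have ha0 : 0 < a := by
    rw [ha]
    exact Real.arccos_pos.2 (by norm_num)
  have ha1 : a ≤ Real.pi / 2 := by
    rw [ha]
    exact Real.arccos_le_pi_div_two.2 (by norm_num)
  obtain ⟨t1, ht1⟩ : ∃ t1, t1 = a / (2 * Real.pi) := ⟨_, rfl⟩
  have e1 : 2 * Real.pi * t1 = a := by
    rw [ht1]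
    field_simp
  have h1 : 0 < t1 := by
    rw [ht1]
    positivity
  have h2 : t1 ≤ 1 / 4 := by
    rw [ht1, div_le_iff₀ (by positivity)]
    linarith
  have cosle : ∀ {u v : ℝ}, 0 ≤ u → u ≤ v → v ≤ 1 / 2 →
      (cB v) 0 ≤ (cB u) 0 := by
    intro u v hu huv hv
    rw [cB0, cB0]
    have := Real.cos_le_cos_of_nonneg_of_le_pi (x := 2 * Real.pi * u) (y := 2 * Real.pi * v)
      (by positivity) (by nlinarith) (by nlinarith)
    linarith
  have v1 : (cB t1) 0 = 1 / 2 := by
    rw [cB0, e1, hcos]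
    norm_num
  have v2 : (cB (1 / 2 - t1)) 0 = -(1 / 2) := by
    rw [cB0, show 2 * Real.pi * (1 / 2 - t1) = Real.pi - 2 * Real.pi * t1 by ring, e1,
      Real.cos_pi_sub, hcos]
    norm_num
  refine ⟨t1, 1 / 2 - t1, h1.le, by linarith, by linarith, ?_, ?_, ?_, ?_, ?_, ?_⟩
  · rintro t ⟨a1, a2⟩
    have h3 := cosle a1 a2 (by linarith)
    rw [v1] at h3
    unfold la2
    apply clamp_one
    rw [one_le_div (ph2_pos t)]
    have := ph2_le t
    linarith
  · rintro t ⟨a1, a2⟩
    have h3 := cosle h1.le a1 (by linarith)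
    have h4 := cosle (h1.le.trans a1) a2 (by linarith)
    rw [v1] at h3
    rw [v2] at h4
    have h5 : (cB t) 0 ^ 2 ≤ 1 / 4 := by nlinarith
    have h6 : 3 / 4 ≤ ph3 (cB t) := by
      rw [ph3_cB]
      linarith
    have h7 : (cB t) 1 ≤ 1 := by
      rw [cB1]
      exact Real.sin_le_one _
    unfold la3
    rw [if_neg (by
      push Not
      exact ⟨by linarith, by linarith⟩)]
    apply clamp_neg
    have h8 : (cB t) 1 / ph3 (cB t) ≤ 5 := by
      rw [div_le_iff₀ (by linarith)]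
      linarith
    linarith
  · rintro t ⟨a1, a2⟩
    have h4 := cosle (by linarith) a1 a2
    rw [v2] at h4
    unfold la2
    apply clamp_neg
    rw [div_le_iff₀ (ph2_pos t)]
    have := ph2_le t
    linarith
  · rintro t ⟨a1, a2⟩
    unfold la3
    rw [if_pos (Or.inl a1)]
  · unfold la3
    rw [if_pos]
    right
    rw [cB0, mul_zero, Real.cos_zero]
    norm_num
  · unfold la2
    apply clamp_one
    rw [one_le_div (ph2_pos 1), cB0, mul_one, Real.cos_two_pi]
    have := ph2_le 1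
    linarith

theorem cB_mem (t : ℝ) : cB t ∈ bor 0 := ⟨cB_rel t, cB2 t⟩

theorem cB_closed : cB 0 = cB 1 := by
  unfold cB
  rw [mul_zero, mul_one, Real.cos_zero, Real.sin_zero, Real.cos_two_pi, Real.sin_two_pi]

theorem cB_cont : Continuous cB := by
  unfold cB
  exact continuous_pt (by fun_prop) (by fun_prop) (by fun_prop)

end BOR

end
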