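import Pool.Agent.BOR.Bas

/-!
# BOR / BLF: logarithms of nonvanishing functions on the square, closed lifts

PROOF of `lift_sq`. Let `Q = [0,1]²`, compact and star shaped about `0`. `m = min_Q ‖F‖ > 0`.
`F` is uniformly continuous on `Q`; choose `n ≥ 1` such that `‖F q - F q'‖ < m` for `q, q' ∈ Q`,
`dist q q' ≤ 1/n` (sup distance). For `q ∈ Q` and `k < n` the ratio
`ρ_k q = F (((k+1)/n) • q) / F ((k/n) • q)` satisfies `‖ρ_k q - 1‖ < 1`, so `ρ_k q` is in the slit
plane and `log (ρ_k q)` is continuous on `Q`. Put `L q = log (F 0) + ∑_{k<n} log (ρ_k q)`; the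
product telescopes: `exp (L q) = F 0 * ∏ ρ_k q = F q` (`Finset.prod_range_div`).

PROOF of `closed_lift`. If `u` is continuous on `[0,1]` and `exp (u s) = exp (v s)` with `v`
continuous, then `(u - v)/(2πi)` is a continuous integer valued function, hence constant
(use `IsPreconnected` of `Icc` and discreteness, or the intermediate value theorem for the real
part of `(u - v)/(2πi)`). Apply it to `s ↦ L(s,1)`, `s ↦ L(s,0)`: the difference is a constant `c`.
Apply it to `t ↦ L(1,t)` and the constant function `L(1,0)`: `L(1,t) = L(1,0)` for all `t`, so `c = 0`.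

PROOF of `lift_half`. `log (u * Z t)` is continuous on `[a,b]` (real part positive) and
`exp (L t - log (u * Z t)) = 1/u`; so `L t - log (u * Z t)` is constant on `[a,b]` by the same
integer argument.
-/

noncomputable section

namespace BOR

open Set

private theorem blf_int {a b : ℝ} {g : ℝ → ℝ} (hg : ContinuousOn g (Icc a b)) (h0 : g a = 0)
    (hint : ∀ t ∈ Icc a b, ∃ n : ℤ, g t = n) : ∀ t ∈ Icc a b, g t = 0 := by
  intro t ht
  by_contra hne
  have hsub : Icc a t ⊆ Icc a b := Icc_subset_Icc_right ht.2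
  have hc := hg.mono hsub
  obtain ⟨n, hn⟩ := hint t ht
  have hn0 : n ≠ 0 := by
    rintro rfl
    exact hne (by rw [hn]; simp)
  rcases lt_or_gt_of_ne hn0 with h | h
  · have h1 : (n : ℝ) ≤ -1 := by
      have : n ≤ -1 := by omega
      exact_mod_cast this
    have h2 : (-(1 / 2) : ℝ) ∈ Icc (g t) (g a) := by
      rw [h0, hn]
      constructor <;> linarith
    obtain ⟨x, hx, hgx⟩ := intermediate_value_Icc' ht.1 hc h2
    obtain ⟨k, hk⟩ := hint x (hsub hx)
    rw [hk] at hgx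
    have h3 : ((2 * k : ℤ) : ℝ) = ((-1 : ℤ) : ℝ) := by
      push_cast
      linarith
    have h4 : 2 * k = -1 := by exact_mod_cast h3
    omega
  · have h1 : (1 : ℝ) ≤ n := by
      have : 1 ≤ n := by omega
      exact_mod_cast this
    have h2 : ((1 / 2) : ℝ) ∈ Icc (g a) (g t) := by
      rw [h0, hn]
      constructor <;> linarith
    obtain ⟨x, hx, hgx⟩ := intermediate_value_Icc ht.1 hc h2
    obtain ⟨k, hk⟩ := hint x (hsub hx)
    rw [hk] at hgx
    have h3 : ((2 * k : ℤ) : ℝ) = ((1 : ℤ) : ℝ) := by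
      push_cast
      linarith
    have h4 : 2 * k = 1 := by exact_mod_cast h3
    omega

/-- two lifts of the same function on an interval differ by a constant -/
theorem lift_unique {a b : ℝ} (hab : a ≤ b) {u v : ℝ → ℂ} (hu : ContinuousOn u (Icc a b))
    (hv : ContinuousOn v (Icc a b)) {c : ℂ}
    (h : ∀ t ∈ Icc a b, Complex.exp (u t - v t) = c) :
    ∀ t ∈ Icc a b, u t - v t = u a - v a := by
  have hd : ContinuousOn (fun t => u t - v t) (Icc a b) := hu.sub hv
  have haa : a ∈ Icc a b := ⟨le_rfl, hab⟩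
  have key : ∀ t ∈ Icc a b, ∃ n : ℤ, u t - v t = u a - v a + n * (2 * Real.pi * Complex.I) := by
    intro t ht
    exact Complex.exp_eq_exp_iff_exists_int.1 ((h t ht).trans (h a haa).symm)
  set g : ℝ → ℝ := fun t => ((u t - v t) - (u a - v a)).im / (2 * Real.pi) with hg
  have hgc : ContinuousOn g (Icc a b) := by
    have h1 : ContinuousOn (fun t => (u t - v t) - (u a - v a)) (Icc a b) :=
      hd.sub continuousOn_const
    exact (Complex.continuous_im.comp_continuousOn h1).div_const _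
  have hpi : (2 * Real.pi) ≠ 0 := by positivity
  have hgi : ∀ t ∈ Icc a b, ∀ n : ℤ, u t - v t = u a - v a + n * (2 * Real.pi * Complex.I) →
      g t = n := by
    intro t ht n hn
    have e1 : (u t - v t) - (u a - v a) = ((n * (2 * Real.pi) : ℝ) : ℂ) * Complex.I := by
      rw [hn]
      push_cast
      ring
    simp only [hg]
    rw [e1, Complex.im_ofReal_mul, Complex.I_im, mul_one]
    field_simp
  have hz := blf_int hgc (by simp [hg]) (fun t ht => by
    obtain ⟨n, hn⟩ := key t ht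
    exact ⟨n, hgi t ht n hn⟩)
  intro t ht
  obtain ⟨n, hn⟩ := key t ht
  have h1 := hgi t ht n hn
  rw [hz t ht] at h1
  have h2 : n = 0 := by exact_mod_cast h1.symm
  rw [hn, h2]
  simp

theorem lift_sq (F : ℝ × ℝ → ℂ) (hF : ContinuousOn F (Icc 0 1 ×ˢ Icc 0 1))
    (h0 : ∀ q ∈ Icc (0 : ℝ) 1 ×ˢ Icc (0 : ℝ) 1, F q ≠ 0) :
    ∃ L : ℝ × ℝ → ℂ, ContinuousOn L (Icc 0 1 ×ˢ Icc 0 1) ∧
      ∀ q ∈ Icc (0 : ℝ) 1 ×ˢ Icc (0 : ℝ) 1, Complex.exp (L q) = F q := by
  have hQ : IsCompact (Icc (0 : ℝ) 1 ×ˢ Icc (0 : ℝ) 1) := isCompact_Icc.prod isCompact_Icc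
  have hne : (Icc (0 : ℝ) 1 ×ˢ Icc (0 : ℝ) 1).Nonempty := ⟨(0, 0), by simp⟩
  obtain ⟨q0, hq0, hmin⟩ := hQ.exists_isMinOn hne hF.norm
  have hm : 0 < ‖F q0‖ := norm_pos_iff.2 (h0 q0 hq0)
  have huc := hQ.uniformContinuousOn_of_continuous hF
  rw [Metric.uniformContinuousOn_iff] at huc
  obtain ⟨δ, hδ, hu⟩ := huc ‖F q0‖ hm
  obtain ⟨n, hn⟩ := exists_nat_one_div_lt hδ
  set N : ℕ := n + 1 with hN
  have hN0 : (0 : ℝ) < N := by positivity
  have hNd : 1 / (N : ℝ) < δ := by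
    rw [hN]
    push_cast
    exact hn
  set P : ℕ → ℝ × ℝ → ℝ × ℝ := fun k q => ((k : ℝ) / N) • q with hP
  have hPQ : ∀ k, k ≤ N → ∀ q ∈ Icc (0 : ℝ) 1 ×ˢ Icc (0 : ℝ) 1,
      P k q ∈ Icc (0 : ℝ) 1 ×ˢ Icc (0 : ℝ) 1 := by
    intro k hk q hq
    have hk1 : (k : ℝ) / N ≤ 1 := by
      rw [div_le_one hN0]
      exact_mod_cast hk
    have hk0 : 0 ≤ (k : ℝ) / N := by positivity
    obtain ⟨⟨h1, h2⟩, ⟨h3, h4⟩⟩ := hq
    refine ⟨⟨mul_nonneg hk0 h1, ?_⟩, ⟨mul_nonneg hk0 h3, ?_⟩⟩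
    · exact mul_le_one₀ hk1 h1 h2
    · exact mul_le_one₀ hk1 h3 h4
  have hPd : ∀ k, ∀ q ∈ Icc (0 : ℝ) 1 ×ˢ Icc (0 : ℝ) 1, dist (P (k + 1) q) (P k q) < δ := by
    intro k q hq
    refine lt_of_le_of_lt ?_ hNd
    have e1 : P (k + 1) q - P k q = (1 / (N : ℝ)) • q := by
      simp only [hP]
      rw [← sub_smul]
      congr 1
      push_cast
      ring
    rw [dist_eq_norm, e1, norm_smul, Real.norm_eq_abs, abs_of_pos (by positivity)]
    have e2 : ‖q‖ ≤ 1 := by
      obtain ⟨⟨h1, h2⟩, ⟨h3, h4⟩⟩ := hq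
      rw [Prod.norm_def]
      apply max_le
      · rw [Real.norm_eq_abs, abs_of_nonneg h1]
        exact h2
      · rw [Real.norm_eq_abs, abs_of_nonneg h3]
        exact h4
    calc 1 / (N : ℝ) * ‖q‖ ≤ 1 / (N : ℝ) * 1 :=
          mul_le_mul_of_nonneg_left e2 (by positivity)
      _ = 1 / (N : ℝ) := mul_one _
  have hFP : ∀ k, k ≤ N → ContinuousOn (fun q => F (P k q)) (Icc (0 : ℝ) 1 ×ˢ Icc (0 : ℝ) 1) := by
    intro k hk
    refine hF.comp ?_ (fun q hq => hPQ k hk q hq)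
    exact (continuous_const_smul ((k : ℝ) / N)).continuousOn
  have hslit : ∀ k, k < N → ∀ q ∈ Icc (0 : ℝ) 1 ×ˢ Icc (0 : ℝ) 1,
      F (P (k + 1) q) / F (P k q) ∈ Complex.slitPlane := by
    intro k hk q hq
    have hz := h0 _ (hPQ k hk.le q hq)
    have h1 : ‖F (P (k + 1) q) - F (P k q)‖ < ‖F q0‖ := by
      rw [← dist_eq_norm]
      exact hu _ (hPQ (k + 1) hk q hq) _ (hPQ k hk.le q hq) (hPd k q hq)
    have h2 : ‖F q0‖ ≤ ‖F (P k q)‖ := hmin (hPQ k hk.le q hq)
    have h3 : ‖F (P (k + 1) q) / F (P k q) - 1‖ < 1 := by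
      have e1 : F (P (k + 1) q) / F (P k q) - 1 = (F (P (k + 1) q) - F (P k q)) / F (P k q) := by
        field_simp
      rw [e1, norm_div, div_lt_one (norm_pos_iff.2 hz)]
      exact h1.trans_le h2
    have h4 := Complex.mem_slitPlane_of_norm_lt_one h3
    have e2 : 1 + (F (P (k + 1) q) / F (P k q) - 1) = F (P (k + 1) q) / F (P k q) := by ring
    rwa [e2] at h4
  have h00 : ((0 : ℝ), (0 : ℝ)) ∈ Icc (0 : ℝ) 1 ×ˢ Icc (0 : ℝ) 1 := by simp
  refine ⟨fun q => Complex.log (F (0, 0)) + ∑ k ∈ Finset.range N,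
    Complex.log (F (P (k + 1) q) / F (P k q)), ?_, ?_⟩
  · refine continuousOn_const.add ?_
    refine continuousOn_finsetSum _ fun k hk => ?_
    have hk' := Finset.mem_range.1 hk
    refine ContinuousOn.clog ?_ (hslit k hk')
    exact (hFP (k + 1) hk').div (hFP k hk'.le) fun q hq => h0 _ (hPQ k hk'.le q hq)
  · intro q hq
    have hind : ∀ j, j ≤ N → Complex.exp (Complex.log (F (0, 0)) + ∑ k ∈ Finset.range j,
        Complex.log (F (P (k + 1) q) / F (P k q))) = F (P j q) := by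
      intro j
      induction j with
      | zero =>
        intro _
        have e1 : P 0 q = (0, 0) := by
          simp only [hP, Nat.cast_zero, zero_div, zero_smul]
          rfl
        rw [Finset.sum_range_zero, add_zero, Complex.exp_log (h0 _ h00), e1]
      | succ j ih =>
        intro hj
        have hj' : j < N := hj
        have hz := h0 _ (hPQ j hj'.le q hq)
        have hz' := h0 _ (hPQ (j + 1) hj q hq)
        rw [Finset.sum_range_succ, ← add_assoc, Complex.exp_add, ih hj'.le,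
          Complex.exp_log (div_ne_zero hz' hz)]
        field_simp
    have h1 := hind N le_rfl
    have e2 : P N q = q := by
      simp only [hP]
      rw [div_self hN0.ne', one_smul]
    rw [e2] at h1
    exact h1

theorem closed_lift (F L : ℝ × ℝ → ℂ)
    (hper : ∀ s ∈ Icc (0 : ℝ) 1, F (s, 0) = F (s, 1))
    (hconst : ∀ t ∈ Icc (0 : ℝ) 1, F (1, t) = F (1, 0))
    (hL : ContinuousOn L (Icc 0 1 ×ˢ Icc 0 1))
    (hexp : ∀ q ∈ Icc (0 : ℝ) 1 ×ˢ Icc (0 : ℝ) 1, Complex.exp (L q) = F q) :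
    (∀ s ∈ Icc (0 : ℝ) 1, L (s, 0) = L (s, 1)) ∧ (∀ t ∈ Icc (0 : ℝ) 1, L (1, t) = L (1, 0)) := by
  have m0 : (0 : ℝ) ∈ Icc (0 : ℝ) 1 := ⟨le_rfl, zero_le_one⟩
  have m1 : (1 : ℝ) ∈ Icc (0 : ℝ) 1 := ⟨zero_le_one, le_rfl⟩
  have hrow : ∀ t ∈ Icc (0 : ℝ) 1, ContinuousOn (fun s => L (s, t)) (Icc 0 1) := by
    intro t ht
    exact hL.comp (by fun_prop) fun s hs => ⟨hs, ht⟩
  have hcol : ContinuousOn (fun t => L (1, t)) (Icc 0 1) :=
    hL.comp (by fun_prop) fun t ht => ⟨m1, ht⟩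
  have hB : ∀ t ∈ Icc (0 : ℝ) 1, L (1, t) = L (1, 0) := by
    have h := lift_unique (u := fun t => L (1, t)) (v := fun _ => L (1, 0)) (c := 1)
      zero_le_one hcol continuousOn_const (by
        intro t ht
        rw [Complex.exp_sub, hexp (1, t) ⟨m1, ht⟩, hexp (1, 0) ⟨m1, m0⟩, hconst t ht]
        apply div_self
        rw [← hexp (1, 0) ⟨m1, m0⟩]
        exact Complex.exp_ne_zero _)
    intro t ht
    have h1 := h t ht
    simp only [sub_self] at h1
    exact sub_eq_zero.1 h1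
  refine ⟨?_, hB⟩
  have h := lift_unique (u := fun s => L (s, 1)) (v := fun s => L (s, 0)) (c := 1)
    zero_le_one (hrow 1 m1) (hrow 0 m0) (by
      intro s hs
      rw [Complex.exp_sub, hexp (s, 1) ⟨hs, m1⟩, hexp (s, 0) ⟨hs, m0⟩, hper s hs]
      apply div_self
      rw [← hexp (s, 1) ⟨hs, m1⟩]
      exact Complex.exp_ne_zero _)
  intro s hs
  have h1 : L (s, 1) - L (s, 0) = L (0, 1) - L (0, 0) := h s hs
  have h2 : L (1, 1) - L (1, 0) = L (0, 1) - L (0, 0) := h 1 m1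
  rw [hB 1 m1, sub_self] at h2
  rw [← h2] at h1
  exact (sub_eq_zero.1 h1).symm

theorem lift_half {a b : ℝ} (hab : a ≤ b) {L Z : ℝ → ℂ} (hL : ContinuousOn L (Icc a b))
    (hZ : ContinuousOn Z (Icc a b)) (hexp : ∀ t ∈ Icc a b, Complex.exp (L t) = Z t) {u : ℂ}
    (hu : u ≠ 0) (hre : ∀ t ∈ Icc a b, 0 < (u * Z t).re) :
    L b - L a = Complex.log (u * Z b) - Complex.log (u * Z a) := by
  have hlog : ContinuousOn (fun t => Complex.log (u * Z t)) (Icc a b) := by
    refine ContinuousOn.clog (continuousOn_const.mul hZ) ?_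
    intro t ht
    exact Or.inl (hre t ht)
  have h := lift_unique (u := L) (v := fun t => Complex.log (u * Z t)) (c := u⁻¹) hab hL hlog (by
    intro t ht
    have hZ0 : Z t ≠ 0 := by
      rw [← hexp t ht]
      exact Complex.exp_ne_zero _
    rw [Complex.exp_sub, hexp t ht, Complex.exp_log (mul_ne_zero hu hZ0)]
    field_simp) b ⟨hab, le_rfl⟩
  linear_combination h

end BOR

end
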