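import Pool.Agent.BOR.BEW
import Pool.Agent.BOR.BLF
import Pool.Agent.BOR.BCO

/-!
# BOR / BCC: no null homotopy of the first ellipse

PROOF. Suppose `H` as in the statement. `F2 = A2 ∘ H`, `F3 = A3 ∘ H` are continuous on the square
(`A2_contAt`, `A3_contAt`), of norm one, `F_j (s,0) = F_j (s,1)`, `F_j (1,t) = F_j (1,0)`. Let `L_j`
be lifts (`lift_sq`). Since `‖exp (L_j)‖ = 1`, `L_j` is purely imaginary, `L_j = π i M_j`, `M_j` real
and continuous; `closed_lift`: `M_j(s,0) = M_j(s,1)`, `M_j(1,t) = M_j(1,0)`. By `A2_cB`, `A3_cB` and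
`lift_unique` the function `M_j(0,t) - la_j(t)` is a constant `m_j`, an even integer (because
`exp (π i m_j) = 1`). Put `N_j = M_j - m_j`: `N_j(0,t) = la_j t`, `exp (π i N_j) = F_j` on the square.
By `A_wedge` at each point of the square `F2 = -1` or `F3 = -1`, so `N2` or `N3` is an odd integer, in
particular `(N2,N3) ≠ (0,0)`. So `Z = N2 + i N3` is continuous and nonvanishing on the square,
`Z(s,0) = Z(s,1)`, `Z(1,t) = Z(1,0)`. Let `L` be a lift of `Z` (`lift_sq`); `closed_lift` gives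
`L(0,0) = L(0,1)`. On the other hand by `la_pieces` and `lift_half`, with
`u = 1, i, -1, -i` on the four intervals `[0,t1], [t1,t2], [t2,1/2], [1/2,1]`:
`Z(0,0) = 1 + i`, `Z(0,t1) = 1 - i`, `Z(0,t2) = -1 - i`, `Z(0,1/2) = -1 + i`, `Z(0,1) = 1 + i`, and
`Re (u Z) = 1 > 0` on each interval; each difference is `log (1 - i) - log (1 + i)`, so
`0 = L(0,1) - L(0,0) = 4 (log (1-i) - log (1+i))`, hence `1 - i = 1 + i` after `exp`, contradiction.
-/

noncomputable section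

namespace BOR

open Set

/-- normalised real lift of one of the two angle functions -/
private theorem real_lift (H : ℝ × ℝ → E3) (hH : ContinuousOn H (Icc 0 1 ×ˢ Icc 0 1))
    (A : E3 → ℂ) (B : Set E3) (hA : ∀ p, p ∉ B → ContinuousAt A p) (hA1 : ∀ p, ‖A p‖ = 1)
    (la : ℝ → ℝ) (hla : ContinuousOn la (Icc 0 1))
    (hlaA : ∀ t ∈ Icc (0 : ℝ) 1, A (cB t) = Complex.exp ((Real.pi * la t : ℝ) * Complex.I))
    (hav : ∀ q ∈ Icc (0 : ℝ) 1 ×ˢ Icc (0 : ℝ) 1, H q ∉ B)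
    (h0 : ∀ t ∈ Icc (0 : ℝ) 1, H (0, t) = cB t)
    (hper : ∀ s ∈ Icc (0 : ℝ) 1, H (s, 0) = H (s, 1))
    (hconst : ∀ t ∈ Icc (0 : ℝ) 1, H (1, t) = H (1, 0)) :
    ∃ N : ℝ × ℝ → ℝ, ContinuousOn N (Icc 0 1 ×ˢ Icc 0 1) ∧
      (∀ q ∈ Icc (0 : ℝ) 1 ×ˢ Icc (0 : ℝ) 1,
        A (H q) = Complex.exp ((Real.pi * N q : ℝ) * Complex.I)) ∧
      (∀ t ∈ Icc (0 : ℝ) 1, N (0, t) = la t) ∧
      (∀ s ∈ Icc (0 : ℝ) 1, N (s, 0) = N (s, 1)) ∧
      (∀ t ∈ Icc (0 : ℝ) 1, N (1, t) = N (1, 0)) := by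
  have m0 : (0 : ℝ) ∈ Icc (0 : ℝ) 1 := ⟨le_rfl, zero_le_one⟩
  have hpi : (Real.pi : ℂ) ≠ 0 := by exact_mod_cast Real.pi_ne_zero
  have hF : ContinuousOn (fun q => A (H q)) (Icc 0 1 ×ˢ Icc 0 1) := by
    intro q hq
    exact (hA _ (hav q hq)).comp_continuousWithinAt (hH q hq)
  have hF0 : ∀ q ∈ Icc (0 : ℝ) 1 ×ˢ Icc (0 : ℝ) 1, A (H q) ≠ 0 := by
    intro q _ h
    have := hA1 (H q)
    rw [h, norm_zero] at this
    exact zero_ne_one this
  obtain ⟨L, hL, hexp⟩ := lift_sq _ hF hF0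
  obtain ⟨hLp, hLc⟩ := closed_lift (fun q => A (H q)) L (fun s hs => by rw [hper s hs])
    (fun t ht => by rw [hconst t ht]) hL hexp
  have hre : ∀ q ∈ Icc (0 : ℝ) 1 ×ˢ Icc (0 : ℝ) 1,
      L q = ((Real.pi * ((L q).im / Real.pi) : ℝ) : ℂ) * Complex.I := by
    intro q hq
    have h1 : ‖Complex.exp (L q)‖ = 1 := by
      rw [hexp q hq]
      exact hA1 _
    rw [Complex.norm_exp, Real.exp_eq_one_iff] at h1
    have h2 : Real.pi * ((L q).im / Real.pi) = (L q).im := by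
      field_simp
    rw [h2]
    apply Complex.ext
    · rw [h1]
      simp
    · simp
  -- the constant
  have h1 := lift_unique (u := fun t => L (0, t))
    (v := fun t => ((Real.pi * la t : ℝ) : ℂ) * Complex.I) (c := 1) zero_le_one
    (hL.comp (by fun_prop) fun t ht => ⟨m0, ht⟩)
    ((Complex.continuous_ofReal.comp_continuousOn (continuousOn_const.mul hla)).mul
      continuousOn_const) (by
      intro t ht
      rw [Complex.exp_sub, hexp (0, t) ⟨m0, ht⟩, h0 t ht, hlaA t ht, div_self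
        (Complex.exp_ne_zero _)])
  obtain ⟨m, hm⟩ : ∃ m : ℝ, m = (L (0, 0)).im / Real.pi - la 0 := ⟨_, rfl⟩
  have h2 : Complex.exp ((Real.pi * m : ℝ) * Complex.I) = 1 := by
    have e : ((Real.pi * m : ℝ) : ℂ) * Complex.I =
        L (0, 0) - ((Real.pi * la 0 : ℝ) : ℂ) * Complex.I := by
      rw [hre (0, 0) ⟨m0, m0⟩, hm]
      push_cast
      ring
    rw [e, Complex.exp_sub, hexp (0, 0) ⟨m0, m0⟩, h0 0 m0, hlaA 0 m0, div_self
      (Complex.exp_ne_zero _)]
  refine ⟨fun q => (L q).im / Real.pi - m, ?_, ?_, ?_, ?_, ?_⟩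
  · exact ((Complex.continuous_im.comp_continuousOn hL).div_const _).sub continuousOn_const
  · intro q hq
    have e : ((Real.pi * ((L q).im / Real.pi - m) : ℝ) : ℂ) * Complex.I =
        L q - ((Real.pi * m : ℝ) : ℂ) * Complex.I := by
      conv_rhs => rw [hre q hq]
      push_cast
      ring
    rw [e, Complex.exp_sub, h2, div_one, hexp q hq]
  · intro t ht
    have h3 : L (0, t) - ((Real.pi * la t : ℝ) : ℂ) * Complex.I =
      L (0, 0) - ((Real.pi * la 0 : ℝ) : ℂ) * Complex.I := h1 t ht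
    have h4 := congrArg Complex.im h3
    simp only [Complex.sub_im, Complex.im_ofReal_mul, Complex.I_im, mul_one] at h4
    show (L (0, t)).im / Real.pi - m = la t
    have h5 : (L (0, t)).im = (L (0, 0)).im - Real.pi * la 0 + Real.pi * la t := by linarith
    rw [h5, hm]
    have := Real.pi_ne_zero
    field_simp
    ring
  · intro s hs
    show (L (s, 0)).im / Real.pi - m = (L (s, 1)).im / Real.pi - m
    rw [hLp s hs]
  · intro t ht
    show (L (1, t)).im / Real.pi - m = (L (1, 0)).im / Real.pi - m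
    rw [hLc t ht]

theorem no_homotopy (H : ℝ × ℝ → E3) (hH : ContinuousOn H (Icc 0 1 ×ˢ Icc 0 1))
    (hav : ∀ q ∈ Icc (0 : ℝ) 1 ×ˢ Icc (0 : ℝ) 1, H q ∉ bor 1 ∧ H q ∉ bor 2)
    (h0 : ∀ t ∈ Icc (0 : ℝ) 1, H (0, t) = cB t)
    (hper : ∀ s ∈ Icc (0 : ℝ) 1, H (s, 0) = H (s, 1))
    (hconst : ∀ t ∈ Icc (0 : ℝ) 1, H (1, t) = H (1, 0)) : False := by
  have m0 : (0 : ℝ) ∈ Icc (0 : ℝ) 1 := ⟨le_rfl, zero_le_one⟩
  have m1 : (1 : ℝ) ∈ Icc (0 : ℝ) 1 := ⟨zero_le_one, le_rfl⟩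
  obtain ⟨N2, c2, e2, a2, b2, d2⟩ := real_lift H hH A2 (bor 1) (fun p => A2_contAt) norm_A2 la2
    la2_cont A2_cB (fun q hq => (hav q hq).1) h0 hper hconst
  obtain ⟨N3, c3, e3, a3, b3, d3⟩ := real_lift H hH A3 (bor 2) (fun p => A3_contAt) norm_A3 la3
    la3_cont A3_cB (fun q hq => (hav q hq).2) h0 hper hconst
  obtain ⟨Z, hZ⟩ : ∃ Z : ℝ × ℝ → ℂ, Z = fun q => (N2 q : ℂ) + (N3 q : ℂ) * Complex.I := ⟨_, rfl⟩
  have hZc : ContinuousOn Z (Icc 0 1 ×ˢ Icc 0 1) := by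
    rw [hZ]
    exact (Complex.continuous_ofReal.comp_continuousOn c2).add
      ((Complex.continuous_ofReal.comp_continuousOn c3).mul continuousOn_const)
  have hZ0 : ∀ q ∈ Icc (0 : ℝ) 1 ×ˢ Icc (0 : ℝ) 1, Z q ≠ 0 := by
    intro q hq h
    rw [hZ] at h
    have h2 : N2 q = 0 := by
      have := congrArg Complex.re h
      simpa using this
    have h3 : N3 q = 0 := by
      have := congrArg Complex.im h
      simpa using this
    have h4 := e2 q hq
    have h5 := e3 q hq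
    rw [h2, mul_zero, Complex.ofReal_zero, zero_mul, Complex.exp_zero] at h4
    rw [h3, mul_zero, Complex.ofReal_zero, zero_mul, Complex.exp_zero] at h5
    have h6 : (1 : ℂ) ≠ -1 := by norm_num
    rcases A_wedge (H q) with h7 | h7
    · exact h6 (h4.symm.trans h7)
    · exact h6 (h5.symm.trans h7)
  obtain ⟨L, hL, hexp⟩ := lift_sq Z hZc hZ0
  obtain ⟨hLp, _⟩ := closed_lift Z L (fun s hs => by rw [hZ]; simp only [b2 s hs, b3 s hs])
    (fun t ht => by rw [hZ]; simp only [d2 t ht, d3 t ht]) hL hexp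
  have hclosed := hLp 0 m0
  have z0 : ∀ t ∈ Icc (0 : ℝ) 1, Z (0, t) = (la2 t : ℂ) + (la3 t : ℂ) * Complex.I := by
    intro t ht
    rw [hZ]
    simp only [a2 t ht, a3 t ht]
  obtain ⟨t1, t2, g0, g1, g2, p1, p2, p3, p4, p5, p6⟩ := la_pieces
  have hl : ∀ {a b : ℝ}, 0 ≤ a → b ≤ 1 → ContinuousOn (fun t => L (0, t)) (Icc a b) := by
    intro a b ha hb
    exact hL.comp (by fun_prop) fun t ht => ⟨m0, ha.trans ht.1, ht.2.trans hb⟩
  have hz : ∀ {a b : ℝ}, 0 ≤ a → b ≤ 1 → ContinuousOn (fun t => Z (0, t)) (Icc a b) := by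
    intro a b ha hb
    exact hZc.comp (by fun_prop) fun t ht => ⟨m0, ha.trans ht.1, ht.2.trans hb⟩
  have hx : ∀ {a b : ℝ}, 0 ≤ a → b ≤ 1 → ∀ t ∈ Icc a b, Complex.exp (L (0, t)) = Z (0, t) := by
    intro a b ha hb t ht
    exact hexp (0, t) ⟨m0, ha.trans ht.1, ht.2.trans hb⟩
  have zz0 : Z (0, 0) = 1 + Complex.I := by
    rw [z0 0 m0, p1 0 ⟨le_rfl, g0⟩, p5]
    simp
  have zz1 : Z (0, t1) = 1 - Complex.I := by
    rw [z0 t1 ⟨g0, by linarith⟩, p1 t1 ⟨g0, le_rfl⟩, p2 t1 ⟨le_rfl, g1⟩]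
    push_cast
    ring
  have zz2 : Z (0, t2) = -1 - Complex.I := by
    rw [z0 t2 ⟨by linarith, by linarith⟩, p3 t2 ⟨le_rfl, g2⟩, p2 t2 ⟨g1, le_rfl⟩]
    push_cast
    ring
  have zz3 : Z (0, 1 / 2) = -1 + Complex.I := by
    rw [z0 (1 / 2) ⟨by norm_num, by norm_num⟩, p3 (1 / 2) ⟨g2, le_rfl⟩,
      p4 (1 / 2) ⟨le_rfl, by norm_num⟩]
    push_cast
    ring
  have zz4 : Z (0, 1) = 1 + Complex.I := by
    rw [z0 1 m1, p4 1 ⟨by norm_num, le_rfl⟩, p6]
    simp
  have q1 := lift_half (u := 1) g0 (hl le_rfl (by linarith)) (hz le_rfl (by linarith))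
    (hx le_rfl (by linarith)) one_ne_zero (by
      intro t ht
      rw [z0 t ⟨ht.1, by linarith [ht.2]⟩, p1 t ht]
      simp)
  have q2 := lift_half (u := Complex.I) g1 (hl g0 (by linarith)) (hz g0 (by linarith))
    (hx g0 (by linarith)) Complex.I_ne_zero (by
      intro t ht
      rw [z0 t ⟨by linarith [ht.1], by linarith [ht.2]⟩, p2 t ht]
      simp)
  have q3 := lift_half (u := -1) g2 (hl (by linarith) (by norm_num))
    (hz (by linarith) (by norm_num)) (hx (by linarith) (by norm_num)) (by norm_num) (by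
      intro t ht
      rw [z0 t ⟨by linarith [ht.1], by linarith [ht.2]⟩, p3 t ht]
      simp)
  have q4 := lift_half (u := -Complex.I) (a := 1 / 2) (b := 1) (by norm_num)
    (hl (by norm_num) le_rfl) (hz (by norm_num) le_rfl) (hx (by norm_num) le_rfl)
    (neg_ne_zero.2 Complex.I_ne_zero) (by
      intro t ht
      rw [z0 t ⟨by linarith [ht.1], ht.2⟩, p4 t ht]
      simp)
  rw [zz0, zz1] at q1
  rw [zz1, zz2] at q2
  rw [zz2, zz3] at q3
  rw [zz3, zz4] at q4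
  have r1 : (1 : ℂ) * (1 - Complex.I) = 1 - Complex.I := one_mul _
  have r2 : (1 : ℂ) * (1 + Complex.I) = 1 + Complex.I := one_mul _
  have r3 : Complex.I * (-1 - Complex.I) = 1 - Complex.I := by
    linear_combination -Complex.I_mul_I
  have r4 : Complex.I * (1 - Complex.I) = 1 + Complex.I := by
    linear_combination -Complex.I_mul_I
  have r5 : (-1 : ℂ) * (-1 + Complex.I) = 1 - Complex.I := by ring
  have r6 : (-1 : ℂ) * (-1 - Complex.I) = 1 + Complex.I := by ring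
  have r7 : -Complex.I * (1 + Complex.I) = 1 - Complex.I := by
    linear_combination -Complex.I_mul_I
  have r8 : -Complex.I * (-1 + Complex.I) = 1 + Complex.I := by
    linear_combination -Complex.I_mul_I
  rw [r1, r2] at q1
  rw [r3, r4] at q2
  rw [r5, r6] at q3
  rw [r7, r8] at q4
  have s1 : Complex.log (1 - Complex.I) = Complex.log (1 + Complex.I) := by
    linear_combination (-(1 : ℂ) / 4) * (q1 + q2 + q3 + q4 + hclosed)
  have n1 : (1 : ℂ) - Complex.I ≠ 0 := by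
    intro h
    have := congrArg Complex.re h
    simp at this
  have n2 : (1 : ℂ) + Complex.I ≠ 0 := by
    intro h
    have := congrArg Complex.re h
    simp at this
  have s2 : (1 : ℂ) - Complex.I = 1 + Complex.I := by
    rw [← Complex.exp_log n1, s1, Complex.exp_log n2]
  have s3 := congrArg Complex.im s2
  simp at s3
  norm_num at s3

end BOR

end
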