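import Pool.Agent.BOR.Bas

/-!
# BOR / BDef: angle functions for the Borromean rings (definitions only)

`A2` is a circle valued function on the complement of `bor 1`, equal to `-1` outside of a thin
neighbourhood of the disc bounded by `bor 1`; `A3` is the same for `bor 2` with a disc which is bent
in the direction of the positive second axis, so that the two neighbourhoods are disjoint.
-/

noncomputable section

namespace BOR

open Set

def Ew (x f : ℝ) : ℂ :=
  if f ≤ |x| then -1 else Complex.exp ((Real.pi * (x / f) : ℝ) * Complex.I)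

def ph2 (p : E3) : ℝ := 1 / 10 * (1 - p 1 ^ 2 / 4 - p 2 ^ 2)
def ph3 (p : E3) : ℝ := 1 - p 0 ^ 2 - p 2 ^ 2 / 4
def A2 (p : E3) : ℂ := Ew (p 0) (ph2 p)
def A3 (p : E3) : ℂ := Ew (p 1 - 6 * max (ph3 p) 0) (ph3 p)

/-- parametrisation of `bor 0` -/
def cB (t : ℝ) : E3 := pt (2 * Real.cos (2 * Real.pi * t)) (Real.sin (2 * Real.pi * t)) 0

/-- lift of `A2 (cB t)` divided by `π i` -/
def la2 (t : ℝ) : ℝ := max (-1) (min 1 ((cB t) 0 / ph2 (cB t)))

/-- lift of `A3 (cB t)` divided by `π i` -/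
def la3 (t : ℝ) : ℝ :=
  if 1 / 2 ≤ t ∨ 1 ≤ (cB t) 0 ^ 2 then 1 else max (-1) (min 1 ((cB t) 1 / ph3 (cB t) - 6))

end BOR

end
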