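import Pool.Agent.BOR.BDef

/-!
# BOR / BEW: the angle functions are continuous off the components and have disjoint supports

PROOF. `Ew` at `(x,f) ≠ (0,0)`. Three cases. (a) `f < |x|`: constant `-1` nearby. (b) `|x| < f`: `f > 0`
and nearby `Ew = exp (π i x / f)`, continuous. (c) `f = |x| ≠ 0` (if `|x| = f = 0` then `x = 0`,
excluded), so `f > 0`: the function `E' (x,f) = exp (π i x/f)` is continuous at the point and equals
`exp (± π i) = -1` there; `Ew` takes only the values `-1` and `E'`, so it tends to `-1`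
(`Filter.Tendsto.if` or an epsilon argument: `‖Ew q + 1‖ ≤ ‖E' q + 1‖`).

`A2`: `Ew` composed with `p ↦ (p 0, ph2 p)`, and `p 0 = 0 ∧ ph2 p = 0` iff `p ∈ bor 1`.
`A3`: composed with `p ↦ (p 1 - 6 max (ph3 p) 0, ph3 p)`; if both vanish then `ph3 p = 0`, `p 1 = 0`,
so `p ∈ bor 2`.

Wedge: if `A2 p ≠ -1` then `|p 0| < ph2 p`, so `p 1 ^ 2 < 4`, `p 2 ^ 2 < 1`, `|p 0| ≤ 1/10`, hence
`ph3 p ≥ 1 - 1/100 - 1/4 = 0.74`, `ph3 p ≤ 1`, and
`p 1 - 6 ph3 p ≤ 2 - 4.44 < -1 ≤ - ph3 p`, so `ph3 p ≤ |p 1 - 6 max (ph3 p) 0|` and `A3 p = -1`.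

Norms: `‖exp (i θ)‖ = 1`.
-/

noncomputable section

namespace BOR

open Set

theorem Ew_contAt {x f : ℝ} (h : ¬ (x = 0 ∧ f = 0)) :
    ContinuousAt (fun q : ℝ × ℝ => Ew q.1 q.2) (x, f) := by
  have hE : f ≠ 0 → ContinuousAt
      (fun q : ℝ × ℝ => Complex.exp ((Real.pi * (q.1 / q.2) : ℝ) * Complex.I)) (x, f) := by
    intro hf
    have h1 : ContinuousAt (fun q : ℝ × ℝ => q.1 / q.2) (x, f) :=
      continuousAt_fst.div continuousAt_snd hf
    have h2 : ContinuousAt (fun q : ℝ × ℝ => Real.pi * (q.1 / q.2)) (x, f) :=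
      continuousAt_const.mul h1
    have h3 : ContinuousAt (fun q : ℝ × ℝ => ((Real.pi * (q.1 / q.2) : ℝ) : ℂ)) (x, f) :=
      Complex.continuous_ofReal.continuousAt.comp h2
    exact Complex.continuous_exp.continuousAt.comp (h3.mul continuousAt_const)
  rcases lt_trichotomy f |x| with h1 | h1 | h1
  · have h2 : ∀ᶠ q : ℝ × ℝ in nhds (x, f), q.2 < |q.1| :=
      (isOpen_lt continuous_snd (continuous_abs.comp continuous_fst)).mem_nhds h1
    refine (continuousAt_const (y := (-1 : ℂ))).congr ?_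
    filter_upwards [h2] with q hq
    unfold Ew
    rw [if_pos hq.le]
  · have hf : f ≠ 0 := by
      rintro rfl
      exact h ⟨abs_eq_zero.1 h1.symm, rfl⟩
    have hf0 : 0 < f := lt_of_le_of_ne (h1 ▸ abs_nonneg x) hf.symm
    have hv : Complex.exp ((Real.pi * (x / f) : ℝ) * Complex.I) = -1 := by
      rcases le_total 0 x with hx | hx
      · rw [abs_of_nonneg hx] at h1
        rw [← h1, div_self hf, mul_one, Complex.exp_pi_mul_I]
      · rw [abs_of_nonpos hx] at h1
        have : x / f = -1 := by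
          rw [div_eq_iff hf]
          linarith
        rw [this, mul_neg, mul_one, Complex.ofReal_neg, neg_mul, Complex.exp_neg,
          Complex.exp_pi_mul_I]
        norm_num
    have h3 : Ew x f = -1 := by
      unfold Ew
      rw [if_pos h1.le]
    show Filter.Tendsto (fun q : ℝ × ℝ => Ew q.1 q.2) (nhds (x, f)) (nhds (Ew x f))
    rw [h3]
    have h4 : Filter.Tendsto (fun q : ℝ × ℝ =>
        Complex.exp ((Real.pi * (q.1 / q.2) : ℝ) * Complex.I)) (nhds (x, f)) (nhds (-1)) := by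
      have h5 := hE hf
      rw [← hv]
      exact h5
    rw [tendsto_iff_dist_tendsto_zero] at h4 ⊢
    refine squeeze_zero (fun _ => dist_nonneg) (fun q => ?_) h4
    unfold Ew
    split_ifs
    · rw [dist_self]
      exact dist_nonneg
    · exact le_rfl
  · have h2 : ∀ᶠ q : ℝ × ℝ in nhds (x, f), |q.1| < q.2 :=
      (isOpen_lt (continuous_abs.comp continuous_fst) continuous_snd).mem_nhds h1
    have hf : f ≠ 0 := ((abs_nonneg x).trans_lt h1).ne'
    refine (hE hf).congr ?_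
    filter_upwards [h2] with q hq
    unfold Ew
    rw [if_neg (not_le.2 hq)]

theorem A2_contAt {p : E3} (h : p ∉ bor 1) : ContinuousAt A2 p := by
  have h1 : ¬ (p 0 = 0 ∧ ph2 p = 0) := by
    rintro ⟨h2, h3⟩
    refine h ⟨?_, h2⟩
    unfold ph2 at h3
    linarith
  have h2 : ContinuousAt (fun p : E3 => (p 0, ph2 p)) p := by
    unfold ph2
    fun_prop
  exact ContinuousAt.comp (f := fun p : E3 => (p 0, ph2 p))
    (g := fun q : ℝ × ℝ => Ew q.1 q.2) (Ew_contAt h1) h2

theorem A3_contAt {p : E3} (h : p ∉ bor 2) : ContinuousAt A3 p := by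
  have h1 : ¬ (p 1 - 6 * max (ph3 p) 0 = 0 ∧ ph3 p = 0) := by
    rintro ⟨h2, h3⟩
    rw [h3, max_self, mul_zero, sub_zero] at h2
    refine h ⟨?_, h2⟩
    unfold ph3 at h3
    linarith
  have h2 : ContinuousAt (fun p : E3 => (p 1 - 6 * max (ph3 p) 0, ph3 p)) p := by
    unfold ph3
    fun_prop
  exact ContinuousAt.comp (f := fun p : E3 => (p 1 - 6 * max (ph3 p) 0, ph3 p))
    (g := fun q : ℝ × ℝ => Ew q.1 q.2) (Ew_contAt h1) h2

private theorem norm_Ew (x f : ℝ) : ‖Ew x f‖ = 1 := by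
  unfold Ew
  split_ifs
  · rw [norm_neg, norm_one]
  · exact Complex.norm_exp_ofReal_mul_I _

theorem norm_A2 (p : E3) : ‖A2 p‖ = 1 := norm_Ew _ _

theorem norm_A3 (p : E3) : ‖A3 p‖ = 1 := norm_Ew _ _

theorem A_wedge (p : E3) : A2 p = -1 ∨ A3 p = -1 := by
  by_cases h : ph2 p ≤ |p 0|
  · left
    unfold A2 Ew
    rw [if_pos h]
  · right
    push Not at h
    unfold ph2 at h
    have h0 := abs_nonneg (p 0)
    have h1 : p 1 ^ 2 < 4 := by nlinarith [sq_nonneg (p 2)]
    have h2 : p 2 ^ 2 < 1 := by nlinarith [sq_nonneg (p 1)]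
    have h3 : |p 0| < 1 / 10 := by nlinarith [sq_nonneg (p 1), sq_nonneg (p 2)]
    have h4 : p 0 ^ 2 < 1 / 100 := by
      rw [← sq_abs]
      nlinarith
    have h5 : p 1 < 2 := by nlinarith
    have h6 : (74 : ℝ) / 100 ≤ ph3 p := by
      unfold ph3
      linarith
    unfold A3 Ew
    rw [if_pos]
    rw [max_eq_left (by linarith)]
    have h7 := neg_le_abs (p 1 - 6 * ph3 p)
    linarith

end BOR

end
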