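import Pool.Agent.BOR.BCC

/-!
# BOR / BFN: no component of the Borromean rings is contractible off the other two

PROOF. `not_null_0`: from a homotopy `G` as in `NullIn (bor 0) (bor 1 ∪ bor 2)` put
`H (s,t) = G s (cB t)`; `cB t ∈ bor 0`; apply `no_homotopy`.
`NullIn.image`: for a homeomorphism `φ` and the homotopy `G` use `(t, x) ↦ φ (G t (φ.symm x))`.
`NullIn.mono`: same homotopy.
`bor_not_null`: let `R` be the homeomorphism `(x,y,z) ↦ (z,x,y)`; then `R '' bor 0 = bor 1`,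
`R '' bor 1 = bor 2`, `R '' bor 2 = bor 0` (for `p = (x,y,z) ∈ bor 0`, `R p = (z,x,y)` has second
coordinate `x`, third coordinate `y` and first coordinate `z = 0`). So
`NullIn (bor 1) (bor 2 ∪ bor 0)` would give by `R⁻¹` that `NullIn (bor 0) (bor 1 ∪ bor 2)`, etc.
`borromean_not_null`: apply `NullIn.image φ`; `φ '' L i = bor (π i)` and the other two go to the
other two components because `π` is injective.
-/

noncomputable section

namespace BOR

open Set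

private theorem bfn_cB_mem (t : ℝ) : cB t ∈ bor 0 := by
  show (cB t) 0 ^ 2 / 4 + (cB t) 1 ^ 2 = 1 ∧ (cB t) 2 = 0
  unfold cB
  rw [pt_0, pt_1, pt_2]
  refine ⟨?_, rfl⟩
  have h := Real.sin_sq_add_cos_sq (2 * Real.pi * t)
  linarith

private theorem bfn_cB_cont : Continuous cB := by
  unfold cB
  exact continuous_pt (by fun_prop) (by fun_prop) (by fun_prop)

private theorem bfn_cB_per : cB 0 = cB 1 := by
  unfold cB
  rw [mul_zero, mul_one, Real.cos_zero, Real.sin_zero, Real.cos_two_pi, Real.sin_two_pi]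

theorem not_null_0 : ¬ NullIn (bor 0) (bor 1 ∪ bor 2) := by
  rintro ⟨G, hG, h0, ⟨p, h1⟩, hav⟩
  refine no_homotopy (fun q => G q.1 (cB q.2)) ?_ ?_ ?_ ?_ ?_
  · refine hG.comp (f := fun q : ℝ × ℝ => (q.1, cB q.2)) ?_ ?_
    · exact (continuous_fst.prodMk (bfn_cB_cont.comp continuous_snd)).continuousOn
    · rintro ⟨s, t⟩ ⟨hs, _⟩
      exact ⟨hs, bfn_cB_mem t⟩
  · rintro ⟨s, t⟩ ⟨hs, _⟩
    have h := hav s hs (cB t) (bfn_cB_mem t)
    exact ⟨fun h' => h (Or.inl h'), fun h' => h (Or.inr h')⟩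
  · intro t _
    exact h0 _ (bfn_cB_mem t)
  · intro s _
    show G s (cB 0) = G s (cB 1)
    rw [bfn_cB_per]
  · intro t _
    show G 1 (cB t) = G 1 (cB 0)
    rw [h1 _ (bfn_cB_mem t), h1 _ (bfn_cB_mem 0)]

theorem NullIn.image {A B : Set E3} (h : NullIn A B) (φ : E3 ≃ₜ E3) :
    NullIn (φ '' A) (φ '' B) := by
  obtain ⟨G, hG, h0, ⟨p, h1⟩, hav⟩ := h
  refine ⟨fun t x => φ (G t (φ.symm x)), ?_, ?_, ⟨φ p, ?_⟩, ?_⟩
  · refine φ.continuous.comp_continuousOn (hG.comp (f := fun q : ℝ × E3 => (q.1, φ.symm q.2)) ?_ ?_)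
    · exact (continuous_fst.prodMk (φ.symm.continuous.comp continuous_snd)).continuousOn
    · rintro ⟨t, x⟩ ⟨ht, hx⟩
      obtain ⟨a, ha, rfl⟩ : x ∈ φ '' A := hx
      refine ⟨ht, ?_⟩
      show φ.symm (φ a) ∈ A
      rwa [φ.symm_apply_apply]
  · rintro _ ⟨a, ha, rfl⟩
    show φ (G 0 (φ.symm (φ a))) = φ a
    rw [φ.symm_apply_apply, h0 a ha]
  · rintro _ ⟨a, ha, rfl⟩
    show φ (G 1 (φ.symm (φ a))) = φ p
    rw [φ.symm_apply_apply, h1 a ha]
  · rintro t ht _ ⟨a, ha, rfl⟩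
    show φ (G t (φ.symm (φ a))) ∉ φ '' B
    rw [φ.symm_apply_apply]
    rintro ⟨b, hb, hb2⟩
    exact hav t ht a ha (φ.injective hb2 ▸ hb)

theorem NullIn.mono {A B B' : Set E3} (h : NullIn A B) (hB : B' ⊆ B) : NullIn A B' := by
  obtain ⟨G, hG, h0, h1, hav⟩ := h
  exact ⟨G, hG, h0, h1, fun t ht x hx h' => hav t ht x hx (hB h')⟩

private def RU : E3 ≃ₜ E3 := Uzp.toHomeomorph

private theorem RU_app (p : E3) : RU p = pt (p 1) (p 2) (p 0) := rfl

private theorem RU_pt (p : E3) : RU (pt (p 2) (p 0) (p 1)) = p := by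
  rw [RU_app, pt_0, pt_1, pt_2, pt_eta]

private theorem RU_10 : RU '' bor 1 = bor 0 := by
  ext p
  constructor
  · rintro ⟨q, ⟨h1, h2⟩, rfl⟩
    refine ⟨?_, ?_⟩
    · rw [RU_app, pt_0, pt_1]
      exact h1
    · rw [RU_app, pt_2]
      exact h2
  · rintro ⟨h1, h2⟩
    refine ⟨_, ⟨?_, ?_⟩, RU_pt p⟩
    · rw [pt_1, pt_2]
      exact h1
    · rw [pt_0]
      exact h2

private theorem RU_21 : RU '' bor 2 = bor 1 := by
  ext p
  constructor
  · rintro ⟨q, ⟨h1, h2⟩, rfl⟩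
    refine ⟨?_, ?_⟩
    · rw [RU_app, pt_1, pt_2]
      exact h1
    · rw [RU_app, pt_0]
      exact h2
  · rintro ⟨h1, h2⟩
    refine ⟨_, ⟨?_, ?_⟩, RU_pt p⟩
    · rw [pt_2, pt_0]
      exact h1
    · rw [pt_1]
      exact h2

private theorem RU_02 : RU '' bor 0 = bor 2 := by
  ext p
  constructor
  · rintro ⟨q, ⟨h1, h2⟩, rfl⟩
    refine ⟨?_, ?_⟩
    · rw [RU_app, pt_2, pt_0]
      exact h1
    · rw [RU_app, pt_1]
      exact h2
  · rintro ⟨h1, h2⟩
    refine ⟨_, ⟨?_, ?_⟩, RU_pt p⟩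
    · rw [pt_0, pt_1]
      exact h1
    · rw [pt_2]
      exact h2

private theorem not_null_1 : ¬ NullIn (bor 1) (bor 2 ∪ bor 0) := by
  intro h
  have h2 := h.image RU
  rw [image_union, RU_10, RU_21, RU_02] at h2
  exact not_null_0 h2

private theorem not_null_2 : ¬ NullIn (bor 2) (bor 0 ∪ bor 1) := by
  intro h
  have h2 := h.image RU
  rw [image_union, RU_10, RU_21, RU_02] at h2
  exact not_null_1 h2

theorem bor_not_null (i : Fin 3) : ¬ NullIn (bor i) {p | ∃ j, j ≠ i ∧ p ∈ bor j} := by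
  intro h
  have hi : i = 0 ∨ i = 1 ∨ i = 2 := by
    fin_cases i
    · exact Or.inl rfl
    · exact Or.inr (Or.inl rfl)
    · exact Or.inr (Or.inr rfl)
  rcases hi with rfl | rfl | rfl
  · refine not_null_0 (h.mono ?_)
    rintro p (hp | hp)
    · exact ⟨1, by decide, hp⟩
    · exact ⟨2, by decide, hp⟩
  · refine not_null_1 (h.mono ?_)
    rintro p (hp | hp)
    · exact ⟨2, by decide, hp⟩
    · exact ⟨0, by decide, hp⟩
  · refine not_null_2 (h.mono ?_)
    rintro p (hp | hp)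
    · exact ⟨0, by decide, hp⟩
    · exact ⟨1, by decide, hp⟩

theorem borromean_not_null {L : Fin 3 → Set E3} (h : IsBorromean L) (i : Fin 3) :
    ¬ NullIn (L i) {p | ∃ j, j ≠ i ∧ p ∈ L j} := by
  obtain ⟨φ, π, hφ⟩ := h
  intro hN
  have h2 := hN.image φ
  rw [hφ i] at h2
  refine bor_not_null (π i) (h2.mono ?_)
  rintro p ⟨j, hj, hp⟩
  have h3 : p ∈ φ '' L (π.symm j) := by
    rw [hφ, Equiv.apply_symm_apply]
    exact hp
  obtain ⟨x, hx, rfl⟩ := h3
  refine ⟨x, ⟨π.symm j, ?_, hx⟩, rfl⟩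
  intro h4
  exact hj (by rw [← h4, Equiv.apply_symm_apply])

end BOR

end
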