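import Pool.Agent.BOR.THK

/-!
# BOR / BLK: a bigger disjoint copy avoids the region `V` of a copy

PROOF. `K = k '' K0` is compact (`K0` is the image of `Icc 0 1` under a Lipschitz map, `gam0_lip`).
Suppose `y ∈ g2 '' K` and `y = g1 p`, `p ∈ Fw l '' VT`. Put `A = g1.comp (Fw l)`, so `y ∈ A '' VT` and
`A.s = g1.s r^(length) ≤ g1.s ≤ g2.s`. `closedBall y (A.s/4) ⊆ A '' HB` because a point of `VT` has the
closed ball of radius `1/4` around it in `HB`. Let `y' = g2.inv y ∈ K`, `ρ = A.s/(4 g2.s) ≤ 1`. By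
`thick` there is `F ∈ TFs` with `F '' HB ⊆ closedBall y' ρ`, `F.s ≥ 5 · 10⁻⁷ ρ`. `F' = g2.comp F` satisfies
`F' '' HB ⊆ closedBall y (A.s/4) ⊆ A '' HB`, `F'.s ≥ 5 · 10⁻⁷ A.s/4 ≥ 10⁻⁸ A.s`.
The family `{g.comp F | F ∈ TFs}` is a `TFam` for `g '' K` (`TF_fam`, `Sim.comp_assoc`,
`Sim.dist_app`); `A` is in the family of `g1` (`Fw l = Sim.one.comp (Fw l)`, `fam_word`), `F'` in the
family of `g2`. By `lemmaG` the compact sets `g1 '' K` and `g2 '' K` are at distance zero, so they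
meet, contradiction.
-/

noncomputable section

namespace BOR

open Set

theorem K0_compact : IsCompact K0 := by
  unfold K0
  apply isCompact_Icc.image_of_continuousOn
  rw [Metric.continuousOn_iff]
  intro b hb e he
  refine ⟨e / 4, by positivity, ?_⟩
  intro a ha hab
  have h1 := gam0_lip ha hb
  rw [Real.dist_eq] at hab
  linarith

theorem TF_fam_comp {k : E3 ≃ₜ E3} {h : ℕ → E3 ≃ₜ E3} (H : IsLimit k h) (G : Sim) :
    TFam {F | ∃ F0 ∈ TFs, F = G.comp F0} (G '' (k '' K0)) := by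
  have hT := TF_fam H
  refine ⟨?_, ?_, ?_⟩
  · rintro F ⟨F0, hF0, rfl⟩
    exact ⟨F0.comp FT1, hT.cl1 F0 hF0, Sim.comp_assoc _ _ _⟩
  · rintro F ⟨F0, hF0, rfl⟩
    exact ⟨F0.comp FT2, hT.cl2 F0 hF0, Sim.comp_assoc _ _ _⟩
  · rintro F ⟨F0, hF0, rfl⟩
    obtain ⟨x, hx, hd⟩ := hT.near F0 hF0
    refine ⟨G x, ⟨x, hx, rfl⟩, ?_⟩
    rw [Sim.comp_app, Sim.dist_app, Sim.comp_s]
    have := mul_le_mul_of_nonneg_left hd G.s_pos.le
    linarith

private theorem blk_VT {z w : E3} (hz : z ∈ VT) (hd : dist w z ≤ 1 / 4) : w ∈ HB := by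
  obtain ⟨h0, h1, h2⟩ := hz
  have c0 := (abs_coord_sub_le w z 0).trans hd
  have c1 := (abs_coord_sub_le w z 1).trans hd
  have c2 := (abs_coord_sub_le w z 2).trans hd
  have e0 : |w 0| ≤ |w 0 - z 0| + |z 0| := by
    have := abs_add_le (w 0 - z 0) (z 0)
    simpa using this
  have e1 : |w 1| ≤ |w 1 - z 1| + |z 1| := by
    have := abs_add_le (w 1 - z 1) (z 1)
    simpa using this
  have e2 : |w 2| ≤ |w 2 - z 2| + |z 2| := by
    have := abs_add_le (w 2 - z 2) (z 2)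
    simpa using this
  refine ⟨?_, ?_, ?_⟩ <;> linarith

theorem block {k : E3 ≃ₜ E3} {h : ℕ → E3 ≃ₜ E3} (H : IsLimit k h) (g1 g2 : Sim)
    (hs : g1.s ≤ g2.s) (hd : Disjoint (g1 '' (k '' K0)) (g2 '' (k '' K0))) :
    Disjoint (g2 '' (k '' K0)) (g1 '' VV) := by
  rw [Set.disjoint_left]
  rintro y ⟨y', hy', hyy⟩ ⟨p, ⟨l, z, hz, hzp⟩, hpy⟩
  set A : Sim := g1.comp (Fw l) with hA
  have hAz : A z = g2 y' := by
    rw [hA, Sim.comp_app, hzp, hpy, hyy]
  have hAs : A.s ≤ g1.s := by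
    rw [hA, Sim.comp_s, Fw_s]
    have h1 : r ^ l.length ≤ 1 := pow_le_one₀ r_pos.le (by linarith [r_lt])
    calc g1.s * r ^ l.length ≤ g1.s * 1 := mul_le_mul_of_nonneg_left h1 g1.s_pos.le
      _ = g1.s := mul_one _
  have hA0 := A.s_pos
  have hg2 := g2.s_pos
  have hρ0 : 0 < A.s / (4 * g2.s) := by positivity
  have hρ1 : A.s / (4 * g2.s) ≤ 1 := by
    rw [div_le_one (by positivity)]
    linarith
  obtain ⟨F, hF, hFb, hFs⟩ := thick H hy' hρ0 hρ1
  have hsub : (g2.comp F) '' HB ⊆ A '' HB := by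
    rintro _ ⟨q, hq, rfl⟩
    have h1 : dist (F q) y' ≤ A.s / (4 * g2.s) := hFb ⟨q, hq, rfl⟩
    have h2 : dist ((g2.comp F) q) (A z) ≤ A.s * (1 / 4) := by
      rw [hAz, Sim.comp_app, Sim.dist_app]
      calc g2.s * dist (F q) y' ≤ g2.s * (A.s / (4 * g2.s)) :=
            mul_le_mul_of_nonneg_left h1 hg2.le
        _ = A.s * (1 / 4) := by field_simp
    refine ⟨A.inv ((g2.comp F) q), ?_, A.app_inv _⟩
    apply blk_VT hz
    have h3 : A.s * dist (A.inv ((g2.comp F) q)) z ≤ A.s * (1 / 4) := by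
      rw [← Sim.dist_app, Sim.app_inv]
      exact h2
    exact le_of_mul_le_mul_left h3 hA0
  have hsc : 1 / 10 ^ 8 * A.s ≤ (g2.comp F).s := by
    rw [Sim.comp_s]
    have h1 := mul_le_mul_of_nonneg_left hFs hg2.le
    have h2 : g2.s * (5 / 10 ^ 7 * (A.s / (4 * g2.s))) = 5 / 4 / 10 ^ 7 * A.s := by
      field_simp
    rw [h2] at h1
    refine le_trans ?_ h1
    have : (1 : ℝ) / 10 ^ 8 ≤ 5 / 4 / 10 ^ 7 := by norm_num
    exact mul_le_mul_of_nonneg_right this hA0.le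
  have hAf : A ∈ {F | ∃ F0 ∈ TFs, F = g1.comp F0} := by
    refine ⟨Fw l, ?_, rfl⟩
    have h1 := fam_word (TF_fam H) (F := Sim.one) (Or.inl rfl) l
    rwa [Sim.one_comp] at h1
  have hFf : g2.comp F ∈ {F | ∃ F0 ∈ TFs, F = g2.comp F0} := ⟨F, hF, rfl⟩
  have hK : IsCompact (k '' K0) := K0_compact.image k.continuous
  obtain ⟨e, he, hsep⟩ := Metric.exists_pos_forall_lt_edist (g1.isCompact_image hK)
    (g2.isCompact_image hK).isClosed hd
  obtain ⟨x, hx, x', hx', hxx⟩ := lemmaG (TF_fam_comp H g1) (TF_fam_comp H g2) hAf hFf hsub hsc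
    (e : ℝ) (by exact_mod_cast he)
  have h1 := hsep x hx x' hx'
  rw [edist_dist] at h1
  have h2 : ENNReal.ofReal (dist x x') ≤ (e : ENNReal) := by
    rw [← ENNReal.ofReal_coe_nnreal]
    exact ENNReal.ofReal_le_ofReal hxx.le
  exact absurd h1 (not_lt.2 h2)

end BOR

end
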