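import Pool.Agent.BOR.Pat

/-!
# BOR / Num: numerical bounds for the constants
-/

noncomputable section

namespace BOR

theorem al_sq_gt : (1.5873 : ℝ) < al ^ 2 := by nlinarith [al_gt, al_pos]
theorem al_sq_lt : al ^ 2 < 1.5876 := by nlinarith [al_lt, al_pos]
theorem al_sq_pos : 0 < al ^ 2 := by have := al_pos; positivity

theorem r_mul_al : r * al = 1 - g := by
  have h := al_cube
  have : r * al = (1 - g) * al ^ 3 / 2 := by unfold r; ring
  rw [this, h]; ring

theorem r_mul_al_sq : r * al ^ 2 = (1 - g) * al := by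
  have := r_mul_al
  calc r * al ^ 2 = (r * al) * al := by ring
    _ = _ := by rw [this]

theorem r_gt : (0.7936 : ℝ) < r := by
  unfold r; have h := al_sq_gt; have h2 := g_le; have h3 := g_pos; nlinarith
theorem r_lt : r < 0.7938 := by
  unfold r; have h := al_sq_lt; have h2 := al_sq_pos; have h3 := g_pos; nlinarith

theorem xi_gt : 0.6944 * g < xi := by
  rw [xi_eq]; have h := al_sq_gt; have h2 := g_le; have h3 := g_pos
  nlinarith [mul_pos h3 h3, mul_pos h3 al_sq_pos]
theorem xi_lt : xi < 0.6946 * g := by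
  rw [xi_eq]
  have h := al_sq_lt; have h2 := g_le; have h3 := g_pos
  have h4 : g * al ^ 2 < 1.5876 * g := by nlinarith
  have h5 : g * al ^ 2 * (7 + g) < 1.5876 * g * (7 + g) := by
    apply mul_lt_mul_of_pos_right h4; linarith
  have h6 : g * g ≤ 1 / 10 ^ 12 * g := by nlinarith
  nlinarith

theorem de_def : de = 2 * xi := rfl
theorem ss_def : ss = r * (2 * xi) := rfl
theorem de_gt : 1.3888 * g < de := by unfold de; linarith [xi_gt]
theorem de_lt : de < 1.3892 * g := by unfold de; linarith [xi_lt]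
theorem ss_gt : 1.1021 * g < ss := by
  have h := r_gt; have h2 := xi_gt; have h3 := g_pos; rw [ss_def]; nlinarith
theorem ss_lt : ss < 1.1028 * g := by
  have h := r_lt; have h2 := xi_lt; have h3 := g_pos; have h4 := xi_pos; rw [ss_def]
  have : r * (2 * xi) ≤ 0.7938 * (2 * xi) := by apply mul_le_mul_of_nonneg_right h.le; linarith
  nlinarith
theorem eta_def : eta = g / 8 := rfl
theorem w_def : w = g / 64 := rfl
theorem ze_def : ze = -1 - eta := rfl
theorem hh_def : hh = 1 + eta := rfl
theorem l0_def : l0 = g / 512 := rfl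
theorem sg_def : sg = 2 / 3 := rfl
theorem rho_def : rho = 1 / 16 := rfl
theorem x0_def : x0 = 1 / 2 - rho * (al ^ 2 + g / 8) := rfl
theorem ls_def : ls = rho * (al ^ 2 + g / 8 - de) := rfl
theorem w_pos : 0 < w := by unfold w; have := g_pos; positivity

/-- the identity which places the edge of the first child: `-al²/2 - r ze = -xi` -/
theorem xi_id : -al ^ 2 / 2 - r * ze = -xi := by unfold ze xi r eta; ring

theorem NT_pos (L : ℝ) : (0 : ℝ) < (NT L : ℝ) + 1 := by positivity

/-- pieces of a string are short -/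
theorem NT_lt (L : ℝ) : L / ((NT L : ℝ) + 1) < l0 := by
  have h := Nat.lt_floor_add_one (L / l0)
  have hl := l0_pos
  rw [div_lt_iff₀ (NT_pos L)]
  rw [div_lt_iff₀ hl] at h
  have : ((⌊L / l0⌋₊ : ℕ) : ℝ) = (NT L : ℝ) := rfl
  rw [this] at h
  linarith

/-- pieces of a string are not too short -/
theorem NT_ge {L : ℝ} (hL : l0 ≤ L) : l0 / 2 ≤ L / ((NT L : ℝ) + 1) := by
  have hl := l0_pos
  have hL' : 0 < L := lt_of_lt_of_le hl hL
  have h0 : 0 ≤ L / l0 := by positivity
  have h := Nat.floor_le h0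
  have h1 : (1 : ℝ) ≤ L / l0 := (one_le_div hl).2 hL
  have e : ((⌊L / l0⌋₊ : ℕ) : ℝ) = (NT L : ℝ) := rfl
  rw [e] at h
  rw [le_div_iff₀ (NT_pos L)]
  have h2 : (NT L : ℝ) + 1 ≤ 2 * (L / l0) := by linarith
  calc l0 / 2 * ((NT L : ℝ) + 1) ≤ l0 / 2 * (2 * (L / l0)) := by
        apply mul_le_mul_of_nonneg_left h2; linarith
    _ = L := by field_simp

end BOR

end
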