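import Pool.Agent.BOR.FIB
import Pool.Agent.BOR.Num

/-!
# BOR / BXS: squeeze of the big box of a T cell into a tiny box near the edge

PROOF. Put `X2 = al² + g/16`, `Y2 = al + g/16`, `zl = ze + w/4`, `zb = ze + w/2`, `zu = 1 + g/16`,
`μ = 768/g`. `K p = max 0 (μ * min (X2 - |x|) (min (Y2 - |y|) (min (z - zl) (zu - z))))`,
`K' p = max 0 (μ * min (X2 - |x|) (min (Y2 - |y|) (zu - z)))`.
Three fiber maps (`fiber`), applied in this order:
* `Bx` (`i = 0`): `D = - clamp (λ x) (-K) K`, `λ = 1 - (w/4)/al²`;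
* `By` (`i = 1`): `D = - clamp (λ' y) (-K) K`, `λ' = 1 - (w/4)/al`;
* `Bz` (`i = 2`): `D = - min (λ'' max 0 (z - zb)) K'`, `λ'' = 1 - (w/4)/(1 - zb)`;
`0 < λ, λ', λ'' < 1`. Each `D` is continuous and bounded (nonzero only in a bounded range of the
moved coordinate). Monotonicity as in LSQ: `K` is nonincreasing in `|x|`, `|y|`; `K'` is nonincreasing
in `z`: the subtracted quantity `c` satisfies `c(x₂) - c(x₁) ≤ λ (x₂ - x₁)` or `≤ 0`.
* off `boxTp`: `K = 0`, and (`z < zl < zb` or `K' = 0`), so nothing moves;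
* `|x|`, `|y|` do not increase, `z` is unchanged if `z ≤ zb`, and for `z ≥ zb`:
  `z ≥ Bz ≥ z - λ''(z - zb) ≥ zb`. Points which start in `boxTp`... the maps act one coordinate at a
  time, so the composition has these properties for every point.
* on `boxT`: margins `X2 - |x|, Y2 - |y|, zu - z ≥ g/16`, `z - zl ≥ w/4 = g/256`, so `K, K' ≥ 3`,
  larger than `λ|x|`, `λ'|y|`, `λ''(z - zb)` (all `< 2.1`), hence `x' = (w/4)/al² x`, `|x'| ≤ w/4`,
  then (still in `boxT`) `|y'| ≤ w/4`, then `z' = zb + (w/4)/(1-zb) (z - zb) ≤ zb + w/4`.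
-/

noncomputable section

namespace BOR

open Set

private theorem co_eq (p : E3) (c : ℝ) (i : Fin 3) :
    (p + c • EuclideanSpace.single i (1 : ℝ)) i = p i + c := by
  simp

private theorem co_ne (p : E3) (c : ℝ) {i j : Fin 3} (h : j ≠ i) :
    (p + c • EuclideanSpace.single i (1 : ℝ)) j = p j := by
  simp [h]

private theorem clampmono {k1 k2 x1 x2 l : ℝ} (hk1 : 0 ≤ k1) (hk2 : 0 ≤ k2) (h : x1 < x2)
    (hl0 : 0 ≤ l) (hl1 : l < 1) (hp : 0 ≤ x1 → k2 ≤ k1) (hn : x2 ≤ 0 → k1 ≤ k2) :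
    max (-k2) (min k2 (l * x2)) - max (-k1) (min k1 (l * x1)) < x2 - x1 := by
  have ht : l * (x2 - x1) < x2 - x1 := by
    have h0 : 0 < x2 - x1 := sub_pos.2 h
    nlinarith
  have ht' : l * x2 - l * x1 < x2 - x1 := by linarith
  rcases le_total 0 x1 with h0 | h0
  · have hk := hp h0
    have hx1 : 0 ≤ l * x1 := mul_nonneg hl0 h0
    have hx2 : 0 ≤ l * x2 := mul_nonneg hl0 (h0.trans h.le)
    rw [max_eq_right (by exact le_trans (by linarith) (le_min hk2 hx2)),
      max_eq_right (by exact le_trans (by linarith) (le_min hk1 hx1))]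
    rcases min_choice k1 (l * x1) with e | e
    · rw [e]
      have := min_le_left k2 (l * x2)
      linarith
    · rw [e]
      have := min_le_right k2 (l * x2)
      linarith
  · rcases le_total x2 0 with h2 | h2
    · have hk := hn h2
      have hx1 : l * x1 ≤ 0 := mul_nonpos_of_nonneg_of_nonpos hl0 h0
      have hx2 : l * x2 ≤ 0 := mul_nonpos_of_nonneg_of_nonpos hl0 h2
      rw [min_eq_right (hx2.trans hk2), min_eq_right (hx1.trans hk1)]
      rcases max_choice (-k2) (l * x2) with e | e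
      · rw [e]
        have := le_max_left (-k1) (l * x1)
        linarith
      · rw [e]
        have := le_max_right (-k1) (l * x1)
        linarith
    · have hx1 : l * x1 ≤ 0 := mul_nonpos_of_nonneg_of_nonpos hl0 h0
      have hx2 : 0 ≤ l * x2 := mul_nonneg hl0 h2
      rw [min_eq_right (hx1.trans hk1),
        max_eq_right (by exact le_trans (by linarith) (le_min hk2 hx2))]
      have h3 := min_le_right k2 (l * x2)
      have h4 := le_max_right (-k1) (l * x1)
      linarith

/-- the clamped value lies between `0` and `l x` -/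
private theorem clamp_abs {k x l : ℝ} (hk : 0 ≤ k) (hl0 : 0 ≤ l) (hl1 : l < 1) :
    |x + -(max (-k) (min k (l * x)))| ≤ |x| := by
  rcases le_total 0 x with h0 | h0
  · have hx : 0 ≤ l * x := mul_nonneg hl0 h0
    have hx' : l * x ≤ x := by nlinarith
    rw [max_eq_right (by exact le_trans (by linarith) (le_min hk hx))]
    have h1 := min_le_right k (l * x)
    have h2 : 0 ≤ min k (l * x) := le_min hk hx
    rw [abs_of_nonneg h0, abs_of_nonneg (by linarith)]
    linarith
  · have hx : l * x ≤ 0 := mul_nonpos_of_nonneg_of_nonpos hl0 h0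
    have hx' : x ≤ l * x := by nlinarith
    rw [min_eq_right (hx.trans hk)]
    have h1 := le_max_right (-k) (l * x)
    have h2 : max (-k) (l * x) ≤ 0 := max_le (by linarith) hx
    rw [abs_of_nonpos h0, abs_of_nonpos (by linarith)]
    linarith

private theorem clamp_big {k x l : ℝ} (h : |l * x| ≤ k) :
    x + -(max (-k) (min k (l * x))) = (1 - l) * x := by
  have h1 := abs_le.1 h
  rw [min_eq_right h1.2, max_eq_right h1.1]
  ring

private def KK (p : E3) : ℝ :=
  max 0 (768 / g * min (al ^ 2 + g / 16 - |p 0|) (min (al + g / 16 - |p 1|)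
    (min (p 2 - (ze + w / 4)) (1 + g / 16 - p 2))))

private def KP (p : E3) : ℝ :=
  max 0 (768 / g * min (al ^ 2 + g / 16 - |p 0|) (min (al + g / 16 - |p 1|) (1 + g / 16 - p 2)))

private theorem mu_pos : 0 < 768 / g := by
  have := g_pos
  positivity

private theorem KK_nn (p : E3) : 0 ≤ KK p := le_max_left _ _
private theorem KP_nn (p : E3) : 0 ≤ KP p := le_max_left _ _

private theorem KK_cont : Continuous KK := by
  unfold KK
  fun_prop

private theorem KP_cont : Continuous KP := by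
  unfold KP
  fun_prop

private theorem CC_nn : 0 ≤ 768 / g * (al ^ 2 + g / 16) := by
  have := g_pos
  have := al_pos
  positivity

private theorem KK_le (p : E3) : KK p ≤ 768 / g * (al ^ 2 + g / 16) := by
  refine max_le CC_nn (mul_le_mul_of_nonneg_left ?_ mu_pos.le)
  refine (min_le_left _ _).trans ?_
  have := abs_nonneg (p 0)
  linarith

private theorem KP_le (p : E3) : KP p ≤ 768 / g * (al ^ 2 + g / 16) := by
  refine max_le CC_nn (mul_le_mul_of_nonneg_left ?_ mu_pos.le)
  refine (min_le_left _ _).trans ?_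
  have := abs_nonneg (p 0)
  linarith

private theorem KK_mono {p q : E3} (h0 : |p 0| ≤ |q 0|) (h1 : |p 1| ≤ |q 1|) (h2 : q 2 = p 2) :
    KK q ≤ KK p := by
  unfold KK
  rw [h2]
  refine max_le_max le_rfl (mul_le_mul_of_nonneg_left ?_ mu_pos.le)
  exact min_le_min (by linarith) (min_le_min (by linarith) le_rfl)

private theorem KP_mono {p q : E3} (h0 : q 0 = p 0) (h1 : q 1 = p 1) (h2 : p 2 ≤ q 2) :
    KP q ≤ KP p := by
  unfold KP
  rw [h0, h1]
  refine max_le_max le_rfl (mul_le_mul_of_nonneg_left ?_ mu_pos.le)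
  exact min_le_min le_rfl (min_le_min le_rfl (by linarith))

private theorem KK_zero {p : E3} (h : p ∉ boxTp) : KK p = 0 := by
  refine max_eq_left (mul_nonpos_of_nonneg_of_nonpos mu_pos.le ?_)
  by_contra hc
  push Not at hc
  rw [lt_min_iff, lt_min_iff, lt_min_iff] at hc
  exact h ⟨by linarith [hc.1], by linarith [hc.2.1], by linarith [hc.2.2.1],
    by linarith [hc.2.2.2]⟩

private theorem KP_zero {p : E3} (h : p ∉ boxTp) (hz : ze + w / 4 ≤ p 2) : KP p = 0 := by
  refine max_eq_left (mul_nonpos_of_nonneg_of_nonpos mu_pos.le ?_)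
  by_contra hc
  push Not at hc
  rw [lt_min_iff, lt_min_iff] at hc
  exact h ⟨by linarith [hc.1], by linarith [hc.2.1], hz, by linarith [hc.2.2]⟩

private theorem KK_big {p : E3} (h : p ∈ boxT) : 3 ≤ KK p := by
  obtain ⟨h1, h2, h3, h4⟩ := h
  have hg := g_pos
  have hw := w_def
  refine le_trans ?_ (le_max_right _ _)
  have h5 : g / 256 ≤ min (al ^ 2 + g / 16 - |p 0|) (min (al + g / 16 - |p 1|)
      (min (p 2 - (ze + w / 4)) (1 + g / 16 - p 2))) := by
    refine le_min (by linarith) (le_min (by linarith) (le_min (by linarith) (by linarith)))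
  calc (3 : ℝ) = 768 / g * (g / 256) := by
        field_simp
        norm_num
    _ ≤ _ := mul_le_mul_of_nonneg_left h5 mu_pos.le

private theorem KP_big {p : E3} (h : p ∈ boxT) : 3 ≤ KP p := by
  obtain ⟨h1, h2, h3, h4⟩ := h
  have hg := g_pos
  refine le_trans ?_ (le_max_right _ _)
  have h5 : g / 256 ≤ min (al ^ 2 + g / 16 - |p 0|) (min (al + g / 16 - |p 1|)
      (1 + g / 16 - p 2)) := by
    refine le_min (by linarith) (le_min (by linarith) (by linarith))
  calc (3 : ℝ) = 768 / g * (g / 256) := by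
        field_simp
        norm_num
    _ ≤ _ := mul_le_mul_of_nonneg_left h5 mu_pos.le

/-- a contraction factor -/
private theorem lam {a : ℝ} (ha : 1 ≤ a) :
    0 ≤ 1 - w / 4 / a ∧ 1 - w / 4 / a < 1 ∧ (1 - (1 - w / 4 / a)) * a = w / 4 := by
  have hw := w_pos
  have hw2 : w / 4 ≤ 1 := by
    have := w_def
    have := g_le
    linarith
  have ha0 : 0 < a := by linarith
  refine ⟨?_, ?_, ?_⟩
  · rw [sub_nonneg, div_le_one ha0]
    linarith
  · have : 0 < w / 4 / a := by positivity
    linarith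
  · field_simp
    ring

/-- the fiber map in the direction of a horizontal axis -/
private theorem hor (i : Fin 3) (l : ℝ) (hl0 : 0 ≤ l) (hl1 : l < 1)
    (hK : ∀ p q : E3, |p i| ≤ |q i| → (∀ j, j ≠ i → q j = p j) → KK q ≤ KK p) :
    ∃ φ : E3 ≃ₜ E3, ∀ p, φ p = p + (-(max (-(KK p)) (min (KK p) (l * p i)))) •
      EuclideanSpace.single i (1 : ℝ) := by
  refine fiber i (fun p => -(max (-(KK p)) (min (KK p) (l * p i)))) ?_
    (768 / g * (al ^ 2 + g / 16)) ?_ ?_
  · have := KK_cont
    fun_prop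
  · intro p
    show |-(max (-(KK p)) (min (KK p) (l * p i)))| ≤ _
    rw [abs_neg, abs_le]
    have h1 := KK_nn p
    have h2 := KK_le p
    constructor
    · refine le_trans ?_ (le_max_left _ _)
      linarith
    · refine max_le (by linarith) ((min_le_left _ _).trans h2)
  · intro p t ht
    show -(max (-(KK p)) (min (KK p) (l * p i))) < -(max (-(KK (p + t •
      EuclideanSpace.single i (1 : ℝ)))) (min (KK (p + t • EuclideanSpace.single i (1 : ℝ)))
      (l * (p + t • EuclideanSpace.single i (1 : ℝ)) i))) + t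
    rw [co_eq]
    have h1 := clampmono (k1 := KK p) (k2 := KK (p + t • EuclideanSpace.single i (1 : ℝ)))
      (x1 := p i) (x2 := p i + t) (l := l) (KK_nn _) (KK_nn _) (by linarith) hl0 hl1 ?_ ?_
    · linarith
    · intro h
      refine hK _ _ ?_ (fun j hj => co_ne p t hj)
      rw [co_eq, abs_of_nonneg h, abs_of_nonneg (by linarith)]
      linarith
    · intro h
      refine hK _ _ ?_ (fun j hj => (co_ne p t hj).symm)
      rw [co_eq, abs_of_nonpos h, abs_of_nonpos (by linarith)]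
      linarith

/-- the vertical fiber map -/
private theorem ver (l : ℝ) (hl0 : 0 ≤ l) (hl1 : l < 1) :
    ∃ φ : E3 ≃ₜ E3, ∀ p, φ p = p + (-(min (l * max 0 (p 2 - (ze + w / 2))) (KP p))) •
      EuclideanSpace.single 2 (1 : ℝ) := by
  refine fiber 2 (fun p => -(min (l * max 0 (p 2 - (ze + w / 2))) (KP p))) ?_
    (768 / g * (al ^ 2 + g / 16)) ?_ ?_
  · have := KP_cont
    fun_prop
  · intro p
    show |-(min (l * max 0 (p 2 - (ze + w / 2))) (KP p))| ≤ _
    have h1 : 0 ≤ min (l * max 0 (p 2 - (ze + w / 2))) (KP p) :=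
      le_min (mul_nonneg hl0 (le_max_left _ _)) (KP_nn p)
    rw [abs_neg, abs_of_nonneg h1]
    exact (min_le_right _ _).trans (KP_le p)
  · intro p t ht
    show -(min (l * max 0 (p 2 - (ze + w / 2))) (KP p)) <
      -(min (l * max 0 ((p + t • EuclideanSpace.single 2 (1 : ℝ) : E3) 2 - (ze + w / 2)))
      (KP (p + t • EuclideanSpace.single 2 (1 : ℝ)))) + t
    rw [co_eq]
    have h1 : KP (p + t • EuclideanSpace.single 2 (1 : ℝ)) ≤ KP p := by
      refine KP_mono (co_ne p t (by decide)) (co_ne p t (by decide)) ?_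
      rw [co_eq]
      linarith
    have h2 : max 0 (p 2 + t - (ze + w / 2)) ≤ max 0 (p 2 - (ze + w / 2)) + t := by
      refine max_le ?_ ?_
      · have := le_max_left 0 (p 2 - (ze + w / 2))
        linarith
      · have := le_max_right 0 (p 2 - (ze + w / 2))
        linarith
    have h3 : l * max 0 (p 2 + t - (ze + w / 2)) ≤ l * max 0 (p 2 - (ze + w / 2)) + l * t := by
      have := mul_le_mul_of_nonneg_left h2 hl0
      linarith
    have h4 : l * t < t := by nlinarith
    have h5 := min_le_left (l * max 0 (p 2 + t - (ze + w / 2)))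
      (KP (p + t • EuclideanSpace.single 2 (1 : ℝ)))
    have h6 := min_le_right (l * max 0 (p 2 + t - (ze + w / 2)))
      (KP (p + t • EuclideanSpace.single 2 (1 : ℝ)))
    rcases min_choice (l * max 0 (p 2 - (ze + w / 2))) (KP p) with e | e
    · rw [e]
      linarith
    · rw [e]
      linarith

theorem bxs : ∃ B : E3 ≃ₜ E3, (∀ p, p ∉ boxTp → B p = p) ∧
    (∀ p ∈ boxT, |(B p) 0| ≤ w / 4 ∧ |(B p) 1| ≤ w / 4 ∧ ze + w / 2 ≤ (B p) 2 ∧
      (B p) 2 ≤ ze + 3 * w / 4) ∧
    (∀ p, |(B p) 0| ≤ |p 0| ∧ |(B p) 1| ≤ |p 1| ∧ (p 2 ≤ ze + w / 2 → (B p) 2 = p 2) ∧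
      (ze + w / 2 ≤ p 2 → ze + w / 2 ≤ (B p) 2 ∧ (B p) 2 ≤ p 2)) := by
  have hg := g_pos
  have hg2 := g_le
  have hw := w_def
  have hz : ze = -1 - g / 8 := rfl
  have ha1 := al_gt
  have ha2 := al_lt
  have hb1 := al_sq_gt
  have hb2 := al_sq_lt
  obtain ⟨lx0, lx1, lx2⟩ := lam (a := al ^ 2) (by linarith)
  obtain ⟨ly0, ly1, ly2⟩ := lam (a := al) (by linarith)
  obtain ⟨lz0, lz1, lz2⟩ := lam (a := 1 - (ze + w / 2)) (by linarith)
  obtain ⟨lx, hlx⟩ : ∃ l, l = 1 - w / 4 / al ^ 2 := ⟨_, rfl⟩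
  obtain ⟨ly, hly⟩ : ∃ l, l = 1 - w / 4 / al := ⟨_, rfl⟩
  obtain ⟨lz, hlz⟩ : ∃ l, l = 1 - w / 4 / (1 - (ze + w / 2)) := ⟨_, rfl⟩
  rw [← hlx] at lx0 lx1 lx2
  rw [← hly] at ly0 ly1 ly2
  rw [← hlz] at lz0 lz1 lz2
  obtain ⟨Bx, hBx⟩ := hor 0 lx lx0 lx1 (fun p q h h' => by
    refine KK_mono h ?_ (h' 2 (by decide))
    rw [h' 1 (by decide)])
  obtain ⟨By, hBy⟩ := hor 1 ly ly0 ly1 (fun p q h h' => by
    refine KK_mono ?_ h (h' 2 (by decide))
    rw [h' 0 (by decide)])
  obtain ⟨Bz, hBz⟩ := ver lz lz0 lz1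
  -- coordinates
  have x0 : ∀ p, (Bx p) 0 = p 0 + -(max (-(KK p)) (min (KK p) (lx * p 0))) := fun p => by
    rw [hBx, co_eq]
  have x1 : ∀ p, (Bx p) 1 = p 1 := fun p => by rw [hBx, co_ne _ _ (by decide)]
  have x2 : ∀ p, (Bx p) 2 = p 2 := fun p => by rw [hBx, co_ne _ _ (by decide)]
  have y1 : ∀ p, (By p) 1 = p 1 + -(max (-(KK p)) (min (KK p) (ly * p 1))) := fun p => by
    rw [hBy, co_eq]
  have y0 : ∀ p, (By p) 0 = p 0 := fun p => by rw [hBy, co_ne _ _ (by decide)]
  have y2 : ∀ p, (By p) 2 = p 2 := fun p => by rw [hBy, co_ne _ _ (by decide)]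
  have z2 : ∀ p, (Bz p) 2 = p 2 + -(min (lz * max 0 (p 2 - (ze + w / 2))) (KP p)) := fun p => by
    rw [hBz, co_eq]
  have z0 : ∀ p, (Bz p) 0 = p 0 := fun p => by rw [hBz, co_ne _ _ (by decide)]
  have z1 : ∀ p, (Bz p) 1 = p 1 := fun p => by rw [hBz, co_ne _ _ (by decide)]
  have e0 : ∀ p, ((Bx.trans (By.trans Bz)) p) 0 = (Bx p) 0 := fun p => by
    show (Bz (By (Bx p))) 0 = _
    rw [z0, y0]
  have e1 : ∀ p, ((Bx.trans (By.trans Bz)) p) 1 = (By (Bx p)) 1 := fun p => by
    show (Bz (By (Bx p))) 1 = _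
    rw [z1]
  have e2 : ∀ p, ((Bx.trans (By.trans Bz)) p) 2 =
      p 2 + -(min (lz * max 0 (p 2 - (ze + w / 2))) (KP (By (Bx p)))) := fun p => by
    show (Bz (By (Bx p))) 2 = _
    rw [z2, y2, x2]
  refine ⟨Bx.trans (By.trans Bz), ?_, ?_, ?_⟩
  · intro p hp
    have hK := KK_zero hp
    have hx : Bx p = p := by
      rw [hBx, hK, neg_zero]
      have : max 0 (min 0 (lx * p 0)) = 0 := max_eq_left (min_le_left _ _)
      rw [this, neg_zero, zero_smul, add_zero]
    have hy : By p = p := by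
      rw [hBy, hK, neg_zero]
      have : max 0 (min 0 (ly * p 1)) = 0 := max_eq_left (min_le_left _ _)
      rw [this, neg_zero, zero_smul, add_zero]
    have hzz : Bz p = p := by
      rw [hBz]
      have : min (lz * max 0 (p 2 - (ze + w / 2))) (KP p) = 0 := by
        rcases le_or_gt (ze + w / 4) (p 2) with h | h
        · rw [KP_zero hp h]
          exact min_eq_right (mul_nonneg lz0 (le_max_left _ _))
        · rw [max_eq_left (by linarith), mul_zero]
          exact min_eq_left (KP_nn p)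
      rw [this, neg_zero, zero_smul, add_zero]
    show Bz (By (Bx p)) = p
    rw [hx, hy, hzz]
  · intro p hp
    obtain ⟨p1, p2, p3, p4⟩ := hp
    have hK := KK_big (p := p) ⟨p1, p2, p3, p4⟩
    -- first map
    have a1 : (Bx p) 0 = (1 - lx) * p 0 := by
      rw [x0, clamp_big]
      rw [abs_mul, abs_of_nonneg lx0]
      have : lx * |p 0| ≤ 1 * |p 0| := mul_le_mul_of_nonneg_right lx1.le (abs_nonneg _)
      linarith
    have a2 : |(Bx p) 0| ≤ w / 4 := by
      rw [a1, abs_mul, abs_of_nonneg (by linarith : 0 ≤ 1 - lx)]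
      have : (1 - lx) * |p 0| ≤ (1 - lx) * al ^ 2 :=
        mul_le_mul_of_nonneg_left p1 (by linarith)
      linarith
    have b1 : Bx p ∈ boxT := by
      refine ⟨?_, ?_, ?_, ?_⟩
      · linarith
      · rw [x1]
        exact p2
      · rw [x2]
        exact p3
      · rw [x2]
        exact p4
    have hK2 := KK_big b1
    have c1 : (By (Bx p)) 1 = (1 - ly) * p 1 := by
      rw [y1, clamp_big, x1]
      rw [x1, abs_mul, abs_of_nonneg ly0]
      have : ly * |p 1| ≤ 1 * |p 1| := mul_le_mul_of_nonneg_right ly1.le (abs_nonneg _)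
      linarith
    have c2 : |(By (Bx p)) 1| ≤ w / 4 := by
      rw [c1, abs_mul, abs_of_nonneg (by linarith : 0 ≤ 1 - ly)]
      have : (1 - ly) * |p 1| ≤ (1 - ly) * al :=
        mul_le_mul_of_nonneg_left p2 (by linarith)
      linarith
    have d1 : By (Bx p) ∈ boxT := by
      refine ⟨?_, ?_, ?_, ?_⟩
      · rw [y0]
        linarith
      · linarith
      · rw [y2, x2]
        exact p3
      · rw [y2, x2]
        exact p4
    have hK3 := KP_big d1
    have f1 : lz * max 0 (p 2 - (ze + w / 2)) = lz * (p 2 - (ze + w / 2)) := by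
      rw [max_eq_right (by linarith)]
    have f2 : lz * (p 2 - (ze + w / 2)) ≤ 1 * (p 2 - (ze + w / 2)) :=
      mul_le_mul_of_nonneg_right lz1.le (by linarith)
    have f3 : ((Bx.trans (By.trans Bz)) p) 2 = ze + w / 2 + (1 - lz) * (p 2 - (ze + w / 2)) := by
      rw [e2, f1, min_eq_left (by linarith)]
      ring
    have f4 : 0 ≤ (1 - lz) * (p 2 - (ze + w / 2)) := mul_nonneg (by linarith) (by linarith)
    have f5 : (1 - lz) * (p 2 - (ze + w / 2)) ≤ (1 - lz) * (1 - (ze + w / 2)) :=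
      mul_le_mul_of_nonneg_left (by linarith) (by linarith)
    refine ⟨?_, ?_, ?_, ?_⟩
    · rw [e0]
      exact a2
    · rw [e1]
      exact c2
    · rw [f3]
      linarith
    · rw [f3]
      linarith
  · intro p
    refine ⟨?_, ?_, ?_, ?_⟩
    · rw [e0, x0]
      exact clamp_abs (KK_nn p) lx0 lx1
    · rw [e1, y1]
      have h := clamp_abs (k := KK (Bx p)) (x := (Bx p) 1) (KK_nn _) ly0 ly1
      rw [x1] at h
      rw [x1]
      exact h
    · intro h
      rw [e2, max_eq_left (by linarith), mul_zero, min_eq_left (KP_nn _), neg_zero, add_zero]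
    · intro h
      have h1 : 0 ≤ min (lz * max 0 (p 2 - (ze + w / 2))) (KP (By (Bx p))) :=
        le_min (mul_nonneg lz0 (le_max_left _ _)) (KP_nn _)
      have h2 := min_le_left (lz * max 0 (p 2 - (ze + w / 2))) (KP (By (Bx p)))
      have h3 : lz * max 0 (p 2 - (ze + w / 2)) ≤ p 2 - (ze + w / 2) := by
        rw [max_eq_right (by linarith)]
        have : lz * (p 2 - (ze + w / 2)) ≤ 1 * (p 2 - (ze + w / 2)) :=
          mul_le_mul_of_nonneg_right lz1.le (by linarith)
        linarith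
      rw [e2]
      constructor <;> linarith

end BOR

end
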