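import Pool.Agent.BOR.Defs

/-!
# BOR / Bas: coordinates, basic facts on similarities, signed coordinate permutations
-/

noncomputable section

namespace BOR

open Set

@[simp] theorem pt_0 (x y z : ℝ) : pt x y z 0 = x := by simp [pt]
@[simp] theorem pt_1 (x y z : ℝ) : pt x y z 1 = y := by simp [pt]
@[simp] theorem pt_2 (x y z : ℝ) : pt x y z 2 = z := by simp [pt]

theorem ext3 {p q : E3} (h0 : p 0 = q 0) (h1 : p 1 = q 1) (h2 : p 2 = q 2) : p = q := by
  ext i; fin_cases i <;> simp [h0, h1, h2]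

theorem pt_eta (p : E3) : pt (p 0) (p 1) (p 2) = p := ext3 (by simp) (by simp) (by simp)

theorem normsq (p : E3) : ‖p‖ ^ 2 = p 0 ^ 2 + p 1 ^ 2 + p 2 ^ 2 := by
  simp only [EuclideanSpace.norm_eq, Fin.sum_univ_three, Real.norm_eq_abs, sq_abs]
  rw [Real.sq_sqrt (by positivity)]

theorem distsq (p q : E3) :
    dist p q ^ 2 = (p 0 - q 0) ^ 2 + (p 1 - q 1) ^ 2 + (p 2 - q 2) ^ 2 := by
  rw [dist_eq_norm, normsq]; simp

theorem continuous_pt {X : Type*} [TopologicalSpace X] {f g h : X → ℝ} (hf : Continuous f)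
    (hg : Continuous g) (hh : Continuous h) : Continuous (fun x => pt (f x) (g x) (h x)) := by
  unfold pt
  fun_prop

theorem continuous_coord (i : Fin 3) : Continuous (fun p : E3 => p i) := by fun_prop

theorem abs_coord_le (p : E3) (i : Fin 3) : |p i| ≤ ‖p‖ := by
  have h := normsq p
  have h0 : 0 ≤ ‖p‖ := norm_nonneg p
  refine abs_le_of_sq_le_sq ?_ h0
  fin_cases i <;> simp only [Fin.zero_eta, Fin.mk_one, Fin.reduceFinMk] <;>
    nlinarith [sq_nonneg (p 0), sq_nonneg (p 1), sq_nonneg (p 2)]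

theorem abs_coord_sub_le (p q : E3) (i : Fin 3) : |p i - q i| ≤ dist p q := by
  have := abs_coord_le (p - q) i
  rw [dist_eq_norm]; simpa using this

/-- distance bound from coordinate bounds -/
theorem dist_le_of_coord {p q : E3} {a b c d : ℝ} (h0 : |p 0 - q 0| ≤ a) (h1 : |p 1 - q 1| ≤ b)
    (h2 : |p 2 - q 2| ≤ c) (hd : 0 ≤ d) (h : a ^ 2 + b ^ 2 + c ^ 2 ≤ d ^ 2) : dist p q ≤ d := by
  refine le_of_sq_le_sq ?_ hd
  rw [distsq]
  have e0 : (p 0 - q 0) ^ 2 ≤ a ^ 2 := sq_le_sq' (by linarith [neg_abs_le (p 0 - q 0)])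
    (by linarith [le_abs_self (p 0 - q 0)])
  have e1 : (p 1 - q 1) ^ 2 ≤ b ^ 2 := sq_le_sq' (by linarith [neg_abs_le (p 1 - q 1)])
    (by linarith [le_abs_self (p 1 - q 1)])
  have e2 : (p 2 - q 2) ^ 2 ≤ c ^ 2 := sq_le_sq' (by linarith [neg_abs_le (p 2 - q 2)])
    (by linarith [le_abs_self (p 2 - q 2)])
  linarith

/-- Parametrised segment from `p` (time `s`) to `q` (time `t`). -/
def sgm (p q : E3) (s t τ : ℝ) : E3 := p + ((τ - s) / (t - s)) • (q - p)

/-- support of the triangle move -/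
def TE (e : ℝ) : Set E3 :=
  {p | |p 0| < 1 ∧ |p 1| < e * (1 - |p 0|) ∧ -(e * (1 - |p 0|)) < p 2 ∧
    p 2 < (1 + e) * (1 - |p 0|)}

/-! ## Similarities -/

theorem Sim.app_def (F : Sim) (p : E3) : F p = F.s • F.U p + F.o := rfl

theorem Sim.dist_app (F : Sim) (p q : E3) : dist (F p) (F q) = F.s * dist p q := by
  simp only [Sim.app_def, dist_add_right]
  rw [dist_smul₀, Real.norm_eq_abs, abs_of_pos F.s_pos, F.U.dist_map]

theorem Sim.injective (F : Sim) : Function.Injective F := by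
  intro p q h
  have := F.dist_app p q
  rw [h, dist_self] at this
  have h2 := F.s_pos
  exact dist_eq_zero.1 (by
    rcases mul_eq_zero.1 this.symm with h | h
    · exact absurd h h2.ne'
    · exact h)

theorem Sim.continuous (F : Sim) : Continuous F := by
  have : (F : E3 → E3) = fun p => F.s • F.U p + F.o := rfl
  rw [this]
  exact ((F.U.continuous).const_smul F.s).add continuous_const

/-- The inverse similarity. -/
def Sim.inv (F : Sim) : Sim where
  s := F.s⁻¹
  s_pos := inv_pos.2 F.s_pos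
  U := F.U.symm
  o := -(F.s⁻¹ • F.U.symm F.o)

theorem Sim.inv_app (F : Sim) (p : E3) : F.inv (F p) = p := by
  have h := F.s_pos.ne'
  simp only [Sim.app_def, Sim.inv, map_add, map_smul, smul_add, smul_smul]
  rw [inv_mul_cancel₀ h]
  simp

theorem Sim.app_inv (F : Sim) (p : E3) : F (F.inv p) = p := by
  have h := F.s_pos.ne'
  simp only [Sim.app_def, Sim.inv, map_add, map_smul, map_neg, smul_add, smul_smul, smul_neg]
  rw [mul_inv_cancel₀ h]
  simp

/-- A similarity as a homeomorphism. -/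
def Sim.homeo (F : Sim) : E3 ≃ₜ E3 where
  toFun := F
  invFun := F.inv
  left_inv := F.inv_app
  right_inv := F.app_inv
  continuous_toFun := F.continuous
  continuous_invFun := F.inv.continuous

@[simp] theorem Sim.homeo_apply (F : Sim) (p : E3) : F.homeo p = F p := rfl
@[simp] theorem Sim.homeo_symm_apply (F : Sim) (p : E3) : F.homeo.symm p = F.inv p := rfl

/-- Composition of similarities: `(F.comp G) p = F (G p)`. -/
def Sim.comp (F G : Sim) : Sim where
  s := F.s * G.s
  s_pos := mul_pos F.s_pos G.s_pos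
  U := G.U.trans F.U
  o := F.s • F.U G.o + F.o

@[simp] theorem Sim.comp_s (F G : Sim) : (F.comp G).s = F.s * G.s := rfl

theorem Sim.comp_app (F G : Sim) (p : E3) : (F.comp G) p = F (G p) := by
  simp only [Sim.app_def, Sim.comp, LinearIsometryEquiv.trans_apply, map_add, map_smul, smul_add,
    smul_smul, add_assoc]

theorem Sim.comp_image (F G : Sim) (A : Set E3) : (F.comp G) '' A = F '' (G '' A) := by
  rw [Set.image_image]; exact Set.image_congr (fun p _ => F.comp_app G p)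

theorem Sim.comp_assoc (F G H : Sim) : (F.comp G).comp H = F.comp (G.comp H) := by
  unfold Sim.comp
  simp only [Sim.mk.injEq]
  refine ⟨mul_assoc _ _ _, ?_, ?_⟩
  · ext1 p; rfl
  · simp only [LinearIsometryEquiv.trans_apply, map_add, map_smul, smul_add, smul_smul, add_assoc]

/-- The identity similarity. -/
def Sim.one : Sim := ⟨1, one_pos, LinearIsometryEquiv.refl ℝ E3, 0⟩

@[simp] theorem Sim.one_app (p : E3) : Sim.one p = p := by simp [Sim.app_def, Sim.one]
@[simp] theorem Sim.one_s : Sim.one.s = 1 := rfl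

theorem Sim.comp_one (F : Sim) : F.comp Sim.one = F := by
  cases F
  unfold Sim.comp Sim.one
  simp only [Sim.mk.injEq]
  refine ⟨mul_one _, ?_, ?_⟩
  · ext1 p; rfl
  · simp

theorem Sim.one_comp (F : Sim) : Sim.one.comp F = F := by
  cases F
  unfold Sim.comp Sim.one
  simp only [Sim.mk.injEq]
  refine ⟨one_mul _, ?_, ?_⟩
  · ext1 p; rfl
  · simp

theorem Sim.map_comb (F : Sim) (p q : E3) (t : ℝ) :
    F (p + t • (q - p)) = F p + t • (F q - F p) := by
  simp only [Sim.app_def, map_add, map_smul, map_sub, smul_add, smul_sub, smul_smul]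
  rw [mul_comm F.s t]
  abel

theorem Sim.convex_image (F : Sim) {A : Set E3} (hA : Convex ℝ A) : Convex ℝ (F '' A) := by
  rintro _ ⟨p, hp, rfl⟩ _ ⟨q, hq, rfl⟩ a b ha hb hab
  refine ⟨a • p + b • q, hA hp hq ha hb hab, ?_⟩
  have h1 : a = 1 - b := by linarith
  have h2 : a • p + b • q = p + b • (q - p) := by rw [h1]; module
  rw [h2, F.map_comb, h1]; module

theorem Sim.isClosed_image (F : Sim) {A : Set E3} (hA : IsClosed A) : IsClosed (F '' A) :=
  (F.homeo.isClosed_image).2 hA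

theorem Sim.isOpen_image (F : Sim) {A : Set E3} (hA : IsOpen A) : IsOpen (F '' A) :=
  (F.homeo.isOpen_image).2 hA

theorem Sim.isCompact_image (F : Sim) {A : Set E3} (hA : IsCompact A) : IsCompact (F '' A) :=
  hA.image F.continuous

/-! ## Linear isometries given by signed coordinate permutations -/

/-- A linear isometry equivalence from explicit formulas. -/
def mkU (f finv : E3 → E3) (hadd : ∀ p q, f (p + q) = f p + f q)
    (hsmul : ∀ (c : ℝ) p, f (c • p) = c • f p) (h1 : ∀ p, finv (f p) = p)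
    (h2 : ∀ p, f (finv p) = p) (hn : ∀ p, ‖f p‖ = ‖p‖) : E3 ≃ₗᵢ[ℝ] E3 where
  toFun := f
  invFun := finv
  map_add' := hadd
  map_smul' := hsmul
  left_inv := h1
  right_inv := h2
  norm_map' := hn

theorem norm_eq_of_sq {p q : E3}
    (h : p 0 ^ 2 + p 1 ^ 2 + p 2 ^ 2 = q 0 ^ 2 + q 1 ^ 2 + q 2 ^ 2) : ‖p‖ = ‖q‖ := by
  have : ‖p‖ ^ 2 = ‖q‖ ^ 2 := by rw [normsq, normsq, h]
  exact (pow_left_inj₀ (norm_nonneg _) (norm_nonneg _) two_ne_zero).1 this

/-- `(x,y,z) ↦ (y,z,x)`; maps the first basis vector to the third. -/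
def Uzp : E3 ≃ₗᵢ[ℝ] E3 := mkU (fun p => pt (p 1) (p 2) (p 0)) (fun p => pt (p 2) (p 0) (p 1))
  (fun p q => ext3 (by simp) (by simp) (by simp)) (fun c p => ext3 (by simp) (by simp) (by simp))
  (fun p => ext3 (by simp) (by simp) (by simp)) (fun p => ext3 (by simp) (by simp) (by simp))
  (fun p => norm_eq_of_sq (by simp; ring))

/-- `(x,y,z) ↦ (-y,-z,-x)`; maps the first basis vector to minus the third. -/
def Uzm : E3 ≃ₗᵢ[ℝ] E3 := mkU (fun p => pt (-p 1) (-p 2) (-p 0)) (fun p => pt (-p 2) (-p 0) (-p 1))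
  (fun p q => ext3 (by simp; ring) (by simp; ring) (by simp; ring))
  (fun c p => ext3 (by simp) (by simp) (by simp))
  (fun p => ext3 (by simp) (by simp) (by simp)) (fun p => ext3 (by simp) (by simp) (by simp))
  (fun p => norm_eq_of_sq (by simp; ring))

/-- `(x,y,z) ↦ (-x,-y,-z)`. -/
def Uxm : E3 ≃ₗᵢ[ℝ] E3 := mkU (fun p => pt (-p 0) (-p 1) (-p 2)) (fun p => pt (-p 0) (-p 1) (-p 2))
  (fun p q => ext3 (by simp; ring) (by simp; ring) (by simp; ring))
  (fun c p => ext3 (by simp) (by simp) (by simp))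
  (fun p => ext3 (by simp) (by simp) (by simp)) (fun p => ext3 (by simp) (by simp) (by simp))
  (fun p => norm_eq_of_sq (by simp))

/-- `(x,y,z) ↦ (-z,x,y)`. -/
def UA1 : E3 ≃ₗᵢ[ℝ] E3 := mkU (fun p => pt (-p 2) (p 0) (p 1)) (fun p => pt (p 1) (p 2) (-p 0))
  (fun p q => ext3 (by simp; ring) (by simp) (by simp))
  (fun c p => ext3 (by simp) (by simp) (by simp))
  (fun p => ext3 (by simp) (by simp) (by simp)) (fun p => ext3 (by simp) (by simp) (by simp))
  (fun p => norm_eq_of_sq (by simp; ring))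

/-- `(x,y,z) ↦ (z,-x,y)`. -/
def UA2 : E3 ≃ₗᵢ[ℝ] E3 := mkU (fun p => pt (p 2) (-p 0) (p 1)) (fun p => pt (-p 1) (p 2) (p 0))
  (fun p q => ext3 (by simp) (by simp; ring) (by simp))
  (fun c p => ext3 (by simp) (by simp) (by simp))
  (fun p => ext3 (by simp) (by simp) (by simp)) (fun p => ext3 (by simp) (by simp) (by simp))
  (fun p => norm_eq_of_sq (by simp; ring))

theorem Uzp_app (p : E3) : Uzp p = pt (p 1) (p 2) (p 0) := rfl
theorem Uzm_app (p : E3) : Uzm p = pt (-p 1) (-p 2) (-p 0) := rfl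
theorem Uxm_app (p : E3) : Uxm p = pt (-p 0) (-p 1) (-p 2) := rfl
theorem UA1_app (p : E3) : UA1 p = pt (-p 2) (p 0) (p 1) := rfl
theorem UA2_app (p : E3) : UA2 p = pt (p 2) (-p 0) (p 1) := rfl

end BOR

end
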