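import Pool.Agent.BOR.TDef

/-!
# BOR / CRS: the regions of the groups meet only in the common vertices

PROOF (everything is linear arithmetic; `sg = 2/3`, so `6/5 sg = 4/5`; all widths `≤ g/1280`).
* OL, VL: `|p 2 - ze| ≤ 4/5 (-xi - p 0)` and `|p 0 + xi| ≤ 4/5 (p 2 - ze)`, so
  `|p 0 + xi| ≤ 16/25 |p 0 + xi|`, `p 0 = -xi`, `p 2 = ze`, `p 1 = 0`. VR, OR: mirror.
* VL, T1: body: `|p 2| ≤ 4/5 p 1`, and `|p 1| ≤ 4/5 (-p 2)`, so `p 1 = p 2 = 0`, `p 0 = -xi`; box: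
  `p 0 ≤ -xi - g/400` but `|p 0 + xi| ≤ g/1280`. T2, VR: mirror.
* T1, HB: body: `|p 0 + xi| ≤ 4/5 (2ss - p 1)`, `|p 1 - 2ss| ≤ 4/5 (p 0 + xi)`, so `p 0 = -xi`,
  `p 1 = 2ss`, `p 2 = 0`; box: `p 0 ≤ -xi - g/400` but `p 0 ≥ -xi`. HB, T2: mirror.
* T1, CL: body: `|p 0 + xi| ≤ 4/5 p 1`, `|p 1| ≤ 4/5 (p 0 + xi)`, so `p 0 = -xi`, `p 1 = 0`, `p 2 = 0`.
  CL, T2: mirror.
* disjoint pairs: OL/T1, OL/HB, OR/T2, OR/HB by the third coordinate (`ze + g/1280 < -1 + g/2`);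
  VL/HB, VR/HB, HB/CL by the second one (`2ss > 2.2 g`); left groups have `p 0 < 0` and right groups
  have `p 0 > 0`.
-/

noncomputable section

namespace BOR

open Set

private theorem mn {a x y : ℝ} (h : |a| ≤ 6 / 5 * sg * min x y) :
    a ≤ 4 / 5 * x ∧ -a ≤ 4 / 5 * x ∧ a ≤ 4 / 5 * y ∧ -a ≤ 4 / 5 * y := by
  rw [sg_def] at h
  have h1 : min x y ≤ x := min_le_left _ _
  have h2 : min x y ≤ y := min_le_right _ _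
  have h3 := le_abs_self a
  have h4 := neg_le_abs a
  refine ⟨?_, ?_, ?_, ?_⟩ <;> linarith

private theorem mb {a x y : ℝ} (h : |a| ≤ 4 / 5 * min x y) :
    a ≤ 4 / 5 * x ∧ -a ≤ 4 / 5 * x ∧ a ≤ 4 / 5 * y ∧ -a ≤ 4 / 5 * y := by
  have h1 : min x y ≤ x := min_le_left _ _
  have h2 : min x y ≤ y := min_le_right _ _
  have h3 := le_abs_self a
  have h4 := neg_le_abs a
  refine ⟨?_, ?_, ?_, ?_⟩ <;> linarith

private theorem ab {a c : ℝ} (h : |a| ≤ c) : a ≤ c ∧ -a ≤ c :=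
  ⟨le_trans (le_abs_self a) h, le_trans (neg_le_abs a) h⟩

theorem crOLVL : rgOL (6 / 5) ∩ rgVL (6 / 5) ⊆ {pai} := by
  rintro p ⟨hp, hq⟩
  have hg := g_pos
  have hx1 := xi_gt
  have hx2 := xi_lt
  have hs1 := ss_gt
  have hs2 := ss_lt
  have hz : ze = -1 - g / 8 := rfl
  have hg2 := g_le
  obtain ⟨ua, ub, uc, ud⟩ := hp
  obtain ⟨ua1, ua2, ua3, ua4⟩ := mn ua
  obtain ⟨ub1, ub2, ub3, ub4⟩ := mn ub
  obtain ⟨uc1, uc2⟩ := ab uc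
  obtain ⟨ud1, ud2⟩ := ab ud
  obtain ⟨va, vb, vc, vd⟩ := hq
  obtain ⟨va1, va2, va3, va4⟩ := mn va
  obtain ⟨vb1, vb2, vb3, vb4⟩ := mn vb
  obtain ⟨vc1, vc2⟩ := ab vc
  obtain ⟨vd1, vd2⟩ := ab vd
  refine mem_singleton_iff.2 (ext3 ?_ ?_ ?_)
  · rw [pai, pt_0]
    linarith
  · rw [pai, pt_1]
    linarith
  · rw [pai, pt_2]
    linarith

theorem crVRO : rgVR (6 / 5) ∩ rgOR (6 / 5) ⊆ {pbi} := by
  rintro p ⟨hp, hq⟩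
  have hg := g_pos
  have hx1 := xi_gt
  have hx2 := xi_lt
  have hs1 := ss_gt
  have hs2 := ss_lt
  have hz : ze = -1 - g / 8 := rfl
  have hg2 := g_le
  obtain ⟨ua, ub, uc, ud⟩ := hp
  obtain ⟨ua1, ua2, ua3, ua4⟩ := mn ua
  obtain ⟨ub1, ub2, ub3, ub4⟩ := mn ub
  obtain ⟨uc1, uc2⟩ := ab uc
  obtain ⟨ud1, ud2⟩ := ab ud
  obtain ⟨va, vb, vc, vd⟩ := hq
  obtain ⟨va1, va2, va3, va4⟩ := mn va
  obtain ⟨vb1, vb2, vb3, vb4⟩ := mn vb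
  obtain ⟨vc1, vc2⟩ := ab vc
  obtain ⟨vd1, vd2⟩ := ab vd
  refine mem_singleton_iff.2 (ext3 ?_ ?_ ?_)
  · rw [pbi, pt_0]
    linarith
  · rw [pbi, pt_1]
    linarith
  · rw [pbi, pt_2]
    linarith

theorem crVLT : rgVL (6 / 5) ∩ rgT1 ⊆ {P1m} := by
  rintro p ⟨hp, hq⟩
  have hg := g_pos
  have hx1 := xi_gt
  have hx2 := xi_lt
  have hs1 := ss_gt
  have hs2 := ss_lt
  have hz : ze = -1 - g / 8 := rfl
  have hg2 := g_le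
  obtain ⟨ua, ub, uc, ud⟩ := hp
  obtain ⟨ua1, ua2, ua3, ua4⟩ := mn ua
  obtain ⟨ub1, ub2, ub3, ub4⟩ := mn ub
  obtain ⟨uc1, uc2⟩ := ab uc
  obtain ⟨ud1, ud2⟩ := ab ud
  rcases hq with ⟨va, vb, vc, vd⟩ | ⟨va, vb, vc, vd⟩
  · obtain ⟨va1, va2, va3, va4⟩ := mb va
    obtain ⟨vb1, vb2, vb3, vb4⟩ := mb vb
    obtain ⟨vc1, vc2⟩ := ab vc
    obtain ⟨vd1, vd2⟩ := ab vd
    refine mem_singleton_iff.2 (ext3 ?_ ?_ ?_)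
    · rw [P1m, pt_0]
      linarith
    · rw [P1m, pt_1]
      linarith
    · rw [P1m, pt_2]
      linarith
  · obtain ⟨vc1, vc2⟩ := ab vc
    obtain ⟨vd1, vd2⟩ := ab vd
    exfalso
    linarith

theorem crTVR : rgT2 ∩ rgVR (6 / 5) ⊆ {P2m} := by
  rintro p ⟨hp, hq⟩
  have hg := g_pos
  have hx1 := xi_gt
  have hx2 := xi_lt
  have hs1 := ss_gt
  have hs2 := ss_lt
  have hz : ze = -1 - g / 8 := rfl
  have hg2 := g_le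
  obtain ⟨ua, ub, uc, ud⟩ := hq
  obtain ⟨ua1, ua2, ua3, ua4⟩ := mn ua
  obtain ⟨ub1, ub2, ub3, ub4⟩ := mn ub
  obtain ⟨uc1, uc2⟩ := ab uc
  obtain ⟨ud1, ud2⟩ := ab ud
  rcases hp with ⟨va, vb, vc, vd⟩ | ⟨va, vb, vc, vd⟩
  · obtain ⟨va1, va2, va3, va4⟩ := mb va
    obtain ⟨vb1, vb2, vb3, vb4⟩ := mb vb
    obtain ⟨vc1, vc2⟩ := ab vc
    obtain ⟨vd1, vd2⟩ := ab vd
    refine mem_singleton_iff.2 (ext3 ?_ ?_ ?_)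
    · rw [P2m, pt_0]
      linarith
    · rw [P2m, pt_1]
      linarith
    · rw [P2m, pt_2]
      linarith
  · obtain ⟨vc1, vc2⟩ := ab vc
    obtain ⟨vd1, vd2⟩ := ab vd
    exfalso
    linarith

theorem crTHB : rgT1 ∩ rgHB (6 / 5) ⊆ {P1p} := by
  rintro p ⟨hp, hq⟩
  have hg := g_pos
  have hx1 := xi_gt
  have hx2 := xi_lt
  have hs1 := ss_gt
  have hs2 := ss_lt
  have hz : ze = -1 - g / 8 := rfl
  have hg2 := g_le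
  obtain ⟨ua, ub, uc, ud⟩ := hq
  obtain ⟨ua1, ua2, ua3, ua4⟩ := mn ua
  obtain ⟨ub1, ub2, ub3, ub4⟩ := mn ub
  obtain ⟨uc1, uc2⟩ := ab uc
  obtain ⟨ud1, ud2⟩ := ab ud
  rcases hp with ⟨va, vb, vc, vd⟩ | ⟨va, vb, vc, vd⟩
  · obtain ⟨va1, va2, va3, va4⟩ := mb va
    obtain ⟨vb1, vb2, vb3, vb4⟩ := mb vb
    obtain ⟨vc1, vc2⟩ := ab vc
    obtain ⟨vd1, vd2⟩ := ab vd
    refine mem_singleton_iff.2 (ext3 ?_ ?_ ?_)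
    · rw [P1p, pt_0]
      linarith
    · rw [P1p, pt_1]
      linarith
    · rw [P1p, pt_2]
      linarith
  · obtain ⟨vc1, vc2⟩ := ab vc
    obtain ⟨vd1, vd2⟩ := ab vd
    exfalso
    linarith

theorem crHBT : rgHB (6 / 5) ∩ rgT2 ⊆ {P2p} := by
  rintro p ⟨hp, hq⟩
  have hg := g_pos
  have hx1 := xi_gt
  have hx2 := xi_lt
  have hs1 := ss_gt
  have hs2 := ss_lt
  have hz : ze = -1 - g / 8 := rfl
  have hg2 := g_le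
  obtain ⟨ua, ub, uc, ud⟩ := hp
  obtain ⟨ua1, ua2, ua3, ua4⟩ := mn ua
  obtain ⟨ub1, ub2, ub3, ub4⟩ := mn ub
  obtain ⟨uc1, uc2⟩ := ab uc
  obtain ⟨ud1, ud2⟩ := ab ud
  rcases hq with ⟨va, vb, vc, vd⟩ | ⟨va, vb, vc, vd⟩
  · obtain ⟨va1, va2, va3, va4⟩ := mb va
    obtain ⟨vb1, vb2, vb3, vb4⟩ := mb vb
    obtain ⟨vc1, vc2⟩ := ab vc
    obtain ⟨vd1, vd2⟩ := ab vd
    refine mem_singleton_iff.2 (ext3 ?_ ?_ ?_)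
    · rw [P2p, pt_0]
      linarith
    · rw [P2p, pt_1]
      linarith
    · rw [P2p, pt_2]
      linarith
  · obtain ⟨vc1, vc2⟩ := ab vc
    obtain ⟨vd1, vd2⟩ := ab vd
    exfalso
    linarith

theorem crTCL : rgT1 ∩ rgCL (6 / 5) ⊆ {P1m} := by
  rintro p ⟨hp, hq⟩
  have hg := g_pos
  have hx1 := xi_gt
  have hx2 := xi_lt
  have hs1 := ss_gt
  have hs2 := ss_lt
  have hz : ze = -1 - g / 8 := rfl
  have hg2 := g_le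
  obtain ⟨ua, ub, uc, ud⟩ := hq
  obtain ⟨ua1, ua2, ua3, ua4⟩ := mn ua
  obtain ⟨ub1, ub2, ub3, ub4⟩ := mn ub
  obtain ⟨uc1, uc2⟩ := ab uc
  obtain ⟨ud1, ud2⟩ := ab ud
  rcases hp with ⟨va, vb, vc, vd⟩ | ⟨va, vb, vc, vd⟩
  · obtain ⟨va1, va2, va3, va4⟩ := mb va
    obtain ⟨vb1, vb2, vb3, vb4⟩ := mb vb
    obtain ⟨vc1, vc2⟩ := ab vc
    obtain ⟨vd1, vd2⟩ := ab vd
    refine mem_singleton_iff.2 (ext3 ?_ ?_ ?_)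
    · rw [P1m, pt_0]
      linarith
    · rw [P1m, pt_1]
      linarith
    · rw [P1m, pt_2]
      linarith
  · obtain ⟨vc1, vc2⟩ := ab vc
    obtain ⟨vd1, vd2⟩ := ab vd
    exfalso
    linarith

theorem crTCL2 : rgT2 ∩ rgCL (6 / 5) ⊆ {P2m} := by
  rintro p ⟨hp, hq⟩
  have hg := g_pos
  have hx1 := xi_gt
  have hx2 := xi_lt
  have hs1 := ss_gt
  have hs2 := ss_lt
  have hz : ze = -1 - g / 8 := rfl
  have hg2 := g_le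
  obtain ⟨ua, ub, uc, ud⟩ := hq
  obtain ⟨ua1, ua2, ua3, ua4⟩ := mn ua
  obtain ⟨ub1, ub2, ub3, ub4⟩ := mn ub
  obtain ⟨uc1, uc2⟩ := ab uc
  obtain ⟨ud1, ud2⟩ := ab ud
  rcases hp with ⟨va, vb, vc, vd⟩ | ⟨va, vb, vc, vd⟩
  · obtain ⟨va1, va2, va3, va4⟩ := mb va
    obtain ⟨vb1, vb2, vb3, vb4⟩ := mb vb
    obtain ⟨vc1, vc2⟩ := ab vc
    obtain ⟨vd1, vd2⟩ := ab vd
    refine mem_singleton_iff.2 (ext3 ?_ ?_ ?_)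
    · rw [P2m, pt_0]
      linarith
    · rw [P2m, pt_1]
      linarith
    · rw [P2m, pt_2]
      linarith
  · obtain ⟨vc1, vc2⟩ := ab vc
    obtain ⟨vd1, vd2⟩ := ab vd
    exfalso
    linarith

theorem crOLT : rgOL (6 / 5) ∩ rgT1 = ∅ := by
  refine eq_empty_iff_forall_notMem.2 ?_
  rintro p ⟨hp, hq⟩
  have hg := g_pos
  have hx1 := xi_gt
  have hx2 := xi_lt
  have hs1 := ss_gt
  have hs2 := ss_lt
  have hz : ze = -1 - g / 8 := rfl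
  have hg2 := g_le
  obtain ⟨ua, ub, uc, ud⟩ := hp
  obtain ⟨ua1, ua2, ua3, ua4⟩ := mn ua
  obtain ⟨ub1, ub2, ub3, ub4⟩ := mn ub
  obtain ⟨uc1, uc2⟩ := ab uc
  obtain ⟨ud1, ud2⟩ := ab ud
  rcases hq with ⟨va, vb, vc, vd⟩ | ⟨va, vb, vc, vd⟩
  · obtain ⟨va1, va2, va3, va4⟩ := mb va
    obtain ⟨vb1, vb2, vb3, vb4⟩ := mb vb
    obtain ⟨vc1, vc2⟩ := ab vc
    obtain ⟨vd1, vd2⟩ := ab vd
    linarith
  · obtain ⟨vc1, vc2⟩ := ab vc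
    obtain ⟨vd1, vd2⟩ := ab vd
    linarith

theorem crOLHB : rgOL (6 / 5) ∩ rgHB (6 / 5) = ∅ := by
  refine eq_empty_iff_forall_notMem.2 ?_
  rintro p ⟨hp, hq⟩
  have hg := g_pos
  have hx1 := xi_gt
  have hx2 := xi_lt
  have hs1 := ss_gt
  have hs2 := ss_lt
  have hz : ze = -1 - g / 8 := rfl
  have hg2 := g_le
  obtain ⟨ua, ub, uc, ud⟩ := hp
  obtain ⟨ua1, ua2, ua3, ua4⟩ := mn ua
  obtain ⟨ub1, ub2, ub3, ub4⟩ := mn ub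
  obtain ⟨uc1, uc2⟩ := ab uc
  obtain ⟨ud1, ud2⟩ := ab ud
  obtain ⟨va, vb, vc, vd⟩ := hq
  obtain ⟨va1, va2, va3, va4⟩ := mn va
  obtain ⟨vb1, vb2, vb3, vb4⟩ := mn vb
  obtain ⟨vc1, vc2⟩ := ab vc
  obtain ⟨vd1, vd2⟩ := ab vd
  linarith

theorem crTOR : rgT2 ∩ rgOR (6 / 5) = ∅ := by
  refine eq_empty_iff_forall_notMem.2 ?_
  rintro p ⟨hp, hq⟩
  have hg := g_pos
  have hx1 := xi_gt
  have hx2 := xi_lt
  have hs1 := ss_gt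
  have hs2 := ss_lt
  have hz : ze = -1 - g / 8 := rfl
  have hg2 := g_le
  obtain ⟨ua, ub, uc, ud⟩ := hq
  obtain ⟨ua1, ua2, ua3, ua4⟩ := mn ua
  obtain ⟨ub1, ub2, ub3, ub4⟩ := mn ub
  obtain ⟨uc1, uc2⟩ := ab uc
  obtain ⟨ud1, ud2⟩ := ab ud
  rcases hp with ⟨va, vb, vc, vd⟩ | ⟨va, vb, vc, vd⟩
  · obtain ⟨va1, va2, va3, va4⟩ := mb va
    obtain ⟨vb1, vb2, vb3, vb4⟩ := mb vb
    obtain ⟨vc1, vc2⟩ := ab vc
    obtain ⟨vd1, vd2⟩ := ab vd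
    linarith
  · obtain ⟨vc1, vc2⟩ := ab vc
    obtain ⟨vd1, vd2⟩ := ab vd
    linarith

theorem crHBOR : rgHB (6 / 5) ∩ rgOR (6 / 5) = ∅ := by
  refine eq_empty_iff_forall_notMem.2 ?_
  rintro p ⟨hp, hq⟩
  have hg := g_pos
  have hx1 := xi_gt
  have hx2 := xi_lt
  have hs1 := ss_gt
  have hs2 := ss_lt
  have hz : ze = -1 - g / 8 := rfl
  have hg2 := g_le
  obtain ⟨ua, ub, uc, ud⟩ := hp
  obtain ⟨ua1, ua2, ua3, ua4⟩ := mn ua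
  obtain ⟨ub1, ub2, ub3, ub4⟩ := mn ub
  obtain ⟨uc1, uc2⟩ := ab uc
  obtain ⟨ud1, ud2⟩ := ab ud
  obtain ⟨va, vb, vc, vd⟩ := hq
  obtain ⟨va1, va2, va3, va4⟩ := mn va
  obtain ⟨vb1, vb2, vb3, vb4⟩ := mn vb
  obtain ⟨vc1, vc2⟩ := ab vc
  obtain ⟨vd1, vd2⟩ := ab vd
  linarith

theorem crVLHB : rgVL (6 / 5) ∩ rgHB (6 / 5) = ∅ := by
  refine eq_empty_iff_forall_notMem.2 ?_
  rintro p ⟨hp, hq⟩
  have hg := g_pos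
  have hx1 := xi_gt
  have hx2 := xi_lt
  have hs1 := ss_gt
  have hs2 := ss_lt
  have hz : ze = -1 - g / 8 := rfl
  have hg2 := g_le
  obtain ⟨ua, ub, uc, ud⟩ := hp
  obtain ⟨ua1, ua2, ua3, ua4⟩ := mn ua
  obtain ⟨ub1, ub2, ub3, ub4⟩ := mn ub
  obtain ⟨uc1, uc2⟩ := ab uc
  obtain ⟨ud1, ud2⟩ := ab ud
  obtain ⟨va, vb, vc, vd⟩ := hq
  obtain ⟨va1, va2, va3, va4⟩ := mn va
  obtain ⟨vb1, vb2, vb3, vb4⟩ := mn vb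
  obtain ⟨vc1, vc2⟩ := ab vc
  obtain ⟨vd1, vd2⟩ := ab vd
  linarith

theorem crHBVR : rgHB (6 / 5) ∩ rgVR (6 / 5) = ∅ := by
  refine eq_empty_iff_forall_notMem.2 ?_
  rintro p ⟨hp, hq⟩
  have hg := g_pos
  have hx1 := xi_gt
  have hx2 := xi_lt
  have hs1 := ss_gt
  have hs2 := ss_lt
  have hz : ze = -1 - g / 8 := rfl
  have hg2 := g_le
  obtain ⟨ua, ub, uc, ud⟩ := hp
  obtain ⟨ua1, ua2, ua3, ua4⟩ := mn ua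
  obtain ⟨ub1, ub2, ub3, ub4⟩ := mn ub
  obtain ⟨uc1, uc2⟩ := ab uc
  obtain ⟨ud1, ud2⟩ := ab ud
  obtain ⟨va, vb, vc, vd⟩ := hq
  obtain ⟨va1, va2, va3, va4⟩ := mn va
  obtain ⟨vb1, vb2, vb3, vb4⟩ := mn vb
  obtain ⟨vc1, vc2⟩ := ab vc
  obtain ⟨vd1, vd2⟩ := ab vd
  linarith

theorem crHBCL : rgHB (6 / 5) ∩ rgCL (6 / 5) = ∅ := by
  refine eq_empty_iff_forall_notMem.2 ?_
  rintro p ⟨hp, hq⟩
  have hg := g_pos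
  have hx1 := xi_gt
  have hx2 := xi_lt
  have hs1 := ss_gt
  have hs2 := ss_lt
  have hz : ze = -1 - g / 8 := rfl
  have hg2 := g_le
  obtain ⟨ua, ub, uc, ud⟩ := hp
  obtain ⟨ua1, ua2, ua3, ua4⟩ := mn ua
  obtain ⟨ub1, ub2, ub3, ub4⟩ := mn ub
  obtain ⟨uc1, uc2⟩ := ab uc
  obtain ⟨ud1, ud2⟩ := ab ud
  obtain ⟨va, vb, vc, vd⟩ := hq
  obtain ⟨va1, va2, va3, va4⟩ := mn va
  obtain ⟨vb1, vb2, vb3, vb4⟩ := mn vb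
  obtain ⟨vc1, vc2⟩ := ab vc
  obtain ⟨vd1, vd2⟩ := ab vd
  linarith

theorem left_neg : rgOL (6 / 5) ∪ rgVL (6 / 5) ∪ rgT1 ⊆ {p | p 0 < 0} := by
  have hg := g_pos
  have hx1 := xi_gt
  have hx2 := xi_lt
  have hs1 := ss_gt
  have hs2 := ss_lt
  have hz : ze = -1 - g / 8 := rfl
  have hg2 := g_le
  rintro p ((hp | hp) | hp)
  · obtain ⟨ua, ub, uc, ud⟩ := hp
    obtain ⟨ua1, ua2, ua3, ua4⟩ := mn ua
    obtain ⟨ub1, ub2, ub3, ub4⟩ := mn ub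
    obtain ⟨uc1, uc2⟩ := ab uc
    obtain ⟨ud1, ud2⟩ := ab ud
    show p 0 < 0
    linarith
  · obtain ⟨ua, ub, uc, ud⟩ := hp
    obtain ⟨ua1, ua2, ua3, ua4⟩ := mn ua
    obtain ⟨ub1, ub2, ub3, ub4⟩ := mn ub
    obtain ⟨uc1, uc2⟩ := ab uc
    obtain ⟨ud1, ud2⟩ := ab ud
    show p 0 < 0
    linarith
  · rcases hp with ⟨va, vb, vc, vd⟩ | ⟨va, vb, vc, vd⟩
    · obtain ⟨va1, va2, va3, va4⟩ := mb va
      obtain ⟨vb1, vb2, vb3, vb4⟩ := mb vb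
      obtain ⟨vc1, vc2⟩ := ab vc
      obtain ⟨vd1, vd2⟩ := ab vd
      show p 0 < 0
      linarith
    · obtain ⟨vc1, vc2⟩ := ab vc
      obtain ⟨vd1, vd2⟩ := ab vd
      show p 0 < 0
      linarith

theorem right_pos : rgOR (6 / 5) ∪ rgVR (6 / 5) ∪ rgT2 ⊆ {p | 0 < p 0} := by
  have hg := g_pos
  have hx1 := xi_gt
  have hx2 := xi_lt
  have hs1 := ss_gt
  have hs2 := ss_lt
  have hz : ze = -1 - g / 8 := rfl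
  have hg2 := g_le
  rintro p ((hp | hp) | hp)
  · obtain ⟨ua, ub, uc, ud⟩ := hp
    obtain ⟨ua1, ua2, ua3, ua4⟩ := mn ua
    obtain ⟨ub1, ub2, ub3, ub4⟩ := mn ub
    obtain ⟨uc1, uc2⟩ := ab uc
    obtain ⟨ud1, ud2⟩ := ab ud
    show 0 < p 0
    linarith
  · obtain ⟨ua, ub, uc, ud⟩ := hp
    obtain ⟨ua1, ua2, ua3, ua4⟩ := mn ua
    obtain ⟨ub1, ub2, ub3, ub4⟩ := mn ub
    obtain ⟨uc1, uc2⟩ := ab uc
    obtain ⟨ud1, ud2⟩ := ab ud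
    show 0 < p 0
    linarith
  · rcases hp with ⟨va, vb, vc, vd⟩ | ⟨va, vb, vc, vd⟩
    · obtain ⟨va1, va2, va3, va4⟩ := mb va
      obtain ⟨vb1, vb2, vb3, vb4⟩ := mb vb
      obtain ⟨vc1, vc2⟩ := ab vc
      obtain ⟨vd1, vd2⟩ := ab vd
      show 0 < p 0
      linarith
    · obtain ⟨vc1, vc2⟩ := ab vc
      obtain ⟨vd1, vd2⟩ := ab vd
      show 0 < p 0
      linarith

end BOR

end
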