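import Pool.Agent.BOR.Num

/-!
# BOR / DEN: the descendants of a T cell are dense in the box

PROOF.
* `half`: `FT1 '' HB` is the box `[-al² + g al²/2, -g al²/2] × [ss - (1-g) al, ss + (1-g) al] ×`
  `[-(1-g), 1-g]` (`FT1 (x,y,z) = (-al²/2 - r z, ss + r x, r y)`, `r = al²/2 - g al²/2`,
  `r_mul_al_sq`, `r_mul_al`), `FT2 '' HB` is its mirror image. If `z 0 ≤ 0` take `FT1` and clamp the
  coordinates of `z` to the box: the first changes by at most `g al²/2 ≤ 0.8 g`, the second one by at
  most `ss + g al ≤ 2.37 g`, the third one by at most `g`; `0.8² + 2.37² + 1 ≤ 9`. If `z 0 ≥ 0` take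
  `FT2`.
* `dens`: induction on `n`, generalizing `F`, `z`. `n = 0`: `l = []`, `q = z` (`Sim.comp_one`).
  Step: `z = F z'`; by `half` there are `i` and `q' ∈ FT_i '' HB` with `dist z' q' ≤ 3 g`; `q₁ = F q'` is
  in `(F.comp FT_i) '' HB`, `dist z q₁ ≤ 3 g F.s`. Induction for `F.comp FT_i`, `q₁` gives `l'` and
  `q₂`, `dist q₁ q₂ ≤ 15 g r F.s`, and `(F.comp FT_i).comp (Fw l') = F.comp (Fw (i :: l'))`
  (`Sim.comp_assoc`). `3 + 15 r ≤ 15` because `r < 0.7938`.
-/

noncomputable section

namespace BOR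

open Set

theorem Fw_s (l : List Bool) : (Fw l).s = r ^ l.length := by
  induction l with
  | nil => simp [Fw]
  | cons i l ih =>
    have h : ((if i then FT1 else FT2 : Sim)).s = r := by cases i <;> rfl
    simp only [Fw, Sim.comp_s, ih, h, List.length_cons]
    ring

theorem Fw_append (l l' : List Bool) : Fw (l ++ l') = (Fw l).comp (Fw l') := by
  induction l with
  | nil => simp only [List.nil_append, Fw, Sim.one_comp]
  | cons i l ih =>
    simp only [List.cons_append, Fw, ih, Sim.comp_assoc]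

private theorem clampX {x c B : ℝ} (hc : 0 ≤ c) (hx : |x| ≤ B) (hcB : c ≤ B) :
    ∃ y : ℝ, |y| ≤ c ∧ |x - y| ≤ B - c := by
  rw [abs_le] at hx
  rcases le_total x (-c) with h | h
  · refine ⟨-c, by rw [abs_neg, abs_of_nonneg hc], ?_⟩
    rw [abs_le]; constructor <;> linarith
  · rcases le_total x c with h' | h'
    · refine ⟨x, abs_le.2 ⟨h, h'⟩, ?_⟩
      rw [sub_self, abs_zero]; linarith
    · refine ⟨c, by rw [abs_of_nonneg hc], ?_⟩
      rw [abs_le]; constructor <;> linarith

private theorem divX {y c : ℝ} (h : |y| ≤ r * c) : |y / r| ≤ c := by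
  have hr := r_pos
  rw [abs_div, abs_of_pos hr, div_le_iff₀ hr, mul_comm]
  exact h

private theorem FT1_app (p : E3) :
    FT1 p = pt (-al ^ 2 / 2 - r * p 2) (ss + r * p 0) (r * p 1) := by
  rw [Sim.app_def]
  refine ext3 ?_ ?_ ?_
  · simp [FT1, UA1_app]; ring
  · simp [FT1, UA1_app]; ring
  · simp [FT1, UA1_app]

private theorem FT2_app (p : E3) :
    FT2 p = pt (al ^ 2 / 2 + r * p 2) (ss - r * p 0) (r * p 1) := by
  rw [Sim.app_def]
  refine ext3 ?_ ?_ ?_
  · simp [FT2, UA2_app]; ring
  · simp [FT2, UA2_app]; ring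
  · simp [FT2, UA2_app]

theorem half {z : E3} (hz : z ∈ HB) : ∃ i : Bool, ∃ q ∈ (if i then FT1 else FT2 : Sim) '' HB,
    dist z q ≤ 3 * g := by
  obtain ⟨h0, h1, h2⟩ := hz
  have hr := r_pos
  have hr0 := hr.ne'
  have hg := g_pos
  have hal := al_pos
  have hss := ss_pos
  have ha := al_lt
  have ha2 := al_sq_lt
  have hs := ss_lt
  have hrd : r = al ^ 2 / 2 - g * al ^ 2 / 2 := by unfold r; ring
  have hra := r_mul_al
  have hraa := r_mul_al_sq
  have hga : 0 < g * al := mul_pos hg hal
  have hga2 : g * al ^ 2 < 1.5876 * g := by nlinarith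
  have hga3 : g * al < 1.26 * g := by nlinarith
  have hga4 : 0 < g * al ^ 2 := mul_pos hg al_sq_pos
  rw [abs_le] at h0 h1 h2
  obtain ⟨y1, hy1, hy1'⟩ := clampX (x := z 2) (c := r * al) (B := 1) (by positivity)
    (abs_le.2 h2) (by rw [hra]; linarith)
  rcases le_total (z 0) 0 with hz0 | hz0
  · obtain ⟨y2, hy2, hy2'⟩ := clampX (x := -(z 0) - al ^ 2 / 2) (c := r * 1) (B := al ^ 2 / 2)
      (by positivity) (by rw [abs_le]; constructor <;> linarith [h0.1]) (by rw [mul_one, hrd]; linarith)
    obtain ⟨y0, hy0, hy0'⟩ := clampX (x := z 1 - ss) (c := r * al ^ 2) (B := al + ss)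
      (by positivity) (by rw [abs_le]; constructor <;> linarith [h1.1, h1.2])
      (by rw [hraa]; nlinarith)
    refine ⟨true, FT1 (pt (y0 / r) (y1 / r) (y2 / r)), ⟨_, ⟨?_, ?_, ?_⟩, rfl⟩, ?_⟩
    · simpa using divX hy0
    · simpa using divX hy1
    · simpa using divX hy2
    · rw [FT1_app]
      refine dist_le_of_coord (a := 0.8 * g) (b := 2.37 * g) (c := g) ?_ ?_ ?_ (by linarith)
        (by nlinarith [mul_pos hg hg])
      · simp only [pt_0, pt_2]
        have e : z 0 - (-al ^ 2 / 2 - r * (y2 / r)) = -(-(z 0) - al ^ 2 / 2 - y2) := by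
          field_simp; ring
        rw [e, abs_neg]
        refine hy2'.trans ?_
        rw [mul_one, hrd]; linarith
      · simp only [pt_0, pt_1]
        have e : z 1 - (ss + r * (y0 / r)) = z 1 - ss - y0 := by
          field_simp; ring
        rw [e]
        refine hy0'.trans ?_
        rw [hraa]; nlinarith
      · simp only [pt_1, pt_2]
        have e : z 2 - r * (y1 / r) = z 2 - y1 := by
          field_simp
        rw [e]
        refine hy1'.trans ?_
        rw [hra]; linarith
  · obtain ⟨y2, hy2, hy2'⟩ := clampX (x := z 0 - al ^ 2 / 2) (c := r * 1) (B := al ^ 2 / 2)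
      (by positivity) (by rw [abs_le]; constructor <;> linarith [h0.2]) (by rw [mul_one, hrd]; linarith)
    obtain ⟨y0, hy0, hy0'⟩ := clampX (x := ss - z 1) (c := r * al ^ 2) (B := al + ss)
      (by positivity) (by rw [abs_le]; constructor <;> linarith [h1.1, h1.2])
      (by rw [hraa]; nlinarith)
    refine ⟨false, FT2 (pt (y0 / r) (y1 / r) (y2 / r)), ⟨_, ⟨?_, ?_, ?_⟩, rfl⟩, ?_⟩
    · simpa using divX hy0
    · simpa using divX hy1
    · simpa using divX hy2
    · rw [FT2_app]
      refine dist_le_of_coord (a := 0.8 * g) (b := 2.37 * g) (c := g) ?_ ?_ ?_ (by linarith)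
        (by nlinarith [mul_pos hg hg])
      · simp only [pt_0, pt_2]
        have e : z 0 - (al ^ 2 / 2 + r * (y2 / r)) = z 0 - al ^ 2 / 2 - y2 := by
          field_simp; ring
        rw [e]
        refine hy2'.trans ?_
        rw [mul_one, hrd]; linarith
      · simp only [pt_0, pt_1]
        have e : z 1 - (ss - r * (y0 / r)) = -(ss - z 1 - y0) := by
          field_simp; ring
        rw [e, abs_neg]
        refine hy0'.trans ?_
        rw [hraa]; nlinarith
      · simp only [pt_1, pt_2]
        have e : z 2 - r * (y1 / r) = z 2 - y1 := by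
          field_simp
        rw [e]
        refine hy1'.trans ?_
        rw [hra]; linarith

theorem dens (n : ℕ) (F : Sim) {z : E3} (hz : z ∈ F '' HB) :
    ∃ l : List Bool, l.length = n ∧ ∃ q ∈ (F.comp (Fw l)) '' HB, dist z q ≤ 15 * g * F.s := by
  have hg := g_pos
  induction n generalizing F z with
  | zero =>
    refine ⟨[], rfl, z, ?_, ?_⟩
    · simp only [Fw, Sim.comp_one]; exact hz
    · rw [dist_self]; have := F.s_pos; positivity
  | succ n ih =>
    obtain ⟨z', hz', rfl⟩ := hz
    obtain ⟨i, q', hq', hd⟩ := half hz'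
    have hi : ((if i then FT1 else FT2 : Sim)).s = r := by cases i <;> rfl
    have hq1 : F q' ∈ (F.comp (if i then FT1 else FT2)) '' HB := by
      rw [Sim.comp_image]; exact mem_image_of_mem _ hq'
    obtain ⟨l', hl', q2, hq2, hd2⟩ := ih (F.comp (if i then FT1 else FT2)) hq1
    refine ⟨i :: l', by rw [List.length_cons, hl'], q2, ?_, ?_⟩
    · rw [Sim.comp_assoc] at hq2
      exact hq2
    · rw [Sim.comp_s, hi] at hd2
      have h1 : dist (F z') (F q') ≤ F.s * (3 * g) := by
        rw [F.dist_app]; exact mul_le_mul_of_nonneg_left hd F.s_pos.le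
      have h2 := dist_triangle (F z') (F q') q2
      have h3 : 0 < g * F.s := mul_pos hg F.s_pos
      have h4 := r_lt
      have h5 : 15 * g * (F.s * r) ≤ 15 * 0.7938 * (g * F.s) := by nlinarith
      nlinarith

end BOR

end
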