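import Mathlib

/-!
# BOR / Defs: links in three-space, similarities, unknots and the Borromean rings

Statement level definitions for MP_f235b7_gt.
-/

noncomputable section

namespace BOR

/-- Euclidean three-space. -/
abbrev E3 := EuclideanSpace ℝ (Fin 3)

/-- The point with coordinates `x`, `y`, `z`. -/
def pt (x y z : ℝ) : E3 := !₂[x, y, z]

/-- A similarity of three-space: `p ↦ s • U p + o` with `s > 0` and `U` a linear isometry
(orientation preserving or not), i.e. the composition of an isometry and a scaling. -/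
structure Sim where
  s : ℝ
  s_pos : 0 < s
  U : E3 ≃ₗᵢ[ℝ] E3
  o : E3

/-- The map given by a similarity. -/
def Sim.app (F : Sim) (p : E3) : E3 := F.s • F.U p + F.o

instance : CoeFun Sim (fun _ => E3 → E3) := ⟨Sim.app⟩

/-- The unit circle in the plane `z = 0`. -/
def unitCircle : Set E3 := {p | p 0 ^ 2 + p 1 ^ 2 = 1 ∧ p 2 = 0}

/-- Unknots: images of the unit circle under a homeomorphism of three-space. -/
def IsUnknot (K : Set E3) : Prop := ∃ φ : E3 ≃ₜ E3, φ '' unitCircle = K

/-- Round circles: images of the unit circle under a similarity. -/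
def IsCircle (K : Set E3) : Prop := ∃ F : Sim, F '' unitCircle = K

/-- The three components of the standard Borromean rings: three ellipses with semiaxes
2 and 1 in the three coordinate planes. -/
def bor : Fin 3 → Set E3
  | 0 => {p | p 0 ^ 2 / 4 + p 1 ^ 2 = 1 ∧ p 2 = 0}
  | 1 => {p | p 1 ^ 2 / 4 + p 2 ^ 2 = 1 ∧ p 0 = 0}
  | 2 => {p | p 2 ^ 2 / 4 + p 0 ^ 2 = 1 ∧ p 1 = 0}

/-- The three sets `L 0, L 1, L 2` form the Borromean rings, up to a homeomorphism of
three-space and up to the order of the components. -/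
def IsBorromean (L : Fin 3 → Set E3) : Prop :=
  ∃ φ : E3 ≃ₜ E3, ∃ π : Equiv.Perm (Fin 3), ∀ i, φ '' (L i) = bor (π i)

/-- `A` is contractible to a point in the complement of `B`: there is a homotopy of the
inclusion of `A` to a constant map which avoids `B`. -/
def NullIn (A B : Set E3) : Prop :=
  ∃ H : ℝ → E3 → E3,
    ContinuousOn (fun q : ℝ × E3 => H q.1 q.2) (Set.Icc 0 1 ×ˢ A) ∧
    (∀ x ∈ A, H 0 x = x) ∧ (∃ p, ∀ x ∈ A, H 1 x = p) ∧
    ∀ t ∈ Set.Icc (0 : ℝ) 1, ∀ x ∈ A, H t x ∉ B

end BOR

end
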