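import Pool.Agent.BOR.Bas

/-!
# BOR / FIB: the fiber lemma

A continuous bounded displacement `D` in the direction of one coordinate axis, such that
`p_i + D p` is strictly increasing along the axis, gives a homeomorphism of three-space.

PROOF. Let `f p = p + D p • e_i`, continuous. Injective: if `f p = f q` then all coordinates
other than `i` agree, so `q = p + t • e_i` for a real `t`, and `t + D q = D p`; `t > 0` and `t < 0`
are excluded by `hmono` (use it at `p`, resp. at `q`), so `t = 0`. Surjective: for `y`, the function
`t ↦ t + D (y + t • e_i)` is continuous, tends to plus/minus infinity (D is bounded), so it has a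
zero `t` (intermediate value theorem on `[-C, C]`: at `t = -C` the value is `≤ 0`, at `t = C` it is
`≥ 0`), and `f (y + t • e_i) = y`. The inverse is continuous: `f` is proper
(`dist (f p) p ≤ C`, so preimages of bounded sets are bounded), hence a closed map; e.g.
use `Continuous.continuous_symm_of_equiv...` or: `IsClosedMap` from
`isProperMap`/`Topology.IsClosedEmbedding` by tendsto cocompact (`‖f p‖ → ∞`), then
`Equiv.toHomeomorphOfContinuousClosed` or similar. Alternative: direct epsilon argument.
-/

noncomputable section

namespace BOR

theorem fiber (i : Fin 3) (D : E3 → ℝ) (hD : Continuous D) (C : ℝ) (hC : ∀ p, |D p| ≤ C)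
    (hmono : ∀ (p : E3) (t : ℝ), 0 < t → D p < D (p + t • EuclideanSpace.single i (1 : ℝ)) + t) :
    ∃ φ : E3 ≃ₜ E3, ∀ p, φ p = p + D p • EuclideanSpace.single i (1 : ℝ) := by
  have hCnn : 0 ≤ C := (abs_nonneg _).trans (hC 0)
  let e : E3 := EuclideanSpace.single i (1 : ℝ)
  have hen : ‖e‖ = 1 := by simp [e]
  let f : E3 → E3 := fun p => p + D p • e
  have hfc : Continuous f := continuous_id.add (hD.smul continuous_const)
  have hinj : Function.Injective f := by
    intro p q hpq
    have h1 : p + D p • e = q + D q • e := hpq
    have h2 : q = p + (D p - D q) • e := by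
      rw [sub_smul, ← add_sub_assoc, h1, add_sub_cancel_right]
    rcases lt_trichotomy (D p - D q) 0 with h | h | h
    · have h3 : p = q + (D q - D p) • e := by
        rw [sub_smul, ← add_sub_assoc, ← h1, add_sub_cancel_right]
      have h4 := hmono q (D q - D p) (by linarith)
      change D q < D (q + (D q - D p) • e) + (D q - D p) at h4
      rw [← h3] at h4
      linarith
    · rw [h2, h]; simp
    · have h4 := hmono p (D p - D q) h
      change D p < D (p + (D p - D q) • e) + (D p - D q) at h4
      rw [← h2] at h4
      linarith
  have hsurj : Function.Surjective f := by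
    intro y
    have hgc : Continuous (fun t : ℝ => t + D (y + t • e)) :=
      continuous_id.add (hD.comp (continuous_const.add (continuous_id.smul continuous_const)))
    have h0 : (0 : ℝ) ∈ (fun t : ℝ => t + D (y + t • e)) '' Set.Icc (-C) C := by
      apply intermediate_value_Icc (by linarith) hgc.continuousOn
      constructor
      · have := hC (y + (-C) • e)
        have := (abs_le.1 this).2
        change -C + D (y + (-C) • e) ≤ 0
        linarith
      · have := hC (y + C • e)
        have := (abs_le.1 this).1
        change 0 ≤ C + D (y + C • e)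
        linarith
    obtain ⟨t, -, ht⟩ := h0
    refine ⟨y + t • e, ?_⟩
    change y + t • e + D (y + t • e) • e = y
    rw [add_assoc, ← add_smul]
    change t + D (y + t • e) = 0 at ht
    rw [ht]; simp
  have htend : Filter.Tendsto f (Filter.cocompact E3) (Filter.cocompact E3) := by
    rw [← Metric.cobounded_eq_cocompact, ← tendsto_norm_atTop_iff_cobounded]
    have h1 : Filter.Tendsto (fun p : E3 => ‖p‖ + (-C)) (Bornology.cobounded E3) Filter.atTop :=
      Filter.tendsto_atTop_add_const_right _ _ tendsto_norm_cobounded_atTop
    refine Filter.tendsto_atTop_mono (fun p => ?_) h1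
    have h2 : ‖D p • e‖ ≤ C := by
      rw [norm_smul, hen, mul_one, Real.norm_eq_abs]; exact hC p
    have h3 : ‖p‖ ≤ ‖f p‖ + ‖D p • e‖ := by
      have : p = f p - D p • e := by simp [f]
      calc ‖p‖ = ‖f p - D p • e‖ := by rw [← this]
        _ ≤ _ := norm_sub_le _ _
    linarith
  have hprop : IsProperMap f := isProperMap_iff_tendsto_cocompact.2 ⟨hfc, htend⟩
  let E : E3 ≃ E3 := Equiv.ofBijective f ⟨hinj, hsurj⟩
  exact ⟨E.toHomeomorphOfContinuousClosed hfc hprop.isClosedMap, fun p => rfl⟩

end BOR

end
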