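import Pool.Agent.BOR.HSC

/-!
# BOR / NCI: the limit curve is not a circle

PROOF. Let `M = NT (2 xi)`, `M + 1 ≥ 3` (`2 xi / l0 ≥ 700`). The nodes
`v_j = strN FHB M (1/4) (1/2) true j`, `j = 0, 1, 2`, are in `lev 0 = rootL`; their starting points are
`gam0 v_j.t0 = v_j.edge v_j.t0 = FHB (pt (j/(M+1)) 0 0) = (-xi + 2 xi j/(M+1), 2 ss, 0) =: q_j`
(`root_edge`), and by `limit_fix` `q_j = k (gam0 v_j.t0) ∈ k '' K0`. They are distinct and `q_1` is
the midpoint of `q_0` and `q_2`. If `k '' K0 = F '' unitCircle`, then `q_j = F u_j` with `u_j` on the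
unit circle, `‖u_j‖ = 1`, and `u_1` is the midpoint of `u_0, u_2` (`F` is affine and injective,
`Sim.map_comb` with `t = 1/2`). So `‖(u_0 + u_2)/2‖ = 1 = ‖u_0‖ = ‖u_2‖`, and
`‖u_0 - u_2‖² = 2 + 2 - 4 = 0`, `u_0 = u_2`, contradiction.
-/

noncomputable section

namespace BOR

open Set

private theorem nt_two : 2 ≤ NT (2 * xi) := by
  unfold NT
  apply Nat.le_floor
  have hl := l0_pos
  rw [le_div_iff₀ hl]
  have h := xi_gt
  have h2 := l0_def
  have h3 := g_pos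
  push_cast
  nlinarith

private theorem q_mem {k : E3 ≃ₜ E3} {h : ℕ → E3 ≃ₜ E3} (H : IsLimit k h) {j : ℕ} (hj : j ≤ 2) :
    pt (-xi + 2 * xi * ((j : ℝ) / ((NT (2 * xi) : ℝ) + 1))) (2 * ss) 0 ∈ k '' K0 := by
  set M := NT (2 * xi) with hM
  have h2 : 2 ≤ M := nt_two
  have hM0 : (0 : ℝ) < (M : ℝ) + 1 := by positivity
  have hv : strN FHB M (1 / 4) (1 / 2) true j ∈ lev 0 := by
    unfold lev rootL str
    rw [← hM]
    simp only [List.mem_append, List.mem_map, List.mem_range]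
    left; left; right
    exact ⟨j, by omega, rfl⟩
  have hu0 : 0 ≤ (j : ℝ) / ((M : ℝ) + 1) := by positivity
  have hu1 : (j : ℝ) / ((M : ℝ) + 1) ≤ 1 := by
    rw [div_le_one hM0]
    have : j ≤ M := by omega
    have : (j : ℝ) ≤ M := by exact_mod_cast this
    linarith
  have ht : (strN FHB M (1 / 4) (1 / 2) true j).t0 = 1 / 4 + (1 / 2 - 1 / 4) * ((j : ℝ) / ((M : ℝ) + 1)) :=
    rfl
  have hf := limit_fix H hv
  rw [ht] at hf
  generalize (j : ℝ) / ((M : ℝ) + 1) = u at hu0 hu1 hf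
  have hg : gam0 (1 / 4 + (1 / 2 - 1 / 4) * u) = pt (-xi + 2 * xi * u) (2 * ss) 0 := by
    unfold gam0
    split_ifs with c1 c2 c3
    · have : u = 0 := by linarith
      subst this
      unfold sgm
      apply ext3 <;> simp <;> ring_nf
    · unfold sgm
      apply ext3 <;> simp <;> ring
    · exfalso; linarith
    · exfalso; linarith
  rw [hg] at hf
  refine ⟨pt (-xi + 2 * xi * u) (2 * ss) 0, ?_, hf⟩
  refine ⟨1 / 4 + (1 / 2 - 1 / 4) * u, ⟨by linarith, by linarith⟩, hg⟩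

theorem not_circle {k : E3 ≃ₜ E3} {h : ℕ → E3 ≃ₜ E3} (H : IsLimit k h) :
    ¬ IsCircle (k '' K0) := by
  rintro ⟨F, hF⟩
  have h0 := q_mem H (j := 0) (by norm_num)
  have h1 := q_mem H (j := 1) (by norm_num)
  have h2 := q_mem H (j := 2) (by norm_num)
  rw [← hF] at h0 h1 h2
  obtain ⟨a, ha, ea⟩ := h0
  obtain ⟨b, hb, eb⟩ := h1
  obtain ⟨c, hc, ec⟩ := h2
  have hM0 : (0 : ℝ) < (NT (2 * xi) : ℝ) + 1 := by positivity
  have hxi := xi_pos
  have hne : a ≠ c := by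
    rintro rfl
    rw [ea] at ec
    have := congrArg (fun p : E3 => p 0) ec
    simp only [pt_0] at this
    have e : 2 * xi * ((2 : ℕ) / ((NT (2 * xi) : ℝ) + 1)) = 0 := by
      push_cast at this ⊢
      rw [zero_div, mul_zero, add_zero] at this
      linarith
    have : 0 < 2 * xi * ((2 : ℕ) / ((NT (2 * xi) : ℝ) + 1)) := by positivity
    linarith
  have hmid : b = a + (1 / 2 : ℝ) • (c - a) := by
    apply F.injective
    rw [F.map_comb, ea, eb, ec]
    apply ext3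
    · simp
      ring
    · simp
    · simp
  have m0 : b 0 = a 0 + 1 / 2 * (c 0 - a 0) := by rw [hmid]; simp
  have m1 : b 1 = a 1 + 1 / 2 * (c 1 - a 1) := by rw [hmid]; simp
  obtain ⟨a1, a2⟩ := ha
  obtain ⟨b1, b2⟩ := hb
  obtain ⟨c1, c2⟩ := hc
  rw [m0, m1] at b1
  have e : (a 0 - c 0) ^ 2 + (a 1 - c 1) ^ 2 = 0 := by nlinarith
  have e0 : a 0 = c 0 := by nlinarith [sq_nonneg (a 0 - c 0), sq_nonneg (a 1 - c 1)]
  have e1 : a 1 = c 1 := by nlinarith [sq_nonneg (a 0 - c 0), sq_nonneg (a 1 - c 1)]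
  exact hne (ext3 e0 e1 (by rw [a2, c2]))

end BOR

end
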