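import Pool.Agent.BOR.KID

/-!
# BOR / RCT: the rectangle is an unknot

PROOF. `K0 = {p | p 2 = 0 ∧ 0 ≤ p 1 ≤ 2 ss ∧ |p 0| ≤ xi ∧ (|p 0| = xi ∨ p 1 = 0 ∨ p 1 = 2 ss)}`
(`K0_eq`; unfold `gam0`, four pieces). Homeomorphism: first a radial homeomorphism `R` of three-space
which maps `unitCircle` onto `{p | p 2 = 0 ∧ max (|p 0|/xi) (|p 1|/ss) = 1}`, then the translation by
`(0, ss, 0)`. For `R` one can use `gaugeRescaleHomeomorph s t` with the convex bounded neighbourhoods of
zero `s = {p | p 0^2 + p 1^2 ≤ 1 ∧ |p 2| ≤ 1}` and `t = {p | |p 0| ≤ xi ∧ |p 1| ≤ ss ∧ |p 2| ≤ 1}`: the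
map is `x ↦ (gauge s x / gauge t x) • x`, so it preserves the plane `p 2 = 0`, and
`gauge t (R x) = gauge s x`; for `p 2 = 0`: `gauge s p = 1 ↔ p 0^2 + p 1^2 = 1` and
`gauge t p = 1 ↔ max (|p 0|/xi) (|p 1|/ss) = 1` (frontier of a closed convex neighbourhood of zero;
or `image_gaugeRescaleHomeomorph_closure/interior` and frontier). Any other construction is fine, e.g.
an explicit formula `p ↦ (N p / M p) • (p 0, p 1, ·) ` with `N p = sqrt (p 0^2 + p 1^2)`,
`M p = max (|p 0|/xi) (|p 1|/ss)` on the first two coordinates.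
-/

noncomputable section

namespace BOR

open Set

theorem K0_eq : K0 = {p | p 2 = 0 ∧ 0 ≤ p 1 ∧ p 1 ≤ 2 * ss ∧ |p 0| ≤ xi ∧
    (|p 0| = xi ∨ p 1 = 0 ∨ p 1 = 2 * ss)} := by
  have hxi := xi_pos
  have hss := ss_pos
  ext p
  simp only [mem_ofPred_eq]
  constructor
  · rintro ⟨t, ⟨ht0, ht1⟩, rfl⟩
    unfold gam0
    split_ifs with c1 c2 c3
    · have e0 : (sgm (pt (-xi) 0 0) (pt (-xi) (2 * ss) 0) 0 (1 / 4) t) 0 = -xi := by
        simp [sgm]
      have e1 : (sgm (pt (-xi) 0 0) (pt (-xi) (2 * ss) 0) 0 (1 / 4) t) 1 = 4 * t * (2 * ss) := by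
        simp only [sgm, PiLp.add_apply, PiLp.smul_apply, PiLp.sub_apply, pt_1, smul_eq_mul]; ring
      have e2 : (sgm (pt (-xi) 0 0) (pt (-xi) (2 * ss) 0) 0 (1 / 4) t) 2 = 0 := by simp [sgm]
      rw [e0, e1, e2, abs_neg, abs_of_pos hxi]
      refine ⟨rfl, by positivity, ?_, le_rfl, Or.inl rfl⟩
      nlinarith
    · have e0 : (sgm (pt (-xi) (2 * ss) 0) (pt xi (2 * ss) 0) (1 / 4) (1 / 2) t) 0 =
          -xi + 4 * (t - 1 / 4) * (2 * xi) := by
        simp [sgm]; ring
      have e1 : (sgm (pt (-xi) (2 * ss) 0) (pt xi (2 * ss) 0) (1 / 4) (1 / 2) t) 1 = 2 * ss := by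
        simp [sgm]
      have e2 : (sgm (pt (-xi) (2 * ss) 0) (pt xi (2 * ss) 0) (1 / 4) (1 / 2) t) 2 = 0 := by
        simp [sgm]
      rw [e0, e1, e2]
      refine ⟨rfl, by positivity, le_rfl, ?_, Or.inr (Or.inr rfl)⟩
      rw [abs_le]
      constructor <;> nlinarith
    · have e0 : (sgm (pt xi (2 * ss) 0) (pt xi 0 0) (1 / 2) (3 / 4) t) 0 = xi := by simp [sgm]
      have e1 : (sgm (pt xi (2 * ss) 0) (pt xi 0 0) (1 / 2) (3 / 4) t) 1 =
          (1 - 4 * (t - 1 / 2)) * (2 * ss) := by
        simp [sgm]; ring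
      have e2 : (sgm (pt xi (2 * ss) 0) (pt xi 0 0) (1 / 2) (3 / 4) t) 2 = 0 := by simp [sgm]
      rw [e0, e1, e2, abs_of_pos hxi]
      refine ⟨rfl, ?_, ?_, le_rfl, Or.inl rfl⟩ <;> nlinarith
    · have e0 : (sgm (pt xi 0 0) (pt (-xi) 0 0) (3 / 4) 1 t) 0 =
          xi - 4 * (t - 3 / 4) * (2 * xi) := by
        simp [sgm]; ring
      have e1 : (sgm (pt xi 0 0) (pt (-xi) 0 0) (3 / 4) 1 t) 1 = 0 := by simp [sgm]
      have e2 : (sgm (pt xi 0 0) (pt (-xi) 0 0) (3 / 4) 1 t) 2 = 0 := by simp [sgm]
      rw [e0, e1, e2]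
      refine ⟨rfl, le_rfl, by positivity, ?_, Or.inr (Or.inl rfl)⟩
      rw [abs_le]
      constructor <;> nlinarith
  · rintro ⟨h2, h10, h11, h0, h⟩
    rw [abs_le] at h0
    have hu0 : 0 ≤ p 1 / (2 * ss) := by positivity
    have hu1 : p 1 / (2 * ss) ≤ 1 := by rw [div_le_one (by positivity)]; exact h11
    have hu : p 1 = p 1 / (2 * ss) * (2 * ss) := by field_simp
    have hv0 : 0 ≤ (p 0 + xi) / (2 * xi) := div_nonneg (by linarith) (by positivity)
    have hv1 : (p 0 + xi) / (2 * xi) ≤ 1 := by rw [div_le_one (by positivity)]; linarith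
    have hv : p 0 = -xi + (p 0 + xi) / (2 * xi) * (2 * xi) := by field_simp; ring
    generalize p 1 / (2 * ss) = u at hu0 hu1 hu
    generalize (p 0 + xi) / (2 * xi) = v at hv0 hv1 hv
    have hcase : p 0 = -xi ∨ p 1 = 2 * ss ∨ p 0 = xi ∨ p 1 = 0 := by
      rcases h with h | h | h
      · rcases abs_eq hxi.le |>.1 h with h | h
        · exact Or.inr (Or.inr (Or.inl h))
        · exact Or.inl h
      · exact Or.inr (Or.inr (Or.inr h))
      · exact Or.inr (Or.inl h)
    rcases hcase with h | h | h | h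
    · refine ⟨u / 4, ⟨by linarith, by linarith⟩, ?_⟩
      unfold gam0
      rw [if_pos (by linarith)]
      apply ext3
      · simp [sgm, h]
      · rw [hu]; simp [sgm]
      · simp [sgm, h2]
    · by_cases hv' : v = 0
      · subst hv'
        refine ⟨1 / 4, ⟨by norm_num, by norm_num⟩, ?_⟩
        unfold gam0
        rw [if_pos le_rfl]
        apply ext3
        · rw [hv]; simp [sgm]
        · rw [h]; simp [sgm]
        · simp [sgm, h2]
      · have hvp : 0 < v := lt_of_le_of_ne hv0 (Ne.symm hv')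
        refine ⟨1 / 4 + v / 4, ⟨by linarith, by linarith⟩, ?_⟩
        unfold gam0
        rw [if_neg (by linarith), if_pos (by linarith)]
        apply ext3
        · rw [hv]; simp [sgm]; ring
        · rw [h]; simp [sgm]
        · simp [sgm, h2]
    · by_cases hu' : u = 1
      · subst hu'
        refine ⟨1 / 2, ⟨by norm_num, by norm_num⟩, ?_⟩
        unfold gam0
        rw [if_neg (by norm_num), if_pos le_rfl]
        apply ext3
        · rw [h]; simp [sgm]; ring
        · rw [hu]; simp [sgm]
        · simp [sgm, h2]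
      · have hup : u < 1 := lt_of_le_of_ne hu1 hu'
        refine ⟨1 / 2 + (1 - u) / 4, ⟨by linarith, by linarith⟩, ?_⟩
        unfold gam0
        rw [if_neg (by linarith), if_neg (by linarith), if_pos (by linarith)]
        apply ext3
        · rw [h]; simp [sgm]
        · rw [hu]; simp [sgm]; ring
        · simp [sgm, h2]
    · by_cases hv' : v = 1
      · subst hv'
        refine ⟨3 / 4, ⟨by norm_num, by norm_num⟩, ?_⟩
        unfold gam0
        rw [if_neg (by norm_num), if_neg (by norm_num), if_pos le_rfl]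
        apply ext3
        · rw [hv]; simp [sgm]; ring
        · rw [h]; simp [sgm]; norm_num
        · simp [sgm, h2]
      · have hvp : v < 1 := lt_of_le_of_ne hv1 hv'
        refine ⟨3 / 4 + (1 - v) / 4, ⟨by linarith, by linarith⟩, ?_⟩
        unfold gam0
        rw [if_neg (by linarith), if_neg (by linarith), if_neg (by linarith)]
        apply ext3
        · rw [hv]; simp [sgm]; ring
        · rw [h]; simp [sgm]
        · simp [sgm, h2]

/-- the norm whose unit sphere is the boundary of the box -/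
private def qt : Seminorm ℝ E3 := Seminorm.of
  (fun p => max (|p 0| / xi) (max (|p 1| / ss) |p 2|))
  (by
    intro p q
    have hxi := xi_pos
    have hss := ss_pos
    simp only [PiLp.add_apply]
    apply max_le
    · have : |p 0 + q 0| / xi ≤ |p 0| / xi + |q 0| / xi := by
        rw [← add_div]
        exact div_le_div_of_nonneg_right (abs_add_le _ _) hxi.le
      exact this.trans (add_le_add (le_max_left _ _) (le_max_left _ _))
    apply max_le
    · have : |p 1 + q 1| / ss ≤ |p 1| / ss + |q 1| / ss := by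
        rw [← add_div]
        exact div_le_div_of_nonneg_right (abs_add_le _ _) hss.le
      exact this.trans (add_le_add ((le_max_left _ _).trans (le_max_right _ _))
        ((le_max_left _ _).trans (le_max_right _ _)))
    · exact (abs_add_le _ _).trans (add_le_add ((le_max_right _ _).trans (le_max_right _ _))
        ((le_max_right _ _).trans (le_max_right _ _))))
  (by
    intro c p
    simp only [PiLp.smul_apply, smul_eq_mul, abs_mul, Real.norm_eq_abs, mul_div_assoc]
    rw [mul_max_of_nonneg _ _ (abs_nonneg c), mul_max_of_nonneg _ _ (abs_nonneg c)])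

private theorem qt_app (p : E3) : qt p = max (|p 0| / xi) (max (|p 1| / ss) |p 2|) := rfl

private theorem qt_cont : Continuous qt := by
  have : (qt : E3 → ℝ) = fun p => max (|p 0| / xi) (max (|p 1| / ss) |p 2|) := rfl
  rw [this]
  fun_prop

private theorem qt_bdd : Bornology.IsVonNBounded ℝ (qt.ball 0 1) := by
  rw [NormedSpace.isVonNBounded_iff]
  refine Metric.isBounded_closedBall (x := (0 : E3)) (r := xi + ss + 1) |>.subset ?_
  intro p hp
  have hxi := xi_pos
  have hss := ss_pos
  rw [Seminorm.mem_ball_zero, qt_app] at hp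
  have h0 := (le_max_left _ _).trans_lt hp
  have h1 := ((le_max_left _ _).trans (le_max_right _ _)).trans_lt hp
  have h2 := ((le_max_right _ _).trans (le_max_right _ _)).trans_lt hp
  rw [div_lt_one hxi] at h0
  rw [div_lt_one hss] at h1
  rw [Metric.mem_closedBall]
  refine dist_le_of_coord (a := xi) (b := ss) (c := 1) ?_ ?_ ?_ (by positivity) (by nlinarith)
  · simp only [PiLp.zero_apply, sub_zero]; exact h0.le
  · simp only [PiLp.zero_apply, sub_zero]; exact h1.le
  · simp only [PiLp.zero_apply, sub_zero]; exact h2.le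

private def RR : E3 ≃ₜ E3 := gaugeRescaleHomeomorph (Metric.ball (0 : E3) 1) (qt.ball 0 1)
  (convex_ball _ _) (Metric.ball_mem_nhds _ one_pos)
  (by rw [NormedSpace.isVonNBounded_iff]; exact Metric.isBounded_ball)
  (qt.convex_ball _ _) (qt.ball_mem_nhds qt_cont one_pos) qt_bdd

private theorem RR_app (p : E3) : RR p = (‖p‖ / qt p) • p := by
  have : RR p = gaugeRescale (Metric.ball (0 : E3) 1) (qt.ball 0 1) p := rfl
  rw [this, gaugeRescale_def, gauge_unit_ball, Seminorm.gauge_ball]

theorem rect_unknot : ∃ φ : E3 ≃ₜ E3, φ '' unitCircle = K0 := by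
  have hxi := xi_pos
  have hss := ss_pos
  refine ⟨RR.trans (Homeomorph.addRight (pt 0 ss 0)), ?_⟩
  have key : ∀ q : E3, q ∈ RR '' unitCircle ↔ q 2 = 0 ∧ max (|q 0| / xi) (|q 1| / ss) = 1 := by
    intro q
    constructor
    · rintro ⟨p, ⟨hp, hp2⟩, rfl⟩
      have hn : ‖p‖ = 1 := by
        have := normsq p
        rw [hp, hp2] at this
        nlinarith [norm_nonneg p]
      have hq : qt p = max (|p 0| / xi) (|p 1| / ss) := by
        rw [qt_app, hp2, abs_zero, max_eq_left (a := |p 1| / ss) (by positivity)]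
      have hpos : 0 < qt p := by
        rw [hq]
        by_contra hc
        push Not at hc
        have h0 := (le_max_left (|p 0| / xi) (|p 1| / ss)).trans hc
        have h1 := (le_max_right (|p 0| / xi) (|p 1| / ss)).trans hc
        have h0' : |p 0| ≤ 0 := by
          by_contra h
          push Not at h
          have : 0 < |p 0| / xi := by positivity
          linarith
        have h1' : |p 1| ≤ 0 := by
          by_contra h
          push Not at h
          have : 0 < |p 1| / ss := by positivity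
          linarith
        have e0 : p 0 = 0 := abs_nonpos_iff.1 h0'
        have e1 : p 1 = 0 := abs_nonpos_iff.1 h1'
        rw [e0, e1] at hp
        norm_num at hp
      rw [RR_app, hn]
      simp only [PiLp.smul_apply, smul_eq_mul, abs_mul, hp2, mul_zero, true_and]
      rw [mul_div_assoc, mul_div_assoc, ← mul_max_of_nonneg _ _ (abs_nonneg _), ← hq,
        abs_of_pos (by positivity)]
      field_simp
    · rintro ⟨hq2, hq⟩
      have hqt : qt q = 1 := by
        rw [qt_app, hq2, abs_zero, max_eq_left (a := |q 1| / ss) (by positivity), hq]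
      have hne : q ≠ 0 := by
        rintro rfl
        rw [map_zero] at hqt
        norm_num at hqt
      have hn : 0 < ‖q‖ := norm_pos_iff.2 hne
      refine ⟨(1 / ‖q‖) • q, ⟨?_, ?_⟩, ?_⟩
      · have := normsq q
        rw [hq2] at this
        simp only [PiLp.smul_apply, smul_eq_mul]
        field_simp
        nlinarith
      · simp [hq2]
      · rw [RR_app, map_smul_eq_mul, hqt, norm_smul, smul_smul]
        simp only [norm_div, norm_one, norm_norm, mul_one]
        have : 1 / ‖q‖ * ‖q‖ / (1 / ‖q‖) * (1 / ‖q‖) = 1 := by field_simp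
        rw [this, one_smul]
  have h1 : ∀ q : E3, q ∈ (RR.trans (Homeomorph.addRight (pt 0 ss 0))) '' unitCircle ↔
      q - pt 0 ss 0 ∈ RR '' unitCircle := by
    intro q
    constructor
    · rintro ⟨p, hp, rfl⟩
      refine ⟨p, hp, ?_⟩
      simp
    · rintro ⟨p, hp, h⟩
      refine ⟨p, hp, ?_⟩
      simp [h]
  ext q
  rw [h1, key, K0_eq]
  simp only [PiLp.sub_apply, pt_0, pt_1, pt_2, sub_zero, mem_ofPred_eq]
  constructor
  · rintro ⟨h2, hm⟩
    have a0 : |q 0| / xi ≤ 1 := hm ▸ le_max_left _ _
    have a1 : |q 1 - ss| / ss ≤ 1 := hm ▸ le_max_right _ _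
    rw [div_le_one hxi] at a0
    rw [div_le_one hss, abs_le] at a1
    refine ⟨h2, by linarith [a1.1], by linarith [a1.2], a0, ?_⟩
    rcases max_choice (|q 0| / xi) (|q 1 - ss| / ss) with h | h
    · left
      rw [h, div_eq_one_iff_eq hxi.ne'] at hm
      exact hm
    · right
      rw [h, div_eq_one_iff_eq hss.ne', abs_eq hss.le] at hm
      rcases hm with hm | hm
      · right; linarith
      · left; linarith
  · rintro ⟨h2, h10, h11, h0, h⟩
    refine ⟨h2, ?_⟩
    have a0 : |q 0| / xi ≤ 1 := by rw [div_le_one hxi]; exact h0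
    have a1 : |q 1 - ss| / ss ≤ 1 := by
      rw [div_le_one hss, abs_le]; constructor <;> linarith
    apply le_antisymm (max_le a0 a1)
    rcases h with h | h | h
    · rw [h, div_self hxi.ne']; exact le_max_left _ _
    · rw [h, zero_sub, abs_neg, abs_of_pos hss, div_self hss.ne']; exact le_max_right _ _
    · have : 2 * ss - ss = ss := by ring
      rw [h, this, abs_of_pos hss, div_self hss.ne']; exact le_max_right _ _

end BOR

end
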