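import Pool.Agent.BOR.NLC
import Pool.Agent.BOR.RCT
import Pool.Agent.BOR.NCI
import Pool.Agent.BOR.BFN

/-!
# BOR / FIN: assembly
-/

noncomputable section

namespace BOR

open Set

theorem main : ∃ K : Set E3, IsUnknot K ∧ ¬ IsCircle K ∧
    ∀ g : Fin 3 → Sim, (∀ i j, i ≠ j → Disjoint (g i '' K) (g j '' K)) →
      ¬ IsBorromean (fun i => g i '' K) := by
  obtain ⟨k, h, H⟩ := exists_limit
  refine ⟨k '' K0, ?_, not_circle H, ?_⟩
  · obtain ⟨φ, hφ⟩ := rect_unknot
    refine ⟨φ.trans k, ?_⟩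
    rw [← hφ, Set.image_image]
    rfl
  · intro f hd hb
    obtain ⟨i, hi⟩ : ∃ i, ∀ j, (f i).s ≤ (f j).s := by
      obtain ⟨i, -, hi⟩ := Finset.exists_min_image Finset.univ (fun j => (f j).s)
        ⟨0, Finset.mem_univ 0⟩
      exact ⟨i, fun j => hi j (Finset.mem_univ j)⟩
    have hKc : IsCompact (k '' K0) := K0_compact.image k.continuous
    have hBeq : {p | ∃ j, j ≠ i ∧ p ∈ f j '' (k '' K0)} =
        ⋃ j ∈ {j : Fin 3 | j ≠ i}, f j '' (k '' K0) := by
      ext p; simp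
    have hB : IsClosed {p | ∃ j, j ≠ i ∧ p ∈ f j '' (k '' K0)} := by
      rw [hBeq]
      exact Set.Finite.isClosed_biUnion (Set.toFinite _)
        (fun j _ => (Sim.isCompact_image _ hKc).isClosed)
    refine borromean_not_null hb i (null_copy H (f i) hB ?_ ?_)
    · rw [Set.disjoint_left]
      rintro p hp ⟨j, hj, hpj⟩
      exact Set.disjoint_left.1 (hd i j (Ne.symm hj)) hp hpj
    · rw [Set.disjoint_left]
      rintro p hp ⟨j, hj, hpj⟩
      exact Set.disjoint_left.1 (block H (f i) (f j) (hi j) (hd i j (Ne.symm hj))) hpj hp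

end BOR

end
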