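import Pool.Agent.BOR.Bas

/-!
# BOR / FLD: composition of homeomorphisms whose supports meet only in common fixed points

PROOF. Induction on `L`. Nil: identity. Cons `i :: L` with `Ψ'` for `L`:
take `Ψ p = Ψ' (G i p)` (`(G i).trans Ψ'`). Note `G i` maps `R i` to itself: if `p ∈ R i` and
`G i p ∉ R i` then `G i (G i p) = G i p`, so `G i p = p` by injectivity, contradiction.
* `p ∈ R i`: `q = G i p ∈ R i`. If `q ∈ R j` for some `j ∈ L`, then `Ψ' q = G j q = q` by the
  pairwise hypothesis, otherwise `Ψ' q = q`. So `Ψ p = G i p`.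
* `p ∈ R j`, `j ∈ L`: if `p ∉ R i` then `G i p = p`; if `p ∈ R i` then `G i p = p` by the pairwise
  hypothesis. In both cases `Ψ p = Ψ' p = G j p`.
* `p` in no `R`: `Ψ p = Ψ' p = p`.
Last claim: for `p ∈ R i` the point `q = (G i).symm p` is in `R i` (same argument as above for the
inverse) and `Ψ q = G i q = p`.
-/

noncomputable section

namespace BOR

private theorem map_in (g : E3 ≃ₜ E3) (R : Set E3) (h : ∀ p, p ∉ R → g p = p) {p : E3}
    (hp : p ∈ R) : g p ∈ R := by
  by_contra hn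
  have h1 := h (g p) hn
  have h2 := g.injective h1
  rw [h2] at hn
  exact hn hp

private theorem symm_in (g : E3 ≃ₜ E3) (R : Set E3) (h : ∀ p, p ∉ R → g p = p) {p : E3}
    (hp : p ∈ R) : g.symm p ∈ R := by
  by_contra hn
  have h1 := h (g.symm p) hn
  rw [g.apply_symm_apply] at h1
  rw [← h1] at hn
  exact hn hp

theorem fold {ι : Type*} (L : List ι) (G : ι → E3 ≃ₜ E3) (R : ι → Set E3)
    (hoff : ∀ i ∈ L, ∀ p, p ∉ R i → G i p = p)
    (hp : L.Pairwise (fun i j => ∀ p ∈ R i ∩ R j, G i p = p ∧ G j p = p)) :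
    ∃ Ψ : E3 ≃ₜ E3, (∀ i ∈ L, ∀ p ∈ R i, Ψ p = G i p) ∧
      (∀ p, (∀ i ∈ L, p ∉ R i) → Ψ p = p) ∧
      (∀ i ∈ L, ∀ p ∈ R i, Ψ.symm p = (G i).symm p) := by
  have key : ∃ Ψ : E3 ≃ₜ E3, (∀ i ∈ L, ∀ p ∈ R i, Ψ p = G i p) ∧
      (∀ p, (∀ i ∈ L, p ∉ R i) → Ψ p = p) := by
    induction L with
    | nil => exact ⟨Homeomorph.refl E3, by simp, by simp⟩
    | cons i L ih =>
      rw [List.pairwise_cons] at hp
      obtain ⟨Ψ', h1, h2⟩ := ih (fun j hj => hoff j (List.mem_cons_of_mem i hj)) hp.2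
      have hi := hoff i List.mem_cons_self
      refine ⟨(G i).trans Ψ', ?_, ?_⟩
      · intro j hj p hpj
        rw [Homeomorph.trans_apply]
        rcases List.mem_cons.1 hj with rfl | hj
        · have hq : G j p ∈ R j := map_in (G j) (R j) hi hpj
          by_cases hex : ∃ l ∈ L, G j p ∈ R l
          · obtain ⟨l, hl, hql⟩ := hex
            rw [h1 l hl _ hql]
            exact (hp.1 l hl (G j p) ⟨hq, hql⟩).2
          · push Not at hex
            exact h2 _ hex
        · have hgp : G i p = p := by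
            by_cases hpi : p ∈ R i
            · exact (hp.1 j hj p ⟨hpi, hpj⟩).1
            · exact hi p hpi
          rw [hgp]
          exact h1 j hj p hpj
      · intro p hpn
        rw [Homeomorph.trans_apply, hi p (hpn i List.mem_cons_self)]
        exact h2 p (fun j hj => hpn j (List.mem_cons_of_mem i hj))
  obtain ⟨Ψ, h1, h2⟩ := key
  refine ⟨Ψ, h1, h2, ?_⟩
  intro i hi p hpi
  have hq : (G i).symm p ∈ R i := symm_in (G i) (R i) (hoff i hi) hpi
  have h3 := h1 i hi _ hq
  rw [(G i).apply_symm_apply] at h3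
  rw [← h3, Ψ.symm_apply_apply]
  rw [h3]

end BOR

end
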