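import Pool.Agent.BOR.STR

/-!
# BOR / GRS (part of the old GRT): the groups of kids of a T cell lie in their regions

PROOF. Strings: `str_cell` gives `k.cell ⊆ F '' tubeS 1 M`, `k.cellp ⊆ F '' tubeS (6/5) M`, with
`M = NT L`, `L = F.s`; the point `F (x,y,z)` is
`FOL: (-2xi + xi x, xi y, ze + xi z)`, `FVL: (-xi + hh y, hh z, ze + hh x)`,
`FHB: (-xi + 2xi x, 2ss + 2xi y, 2xi z)`, `FVR: (xi - hh y, -hh z, -hh x)`,
`FOR: (xi + xi x, xi y, ze + xi z)`, `FCL: (xi - 2xi x, -2xi y, -2xi z)` (note `ze = -hh`).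
`bodyS c` gives `|y|, |z| ≤ c sg min x (1-x)`; multiply by `L`. The thin bound:
`L c (sg/2)/(M+1) ≤ c (sg/2) l0 = c g/1536` by `NT_lt`.

T kids: `FT1 (x,y,z) = (-al²/2 - r z, ss + r x, r y)`; by `xi_id` the first coordinate is
`-xi - r (z - ze)`, and `r de = ss`. Body: `|y|, |z - ze| ≤ 6/5 dT x = 6/5 min (sg (de - |x|)) w`:
so `|p 0 + xi| = r |z - ze| ≤ 4/5 (ss - |p 1 - ss|) = 4/5 min (p 1) (2ss - p 1)` and
`≤ 6/5 r w ≤ g/50`; the same for `p 2 = r y`. Box: `|x| ≤ al² + g/16`, `|y| ≤ al + g/16`,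
`ze + w/4 ≤ z ≤ 1 + g/16`: `p 0 ≤ -xi - r w/4 ≤ -xi - g/400` (`r w/4 > 0.0031 g`);
`p 0 ≥ -al²/2 - r (1+g/16) = -al² + g al²/2 - r g/16 ≥ -al²` (`r = al²/2 - g al²/2`);
`|p 1| ≤ ss + r al² + r g/16 = ss + (1-g) al + r g/16 ≤ al` (`r_mul_al_sq`, `ss < 1.1028 g`,
`al > 1.2599`); `|p 2| ≤ r al + r g/16 = 1 - g + r g/16 ≤ 1 - g/2` (`r_mul_al`). `FT2` is the mirror
image: `FT2 (x,y,z) = (al²/2 + r z, ss - r x, r y)`.
-/

noncomputable section

namespace BOR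

open Set

private theorem coreX {L c : ℝ} (hL : 0 < L) (hc : 0 < c) {p : E3} (hp : p ∈ tubeS c (NT L)) :
    |L * p 1| ≤ c * sg * min (L * p 0) (L * (1 - p 0)) ∧
    |L * p 2| ≤ c * sg * min (L * p 0) (L * (1 - p 0)) ∧
    |L * p 1| ≤ c * (g / 1536) ∧ |L * p 2| ≤ c * (g / 1536) := by
  obtain ⟨⟨h1, h2⟩, h3, h4⟩ := hp
  unfold dS at h1 h2
  have hN := NT_pos L
  have hl := NT_lt L
  have hm : min (L * p 0) (L * (1 - p 0)) = L * min (p 0) (1 - p 0) :=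
    (mul_min_of_nonneg _ _ hL.le).symm
  have e1 : |L * p 1| = L * |p 1| := by rw [abs_mul, abs_of_pos hL]
  have e2 : |L * p 2| = L * |p 2| := by rw [abs_mul, abs_of_pos hL]
  have thin : ∀ t : ℝ, t ≤ c * (sg / 2) / ((NT L : ℝ) + 1) → L * t ≤ c * (g / 1536) := by
    intro t ht
    have h5 : L * t ≤ L * (c * (sg / 2) / ((NT L : ℝ) + 1)) := mul_le_mul_of_nonneg_left ht hL.le
    have h6 : L * (c * (sg / 2) / ((NT L : ℝ) + 1)) = c * (sg / 2) * (L / ((NT L : ℝ) + 1)) := by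
      ring
    have h7 : c * (sg / 2) * (L / ((NT L : ℝ) + 1)) ≤ c * (sg / 2) * l0 := by
      refine mul_le_mul_of_nonneg_left hl.le ?_
      unfold sg; positivity
    have h8 : c * (sg / 2) * l0 = c * (g / 1536) := by unfold sg l0; ring
    linarith
  rw [hm, e1, e2]
  refine ⟨?_, ?_, thin _ h3, thin _ h4⟩
  · have := mul_le_mul_of_nonneg_left h1 hL.le
    calc L * |p 1| ≤ L * (c * (sg * min (p 0) (1 - p 0))) := this
      _ = _ := by ring
  · have := mul_le_mul_of_nonneg_left h2 hL.le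
    calc L * |p 2| ≤ L * (c * (sg * min (p 0) (1 - p 0))) := this
      _ = _ := by ring

theorem grOL {ta tb : ℝ} {q : Bool} {k : Node} (hk : k ∈ str FOL (NT xi) ta tb q) :
    k.cell ⊆ rgOL 1 ∧ k.cellp ⊆ rgOL (6 / 5) := by
  have key : ∀ c : ℝ, 0 < c → FOL '' tubeS c (NT xi) ⊆ rgOL c := by
    rintro c hc _ ⟨p, hp, rfl⟩
    obtain ⟨h1, h2, h3, h4⟩ := coreX xi_pos hc hp
    have f0 : FOL p 0 = xi * p 0 - 2 * xi := by rw [Sim.app_def]; simp [FOL]; try ring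
    have f1 : FOL p 1 = xi * p 1 := by rw [Sim.app_def]; simp [FOL]; try ring
    have f2 : FOL p 2 = ze + xi * p 2 := by rw [Sim.app_def]; simp [FOL]; try ring
    have g1 : xi * p 0 - 2 * xi + 2 * xi = xi * p 0 := by ring
    have g2 : -xi - (xi * p 0 - 2 * xi) = xi * (1 - p 0) := by ring
    have g3 : ze + xi * p 2 - ze = xi * p 2 := by ring
    refine ⟨?_, ?_, ?_, ?_⟩
    · rw [f0, f1, g1, g2]; exact h1
    · rw [f0, f2, g1, g2, g3]; exact h2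
    · rw [f1]; exact h3
    · rw [f2, g3]; exact h4
  exact ⟨(str_cell hk).1.trans (key 1 one_pos), (str_cell hk).2.trans (key (6 / 5) (by norm_num))⟩

theorem grVL {ta tb : ℝ} {q : Bool} {k : Node} (hk : k ∈ str FVL (NT hh) ta tb q) :
    k.cell ⊆ rgVL 1 ∧ k.cellp ⊆ rgVL (6 / 5) := by
  have key : ∀ c : ℝ, 0 < c → FVL '' tubeS c (NT hh) ⊆ rgVL c := by
    rintro c hc _ ⟨p, hp, rfl⟩
    obtain ⟨h1, h2, h3, h4⟩ := coreX hh_pos hc hp
    have f0 : FVL p 0 = -xi + hh * p 1 := by rw [Sim.app_def]; simp [FVL, Uzp_app]; try ring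
    have f1 : FVL p 1 = hh * p 2 := by rw [Sim.app_def]; simp [FVL, Uzp_app]; try ring
    have f2 : FVL p 2 = ze + hh * p 0 := by rw [Sim.app_def]; simp [FVL, Uzp_app]; try ring
    have g1 : ze + hh * p 0 - ze = hh * p 0 := by ring
    have g2 : -(ze + hh * p 0) = hh * (1 - p 0) := by unfold ze hh; ring
    have g3 : -xi + hh * p 1 + xi = hh * p 1 := by ring
    refine ⟨?_, ?_, ?_, ?_⟩
    · rw [f0, f2, g1, g2, g3]; exact h1
    · rw [f1, f2, g1, g2]; exact h2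
    · rw [f0, g3]; exact h3
    · rw [f1]; exact h4
  exact ⟨(str_cell hk).1.trans (key 1 one_pos), (str_cell hk).2.trans (key (6 / 5) (by norm_num))⟩

theorem grHB {ta tb : ℝ} {q : Bool} {k : Node} (hk : k ∈ str FHB (NT (2 * xi)) ta tb q) :
    k.cell ⊆ rgHB 1 ∧ k.cellp ⊆ rgHB (6 / 5) := by
  have key : ∀ c : ℝ, 0 < c → FHB '' tubeS c (NT (2 * xi)) ⊆ rgHB c := by
    rintro c hc _ ⟨p, hp, rfl⟩
    obtain ⟨h1, h2, h3, h4⟩ := coreX (by have := xi_pos; positivity : (0 : ℝ) < 2 * xi) hc hp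
    have f0 : FHB p 0 = -xi + 2 * xi * p 0 := by rw [Sim.app_def]; simp [FHB]; try ring
    have f1 : FHB p 1 = 2 * ss + 2 * xi * p 1 := by rw [Sim.app_def]; simp [FHB]; try ring
    have f2 : FHB p 2 = 2 * xi * p 2 := by rw [Sim.app_def]; simp [FHB]; try ring
    have g1 : -xi + 2 * xi * p 0 + xi = 2 * xi * p 0 := by ring
    have g2 : xi - (-xi + 2 * xi * p 0) = 2 * xi * (1 - p 0) := by ring
    have g3 : 2 * ss + 2 * xi * p 1 - 2 * ss = 2 * xi * p 1 := by ring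
    refine ⟨?_, ?_, ?_, ?_⟩
    · rw [f0, f1, g1, g2, g3]; exact h1
    · rw [f0, f2, g1, g2]; exact h2
    · rw [f1, g3]; exact h3
    · rw [f2]; exact h4
  exact ⟨(str_cell hk).1.trans (key 1 one_pos), (str_cell hk).2.trans (key (6 / 5) (by norm_num))⟩

theorem grVR {ta tb : ℝ} {q : Bool} {k : Node} (hk : k ∈ str FVR (NT hh) ta tb q) :
    k.cell ⊆ rgVR 1 ∧ k.cellp ⊆ rgVR (6 / 5) := by
  have key : ∀ c : ℝ, 0 < c → FVR '' tubeS c (NT hh) ⊆ rgVR c := by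
    rintro c hc _ ⟨p, hp, rfl⟩
    obtain ⟨h1, h2, h3, h4⟩ := coreX hh_pos hc hp
    have f0 : FVR p 0 = xi - hh * p 1 := by rw [Sim.app_def]; simp [FVR, Uzm_app]; try ring
    have f1 : FVR p 1 = -(hh * p 2) := by rw [Sim.app_def]; simp [FVR, Uzm_app]; try ring
    have f2 : FVR p 2 = -(hh * p 0) := by rw [Sim.app_def]; simp [FVR, Uzm_app]; try ring
    have g1 : -(hh * p 0) - ze = hh * (1 - p 0) := by unfold ze hh; ring
    have g2 : -(-(hh * p 0)) = hh * p 0 := by ring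
    have g3 : xi - hh * p 1 - xi = -(hh * p 1) := by ring
    refine ⟨?_, ?_, ?_, ?_⟩
    · rw [f0, f2, g1, g2, g3, abs_neg, min_comm]; exact h1
    · rw [f1, f2, g1, g2, abs_neg, min_comm]; exact h2
    · rw [f0, g3, abs_neg]; exact h3
    · rw [f1, abs_neg]; exact h4
  exact ⟨(str_cell hk).1.trans (key 1 one_pos), (str_cell hk).2.trans (key (6 / 5) (by norm_num))⟩

theorem grOR {ta tb : ℝ} {q : Bool} {k : Node} (hk : k ∈ str FOR (NT xi) ta tb q) :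
    k.cell ⊆ rgOR 1 ∧ k.cellp ⊆ rgOR (6 / 5) := by
  have key : ∀ c : ℝ, 0 < c → FOR '' tubeS c (NT xi) ⊆ rgOR c := by
    rintro c hc _ ⟨p, hp, rfl⟩
    obtain ⟨h1, h2, h3, h4⟩ := coreX xi_pos hc hp
    have f0 : FOR p 0 = xi + xi * p 0 := by rw [Sim.app_def]; simp [FOR]; try ring
    have f1 : FOR p 1 = xi * p 1 := by rw [Sim.app_def]; simp [FOR]; try ring
    have f2 : FOR p 2 = ze + xi * p 2 := by rw [Sim.app_def]; simp [FOR]; try ring
    have g1 : xi + xi * p 0 - xi = xi * p 0 := by ring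
    have g2 : 2 * xi - (xi + xi * p 0) = xi * (1 - p 0) := by ring
    have g3 : ze + xi * p 2 - ze = xi * p 2 := by ring
    refine ⟨?_, ?_, ?_, ?_⟩
    · rw [f0, f1, g1, g2]; exact h1
    · rw [f0, f2, g1, g2, g3]; exact h2
    · rw [f1]; exact h3
    · rw [f2, g3]; exact h4
  exact ⟨(str_cell hk).1.trans (key 1 one_pos), (str_cell hk).2.trans (key (6 / 5) (by norm_num))⟩

theorem grCL {ta tb : ℝ} {q : Bool} {k : Node} (hk : k ∈ str FCL (NT (2 * xi)) ta tb q) :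
    k.cell ⊆ rgCL 1 ∧ k.cellp ⊆ rgCL (6 / 5) := by
  have key : ∀ c : ℝ, 0 < c → FCL '' tubeS c (NT (2 * xi)) ⊆ rgCL c := by
    rintro c hc _ ⟨p, hp, rfl⟩
    obtain ⟨h1, h2, h3, h4⟩ := coreX (by have := xi_pos; positivity : (0 : ℝ) < 2 * xi) hc hp
    have f0 : FCL p 0 = xi - 2 * xi * p 0 := by rw [Sim.app_def]; simp [FCL, Uxm_app]; try ring
    have f1 : FCL p 1 = -(2 * xi * p 1) := by rw [Sim.app_def]; simp [FCL, Uxm_app]; try ring
    have f2 : FCL p 2 = -(2 * xi * p 2) := by rw [Sim.app_def]; simp [FCL, Uxm_app]; try ring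
    have g1 : xi - 2 * xi * p 0 + xi = 2 * xi * (1 - p 0) := by ring
    have g2 : xi - (xi - 2 * xi * p 0) = 2 * xi * p 0 := by ring
    refine ⟨?_, ?_, ?_, ?_⟩
    · rw [f0, f1, g1, g2, abs_neg, min_comm]; exact h1
    · rw [f0, f2, g1, g2, abs_neg, min_comm]; exact h2
    · rw [f1, abs_neg]; exact h3
    · rw [f2, abs_neg]; exact h4
  exact ⟨(str_cell hk).1.trans (key 1 one_pos), (str_cell hk).2.trans (key (6 / 5) (by norm_num))⟩

end BOR

end
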