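import Pool.Agent.BOR.TDef

/-!
# BOR / GRX (part of the old GRT): the groups of kids of a T cell lie in their regions

PROOF. Strings: `str_cell` gives `k.cell ⊆ F '' tubeS 1 M`, `k.cellp ⊆ F '' tubeS (6/5) M`, with
`M = NT L`, `L = F.s`; the point `F (x,y,z)` is
`FOL: (-2xi + xi x, xi y, ze + xi z)`, `FVL: (-xi + hh y, hh z, ze + hh x)`,
`FHB: (-xi + 2xi x, 2ss + 2xi y, 2xi z)`, `FVR: (xi - hh y, -hh z, -hh x)`,
`FOR: (xi + xi x, xi y, ze + xi z)`, `FCL: (xi - 2xi x, -2xi y, -2xi z)` (note `ze = -hh`).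
`bodyS c` gives `|y|, |z| ≤ c sg min x (1-x)`; multiply by `L`. The thin bound:
`L c (sg/2)/(M+1) ≤ c (sg/2) l0 = c g/1536` by `NT_lt`.

T kids: `FT1 (x,y,z) = (-al²/2 - r z, ss + r x, r y)`; by `xi_id` the first coordinate is
`-xi - r (z - ze)`, and `r de = ss`. Body: `|y|, |z - ze| ≤ 6/5 dT x = 6/5 min (sg (de - |x|)) w`:
so `|p 0 + xi| = r |z - ze| ≤ 4/5 (ss - |p 1 - ss|) = 4/5 min (p 1) (2ss - p 1)` and
`≤ 6/5 r w ≤ g/50`; the same for `p 2 = r y`. Box: `|x| ≤ al² + g/16`, `|y| ≤ al + g/16`,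
`ze + w/4 ≤ z ≤ 1 + g/16`: `p 0 ≤ -xi - r w/4 ≤ -xi - g/400` (`r w/4 > 0.0031 g`);
`p 0 ≥ -al²/2 - r (1+g/16) = -al² + g al²/2 - r g/16 ≥ -al²` (`r = al²/2 - g al²/2`);
`|p 1| ≤ ss + r al² + r g/16 = ss + (1-g) al + r g/16 ≤ al` (`r_mul_al_sq`, `ss < 1.1028 g`,
`al > 1.2599`); `|p 2| ≤ r al + r g/16 = 1 - g + r g/16 ≤ 1 - g/2` (`r_mul_al`). `FT2` is the mirror
image: `FT2 (x,y,z) = (al²/2 + r z, ss - r x, r y)`.
-/

noncomputable section

namespace BOR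

open Set

theorem gr_FT1 (p : E3) : (FT1 p) 0 = -al ^ 2 / 2 - r * p 2 ∧ (FT1 p) 1 = ss + r * p 0 ∧
    (FT1 p) 2 = r * p 1 := by
  refine ⟨?_, ?_, ?_⟩
  · simp [Sim.app_def, FT1, UA1_app]
    ring
  · simp [Sim.app_def, FT1, UA1_app]
    ring
  · simp [Sim.app_def, FT1, UA1_app]

theorem gr_FT2 (p : E3) : (FT2 p) 0 = al ^ 2 / 2 + r * p 2 ∧ (FT2 p) 1 = ss - r * p 0 ∧
    (FT2 p) 2 = r * p 1 := by
  refine ⟨?_, ?_, ?_⟩
  · simp [Sim.app_def, FT2, UA2_app]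
    ring
  · simp [Sim.app_def, FT2, UA2_app]
    ring
  · simp [Sim.app_def, FT2, UA2_app]

/-- the estimates for the body -/
theorem gr_body {x u : ℝ} (h : |u| ≤ 6 / 5 * dT x) :
    r * |u| ≤ 4 / 5 * (ss - r * |x|) ∧ r * |u| ≤ g / 50 := by
  have hr := r_pos
  have hr2 := r_lt
  have hg := g_pos
  have h1 : dT x ≤ sg * (de - |x|) := min_le_left _ _
  have h2 : dT x ≤ w := min_le_right _ _
  rw [sg_def] at h1
  rw [w_def] at h2
  constructor
  · have h3 : |u| ≤ 4 / 5 * (de - |x|) := by linarith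
    have h4 : r * |u| ≤ r * (4 / 5 * (de - |x|)) := mul_le_mul_of_nonneg_left h3 hr.le
    have h5 : r * (4 / 5 * (de - |x|)) = 4 / 5 * (ss - r * |x|) := by
      unfold ss
      ring
    linarith
  · have h3 : |u| ≤ 6 / 5 * (g / 64) := by linarith
    have h4 : r * |u| ≤ r * (6 / 5 * (g / 64)) := mul_le_mul_of_nonneg_left h3 hr.le
    have h5 : r * (6 / 5 * (g / 64)) ≤ 0.7938 * (6 / 5 * (g / 64)) :=
      mul_le_mul_of_nonneg_right hr2.le (by positivity)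
    linarith

/-- the estimates for the box -/
theorem gr_box {p : E3} (hp : p ∈ boxTp) :
    r * p 2 ≤ al ^ 2 / 2 ∧ g / 400 ≤ r * (p 2 - ze) ∧ ss + r * |p 0| ≤ al ∧
      r * |p 1| ≤ 1 - g / 2 := by
  obtain ⟨h0, h1, h2, h3⟩ := hp
  have hr := r_pos
  have hr1 := r_gt
  have hr2 := r_lt
  have hg := g_pos
  have hss := ss_lt
  have hal := al_gt
  have hal2 := al_sq_gt
  have hrg : r * (g / 16) ≤ 0.7938 * (g / 16) :=
    mul_le_mul_of_nonneg_right hr2.le (by positivity)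
  refine ⟨?_, ?_, ?_, ?_⟩
  · have h4 : r * p 2 ≤ r * (1 + g / 16) := mul_le_mul_of_nonneg_left h3 hr.le
    have h5 : r = al ^ 2 / 2 - g * (al ^ 2 / 2) := by unfold r; ring
    have h6 : 0.7936 * g ≤ g * (al ^ 2 / 2) := by nlinarith
    linarith
  · have h4 : r * (w / 4) ≤ r * (p 2 - ze) := mul_le_mul_of_nonneg_left (by linarith) hr.le
    rw [w_def] at h4
    have h5 : 0.7936 * (g / 64 / 4) ≤ r * (g / 64 / 4) :=
      mul_le_mul_of_nonneg_right hr1.le (by positivity)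
    linarith
  · have h4 : r * |p 0| ≤ r * (al ^ 2 + g / 16) := mul_le_mul_of_nonneg_left h0 hr.le
    have h5 := r_mul_al_sq
    have h6 : 1.2599 * g ≤ g * al := by nlinarith
    nlinarith
  · have h4 : r * |p 1| ≤ r * (al + g / 16) := mul_le_mul_of_nonneg_left h1 hr.le
    have h5 := r_mul_al
    nlinarith

theorem gr_min (u : ℝ) : min (ss + u) (2 * ss - (ss + u)) = ss - |u| := by
  rcases le_total 0 u with h | h
  · rw [abs_of_nonneg h, min_eq_right (by linarith)]; ring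
  · rw [abs_of_nonpos h, min_eq_left (by linarith)]; ring

theorem grT1 : FT1 '' cellP true ⊆ rgT1 := by
  rintro _ ⟨p, hp, rfl⟩
  obtain ⟨e0, e1, e2⟩ := gr_FT1 p
  have hr := r_pos
  have hid := xi_id
  have e0' : (FT1 p) 0 + xi = -(r * (p 2 - ze)) := by
    rw [e0]; linarith
  rcases hp with hp | hp
  · left
    obtain ⟨h1, h2⟩ := hp
    obtain ⟨a1, a2⟩ := gr_body h1
    obtain ⟨b1, b2⟩ := gr_body h2
    rw [e0', e1, e2, gr_min, abs_neg, abs_mul, abs_mul, abs_mul, abs_of_pos hr]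
    exact ⟨b1, a1, b2, a2⟩
  · right
    obtain ⟨a1, a2, a3, a4⟩ := gr_box hp
    refine ⟨?_, ?_, ?_, ?_⟩
    · rw [e0]; linarith
    · linarith
    · rw [e1]
      have h1 := abs_add_le ss (r * p 0)
      rw [abs_mul, abs_of_pos hr, abs_of_pos ss_pos] at h1
      linarith
    · rw [e2, abs_mul, abs_of_pos hr]
      exact a4

theorem grT2 : FT2 '' cellP true ⊆ rgT2 := by
  rintro _ ⟨p, hp, rfl⟩
  obtain ⟨e0, e1, e2⟩ := gr_FT2 p
  have hr := r_pos
  have hid := xi_id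
  have e0' : (FT2 p) 0 - xi = r * (p 2 - ze) := by
    rw [e0]; linarith
  have e1' : (FT2 p) 1 = ss + r * (-p 0) := by
    rw [e1]; ring
  rcases hp with hp | hp
  · left
    obtain ⟨h1, h2⟩ := hp
    obtain ⟨a1, a2⟩ := gr_body h1
    obtain ⟨b1, b2⟩ := gr_body h2
    rw [e0', e1', e2, gr_min, abs_mul, abs_mul, abs_mul, abs_neg, abs_of_pos hr]
    exact ⟨b1, a1, b2, a2⟩
  · right
    obtain ⟨a1, a2, a3, a4⟩ := gr_box hp
    refine ⟨?_, ?_, ?_, ?_⟩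
    · rw [e0]; linarith
    · linarith
    · rw [e1']
      have h1 := abs_add_le ss (r * (-p 0))
      rw [abs_mul, abs_neg, abs_of_pos hr, abs_of_pos ss_pos] at h1
      linarith
    · rw [e2, abs_mul, abs_of_pos hr]
      exact a4

end BOR

end
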