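import Pool.Agent.BOR.TDef

/-!
# BOR / INB (part of the old INC): inclusions of the regions

PROOF. Linear arithmetic with `sg = 2/3`, `w = g/64`, `eta = g/8`, `0.6944 g < xi < 0.6946 g`,
`1.1021 g < ss < 1.1028 g`, `de = 2 xi`, `al² > 1.58`, `al > 1.25`, `g ≤ 10⁻¹²`.
* `rgOL 1 ⊆ bodyT 1`: there `-2xi ≤ p 0 ≤ -xi`, `|p 0| = - p 0`, so `sg (de - |p 0|) = sg (p 0 + 2xi)`;
  and `g/1536 ≤ w`. `rgOR 1`: mirror.
* `rgVL (6/5)`: `ze ≤ p 2 ≤ 0`. If `p 2 < ze + w/2` then `p ∈ bodyT 1`: `|p 0| ≤ xi + g/1280`, so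
  `sg (de - |p 0|) ≥ w`, `dT (p 0) = w`, `|p 1| ≤ g/1280 ≤ w`, `|p 2 - ze| ≤ w/2`. Otherwise
  `p ∈ boxT`. `rgVR`: mirror.
* `rgT1`, `rgT2`, `rgHB (6/5)` in `boxT` (`p 2 ≥ -1 + g/2 ≥ ze + w/2`).
* `HB`: clear.
* near `HB`: take `q = pt (p 0) (p 1) (max (p 2) (-1))`, `q ∈ HB`, distance `≤ -1 - ze + g/1000 ≤ g`.
* `DB`: all coordinates are small, `p 2 ∈ [ze - g, g]`.
* the endpoints `pa`, `pb` of the edge are not in the middle regions: `pa 0 = -2xi` and `pa 2 = ze`;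
  `rgVL`: `|p 0 + xi| = xi > g/1280`; `rgT1`, `rgT2`: `|p 2| < 1` for the box and the body;
  `rgHB`: `|p 2| ≤ g/1280`; `rgOR`: `p 0 ≥ xi`.
-/

noncomputable section

namespace BOR

open Set

private theorem inb_mn {x c a b : ℝ} (hc : 0 ≤ c) (h : |x| ≤ c * min a b) :
    (-(c * a) ≤ x ∧ x ≤ c * a) ∧ (-(c * b) ≤ x ∧ x ≤ c * b) := by
  refine ⟨abs_le.1 (h.trans (mul_le_mul_of_nonneg_left (min_le_left _ _) hc)),
    abs_le.1 (h.trans (mul_le_mul_of_nonneg_left (min_le_right _ _) hc))⟩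

private theorem inb_small {p : E3}
    (hp : p ∈ rgOL 1 ∪ rgVL 1 ∪ rgHB 1 ∪ rgVR 1 ∪ rgOR 1 ∪ rgCL 1) :
    |p 0| ≤ 3 * g ∧ |p 1| ≤ 3 * g ∧ ze - g / 1000 ≤ p 2 ∧ p 2 ≤ g / 1000 := by
  have hg := g_pos
  have hg2 := g_le
  have hx := xi_gt
  have hx2 := xi_lt
  have hs := ss_gt
  have hs2 := ss_lt
  have hz : ze = -1 - g / 8 := rfl
  rcases hp with ((((hp | hp) | hp) | hp) | hp) | hp <;> obtain ⟨h1, h2, h3, h4⟩ := hp <;>
    rw [sg_def] at h1 h2 <;>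
    obtain ⟨⟨a1, a2⟩, a3, a4⟩ := inb_mn (by norm_num) h1 <;>
    obtain ⟨⟨b1, b2⟩, b3, b4⟩ := inb_mn (by norm_num) h2 <;>
    obtain ⟨c1, c2⟩ := abs_le.1 h3 <;>
    obtain ⟨d1, d2⟩ := abs_le.1 h4 <;>
    refine ⟨abs_le.2 ⟨?_, ?_⟩, abs_le.2 ⟨?_, ?_⟩, ?_, ?_⟩ <;> linarith

/-- all string regions are near the big box -/
theorem near_HB {p : E3} (hp : p ∈ rgOL 1 ∪ rgVL 1 ∪ rgHB 1 ∪ rgVR 1 ∪ rgOR 1 ∪ rgCL 1) :
    ∃ q ∈ HB, dist p q ≤ g := by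
  obtain ⟨h0, h1, h2, h3⟩ := inb_small hp
  have hg := g_pos
  have hg2 := g_le
  have ha := al_gt
  have ha2 := al_sq_gt
  have hz : ze = -1 - g / 8 := rfl
  refine ⟨pt (p 0) (p 1) (max (p 2) (-1)), ⟨?_, ?_, ?_⟩, ?_⟩
  · rw [pt_0]; linarith
  · rw [pt_1]; linarith
  · rw [pt_2, abs_le]
    exact ⟨le_max_right _ _, max_le (by linarith) (by norm_num)⟩
  · refine dist_le_of_coord (a := 0) (b := 0) (c := g) ?_ ?_ ?_ hg.le ?_
    · rw [pt_0, sub_self, abs_zero]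
    · rw [pt_1, sub_self, abs_zero]
    · rw [pt_2, abs_le]
      constructor
      · have : max (p 2) (-1) ≤ p 2 + g := max_le (by linarith) (by linarith)
        linarith
      · have : p 2 ≤ max (p 2) (-1) := le_max_left _ _
        linarith
    · nlinarith

/-- all string regions are in the small box -/
theorem in_DB : rgOL 1 ∪ rgVL 1 ∪ rgHB 1 ∪ rgVR 1 ∪ rgOR 1 ∪ rgCL 1 ⊆ DB := by
  intro p hp
  obtain ⟨h0, h1, h2, h3⟩ := inb_small hp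
  have hg := g_pos
  have hg2 := g_le
  have hz : ze = -1 - g / 8 := rfl
  refine ⟨?_, ?_, ?_, ?_⟩ <;> linarith

/-- the hub and the closing string are in the deep part of the root -/
theorem in_VT : rgHB 1 ∪ rgCL 1 ⊆ VT := by
  intro p hp
  have hp' : p ∈ rgOL 1 ∪ rgVL 1 ∪ rgHB 1 ∪ rgVR 1 ∪ rgOR 1 ∪ rgCL 1 := by
    rcases hp with h | h
    · exact Or.inl (Or.inl (Or.inl (Or.inr h)))
    · exact Or.inr h
  obtain ⟨h0, h1, h2, h3⟩ := inb_small hp'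
  have hg := g_pos
  have hg2 := g_le
  have ha := al_gt
  have ha2 := al_sq_gt
  have h4 : |p 2| ≤ g := by
    rcases hp with ⟨_, _, _, h⟩ | ⟨_, _, _, h⟩ <;> linarith
  refine ⟨?_, ?_, ?_⟩ <;> linarith

theorem pa_notin : pa ∉ rgVL (6 / 5) ∪ rgT1 ∪ rgHB (6 / 5) ∪ rgT2 ∪ rgVR (6 / 5) ∪ rgOR (6 / 5) := by
  have hg := g_pos
  have hg2 := g_le
  have hx := xi_gt
  have hx2 := xi_lt
  have hz : ze = -1 - g / 8 := rfl
  have p0 : pa 0 = -(2 * xi) := pt_0 _ _ _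
  have p1 : pa 1 = 0 := pt_1 _ _ _
  have p2 : pa 2 = ze := pt_2 _ _ _
  rintro (((((h | h) | h) | h) | h) | h)
  · obtain ⟨_, _, h, _⟩ := h
    have := (abs_le.1 h).1
    rw [p0] at this
    linarith
  · rcases h with ⟨_, _, _, h⟩ | ⟨_, _, _, h⟩ <;> have := (abs_le.1 h).1 <;> rw [p2] at this <;>
      linarith
  · obtain ⟨_, _, _, h⟩ := h
    have := (abs_le.1 h).1
    rw [p2] at this
    linarith
  · rcases h with ⟨_, _, _, h⟩ | ⟨_, _, _, h⟩ <;> have := (abs_le.1 h).1 <;> rw [p2] at this <;>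
      linarith
  · obtain ⟨_, _, h, _⟩ := h
    have := (abs_le.1 h).1
    rw [p0] at this
    linarith
  · obtain ⟨h, _, _, _⟩ := h
    rw [sg_def] at h
    obtain ⟨⟨a1, a2⟩, _⟩ := inb_mn (by norm_num) h
    rw [p0, p1] at a1
    linarith

theorem pb_notin : pb ∉ rgOL (6 / 5) ∪ rgVL (6 / 5) ∪ rgT1 ∪ rgHB (6 / 5) ∪ rgT2 ∪ rgVR (6 / 5) := by
  have hg := g_pos
  have hg2 := g_le
  have hx := xi_gt
  have hx2 := xi_lt
  have hz : ze = -1 - g / 8 := rfl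
  have p0 : pb 0 = 2 * xi := pt_0 _ _ _
  have p1 : pb 1 = 0 := pt_1 _ _ _
  have p2 : pb 2 = ze := pt_2 _ _ _
  rintro (((((h | h) | h) | h) | h) | h)
  · obtain ⟨h, _, _, _⟩ := h
    rw [sg_def] at h
    obtain ⟨_, a1, a2⟩ := inb_mn (by norm_num) h
    rw [p0, p1] at a1
    linarith
  · obtain ⟨_, _, h, _⟩ := h
    have := (abs_le.1 h).2
    rw [p0] at this
    linarith
  · rcases h with ⟨_, _, _, h⟩ | ⟨_, _, _, h⟩ <;> have := (abs_le.1 h).1 <;> rw [p2] at this <;>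
      linarith
  · obtain ⟨_, _, _, h⟩ := h
    have := (abs_le.1 h).1
    rw [p2] at this
    linarith
  · rcases h with ⟨_, _, _, h⟩ | ⟨_, _, _, h⟩ <;> have := (abs_le.1 h).1 <;> rw [p2] at this <;>
      linarith
  · obtain ⟨_, _, h, _⟩ := h
    have := (abs_le.1 h).2
    rw [p0] at this
    linarith

/-- cells are contained in the bigger cells -/
theorem cellB_sub (b : Bool) : cellB b ⊆ cellP b := by
  have hg := g_pos
  have hw := w_pos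
  cases b
  · rintro p ⟨h1, h2⟩
    have h3 := abs_nonneg (p 1)
    exact ⟨by linarith, by linarith⟩
  · rintro p (⟨h1, h2⟩ | ⟨h1, h2, h3, h4⟩)
    · have h3 := abs_nonneg (p 1)
      exact Or.inl ⟨by linarith, by linarith⟩
    · exact Or.inr ⟨by linarith, by linarith, by linarith, by linarith⟩

/-- the zone of the triangle moves meets the outer regions only in the inner endpoints -/
theorem zone_OL : rgOL 1 ∩ Zone ⊆ {pai} := by
  rintro p ⟨⟨h1, h2, _, _⟩, hz⟩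
  have hx := xi_pos
  rw [sg_def] at h1 h2
  obtain ⟨⟨a1, a2⟩, a3, a4⟩ := inb_mn (by norm_num) h1
  obtain ⟨⟨b1, b2⟩, b3, b4⟩ := inb_mn (by norm_num) h2
  have h0 : |p 0| = -p 0 := abs_of_nonpos (by linarith)
  have e0 : p 0 = -xi := by
    rcases hz with hz | hz <;> rw [h0] at hz <;> linarith
  rw [Set.mem_singleton_iff]
  refine ext3 ?_ ?_ ?_
  · rw [e0]; exact (pt_0 _ _ _).symm
  · have : pai 1 = 0 := pt_1 _ _ _
    rw [this]; rw [e0] at a3 a4; linarith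
  · have : pai 2 = ze := pt_2 _ _ _
    rw [this]; rw [e0] at b3 b4; linarith

theorem zone_OR : rgOR 1 ∩ Zone ⊆ {pbi} := by
  rintro p ⟨⟨h1, h2, _, _⟩, hz⟩
  have hx := xi_pos
  rw [sg_def] at h1 h2
  obtain ⟨⟨a1, a2⟩, a3, a4⟩ := inb_mn (by norm_num) h1
  obtain ⟨⟨b1, b2⟩, b3, b4⟩ := inb_mn (by norm_num) h2
  have h0 : |p 0| = p 0 := abs_of_nonneg (by linarith)
  have e0 : p 0 = xi := by
    rcases hz with hz | hz <;> rw [h0] at hz <;> linarith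
  rw [Set.mem_singleton_iff]
  refine ext3 ?_ ?_ ?_
  · rw [e0]; exact (pt_0 _ _ _).symm
  · have : pbi 1 = 0 := pt_1 _ _ _
    rw [this]; rw [e0] at a1 a2; linarith
  · have : pbi 2 = ze := pt_2 _ _ _
    rw [this]; rw [e0] at b1 b2; linarith

end BOR

end
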