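import Pool.Agent.BOR.GRT
import Pool.Agent.BOR.INC

/-!
# BOR / KTA: kids of a T cell, containment

PROOF. `kidsT` is a concatenation of seven lists, `List.mem_append` splits the cases
OL, VL, T1, HB, T2, VR, OR (`kT_cases`). Cells: `grXX` (file GRT) and `inXX` (file INC); for the T kids
`cellB true ⊆ cellP true` (`cellB_sub`).
* `kT_ends`: `edgeB true 0 = pa = FOL (pt 0 0 0)`, `edgeB true 1 = pb = FOR (pt 1 0 0)`. If
  `pa ∈ k.cell`, then `k` is in the first group by `pa_notin` (and `cell ⊆ cellp`), and `str_start`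
  applies. Similarly `pb`, `str_end`.
* `kT_unsq`: `k.sq = false` only for the groups OL, OR (`str_data`); `zone_OL`, `zone_OR`.
-/

noncomputable section

namespace BOR

open Set

theorem Node.cell_sub (k : Node) : k.cell ⊆ k.cellp :=
  image_mono (cellB_sub k.typ)

theorem kT_cases {k : Node} (hk : k ∈ kidsT) :
    k ∈ str FOL (NT xi) 0 (1 / 4) false ∨ k ∈ str FVL (NT hh) (1 / 4) (3 / 8) true ∨
    k = ⟨true, FT1, 3 / 8, 13 / 32, true⟩ ∨
    k ∈ str FHB (NT (2 * xi)) (13 / 32) (7 / 16) true ∨
    k = ⟨true, FT2, 7 / 16, 1 / 2, true⟩ ∨ k ∈ str FVR (NT hh) (1 / 2) (3 / 4) true ∨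
    k ∈ str FOR (NT xi) (3 / 4) 1 false := by
  unfold kidsT at hk
  simp only [List.mem_append, List.mem_singleton] at hk
  tauto

theorem kT_cell {k : Node} (hk : k ∈ kidsT) : k.cell ⊆ cellB true := by
  rcases kT_cases hk with h | h | h | h | h | h | h
  · exact (grOL h).1.trans inOL
  · exact (k.cell_sub.trans (grVL h).2).trans inVL
  · subst h
    exact (Node.cell_sub _).trans (grT1.trans (inT1.trans inter_subset_left))
  · exact (k.cell_sub.trans (grHB h).2).trans (inHB.trans inter_subset_left)
  · subst h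
    exact (Node.cell_sub _).trans (grT2.trans (inT2.trans inter_subset_left))
  · exact (k.cell_sub.trans (grVR h).2).trans inVR
  · exact (grOR h).1.trans inOR

theorem kT_cellp {k : Node} (hk : k ∈ kidsT) (hs : k.sq = true) : k.cellp ⊆ cellB true := by
  rcases kT_cases hk with h | h | h | h | h | h | h
  · exact absurd ((str_data h).2.1.symm.trans hs) (by decide)
  · exact (grVL h).2.trans inVL
  · subst h
    exact grT1.trans (inT1.trans inter_subset_left)
  · exact (grHB h).2.trans (inHB.trans inter_subset_left)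
  · subst h
    exact grT2.trans (inT2.trans inter_subset_left)
  · exact (grVR h).2.trans inVR
  · exact absurd ((str_data h).2.1.symm.trans hs) (by decide)

theorem kT_ends {k : Node} (hk : k ∈ kidsT) : {edgeB true 0, edgeB true 1} ∩ k.cell ⊆ k.ends := by
  have e0 : edgeB true 0 = pa := by
    apply ext3 <;> simp [edgeB, pa, de]
  have e1 : edgeB true 1 = pb := by
    apply ext3 <;> simp [edgeB, pb, de]
    ring
  have f0 : FOL (pt 0 0 0) = pa := by
    rw [Sim.app_def]
    apply ext3 <;> simp [FOL, pa]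
  have f1 : FOR (pt 1 0 0) = pb := by
    rw [Sim.app_def]
    apply ext3 <;> simp [FOR, pb]
    ring
  have na := pa_notin
  have nb := pb_notin
  simp only [mem_union, not_or] at na nb
  obtain ⟨⟨⟨⟨⟨naVL, naT1⟩, naHB⟩, naT2⟩, naVR⟩, naOR⟩ := na
  obtain ⟨⟨⟨⟨⟨nbOL, nbVL⟩, nbT1⟩, nbHB⟩, nbT2⟩, nbVR⟩ := nb
  rintro p ⟨hp, hpk⟩
  have hpk' := k.cell_sub hpk
  rw [e0, e1] at hp
  rcases hp with hp | hp
  · subst hp
    rcases kT_cases hk with h | h | h | h | h | h | h
    · rw [← f0]
      rw [← f0] at hpk'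
      exact str_start h hpk'
    · exact absurd ((grVL h).2 hpk') naVL
    · subst h
      exact absurd (grT1 hpk') naT1
    · exact absurd ((grHB h).2 hpk') naHB
    · subst h
      exact absurd (grT2 hpk') naT2
    · exact absurd ((grVR h).2 hpk') naVR
    · exact absurd ((grOR h).2 hpk') naOR
  · rw [mem_singleton_iff] at hp
    subst hp
    rcases kT_cases hk with h | h | h | h | h | h | h
    · exact absurd ((grOL h).2 hpk') nbOL
    · exact absurd ((grVL h).2 hpk') nbVL
    · subst h
      exact absurd (grT1 hpk') nbT1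
    · exact absurd ((grHB h).2 hpk') nbHB
    · subst h
      exact absurd (grT2 hpk') nbT2
    · exact absurd ((grVR h).2 hpk') nbVR
    · rw [← f1]
      rw [← f1] at hpk'
      exact str_end h hpk'

theorem kT_unsq {k : Node} (hk : k ∈ kidsT) (hs : k.sq = false) : k.cell ∩ Zone ⊆ {pai, pbi} := by
  rcases kT_cases hk with h | h | h | h | h | h | h
  · rintro p ⟨hp, hz⟩
    exact Or.inl (zone_OL ⟨(grOL h).1 hp, hz⟩)
  · exact absurd ((str_data h).2.1.symm.trans hs) (by decide)
  · subst h
    exact absurd hs (by decide)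
  · exact absurd ((str_data h).2.1.symm.trans hs) (by decide)
  · subst h
    exact absurd hs (by decide)
  · exact absurd ((str_data h).2.1.symm.trans hs) (by decide)
  · rintro p ⟨hp, hz⟩
    exact Or.inr (zone_OR ⟨(grOR h).1 hp, hz⟩)

end BOR

end
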