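import Pool.Agent.BOR.GRT
import Pool.Agent.BOR.CRS

/-!
# BOR / KTB: kids of a T cell, pairwise relation; the same for the root

PROOF. `List.pairwise_append` (several times), `str_rel` inside the groups. Across groups use the
general remark (`rel_of`): if `k.cellp ⊆ X`, `k'.cellp ⊆ Y`, `X ∩ Y ⊆ {q}`, and
`q ∈ k.cellp → q ∈ k.ends`, `q ∈ k'.cellp → q ∈ k'.ends`, then `k.rel k'`. The regions are given by
GRT and the intersections by CRS (left/right pairs are disjoint by `left_neg`, `right_pos`).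
The common vertices: `pai = FOL (pt 1 0 0) = FVL (pt 0 0 0)`, `P1m = FVL (pt 1 0 0)`,
`P1m = FT1 (edgeB true 0)`, `P1p = FT1 (edgeB true 1) = FHB (pt 0 0 0)`,
`P2p = FHB (pt 1 0 0) = FT2 (edgeB true 0)`, `P2m = FT2 (edgeB true 1) = FVR (pt 0 0 0)`,
`pbi = FVR (pt 1 0 0) = FOR (pt 0 0 0)`, `P2m = FCL (pt 0 0 0)`, `P1m = FCL (pt 1 0 0)`; use
`str_start`, `str_end` for the strings; for the T kids the vertex is in `ends` by definition
(`xi_id`, `ss = r de`). Root: the groups T1, HB, T2, CL; pairs T1/HB, T1/T2, T1/CL, HB/T2, HB/CL,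
T2/CL.
-/

noncomputable section

namespace BOR

open Set

theorem rel_of {k k' : Node} {X Y : Set E3} (q : E3) (hX : k.cellp ⊆ X) (hY : k'.cellp ⊆ Y)
    (h : X ∩ Y ⊆ {q}) (h1 : q ∈ k.cellp → q ∈ k.ends) (h2 : q ∈ k'.cellp → q ∈ k'.ends) :
    k.rel k' := by
  rintro p ⟨hp1, hp2⟩
  have hq : p = q := h ⟨hX hp1, hY hp2⟩
  subst hq
  exact ⟨h1 hp1, h2 hp2⟩

private theorem ktb_disj {k k' : Node} {X Y : Set E3} (hX : k.cellp ⊆ X) (hY : k'.cellp ⊆ Y)
    (h : X ∩ Y = ∅) : k.rel k' := by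
  rintro p ⟨hp1, hp2⟩
  have hp : p ∈ X ∩ Y := ⟨hX hp1, hY hp2⟩
  rw [h] at hp
  exact absurd hp (Set.notMem_empty p)

private theorem ktb_lr {k k' : Node} (hX : k.cellp ⊆ rgOL (6 / 5) ∪ rgVL (6 / 5) ∪ rgT1)
    (hY : k'.cellp ⊆ rgOR (6 / 5) ∪ rgVR (6 / 5) ∪ rgT2) : k.rel k' := by
  rintro p ⟨hp1, hp2⟩
  have h1 : p 0 < 0 := left_neg (hX hp1)
  have h2 : 0 < p 0 := right_pos (hY hp2)
  exact absurd h1 (not_lt.2 h2.le)

private theorem ktb_OL1 : FOL (pt 1 0 0) = pai := by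
  refine ext3 ?_ ?_ ?_ <;> simp [FOL, Sim.app_def, pai] <;> ring

private theorem ktb_VL0 : FVL (pt 0 0 0) = pai := by
  refine ext3 ?_ ?_ ?_ <;> simp [FVL, Sim.app_def, pai, Uzp_app]

private theorem ktb_VL1 : FVL (pt 1 0 0) = P1m := by
  refine ext3 ?_ ?_ ?_ <;> simp [FVL, Sim.app_def, P1m, Uzp_app, ze, hh]

private theorem ktb_HB0 : FHB (pt 0 0 0) = P1p := by
  refine ext3 ?_ ?_ ?_ <;> simp [FHB, Sim.app_def, P1p]

private theorem ktb_HB1 : FHB (pt 1 0 0) = P2p := by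
  refine ext3 ?_ ?_ ?_ <;> simp [FHB, Sim.app_def, P2p]
  ring

private theorem ktb_VR0 : FVR (pt 0 0 0) = P2m := by
  refine ext3 ?_ ?_ ?_ <;> simp [FVR, Sim.app_def, P2m, Uzm_app]

private theorem ktb_VR1 : FVR (pt 1 0 0) = pbi := by
  refine ext3 ?_ ?_ ?_ <;> simp [FVR, Sim.app_def, pbi, Uzm_app, ze, hh]
  ring

private theorem ktb_OR0 : FOR (pt 0 0 0) = pbi := by
  refine ext3 ?_ ?_ ?_ <;> simp [FOR, Sim.app_def, pbi]

private theorem ktb_CL0 : FCL (pt 0 0 0) = P2m := by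
  refine ext3 ?_ ?_ ?_ <;> simp [FCL, Sim.app_def, P2m, Uxm_app]

private theorem ktb_CL1 : FCL (pt 1 0 0) = P1m := by
  refine ext3 ?_ ?_ ?_ <;> simp [FCL, Sim.app_def, P1m, Uxm_app]
  ring

private theorem ktb_T10 : FT1 (edgeB true 0) = P1m := by
  have h := xi_id
  refine ext3 ?_ ?_ ?_ <;> simp [FT1, Sim.app_def, P1m, UA1_app, edgeB]
  · linarith
  · rw [ss]; ring

private theorem ktb_T11 : FT1 (edgeB true 1) = P1p := by
  have h := xi_id
  refine ext3 ?_ ?_ ?_ <;> simp [FT1, Sim.app_def, P1p, UA1_app, edgeB]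
  · linarith
  · rw [ss]; ring

private theorem ktb_T20 : FT2 (edgeB true 0) = P2p := by
  have h := xi_id
  refine ext3 ?_ ?_ ?_ <;> simp [FT2, Sim.app_def, P2p, UA2_app, edgeB]
  · linarith
  · rw [ss]; ring

private theorem ktb_T21 : FT2 (edgeB true 1) = P2m := by
  have h := xi_id
  refine ext3 ?_ ?_ ?_ <;> simp [FT2, Sim.app_def, P2m, UA2_app, edgeB]
  · linarith
  · rw [ss]; ring

private theorem ktb_relOLVL {a b c d : ℝ} {q q' : Bool} {k k' : Node}
    (hk : k ∈ str FOL (NT xi) a b q) (hk' : k' ∈ str FVL (NT hh) c d q') : k.rel k' := by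
  refine rel_of pai (grOL hk).2 (grVL hk').2 crOLVL (fun h => ?_) (fun h => ?_)
  · rw [← ktb_OL1] at h ⊢; exact str_end hk h
  · rw [← ktb_VL0] at h ⊢; exact str_start hk' h

private theorem ktb_relVLT {c d : ℝ} {q' : Bool} {k : Node} (s t : ℝ) (q : Bool)
    (hk : k ∈ str FVL (NT hh) c d q') : k.rel ⟨true, FT1, s, t, q⟩ := by
  refine rel_of P1m (grVL hk).2 grT1 crVLT (fun h => ?_) (fun _ => ?_)
  · rw [← ktb_VL1] at h ⊢; exact str_end hk h
  · rw [← ktb_T10]; exact Or.inl rfl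

private theorem ktb_relTHB {c d : ℝ} {q' : Bool} {k : Node} (s t : ℝ) (q : Bool)
    (hk : k ∈ str FHB (NT (2 * xi)) c d q') : (⟨true, FT1, s, t, q⟩ : Node).rel k := by
  refine rel_of P1p grT1 (grHB hk).2 crTHB (fun _ => ?_) (fun h => ?_)
  · rw [← ktb_T11]; exact Or.inr rfl
  · rw [← ktb_HB0] at h ⊢; exact str_start hk h

private theorem ktb_relHBT {c d : ℝ} {q' : Bool} {k : Node} (s t : ℝ) (q : Bool)
    (hk : k ∈ str FHB (NT (2 * xi)) c d q') : k.rel ⟨true, FT2, s, t, q⟩ := by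
  refine rel_of P2p (grHB hk).2 grT2 crHBT (fun h => ?_) (fun _ => ?_)
  · rw [← ktb_HB1] at h ⊢; exact str_end hk h
  · rw [← ktb_T20]; exact Or.inl rfl

private theorem ktb_relTVR {c d : ℝ} {q' : Bool} {k : Node} (s t : ℝ) (q : Bool)
    (hk : k ∈ str FVR (NT hh) c d q') : (⟨true, FT2, s, t, q⟩ : Node).rel k := by
  refine rel_of P2m grT2 (grVR hk).2 crTVR (fun _ => ?_) (fun h => ?_)
  · rw [← ktb_T21]; exact Or.inr rfl
  · rw [← ktb_VR0] at h ⊢; exact str_start hk h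

private theorem ktb_relVROR {a b c d : ℝ} {q q' : Bool} {k k' : Node}
    (hk : k ∈ str FVR (NT hh) a b q) (hk' : k' ∈ str FOR (NT xi) c d q') : k.rel k' := by
  refine rel_of pbi (grVR hk).2 (grOR hk').2 crVRO (fun h => ?_) (fun h => ?_)
  · rw [← ktb_VR1] at h ⊢; exact str_end hk h
  · rw [← ktb_OR0] at h ⊢; exact str_start hk' h

private theorem ktb_relTCL {c d : ℝ} {q' : Bool} {k : Node} (s t : ℝ) (q : Bool)
    (hk : k ∈ str FCL (NT (2 * xi)) c d q') : (⟨true, FT1, s, t, q⟩ : Node).rel k := by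
  refine rel_of P1m grT1 (grCL hk).2 crTCL (fun _ => ?_) (fun h => ?_)
  · rw [← ktb_T10]; exact Or.inl rfl
  · rw [← ktb_CL1] at h ⊢; exact str_end hk h

private theorem ktb_relTCL2 {c d : ℝ} {q' : Bool} {k : Node} (s t : ℝ) (q : Bool)
    (hk : k ∈ str FCL (NT (2 * xi)) c d q') : (⟨true, FT2, s, t, q⟩ : Node).rel k := by
  refine rel_of P2m grT2 (grCL hk).2 crTCL2 (fun _ => ?_) (fun h => ?_)
  · rw [← ktb_T21]; exact Or.inr rfl
  · rw [← ktb_CL0] at h ⊢; exact str_start hk h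

theorem kT_rel : kidsT.Pairwise Node.rel := by
  have lOL : ∀ {a b : ℝ} {q : Bool} {k : Node}, k ∈ str FOL (NT xi) a b q →
      k.cellp ⊆ rgOL (6 / 5) ∪ rgVL (6 / 5) ∪ rgT1 :=
    fun hk p hp => Or.inl (Or.inl ((grOL hk).2 hp))
  have lVL : ∀ {a b : ℝ} {q : Bool} {k : Node}, k ∈ str FVL (NT hh) a b q →
      k.cellp ⊆ rgOL (6 / 5) ∪ rgVL (6 / 5) ∪ rgT1 :=
    fun hk p hp => Or.inl (Or.inr ((grVL hk).2 hp))
  have lT1 : ∀ s t : ℝ, ∀ q : Bool, (⟨true, FT1, s, t, q⟩ : Node).cellp ⊆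
      rgOL (6 / 5) ∪ rgVL (6 / 5) ∪ rgT1 := fun _ _ _ p hp => Or.inr (grT1 hp)
  have rOR : ∀ {a b : ℝ} {q : Bool} {k : Node}, k ∈ str FOR (NT xi) a b q →
      k.cellp ⊆ rgOR (6 / 5) ∪ rgVR (6 / 5) ∪ rgT2 :=
    fun hk p hp => Or.inl (Or.inl ((grOR hk).2 hp))
  have rVR : ∀ {a b : ℝ} {q : Bool} {k : Node}, k ∈ str FVR (NT hh) a b q →
      k.cellp ⊆ rgOR (6 / 5) ∪ rgVR (6 / 5) ∪ rgT2 :=
    fun hk p hp => Or.inl (Or.inr ((grVR hk).2 hp))
  have rT2 : ∀ s t : ℝ, ∀ q : Bool, (⟨true, FT2, s, t, q⟩ : Node).cellp ⊆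
      rgOR (6 / 5) ∪ rgVR (6 / 5) ∪ rgT2 := fun _ _ _ p hp => Or.inr (grT2 hp)
  unfold kidsT
  rw [List.pairwise_append, List.pairwise_append, List.pairwise_append, List.pairwise_append,
    List.pairwise_append, List.pairwise_append]
  refine ⟨⟨⟨⟨⟨⟨str_rel _ _ _ _ _, str_rel _ _ _ _ _, ?_⟩, List.pairwise_singleton _ _, ?_⟩,
    str_rel _ _ _ _ _, ?_⟩, List.pairwise_singleton _ _, ?_⟩, str_rel _ _ _ _ _, ?_⟩,
    str_rel _ _ _ _ _, ?_⟩
  · intro a ha b hb
    exact ktb_relOLVL ha hb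
  · intro a ha b hb
    rw [List.mem_singleton] at hb
    subst hb
    rcases List.mem_append.1 ha with ha | ha
    · exact ktb_disj (grOL ha).2 grT1 crOLT
    · exact ktb_relVLT _ _ _ ha
  · intro a ha b hb
    rcases List.mem_append.1 ha with ha | ha
    · rcases List.mem_append.1 ha with ha | ha
      · exact ktb_disj (grOL ha).2 (grHB hb).2 crOLHB
      · exact ktb_disj (grVL ha).2 (grHB hb).2 crVLHB
    · rw [List.mem_singleton] at ha
      subst ha
      exact ktb_relTHB _ _ _ hb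
  · intro a ha b hb
    rw [List.mem_singleton] at hb
    subst hb
    rcases List.mem_append.1 ha with ha | ha
    · rcases List.mem_append.1 ha with ha | ha
      · rcases List.mem_append.1 ha with ha | ha
        · exact ktb_lr (lOL ha) (rT2 _ _ _)
        · exact ktb_lr (lVL ha) (rT2 _ _ _)
      · rw [List.mem_singleton] at ha
        subst ha
        exact ktb_lr (lT1 _ _ _) (rT2 _ _ _)
    · exact ktb_relHBT _ _ _ ha
  · intro a ha b hb
    rcases List.mem_append.1 ha with ha | ha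
    · rcases List.mem_append.1 ha with ha | ha
      · rcases List.mem_append.1 ha with ha | ha
        · rcases List.mem_append.1 ha with ha | ha
          · exact ktb_lr (lOL ha) (rVR hb)
          · exact ktb_lr (lVL ha) (rVR hb)
        · rw [List.mem_singleton] at ha
          subst ha
          exact ktb_lr (lT1 _ _ _) (rVR hb)
      · exact ktb_disj (grHB ha).2 (grVR hb).2 crHBVR
    · rw [List.mem_singleton] at ha
      subst ha
      exact ktb_relTVR _ _ _ hb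
  · intro a ha b hb
    rcases List.mem_append.1 ha with ha | ha
    · rcases List.mem_append.1 ha with ha | ha
      · rcases List.mem_append.1 ha with ha | ha
        · rcases List.mem_append.1 ha with ha | ha
          · rcases List.mem_append.1 ha with ha | ha
            · exact ktb_lr (lOL ha) (rOR hb)
            · exact ktb_lr (lVL ha) (rOR hb)
          · rw [List.mem_singleton] at ha
            subst ha
            exact ktb_lr (lT1 _ _ _) (rOR hb)
        · exact ktb_disj (grHB ha).2 (grOR hb).2 crHBOR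
      · rw [List.mem_singleton] at ha
        subst ha
        exact ktb_disj grT2 (grOR hb).2 crTOR
    · exact ktb_relVROR ha hb

theorem root_rel : rootL.Pairwise Node.rel := by
  unfold rootL
  rw [List.pairwise_append, List.pairwise_append, List.pairwise_append]
  refine ⟨⟨⟨List.pairwise_singleton _ _, str_rel _ _ _ _ _, ?_⟩, List.pairwise_singleton _ _, ?_⟩,
    str_rel _ _ _ _ _, ?_⟩
  · intro a ha b hb
    rw [List.mem_singleton] at ha
    subst ha
    exact ktb_relTHB _ _ _ hb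
  · intro a ha b hb
    rw [List.mem_singleton] at hb
    subst hb
    rcases List.mem_append.1 ha with ha | ha
    · rw [List.mem_singleton] at ha
      subst ha
      exact ktb_lr (fun p hp => Or.inr (grT1 hp)) (fun p hp => Or.inr (grT2 hp))
    · exact ktb_relHBT _ _ _ ha
  · intro a ha b hb
    rcases List.mem_append.1 ha with ha | ha
    · rcases List.mem_append.1 ha with ha | ha
      · rw [List.mem_singleton] at ha
        subst ha
        exact ktb_relTCL _ _ _ hb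
      · exact ktb_disj (grHB ha).2 (grCL hb).2 crHBCL
    · rw [List.mem_singleton] at ha
      subst ha
      exact ktb_relTCL2 _ _ _ hb

end BOR

end
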