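import Pool.Agent.BOR.KSA
import Pool.Agent.BOR.KTB
import Pool.Agent.BOR.KTA

/-!
# BOR / KSB: kids of an S cell, assembled facts

PROOF. Cases by `List.mem_append`; regions and crossings from KSA; strings from STR; pairwise
relation with `rel_of` (KTB) and `List.pairwise_append`. Vertices:
`(x0,0,0) = FSA (pt 1 0 0) = FSB (pt 0 0 0)`, `(1/2 - rho de,0,0) = FSB (pt 1 0 0) =`
`FSC (edgeB true 0)`, `(1/2 + rho de,0,0) = FSC (edgeB true 1) = FSD (pt 0 0 0)`,
`(1-x0,0,0) = FSD (pt 1 0 0) = FSE (pt 0 0 0)`.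
* `kS_ends`: `edgeB false 0 = (0,0,0) = FSA (pt 0 0 0)` is only in the region SA (the other regions
  have `p 0 ≥ x0 > 0`), use `str_start`; `edgeB false 1 = (1,0,0) = FSE (pt 1 0 0)`.
* `kS_edge`: `k.edge t = F (pt ((t-ta)/(tb-ta)) 0 0) = (t,0,0)` in all cases; T kid:
  `FSC (edgeB true u) = (1/2 + rho (-de + 2 de u), 0, 0)`.
* `kS_size`: `x0 ≤ 4/5`; `ls/(M+1) < rho l0`; T kid `5 rho ≤ 4/5`.
* `kS_thin`: SB, SD: `ls/(M+1) = rho ((ls/rho)/(M+1)) ≥ rho g/1024` (`NT_ge`, `ls/rho ≥ l0`); for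
  `p ∈ rgSB` take `q = FSC (x,y,-1)` with `x = max ((p 0 - 1/2)/rho) (-al²)`, `y = p 1/rho`:
  `q = (max (p 0) (1/2 - rho al²), p 1, rho eta)`, so
  `dist p q ≤ rho g/8 + rho g/8 + rho g/1280 ≤ rho g` (as `p 0 ≥ x0 = 1/2 - rho al² - rho g/8`).
-/

noncomputable section

namespace BOR

open Set

private theorem ksb_xl : x0 + ls = 1 / 2 - rho * de := by unfold x0 ls; ring

private theorem ksb_lx : 1 / 2 + rho * de + ls = 1 - x0 := by unfold x0 ls; ring

private theorem ksb_rd : 0 < rho * de := by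
  have := de_pos
  unfold rho
  positivity

private theorem ksb_x0lt : x0 < 1 / 2 := by
  have h1 := al_sq_pos
  have h2 := g_pos
  unfold x0 rho
  linarith

private theorem ksb_A1 : FSA (pt 1 0 0) = pt x0 0 0 := by
  refine ext3 ?_ ?_ ?_ <;> simp [FSA, Sim.app_def]

private theorem ksb_A0 : FSA (pt 0 0 0) = pt 0 0 0 := by
  refine ext3 ?_ ?_ ?_ <;> simp [FSA, Sim.app_def]

private theorem ksb_B0 : FSB (pt 0 0 0) = pt x0 0 0 := by
  refine ext3 ?_ ?_ ?_ <;> simp [FSB, Sim.app_def]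

private theorem ksb_B1 : FSB (pt 1 0 0) = pt (1 / 2 - rho * de) 0 0 := by
  have h := ksb_xl
  refine ext3 ?_ ?_ ?_ <;> simp [FSB, Sim.app_def]
  linarith

private theorem ksb_C0 : FSC (edgeB true 0) = pt (1 / 2 - rho * de) 0 0 := by
  refine ext3 ?_ ?_ ?_ <;> simp [FSC, Sim.app_def, edgeB]
  ring

private theorem ksb_C1 : FSC (edgeB true 1) = pt (1 / 2 + rho * de) 0 0 := by
  refine ext3 ?_ ?_ ?_ <;> simp [FSC, Sim.app_def, edgeB]
  ring

private theorem ksb_D0 : FSD (pt 0 0 0) = pt (1 / 2 + rho * de) 0 0 := by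
  refine ext3 ?_ ?_ ?_ <;> simp [FSD, Sim.app_def]

private theorem ksb_D1 : FSD (pt 1 0 0) = pt (1 - x0) 0 0 := by
  have h := ksb_lx
  refine ext3 ?_ ?_ ?_ <;> simp [FSD, Sim.app_def]
  linarith

private theorem ksb_E0 : FSE (pt 0 0 0) = pt (1 - x0) 0 0 := by
  refine ext3 ?_ ?_ ?_ <;> simp [FSE, Sim.app_def]

private theorem ksb_E1 : FSE (pt 1 0 0) = pt 1 0 0 := by
  refine ext3 ?_ ?_ ?_ <;> simp [FSE, Sim.app_def]

private theorem ksb_cases {k : Node} (hk : k ∈ kidsS) :
    k ∈ str FSA 0 0 x0 false ∨ k ∈ str FSB (NT (ls / rho)) x0 (1 / 2 - rho * de) false ∨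
    k = ⟨true, FSC, 1 / 2 - rho * de, 1 / 2 + rho * de, false⟩ ∨
    k ∈ str FSD (NT (ls / rho)) (1 / 2 + rho * de) (1 - x0) false ∨
    k ∈ str FSE 0 (1 - x0) 1 false := by
  unfold kidsS at hk
  rcases List.mem_append.1 hk with hk | hk
  · rcases List.mem_append.1 hk with hk | hk
    · rcases List.mem_append.1 hk with hk | hk
      · rcases List.mem_append.1 hk with hk | hk
        · exact Or.inl hk
        · exact Or.inr (Or.inl hk)
      · exact Or.inr (Or.inr (Or.inl (List.mem_singleton.1 hk)))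
    · exact Or.inr (Or.inr (Or.inr (Or.inl hk)))
  · exact Or.inr (Or.inr (Or.inr (Or.inr hk)))

private theorem ksb_memA {k : Node} (hk : k ∈ str FSA 0 0 x0 false) : k ∈ kidsS := by
  unfold kidsS
  exact List.mem_append_left _ (List.mem_append_left _ (List.mem_append_left _
    (List.mem_append_left _ hk)))

private theorem ksb_memB {k : Node}
    (hk : k ∈ str FSB (NT (ls / rho)) x0 (1 / 2 - rho * de) false) : k ∈ kidsS := by
  unfold kidsS
  exact List.mem_append_left _ (List.mem_append_left _ (List.mem_append_left _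
    (List.mem_append_right _ hk)))

private theorem ksb_memC :
    (⟨true, FSC, 1 / 2 - rho * de, 1 / 2 + rho * de, false⟩ : Node) ∈ kidsS := by
  unfold kidsS
  exact List.mem_append_left _ (List.mem_append_left _ (List.mem_append_right _
    (List.mem_singleton.2 rfl)))

private theorem ksb_memD {k : Node}
    (hk : k ∈ str FSD (NT (ls / rho)) (1 / 2 + rho * de) (1 - x0) false) : k ∈ kidsS := by
  unfold kidsS
  exact List.mem_append_left _ (List.mem_append_right _ hk)

private theorem ksb_memE {k : Node} (hk : k ∈ str FSE 0 (1 - x0) 1 false) : k ∈ kidsS := by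
  unfold kidsS
  exact List.mem_append_right _ hk

private theorem ksb_disj {k k' : Node} {X Y : Set E3} (hX : k.cellp ⊆ X) (hY : k'.cellp ⊆ Y)
    (h : X ∩ Y = ∅) : k.rel k' := by
  rintro p ⟨hp1, hp2⟩
  have hp : p ∈ X ∩ Y := ⟨hX hp1, hY hp2⟩
  rw [h] at hp
  exact absurd hp (Set.notMem_empty p)

theorem kS_cell {k : Node} (hk : k ∈ kidsS) : k.cell ⊆ cellB false := by
  rcases ksb_cases hk with h | h | h | h | h
  · exact (gsA h).1.trans inSA
  · exact (k.cell_sub.trans (gsB h)).trans inSB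
  · subst h
    exact ((Node.cell_sub _).trans gsC).trans inSC
  · exact (k.cell_sub.trans (gsD h)).trans inSD
  · exact (gsE h).1.trans inSE

theorem kS_rel : kidsS.Pairwise Node.rel := by
  unfold kidsS
  rw [List.pairwise_append, List.pairwise_append, List.pairwise_append, List.pairwise_append]
  refine ⟨⟨⟨⟨str_rel _ _ _ _ _, str_rel _ _ _ _ _, ?_⟩, List.pairwise_singleton _ _, ?_⟩,
    str_rel _ _ _ _ _, ?_⟩, str_rel _ _ _ _ _, ?_⟩
  · intro a ha b hb
    refine rel_of (pt x0 0 0) (gsA ha).2 (gsB hb) csAB (fun h => ?_) (fun h => ?_)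
    · rw [← ksb_A1] at h ⊢; exact str_end ha h
    · rw [← ksb_B0] at h ⊢; exact str_start hb h
  · intro a ha b hb
    rw [List.mem_singleton] at hb
    subst hb
    rcases List.mem_append.1 ha with ha | ha
    · exact ksb_disj (gsA ha).2 gsC csAC
    · refine rel_of (pt (1 / 2 - rho * de) 0 0) (gsB ha) gsC csBC (fun h => ?_) (fun _ => ?_)
      · rw [← ksb_B1] at h ⊢; exact str_end ha h
      · rw [← ksb_C0]; exact Or.inl rfl
  · intro a ha b hb
    rcases List.mem_append.1 ha with ha | ha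
    · rcases List.mem_append.1 ha with ha | ha
      · exact ksb_disj (X := rgSA (6 / 5) ∪ rgSB) (Y := rgSD ∪ rgSE (6 / 5))
          (fun p hp => Or.inl ((gsA ha).2 hp)) (fun p hp => Or.inl (gsD hb hp)) csLR
      · exact ksb_disj (X := rgSA (6 / 5) ∪ rgSB) (Y := rgSD ∪ rgSE (6 / 5))
          (fun p hp => Or.inr (gsB ha hp)) (fun p hp => Or.inl (gsD hb hp)) csLR
    · rw [List.mem_singleton] at ha
      subst ha
      refine rel_of (pt (1 / 2 + rho * de) 0 0) gsC (gsD hb) csCD (fun _ => ?_) (fun h => ?_)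
      · rw [← ksb_C1]; exact Or.inr rfl
      · rw [← ksb_D0] at h ⊢; exact str_start hb h
  · intro a ha b hb
    rcases List.mem_append.1 ha with ha | ha
    · rcases List.mem_append.1 ha with ha | ha
      · rcases List.mem_append.1 ha with ha | ha
        · exact ksb_disj (X := rgSA (6 / 5) ∪ rgSB) (Y := rgSD ∪ rgSE (6 / 5))
            (fun p hp => Or.inl ((gsA ha).2 hp)) (fun p hp => Or.inr ((gsE hb).2 hp)) csLR
        · exact ksb_disj (X := rgSA (6 / 5) ∪ rgSB) (Y := rgSD ∪ rgSE (6 / 5))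
            (fun p hp => Or.inr (gsB ha hp)) (fun p hp => Or.inr ((gsE hb).2 hp)) csLR
      · rw [List.mem_singleton] at ha
        subst ha
        exact ksb_disj gsC (gsE hb).2 csCE
    · refine rel_of (pt (1 - x0) 0 0) (gsD ha) (gsE hb).2 csDE (fun h => ?_) (fun h => ?_)
      · rw [← ksb_D1] at h ⊢; exact str_end ha h
      · rw [← ksb_E0] at h ⊢; exact str_start hb h

private theorem ksb_rA {p : E3} (hp : p ∈ rgSA 1) : p 0 ≤ x0 := by
  have h := (abs_nonneg _).trans hp.1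
  have h2 := min_le_right (p 0) (x0 - p 0)
  have h3 : (0 : ℝ) < 1 * sg := by unfold sg; norm_num
  nlinarith

private theorem ksb_rB {p : E3} (hp : p ∈ rgSB) : x0 ≤ p 0 ∧ p 0 ≤ 1 / 2 - rho * de := by
  have h := (abs_nonneg _).trans hp.1
  have h2 := min_le_right (p 0 - x0) (1 / 2 - rho * de - p 0)
  have h3 := min_le_left (p 0 - x0) (1 / 2 - rho * de - p 0)
  constructor <;> nlinarith

private theorem ksb_rC {p : E3} (hp : p ∈ rgSC) : 0 < p 0 ∧ p 0 < 1 := by
  have h1 := al_sq_lt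
  have h2 := g_le
  have h3 := g_pos
  have h4 := de_lt
  rcases hp with h | h
  · have h5 := (abs_nonneg _).trans h.1
    have h6 : |p 0 - 1 / 2| ≤ rho * de := by linarith
    rw [abs_le] at h6
    unfold rho at h6
    constructor <;> linarith [h6.1, h6.2]
  · have h6 := h.1
    rw [abs_le] at h6
    unfold rho at h6
    constructor <;> linarith [h6.1, h6.2]

private theorem ksb_rD {p : E3} (hp : p ∈ rgSD) : 1 / 2 + rho * de ≤ p 0 ∧ p 0 ≤ 1 - x0 := by
  have h := (abs_nonneg _).trans hp.1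
  have h2 := min_le_right (p 0 - (1 / 2 + rho * de)) (1 - x0 - p 0)
  have h3 := min_le_left (p 0 - (1 / 2 + rho * de)) (1 - x0 - p 0)
  constructor <;> nlinarith

private theorem ksb_rE {p : E3} (hp : p ∈ rgSE 1) : 1 - x0 ≤ p 0 := by
  have h := (abs_nonneg _).trans hp.1
  have h2 := min_le_left (p 0 - (1 - x0)) (1 - p 0)
  have h3 : (0 : ℝ) < 1 * sg := by unfold sg; norm_num
  nlinarith

theorem kS_ends {k : Node} (hk : k ∈ kidsS) :
    {edgeB false 0, edgeB false 1} ∩ k.cell ⊆ k.ends := by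
  have hx := ksb_x0lt
  have hx0 := x0_pos
  have hrd := ksb_rd
  rintro p ⟨hp1, hp2⟩
  have hp1' : p = pt 0 0 0 ∨ p = pt 1 0 0 := hp1
  rcases hp1' with hp | hp
  · subst hp
    rcases ksb_cases hk with h | h | h | h | h
    · rw [← ksb_A0] at hp2 ⊢
      exact str_start h (k.cell_sub hp2)
    · have h1 := (ksb_rB (gsB h (k.cell_sub hp2))).1
      rw [pt_0] at h1
      linarith
    · subst h
      have h1 := (ksb_rC (gsC (Node.cell_sub _ hp2))).1
      rw [pt_0] at h1
      exact absurd h1 (lt_irrefl _)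
    · have h1 := (ksb_rD (gsD h (k.cell_sub hp2))).1
      rw [pt_0] at h1
      linarith
    · have h1 := ksb_rE ((gsE h).1 hp2)
      rw [pt_0] at h1
      linarith
  · subst hp
    rcases ksb_cases hk with h | h | h | h | h
    · have h1 := ksb_rA ((gsA h).1 hp2)
      rw [pt_0] at h1
      linarith
    · have h1 := (ksb_rB (gsB h (k.cell_sub hp2))).2
      rw [pt_0] at h1
      linarith
    · subst h
      have h1 := (ksb_rC (gsC (Node.cell_sub _ hp2))).2
      rw [pt_0] at h1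
      exact absurd h1 (lt_irrefl _)
    · have h1 := (ksb_rD (gsD h (k.cell_sub hp2))).2
      rw [pt_0] at h1
      linarith
    · rw [← ksb_E1] at hp2 ⊢
      exact str_end h (k.cell_sub hp2)

private theorem ksb_t1 : (0 : ℝ) < x0 := x0_pos
private theorem ksb_t2 : x0 < 1 / 2 - rho * de := by
  have h := ksb_xl
  have h2 := ls_pos
  linarith
private theorem ksb_t3 : 1 / 2 + rho * de < 1 - x0 := by
  have h := ksb_lx
  have h2 := ls_pos
  linarith
private theorem ksb_t4 : 1 - x0 < 1 := by linarith [x0_pos]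

private theorem ksb_rdle : rho * de ≤ 1 / 4 := by
  have h2 := g_le
  have h3 := g_pos
  have h4 := de_lt
  unfold rho
  linarith

theorem kS_times {k : Node} (hk : k ∈ kidsS) :
    0 ≤ k.t0 ∧ k.t0 < k.t1 ∧ k.t1 ≤ 1 ∧ k.t1 - k.t0 ≤ 1 / 2 := by
  have h1 := ksb_t1
  have h2 := ksb_t2
  have h3 := ksb_t3
  have h4 := ksb_t4
  have h5 := ksb_rd
  have h6 := ksb_rdle
  have h7 := ksb_x0lt
  rcases ksb_cases hk with h | h | h | h | h
  · obtain ⟨ha, hb, hc⟩ := str_times h1 h
    exact ⟨by linarith, hb, by linarith, by linarith⟩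
  · obtain ⟨ha, hb, hc⟩ := str_times h2 h
    exact ⟨by linarith, hb, by linarith, by linarith⟩
  · subst h
    refine ⟨?_, ?_, ?_, ?_⟩ <;> dsimp only <;> linarith
  · obtain ⟨ha, hb, hc⟩ := str_times h3 h
    exact ⟨by linarith, hb, by linarith, by linarith⟩
  · obtain ⟨ha, hb, hc⟩ := str_times h4 h
    exact ⟨by linarith, hb, by linarith, by linarith⟩

theorem kS_cov {t : ℝ} (ht : t ∈ Icc (0 : ℝ) 1) : ∃ k ∈ kidsS, t ∈ Icc k.t0 k.t1 := by
  by_cases h1 : t ≤ x0
  · obtain ⟨k, hk, hkt⟩ := str_cov (F := FSA) (M := 0) (q := false) ksb_t1 ⟨ht.1, h1⟩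
    exact ⟨k, ksb_memA hk, hkt⟩
  push Not at h1
  by_cases h2 : t ≤ 1 / 2 - rho * de
  · obtain ⟨k, hk, hkt⟩ := str_cov (F := FSB) (M := NT (ls / rho)) (q := false) ksb_t2 ⟨h1.le, h2⟩
    exact ⟨k, ksb_memB hk, hkt⟩
  push Not at h2
  by_cases h3 : t ≤ 1 / 2 + rho * de
  · exact ⟨_, ksb_memC, h2.le, h3⟩
  push Not at h3
  by_cases h4 : t ≤ 1 - x0
  · obtain ⟨k, hk, hkt⟩ := str_cov (F := FSD) (M := NT (ls / rho)) (q := false) ksb_t3 ⟨h3.le, h4⟩
    exact ⟨k, ksb_memD hk, hkt⟩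
  push Not at h4
  obtain ⟨k, hk, hkt⟩ := str_cov (F := FSE) (M := 0) (q := false) ksb_t4 ⟨h4.le, ht.2⟩
  exact ⟨k, ksb_memE hk, hkt⟩

theorem kS_first : ∃ k ∈ kidsS, k.t0 = 0 := by
  obtain ⟨k, hk, h⟩ := str_first FSA 0 0 x0 false
  exact ⟨k, ksb_memA hk, h⟩

theorem kS_edge {k : Node} (hk : k ∈ kidsS) (t : ℝ) : k.edge t = edgeB false t := by
  have hx0 := x0_pos.ne'
  have hls := ls_pos.ne'
  have hrd := ksb_rd
  rcases ksb_cases hk with h | h | h | h | h
  · rw [str_edge ksb_t1 h]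
    refine ext3 ?_ ?_ ?_ <;> simp [FSA, Sim.app_def, edgeB]
    field_simp
  · rw [str_edge ksb_t2 h, show 1 / 2 - rho * de - x0 = ls by linarith [ksb_xl]]
    refine ext3 ?_ ?_ ?_ <;> simp [FSB, Sim.app_def, edgeB]
    field_simp
    ring
  · subst h
    have e : (1 / 2 + rho * de) - (1 / 2 - rho * de) = 2 * (rho * de) := by ring
    have hde := de_pos.ne'
    have hrho : rho ≠ 0 := by unfold rho; norm_num
    refine ext3 ?_ ?_ ?_ <;> simp only [Node.edge, e] <;> simp [FSC, Sim.app_def, edgeB]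
    field_simp
    ring
  · rw [str_edge ksb_t3 h, show 1 - x0 - (1 / 2 + rho * de) = ls by linarith [ksb_lx]]
    refine ext3 ?_ ?_ ?_ <;> simp [FSD, Sim.app_def, edgeB]
    field_simp
    ring
  · rw [str_edge ksb_t4 h, show 1 - (1 - x0) = x0 by ring]
    refine ext3 ?_ ?_ ?_ <;> simp [FSE, Sim.app_def, edgeB]
    field_simp
    ring

theorem kS_sq {k : Node} (hk : k ∈ kidsS) : k.sq = false := by
  rcases ksb_cases hk with h | h | h | h | h
  · exact (str_data h).2.1
  · exact (str_data h).2.1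
  · subst h; rfl
  · exact (str_data h).2.1
  · exact (str_data h).2.1

private theorem ksb_div_le {s : ℝ} (hs : 0 < s) (M : ℕ) : s / ((M : ℝ) + 1) ≤ s := by
  have hM : (0 : ℝ) < (M : ℝ) + 1 := by positivity
  rw [div_le_iff₀ hM]
  have : (0 : ℝ) ≤ (M : ℝ) := by positivity
  nlinarith

private theorem ksb_lsle : ls ≤ 1 / 2 := by
  have h := ksb_xl
  have h1 := x0_pos
  have h2 := ksb_rd
  linarith

theorem kS_size {k : Node} (hk : k ∈ kidsS) : k.size ≤ 4 / 5 := by
  have hx := ksb_x0lt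
  have hl := ksb_lsle
  rcases ksb_cases hk with h | h | h | h | h
  · obtain ⟨h1, _, h3⟩ := str_data h
    have e : k.size = x0 / (((0 : ℕ) : ℝ) + 1) := by
      rw [Node.size, h1, h3]; simp [sz, FSA]
    rw [e]
    have := ksb_div_le x0_pos 0
    linarith
  · obtain ⟨h1, _, h3⟩ := str_data h
    have e : k.size = ls / ((NT (ls / rho) : ℝ) + 1) := by
      rw [Node.size, h1, h3]; simp [sz, FSB]
    rw [e]
    have := ksb_div_le ls_pos (NT (ls / rho))
    linarith
  · subst h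
    simp [Node.size, sz, FSC, rho]
    norm_num
  · obtain ⟨h1, _, h3⟩ := str_data h
    have e : k.size = ls / ((NT (ls / rho) : ℝ) + 1) := by
      rw [Node.size, h1, h3]; simp [sz, FSD]
    rw [e]
    have := ksb_div_le ls_pos (NT (ls / rho))
    linarith
  · obtain ⟨h1, _, h3⟩ := str_data h
    have e : k.size = x0 / (((0 : ℕ) : ℝ) + 1) := by
      rw [Node.size, h1, h3]; simp [sz, FSE]
    rw [e]
    have := ksb_div_le x0_pos 0
    linarith

private theorem ksb_ls_ge : rho * (g / 1024) ≤ ls / ((NT (ls / rho) : ℝ) + 1) := by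
  have hr : (0 : ℝ) < rho := by unfold rho; norm_num
  have hL : l0 ≤ ls / rho := by
    have e : ls / rho = al ^ 2 + g / 8 - de := by unfold ls; field_simp
    rw [e]
    have h1 := al_sq_gt
    have h2 := g_le
    have h3 := g_pos
    have h4 := de_lt
    unfold l0
    linarith
  have h := NT_ge hL
  have e2 : ls / ((NT (ls / rho) : ℝ) + 1) = rho * (ls / rho / ((NT (ls / rho) : ℝ) + 1)) := by
    have := NT_pos (ls / rho)
    field_simp
  rw [e2]
  refine mul_le_mul_of_nonneg_left ?_ hr.le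
  have e3 : g / 1024 = l0 / 2 := by unfold l0; ring
  rw [e3]
  exact h

private theorem ksb_near {p : E3} {x : ℝ} (hx1 : |x| ≤ al ^ 2)
    (hx2 : |p 0 - (1 / 2 + rho * x)| ≤ rho * g / 8) (h1 : |p 1| ≤ rho * (g / 1280))
    (h2 : |p 2| ≤ rho * (g / 1280)) : ∃ q ∈ FSC '' HB, dist p q ≤ rho * g := by
  have hr : (0 : ℝ) < rho := by unfold rho; norm_num
  have hg := g_pos
  refine ⟨FSC (pt x (p 1 / rho) (-1)), ⟨_, ⟨?_, ?_, ?_⟩, rfl⟩, ?_⟩
  · rw [pt_0]; exact hx1
  · rw [pt_1, abs_div, abs_of_pos hr, div_le_iff₀ hr]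
    have h3 := al_gt
    have h4 := g_le
    nlinarith
  · rw [pt_2]; norm_num
  · have e0 : (FSC (pt x (p 1 / rho) (-1))) 0 = 1 / 2 + rho * x := by
      simp [FSC, Sim.app_def]; ring
    have e1 : (FSC (pt x (p 1 / rho) (-1))) 1 = p 1 := by
      simp [FSC, Sim.app_def]; field_simp
    have e2 : (FSC (pt x (p 1 / rho) (-1))) 2 = rho * (g / 8) := by
      simp [FSC, Sim.app_def, ze, eta]; ring
    have hrg : 0 < rho * g := mul_pos hr hg
    refine dist_le_of_coord (a := rho * g / 8) (b := 0) (c := rho * g / 4) ?_ ?_ ?_ hrg.le ?_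
    · rw [e0]; exact hx2
    · rw [e1]; simp
    · rw [e2]
      rw [abs_le] at h2 ⊢
      constructor <;> nlinarith [h2.1, h2.2]
    · nlinarith

theorem kS_thin {k : Node} (hk : k ∈ kidsS) :
    (k.typ = true ∧ k.fr = FSC) ∨ (k.typ = false ∧ k.fr.s = x0) ∨
    (k.typ = false ∧ rho * (g / 1024) ≤ k.fr.s ∧
      ∀ p ∈ k.cell, ∃ q ∈ FSC '' HB, dist p q ≤ rho * g) := by
  have hr : (0 : ℝ) < rho := by unfold rho; norm_num
  have hg := g_pos
  have hal := al_sq_pos
  rcases ksb_cases hk with h | h | h | h | h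
  · obtain ⟨h1, _, h3⟩ := str_data h
    right; left
    refine ⟨h1, ?_⟩
    rw [h3]
    simp [FSA]
  · obtain ⟨h1, _, h3⟩ := str_data h
    right; right
    refine ⟨h1, ?_, fun p hp => ?_⟩
    · rw [h3]; exact ksb_ls_ge
    · have hp' := gsB h (k.cell_sub hp)
      obtain ⟨ha, hb⟩ := ksb_rB hp'
      have hrd := ksb_rd
      have hx : x0 = 1 / 2 - rho * al ^ 2 - rho * g / 8 := by unfold x0; ring
      by_cases hc : -(al ^ 2) ≤ (p 0 - 1 / 2) / rho
      · refine ksb_near (x := (p 0 - 1 / 2) / rho) ?_ ?_ hp'.2.2.1 hp'.2.2.2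
        · rw [abs_le]
          refine ⟨hc, ?_⟩
          rw [div_le_iff₀ hr]
          nlinarith
        · have e : p 0 - (1 / 2 + rho * ((p 0 - 1 / 2) / rho)) = 0 := by field_simp; ring
          rw [e, abs_zero]
          positivity
      · push Not at hc
        rw [div_lt_iff₀ hr] at hc
        refine ksb_near (x := -(al ^ 2)) ?_ ?_ hp'.2.2.1 hp'.2.2.2
        · rw [abs_neg, abs_of_pos hal]
        · rw [abs_le]
          constructor <;> nlinarith
  · subst h
    exact Or.inl ⟨rfl, rfl⟩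
  · obtain ⟨h1, _, h3⟩ := str_data h
    right; right
    refine ⟨h1, ?_, fun p hp => ?_⟩
    · rw [h3]; exact ksb_ls_ge
    · have hp' := gsD h (k.cell_sub hp)
      obtain ⟨ha, hb⟩ := ksb_rD hp'
      have hrd := ksb_rd
      have hx : x0 = 1 / 2 - rho * al ^ 2 - rho * g / 8 := by unfold x0; ring
      by_cases hc : (p 0 - 1 / 2) / rho ≤ al ^ 2
      · refine ksb_near (x := (p 0 - 1 / 2) / rho) ?_ ?_ hp'.2.2.1 hp'.2.2.2
        · rw [abs_le]
          refine ⟨?_, hc⟩
          rw [le_div_iff₀ hr]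
          nlinarith
        · have e : p 0 - (1 / 2 + rho * ((p 0 - 1 / 2) / rho)) = 0 := by field_simp; ring
          rw [e, abs_zero]
          positivity
      · push Not at hc
        rw [lt_div_iff₀ hr] at hc
        refine ksb_near (x := al ^ 2) ?_ ?_ hp'.2.2.1 hp'.2.2.2
        · rw [abs_of_pos hal]
        · rw [abs_le]
          constructor <;> nlinarith
  · obtain ⟨h1, _, h3⟩ := str_data h
    right; left
    refine ⟨h1, ?_⟩
    rw [h3]
    simp [FSE]

theorem kS_T : (⟨true, FSC, 1 / 2 - rho * de, 1 / 2 + rho * de, false⟩ : Node) ∈ kidsS :=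
  ksb_memC

end BOR

end
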