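import Pool.Agent.BOR.KTA

/-!
# BOR / KTC: kids of a T cell, times, edges, sizes

PROOF. Cases by `kT_cases`; for strings use `str_times`, `str_edge`, `str_cov`, `str_data`,
`str_first`, `str_last` (file STR).
* `kT_edge`: string with frame `F` and times `ta < tb`: `k.edge t = F (pt ((t-ta)/(tb-ta)) 0 0)`,
  which is `sgm (F (pt 0 0 0)) (F (pt 1 0 0)) ta tb t`, the piece of `PT` on `[ta,tb]`; the vertices
  are as in KTB. For `FT1`: `FT1 (edgeB true u) = (-xi, 2 ss u, 0)` (`xi_id`, `r de = ss`); for `FT2`: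
  `(xi, 2 ss (1-u), 0)`. At the division times of `PT` the adjacent pieces agree.
* `kT_size`: T kids: `5 r ≤ 4`; strings: `F.s/(NT F.s + 1) < l0`.
* `kT_thin`: strings: `k.fr.s = F.s/(NT F.s + 1) ≥ l0/2 = g/1024` (`NT_ge`, `F.s ≥ l0`); the regions
  (GRT with `c = 1`), `in_DB`, `near_HB` (INC).
-/

noncomputable section

namespace BOR

open Set

private theorem KTC_FOL (u : ℝ) : FOL (pt u 0 0) = pt (-(2 * xi) + xi * u) 0 ze :=
  ext3 (by simp [Sim.app_def, FOL]; ring) (by simp [Sim.app_def, FOL]) (by simp [Sim.app_def, FOL])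

private theorem KTC_FVL (u : ℝ) : FVL (pt u 0 0) = pt (-xi) 0 (ze + hh * u) :=
  ext3 (by simp [Sim.app_def, FVL, Uzp_app]) (by simp [Sim.app_def, FVL, Uzp_app])
    (by simp [Sim.app_def, FVL, Uzp_app]; ring)

private theorem KTC_FHB (u : ℝ) : FHB (pt u 0 0) = pt (-xi + 2 * xi * u) (2 * ss) 0 :=
  ext3 (by simp [Sim.app_def, FHB]; ring) (by simp [Sim.app_def, FHB]) (by simp [Sim.app_def, FHB])

private theorem KTC_FVR (u : ℝ) : FVR (pt u 0 0) = pt xi 0 (-(hh * u)) :=
  ext3 (by simp [Sim.app_def, FVR, Uzm_app]) (by simp [Sim.app_def, FVR, Uzm_app])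
    (by simp [Sim.app_def, FVR, Uzm_app])

private theorem KTC_FOR (u : ℝ) : FOR (pt u 0 0) = pt (xi + xi * u) 0 ze :=
  ext3 (by simp [Sim.app_def, FOR]; ring) (by simp [Sim.app_def, FOR]) (by simp [Sim.app_def, FOR])

private theorem KTC_FT1 (u : ℝ) : FT1 (edgeB true u) = pt (-xi) (2 * ss * u) 0 := by
  have h := xi_id
  refine ext3 ?_ ?_ ?_
  · simp [Sim.app_def, FT1, UA1_app, edgeB]; linarith
  · simp [Sim.app_def, FT1, UA1_app, edgeB, ss]; ring
  · simp [Sim.app_def, FT1, UA1_app, edgeB]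

private theorem KTC_FT2 (u : ℝ) : FT2 (edgeB true u) = pt xi (2 * ss * (1 - u)) 0 := by
  have h := xi_id
  refine ext3 ?_ ?_ ?_
  · simp [Sim.app_def, FT2, UA2_app, edgeB]; linarith
  · simp [Sim.app_def, FT2, UA2_app, edgeB, ss]; ring
  · simp [Sim.app_def, FT2, UA2_app, edgeB]

private theorem KTC_left (p q : E3) (s t : ℝ) : sgm p q s t s = p := by simp [sgm]

private theorem KTC_right (p q : E3) {s t : ℝ} (h : s < t) : sgm p q s t t = q := by
  have h2 : t - s ≠ 0 := by intro h3; linarith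
  simp [sgm, div_self h2]

private theorem KTC_p1 {t : ℝ} (h' : t ≤ 1 / 4) : PT t = sgm pa pai 0 (1 / 4) t := by
  unfold PT; rw [if_pos h']

private theorem KTC_p2 {t : ℝ} (h : 1 / 4 ≤ t) (h' : t ≤ 3 / 8) :
    PT t = sgm pai P1m (1 / 4) (3 / 8) t := by
  rcases h.eq_or_lt with h | h
  · rw [← h, KTC_p1 le_rfl, KTC_left, KTC_right _ _ (by norm_num)]
  · unfold PT; rw [if_neg (not_le.2 h), if_pos h']

private theorem KTC_p3 {t : ℝ} (h : 3 / 8 ≤ t) (h' : t ≤ 13 / 32) :
    PT t = sgm P1m P1p (3 / 8) (13 / 32) t := by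
  rcases h.eq_or_lt with h | h
  · rw [← h, KTC_p2 (by norm_num) le_rfl, KTC_left, KTC_right _ _ (by norm_num)]
  · unfold PT; rw [if_neg (by intro h2; linarith), if_neg (not_le.2 h), if_pos h']

private theorem KTC_p4 {t : ℝ} (h : 13 / 32 ≤ t) (h' : t ≤ 7 / 16) :
    PT t = sgm P1p P2p (13 / 32) (7 / 16) t := by
  rcases h.eq_or_lt with h | h
  · rw [← h, KTC_p3 (by norm_num) le_rfl, KTC_left, KTC_right _ _ (by norm_num)]
  · unfold PT; rw [if_neg (by intro h2; linarith), if_neg (by intro h2; linarith),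
      if_neg (not_le.2 h), if_pos h']

private theorem KTC_p5 {t : ℝ} (h : 7 / 16 ≤ t) (h' : t ≤ 1 / 2) :
    PT t = sgm P2p P2m (7 / 16) (1 / 2) t := by
  rcases h.eq_or_lt with h | h
  · rw [← h, KTC_p4 (by norm_num) le_rfl, KTC_left, KTC_right _ _ (by norm_num)]
  · unfold PT; rw [if_neg (by intro h2; linarith), if_neg (by intro h2; linarith),
      if_neg (by intro h2; linarith), if_neg (not_le.2 h), if_pos h']

private theorem KTC_p6 {t : ℝ} (h : 1 / 2 ≤ t) (h' : t ≤ 3 / 4) :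
    PT t = sgm P2m pbi (1 / 2) (3 / 4) t := by
  rcases h.eq_or_lt with h | h
  · rw [← h, KTC_p5 (by norm_num) le_rfl, KTC_left, KTC_right _ _ (by norm_num)]
  · unfold PT; rw [if_neg (by intro h2; linarith), if_neg (by intro h2; linarith),
      if_neg (by intro h2; linarith), if_neg (by intro h2; linarith), if_neg (not_le.2 h),
      if_pos h']

private theorem KTC_p7 {t : ℝ} (h : 3 / 4 ≤ t) :
    PT t = sgm pbi pb (3 / 4) 1 t := by
  rcases h.eq_or_lt with h | h
  · rw [← h, KTC_p6 (by norm_num) le_rfl, KTC_left, KTC_right _ _ (by norm_num)]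
  · unfold PT; rw [if_neg (by intro h2; linarith), if_neg (by intro h2; linarith),
      if_neg (by intro h2; linarith), if_neg (by intro h2; linarith), if_neg (by intro h2; linarith),
      if_neg (not_le.2 h)]

/-- coordinates of a segment -/
private theorem KTC_sgm (a b c a' b' c' s t τ : ℝ) :
    sgm (pt a b c) (pt a' b' c') s t τ =
      pt (a + (τ - s) / (t - s) * (a' - a)) (b + (τ - s) / (t - s) * (b' - b))
        (c + (τ - s) / (t - s) * (c' - c)) :=
  ext3 (by simp [sgm]) (by simp [sgm]) (by simp [sgm])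

theorem kT_times {k : Node} (hk : k ∈ kidsT) :
    0 ≤ k.t0 ∧ k.t0 < k.t1 ∧ k.t1 ≤ 1 ∧ k.t1 - k.t0 ≤ 1 / 2 := by
  rcases kT_cases hk with h | h | h | h | h | h | h
  · obtain ⟨a, b, c⟩ := str_times (by norm_num) h
    exact ⟨by linarith, b, by linarith, by linarith⟩
  · obtain ⟨a, b, c⟩ := str_times (by norm_num) h
    exact ⟨by linarith, b, by linarith, by linarith⟩
  · subst h; norm_num
  · obtain ⟨a, b, c⟩ := str_times (by norm_num) h
    exact ⟨by linarith, b, by linarith, by linarith⟩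
  · subst h; norm_num
  · obtain ⟨a, b, c⟩ := str_times (by norm_num) h
    exact ⟨by linarith, b, by linarith, by linarith⟩
  · obtain ⟨a, b, c⟩ := str_times (by norm_num) h
    exact ⟨by linarith, b, by linarith, by linarith⟩

theorem kT_T1 : (⟨true, FT1, 3 / 8, 13 / 32, true⟩ : Node) ∈ kidsT := by
  unfold kidsT
  simp only [List.mem_append]
  exact Or.inl (Or.inl (Or.inl (Or.inl (Or.inr (List.mem_singleton.2 rfl)))))

theorem kT_T2 : (⟨true, FT2, 7 / 16, 1 / 2, true⟩ : Node) ∈ kidsT := by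
  unfold kidsT
  simp only [List.mem_append]
  exact Or.inl (Or.inl (Or.inr (List.mem_singleton.2 rfl)))

private theorem KTC_mOL {k : Node} (h : k ∈ str FOL (NT xi) 0 (1 / 4) false) : k ∈ kidsT := by
  unfold kidsT
  simp only [List.mem_append]
  exact Or.inl (Or.inl (Or.inl (Or.inl (Or.inl (Or.inl h)))))

private theorem KTC_mVL {k : Node} (h : k ∈ str FVL (NT hh) (1 / 4) (3 / 8) true) :
    k ∈ kidsT := by
  unfold kidsT
  simp only [List.mem_append]
  exact Or.inl (Or.inl (Or.inl (Or.inl (Or.inl (Or.inr h)))))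

private theorem KTC_mHB {k : Node} (h : k ∈ str FHB (NT (2 * xi)) (13 / 32) (7 / 16) true) :
    k ∈ kidsT := by
  unfold kidsT
  simp only [List.mem_append]
  exact Or.inl (Or.inl (Or.inl (Or.inr h)))

private theorem KTC_mVR {k : Node} (h : k ∈ str FVR (NT hh) (1 / 2) (3 / 4) true) :
    k ∈ kidsT := by
  unfold kidsT
  simp only [List.mem_append]
  exact Or.inl (Or.inr h)

private theorem KTC_mOR {k : Node} (h : k ∈ str FOR (NT xi) (3 / 4) 1 false) : k ∈ kidsT := by
  unfold kidsT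
  simp only [List.mem_append]
  exact Or.inr h

theorem kT_cov {t : ℝ} (ht : t ∈ Icc (0 : ℝ) 1) : ∃ k ∈ kidsT, t ∈ Icc k.t0 k.t1 := by
  obtain ⟨h0, h1⟩ := ht
  by_cases a1 : t ≤ 1 / 4
  · obtain ⟨k, hk, h⟩ := str_cov (F := FOL) (M := NT xi) (ta := 0) (tb := 1 / 4) (q := false)
      (by norm_num) ⟨h0, a1⟩
    exact ⟨k, KTC_mOL hk, h⟩
  by_cases a2 : t ≤ 3 / 8
  · obtain ⟨k, hk, h⟩ := str_cov (F := FVL) (M := NT hh) (ta := 1 / 4) (tb := 3 / 8) (q := true)
      (by norm_num) (t := t) ⟨by linarith, a2⟩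
    exact ⟨k, KTC_mVL hk, h⟩
  by_cases a3 : t ≤ 13 / 32
  · exact ⟨_, kT_T1, ⟨by linarith, a3⟩⟩
  by_cases a4 : t ≤ 7 / 16
  · obtain ⟨k, hk, h⟩ := str_cov (F := FHB) (M := NT (2 * xi)) (ta := 13 / 32) (tb := 7 / 16)
      (q := true) (by norm_num) (t := t) ⟨by linarith, a4⟩
    exact ⟨k, KTC_mHB hk, h⟩
  by_cases a5 : t ≤ 1 / 2
  · exact ⟨_, kT_T2, ⟨by linarith, a5⟩⟩
  by_cases a6 : t ≤ 3 / 4
  · obtain ⟨k, hk, h⟩ := str_cov (F := FVR) (M := NT hh) (ta := 1 / 2) (tb := 3 / 4) (q := true)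
      (by norm_num) (t := t) ⟨by linarith, a6⟩
    exact ⟨k, KTC_mVR hk, h⟩
  · obtain ⟨k, hk, h⟩ := str_cov (F := FOR) (M := NT xi) (ta := 3 / 4) (tb := 1) (q := false)
      (by norm_num) (t := t) ⟨by linarith, h1⟩
    exact ⟨k, KTC_mOR hk, h⟩

theorem kT_first : ∃ k ∈ kidsT, k.t0 = 0 := by
  obtain ⟨k, hk, h⟩ := str_first FOL (NT xi) 0 (1 / 4) false
  exact ⟨k, KTC_mOL hk, h⟩

theorem kT_edge {k : Node} (hk : k ∈ kidsT) {t : ℝ} (ht : t ∈ Icc k.t0 k.t1) :
    k.edge t = PT t := by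
  obtain ⟨h0, h1⟩ := ht
  rcases kT_cases hk with h | h | h | h | h | h | h
  · obtain ⟨a, b, c⟩ := str_times (by norm_num) h
    rw [str_edge (by norm_num) h, KTC_p1 (by linarith), KTC_FOL]
    unfold pa pai
    rw [KTC_sgm]
    exact ext3 (by simp; ring) (by simp) (by simp)
  · obtain ⟨a, b, c⟩ := str_times (by norm_num) h
    rw [str_edge (by norm_num) h, KTC_p2 (by linarith) (by linarith), KTC_FVL]
    unfold P1m pai
    rw [KTC_sgm]
    have e : hh = -ze := by unfold hh ze; ring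
    exact ext3 (by simp) (by simp) (by simp [e]; ring)
  · subst h
    rw [KTC_p3 h0 h1]
    unfold Node.edge
    simp only
    rw [KTC_FT1]
    unfold P1m P1p
    rw [KTC_sgm]
    exact ext3 (by simp) (by simp; ring) (by simp)
  · obtain ⟨a, b, c⟩ := str_times (by norm_num) h
    rw [str_edge (by norm_num) h, KTC_p4 (by linarith) (by linarith), KTC_FHB]
    unfold P1p P2p
    rw [KTC_sgm]
    exact ext3 (by simp; ring) (by simp) (by simp)
  · subst h
    rw [KTC_p5 h0 h1]
    unfold Node.edge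
    simp only
    rw [KTC_FT2]
    unfold P2m P2p
    rw [KTC_sgm]
    exact ext3 (by simp) (by simp; ring) (by simp)
  · obtain ⟨a, b, c⟩ := str_times (by norm_num) h
    rw [str_edge (by norm_num) h, KTC_p6 (by linarith) (by linarith), KTC_FVR]
    unfold P2m pbi
    rw [KTC_sgm]
    have e : hh = -ze := by unfold hh ze; ring
    exact ext3 (by simp) (by simp) (by simp [e]; ring)
  · obtain ⟨a, b, c⟩ := str_times (by norm_num) h
    rw [str_edge (by norm_num) h, KTC_p7 (by linarith), KTC_FOR]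
    unfold pbi pb
    rw [KTC_sgm]
    exact ext3 (by simp; ring) (by simp) (by simp)

theorem PT_zero : PT 0 = edgeB true 0 := by
  rw [KTC_p1 (by norm_num), KTC_left]
  unfold pa edgeB de
  exact ext3 (by simp) (by simp) (by simp)

theorem PT_one : PT 1 = edgeB true 1 := by
  rw [KTC_p7 (by norm_num), KTC_right _ _ (by norm_num)]
  unfold pb edgeB de
  exact ext3 (by simp; ring) (by simp) (by simp)

private theorem KTC_str_size {F : Sim} {ta tb : ℝ} {q : Bool} {k : Node}
    (hk : k ∈ str F (NT F.s) ta tb q) : k.size ≤ 4 := by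
  obtain ⟨h1, _, h3⟩ := str_data hk
  unfold Node.size sz
  rw [h1, h3]
  have h := NT_lt F.s
  have h4 : l0 ≤ 1 := by rw [l0_def]; have := g_le; norm_num at this ⊢; linarith
  simp only [Bool.false_eq_true, if_false]
  linarith

theorem kT_size {k : Node} (hk : k ∈ kidsT) : k.size ≤ 4 := by
  rcases kT_cases hk with h | h | h | h | h | h | h
  · exact KTC_str_size (F := FOL) h
  · exact KTC_str_size (F := FVL) h
  · subst h
    have := r_lt
    have e : FT1.s = r := rfl
    simp only [Node.size, sz, if_true, e]; linarith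
  · exact KTC_str_size (F := FHB) h
  · subst h
    have := r_lt
    have e : FT2.s = r := rfl
    simp only [Node.size, sz, if_true, e]; linarith
  · exact KTC_str_size (F := FVR) h
  · exact KTC_str_size (F := FOR) h

private theorem KTC_str_thin {F : Sim} {ta tb : ℝ} {q : Bool} {k : Node} {R : Set E3}
    (hF : l0 ≤ F.s) (hk : k ∈ str F (NT F.s) ta tb q) (hc : k.cell ⊆ R)
    (hR : R ⊆ rgOL 1 ∪ rgVL 1 ∪ rgHB 1 ∪ rgVR 1 ∪ rgOR 1 ∪ rgCL 1) :
    k.typ = false ∧ g / 1024 ≤ k.fr.s ∧ k.cell ⊆ DB ∧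
      ∀ p ∈ k.cell, ∃ q ∈ HB, dist p q ≤ g := by
  obtain ⟨h1, _, h3⟩ := str_data hk
  refine ⟨h1, ?_, fun p hp => in_DB (hR (hc hp)), fun p hp => near_HB (hR (hc hp))⟩
  rw [h3]
  have h := NT_ge hF
  rw [l0_def] at h
  linarith

theorem kT_thin {k : Node} (hk : k ∈ kidsT) :
    (k.typ = true ∧ (k.fr = FT1 ∨ k.fr = FT2)) ∨
    (k.typ = false ∧ g / 1024 ≤ k.fr.s ∧ k.cell ⊆ DB ∧
      ∀ p ∈ k.cell, ∃ q ∈ HB, dist p q ≤ g) := by
  have hx := xi_gt
  have hg := g_pos
  have hl := l0_def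
  have hhh := hh_def
  have heta := eta_pos
  have hgl := g_le
  rcases kT_cases hk with h | h | h | h | h | h | h
  · right
    refine KTC_str_thin (F := FOL) (R := rgOL 1) ?_ h (grOL h).1 ?_
    · show l0 ≤ xi
      rw [hl]; linarith
    · intro p hp; simp only [mem_union]; tauto
  · right
    refine KTC_str_thin (F := FVL) (R := rgVL 1) ?_ h (grVL h).1 ?_
    · show l0 ≤ hh
      rw [hl, hhh]; norm_num at hgl; linarith
    · intro p hp; simp only [mem_union]; tauto
  · left; subst h; exact ⟨rfl, Or.inl rfl⟩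
  · right
    refine KTC_str_thin (F := FHB) (R := rgHB 1) ?_ h (grHB h).1 ?_
    · show l0 ≤ 2 * xi
      rw [hl]; linarith
    · intro p hp; simp only [mem_union]; tauto
  · left; subst h; exact ⟨rfl, Or.inr rfl⟩
  · right
    refine KTC_str_thin (F := FVR) (R := rgVR 1) ?_ h (grVR h).1 ?_
    · show l0 ≤ hh
      rw [hl, hhh]; norm_num at hgl; linarith
    · intro p hp; simp only [mem_union]; tauto
  · right
    refine KTC_str_thin (F := FOR) (R := rgOR 1) ?_ h (grOR h).1 ?_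
    · show l0 ≤ xi
      rw [hl]; linarith
    · intro p hp; simp only [mem_union]; tauto

end BOR

end
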