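import Pool.Agent.BOR.TDef

/-!
# BOR / NDC: composition of nodes

PROOF. Unfold; `Sim.comp_image`, `Sim.comp_app`; the time of `v.comp k` is the affine image of the
time of `k`: `(t - (v.comp k).t0)/((v.comp k).t1 - (v.comp k).t0) = (u - k.t0)/(k.t1 - k.t0)` with
`u = (t - v.t0)/(v.t1 - v.t0)`.
-/

noncomputable section

namespace BOR

open Set

theorem comp_cell (v k : Node) : (v.comp k).cell = v.fr '' k.cell :=
  Sim.comp_image _ _ _

theorem comp_ends (v k : Node) : (v.comp k).ends = v.fr '' k.ends := by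
  unfold Node.ends Node.comp
  rw [image_pair]
  simp only [Sim.comp_app]

theorem ends_eq (v : Node) : v.ends = v.fr '' {edgeB v.typ 0, edgeB v.typ 1} := by
  unfold Node.ends
  rw [image_pair]

private theorem aux_time (v k : Node) (hv : v.t0 < v.t1) (t : ℝ) :
    (t - (v.comp k).t0) / ((v.comp k).t1 - (v.comp k).t0) =
      ((t - v.t0) / (v.t1 - v.t0) - k.t0) / (k.t1 - k.t0) := by
  have h : v.t1 - v.t0 ≠ 0 := by linarith
  have h1 : t - (v.comp k).t0 = (v.t1 - v.t0) * ((t - v.t0) / (v.t1 - v.t0) - k.t0) := by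
    unfold Node.comp
    field_simp
    ring
  have h2 : (v.comp k).t1 - (v.comp k).t0 = (v.t1 - v.t0) * (k.t1 - k.t0) := by
    unfold Node.comp
    ring
  rw [h1, h2, mul_div_mul_left _ _ h]

theorem comp_edge (v k : Node) (hv : v.t0 < v.t1) (t : ℝ) :
    (v.comp k).edge t = v.fr (k.edge ((t - v.t0) / (v.t1 - v.t0))) := by
  unfold Node.edge
  rw [aux_time v k hv t]
  exact Sim.comp_app _ _ _

theorem comp_time (v k : Node) (hv : v.t0 < v.t1) (t : ℝ) :
    t ∈ Icc (v.comp k).t0 (v.comp k).t1 ↔ (t - v.t0) / (v.t1 - v.t0) ∈ Icc k.t0 k.t1 := by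
  have h : 0 < v.t1 - v.t0 := by linarith
  unfold Node.comp
  simp only [mem_Icc]
  rw [le_div_iff₀ h, div_le_iff₀ h]
  constructor
  · rintro ⟨h1, h2⟩
    constructor <;> linarith
  · rintro ⟨h1, h2⟩
    constructor <;> linarith

theorem comp_size (v k : Node) : (v.comp k).size = v.fr.s * k.size := by
  unfold Node.size Node.comp sz
  simp only [Sim.comp_s]
  split_ifs <;> ring

theorem edge_t0 (v : Node) (hv : v.t0 < v.t1) : v.edge v.t0 = v.fr (edgeB v.typ 0) := by
  unfold Node.edge
  simp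

theorem edge_t1 (v : Node) (hv : v.t0 < v.t1) : v.edge v.t1 = v.fr (edgeB v.typ 1) := by
  unfold Node.edge
  rw [div_self (by linarith)]

/-- the edge lies in the cell -/
theorem edge_mem (v : Node) (hv : v.t0 < v.t1) {t : ℝ} (ht : t ∈ Icc v.t0 v.t1) :
    v.edge t ∈ v.cell := by
  have h : 0 < v.t1 - v.t0 := by linarith
  unfold Node.edge Node.cell
  apply mem_image_of_mem
  have hu : (t - v.t0) / (v.t1 - v.t0) ∈ Icc (0 : ℝ) 1 := by
    rw [mem_Icc, le_div_iff₀ h, div_le_iff₀ h]
    constructor <;> linarith [ht.1, ht.2]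
  generalize (t - v.t0) / (v.t1 - v.t0) = u at hu
  obtain ⟨h0, h1⟩ := hu
  cases v.typ
  · have e : 0 ≤ dS u := by
      unfold dS sg
      have : 0 ≤ min u (1 - u) := le_min h0 (by linarith)
      positivity
    simp only [cellB, edgeB, bodyS, mem_setOf_eq, pt_0, pt_1, pt_2, abs_zero, one_mul]
    exact ⟨e, e⟩
  · left
    have hde := de_pos
    have e : 0 ≤ dT (-de + 2 * de * u) := by
      unfold dT sg
      apply le_min _ w_pos.le
      have : |(-de + 2 * de * u)| ≤ de := by
        rw [abs_le]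
        constructor <;> nlinarith
      have : 0 ≤ de - |(-de + 2 * de * u)| := by linarith
      positivity
    simp only [edgeB, bodyT, mem_setOf_eq, pt_0, pt_1, pt_2, abs_zero, one_mul, sub_self]
    exact ⟨e, e⟩

end BOR

end
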