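import Pool.Agent.BOR.LSQ
import Pool.Agent.BOR.BXS

/-!
# BOR / SQZ: squeezing a cell to its edge

PROOF. Let `e' = min e 1 / 2`.
* `b = false`: `lsq dS` with `z0 = 0`, `e'` (`dS ≤ 1/3`, continuous). `cellP false = bodyS (6/5)`. For
  `p ∈ cellB false`, `dS (p 0) ≥ 0` so `p 0 ∈ [0,1]`; `t = p 0`; the distance is at most
  `sqrt (2 e'^2) < e` (`dist_le_of_coord`).
* `b = true`: `B` from `bxs`, `E1` from `lsq dT` with `z0 = ze`, `e'` (`dT ≤ w ≤ 1`, continuous);
  `E = E1.trans B.symm`, i.e. `E p = B.symm (E1 p)`, `E.symm p = E1.symm (B p)`. Off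
  `cellP true = bodyT (6/5) ∪ boxTp` both are the identity. The edge `(x,0,ze)` is fixed by `E1` and is
  not in `boxTp` (`ze < ze + w/4`), so `B` fixes it. Claim: `p ∈ cellB true → B p ∈ bodyT 1`.
  If `p ∈ boxT`: `|B p 0| ≤ w/4`, `sg (de - w/4) ≥ w`, so `dT = w` there, `|B p 1| ≤ w/4 ≤ w`,
  `0 ≤ B p 2 - ze ≤ 3w/4 ≤ w`. If `p ∈ bodyT 1`: `|B p 0| ≤ |p 0|` so `dT (B p 0) ≥ dT (p 0)`
  (`dT` depends only on `|x|` and is nonincreasing), `|B p 1| ≤ |p 1|`, and `|B p 2 - ze| ≤ |p 2 - ze|`
  in both cases. Then `E1.symm (B p)` has first coordinate `x = B p 0` with `dT x ≥ 0`, so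
  `|x| ≤ de`, `t = (x + de)/(2 de) ∈ [0,1]`, and distance to `edgeB true t = (x,0,ze)` less than `e`.
-/

noncomputable section

namespace BOR

open Set

private theorem dS_cont : Continuous dS := by
  unfold dS
  exact continuous_const.mul (continuous_id.min (continuous_const.sub continuous_id))

private theorem dT_cont : Continuous dT := by
  unfold dT
  exact (continuous_const.mul (continuous_const.sub continuous_abs)).min continuous_const

private theorem dS_le (x : ℝ) : dS x ≤ 1 := by
  unfold dS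
  rw [sg_def]
  rcases le_total x (1 - x) with h | h
  · rw [min_eq_left h]; linarith
  · rw [min_eq_right h]; linarith

private theorem w_le : w ≤ 1 := by
  rw [w_def]
  have := g_le
  linarith [g_pos]

private theorem dT_le (x : ℝ) : dT x ≤ 1 := (min_le_right _ _).trans w_le

private theorem dT_anti {x y : ℝ} (h : |x| ≤ |y|) : dT y ≤ dT x := by
  unfold dT
  refine min_le_min ?_ le_rfl
  rw [sg_def]
  linarith

private theorem close_lt {e e' : ℝ} (he' : 0 < e') (h : 2 * e' ≤ e) {p q : E3}
    (h0 : |p 0 - q 0| ≤ 0) (h1 : |p 1 - q 1| ≤ e') (h2 : |p 2 - q 2| ≤ e') : dist p q < e := by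
  have h3 : dist p q ≤ 3 / 2 * e' :=
    dist_le_of_coord h0 h1 h2 (by linarith) (by nlinarith [mul_pos he' he'])
  linarith

theorem sqz (b : Bool) (e : ℝ) (he : 0 < e) : ∃ E : E3 ≃ₜ E3,
    (∀ p, p ∉ cellP b → E p = p) ∧ (∀ t ∈ Icc (0 : ℝ) 1, E (edgeB b t) = edgeB b t) ∧
    ∀ p ∈ cellB b, ∃ t ∈ Icc (0 : ℝ) 1, dist (E.symm p) (edgeB b t) < e := by
  obtain ⟨e', he', he1, hee⟩ : ∃ e' : ℝ, 0 < e' ∧ e' < 1 ∧ 2 * e' ≤ e := by
    refine ⟨min e 1 / 2, ?_, ?_, ?_⟩
    · have : 0 < min e 1 := lt_min he one_pos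
      linarith
    · have := min_le_right e 1
      linarith
    · have := min_le_left e 1
      linarith
  cases b with
  | false =>
    obtain ⟨E, h1, h2, h3⟩ := lsq dS dS_cont dS_le 0 e' he' he1
    refine ⟨E, ?_, ?_, ?_⟩
    · intro p hp
      refine h1 p fun h => hp ?_
      change |p 1| ≤ 6 / 5 * dS (p 0) ∧ |p 2| ≤ 6 / 5 * dS (p 0)
      simpa using h
    · intro t _
      exact h2 t
    · intro p hp
      have hp' : |p 1| ≤ 1 * dS (p 0) ∧ |p 2| ≤ 1 * dS (p 0) := hp
      rw [one_mul] at hp'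
      obtain ⟨a0, a1, a2⟩ := h3 p hp'.1 (by simpa using hp'.2)
      have hn : 0 ≤ dS (p 0) := (abs_nonneg _).trans hp'.1
      have hm : 0 ≤ min (p 0) (1 - p 0) := by
        unfold dS at hn
        rw [sg_def] at hn
        linarith
      have hm1 := hm.trans (min_le_left _ _)
      have hm2 := hm.trans (min_le_right _ _)
      refine ⟨p 0, ⟨hm1, by linarith⟩, ?_⟩
      refine close_lt he' hee ?_ ?_ ?_
      · change |(E.symm p) 0 - (pt (p 0) 0 0) 0| ≤ 0
        rw [a0, pt_0]; simp
      · change |(E.symm p) 1 - (pt (p 0) 0 0) 1| ≤ e'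
        rw [pt_1, sub_zero]; exact a1
      · change |(E.symm p) 2 - (pt (p 0) 0 0) 2| ≤ e'
        rw [pt_2]; exact a2
  | true =>
    obtain ⟨B, b1, b2, b3⟩ := bxs
    obtain ⟨E, h1, h2, h3⟩ := lsq dT dT_cont dT_le ze e' he' he1
    have hw := w_pos
    refine ⟨E.trans B.symm, ?_, ?_, ?_⟩
    · intro p hp
      have hp1 : p ∉ bodyT (6 / 5) := fun h => hp (Or.inl h)
      have hp2 : p ∉ boxTp := fun h => hp (Or.inr h)
      have e1 : E p = p := h1 p fun h => hp1 h
      change B.symm (E p) = p
      rw [e1, Homeomorph.symm_apply_eq]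
      exact (b1 p hp2).symm
    · intro t _
      change B.symm (E (pt (-de + 2 * de * t) 0 ze)) = pt (-de + 2 * de * t) 0 ze
      rw [h2, Homeomorph.symm_apply_eq]
      refine (b1 _ fun h => ?_).symm
      have h4 : ze + w / 4 ≤ (pt (-de + 2 * de * t) 0 ze) 2 := h.2.2.1
      rw [pt_2] at h4
      linarith
    · intro p hp
      have key : |(B p) 1| ≤ dT ((B p) 0) ∧ |(B p) 2 - ze| ≤ dT ((B p) 0) := by
        rcases hp with hp | hp
        · have hp' : |p 1| ≤ 1 * dT (p 0) ∧ |p 2 - ze| ≤ 1 * dT (p 0) := hp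
          rw [one_mul] at hp'
          obtain ⟨c0, c1, c2, c3⟩ := b3 p
          have hd := dT_anti c0
          refine ⟨(c1.trans hp'.1).trans hd, ?_⟩
          refine le_trans ?_ (hp'.2.trans hd)
          rcases le_total (p 2) (ze + w / 2) with h | h
          · rw [c2 h]
          · obtain ⟨c4, c5⟩ := c3 h
            rw [abs_of_nonneg (by linarith), abs_of_nonneg (by linarith)]
            linarith
        · obtain ⟨c0, c1, c2, c3⟩ := b2 p hp
          have hd : dT ((B p) 0) = w := by
            unfold dT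
            refine min_eq_right ?_
            rw [sg_def, w_def]
            rw [w_def] at c0
            have := de_gt
            have := g_pos
            linarith
          rw [hd]
          refine ⟨by linarith, ?_⟩
          rw [abs_of_nonneg (by linarith)]
          linarith
      obtain ⟨a0, a1, a2⟩ := h3 (B p) key.1 key.2
      have hn : 0 ≤ dT ((B p) 0) := (abs_nonneg _).trans key.1
      have hx : |(B p) 0| ≤ de := by
        have h5 : 0 ≤ sg * (de - |(B p) 0|) := hn.trans (min_le_left _ _)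
        rw [sg_def] at h5
        linarith
      have hx' := abs_le.1 hx
      have hde := de_pos
      refine ⟨((B p) 0 + de) / (2 * de), ⟨div_nonneg (by linarith) (by linarith), ?_⟩, ?_⟩
      · rw [div_le_one (by linarith)]
        linarith
      · have e1 : edgeB true (((B p) 0 + de) / (2 * de)) = pt ((B p) 0) 0 ze := by
          change pt (-de + 2 * de * (((B p) 0 + de) / (2 * de))) 0 ze = _
          have : -de + 2 * de * (((B p) 0 + de) / (2 * de)) = (B p) 0 := by
            field_simp
            ring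
          rw [this]
        rw [e1]
        have es : (E.trans B.symm).symm p = E.symm (B p) := rfl
        rw [es]
        refine close_lt he' hee ?_ ?_ ?_
        · rw [a0, pt_0]; simp
        · rw [pt_1, sub_zero]; exact a1
        · rw [pt_2]; exact a2

end BOR

end
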