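import Pool.Agent.BOR.MTD
import Pool.Agent.BOR.SQZ
import Pool.Agent.BOR.KTC
import Pool.Agent.BOR.KTB
import Pool.Agent.BOR.KSB
import Pool.Agent.BOR.FLD
import Pool.Agent.BOR.NDC

/-!
# BOR / GTH: the interface theorem for one cell

PROOF. `b = false`: `G` is the identity; `kS_edge`, `kS_sq`.

`b = true`. Let `M` be the homeomorphism of `MT`. `M.symm` is continuous, so uniformly continuous
on the compact ball `closedBall 0 10`: there is `e1 > 0`, `e1 ≤ 1`, with
`dist p q < e1 → dist (M.symm p) (M.symm q) < e` for `p, q` in the ball. For every squeezed kid `k` let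
`E_k = k.fr.homeo.symm.trans (E.trans k.fr.homeo)` with `E` from `sqz k.typ (e1 / k.fr.s)`:
`E_k = id` off `k.cellp`, `E_k` fixes every point `k.fr (edgeB k.typ t)`, `t ∈ [0,1]`, in particular
`k.ends`, and for `p ∈ k.cell` there is `t` with `dist (E_k.symm p) (k.fr (edgeB k.typ t)) < e1`.
By `fold` applied to the list `kidsT.filter (·.sq)` and `R k = k.cellp` (pairwise hypothesis from
`kT_rel`, points of `k.ends` are fixed) there is `E` equal to `E_k` on `k.cellp` for squeezed `k`, the
identity elsewhere, with the same for the inverse. Put `G = M.trans E` (`G p = E (M p)`).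

Fact F: `E` fixes `k.edge t` for every kid `k` and `t ∈ Icc k.t0 k.t1`: if `k` is squeezed then
`E = E_k` there; if `k` is not squeezed and the point is in `k'.cellp`, `k'` squeezed, then `k ≠ k'`
and by `kT_rel` (symmetric, `List.Pairwise.forall`) it is in `k'.ends`, fixed by `E_{k'}`.
* off `cellB true`: `M p = p` (`MT`), and `p` is in no `k.cellp` (`kT_cellp`), so `G p = p`;
* `G (edgeB true t) = E (M (edgeB true t)) = E (PT t) = E (k.edge t) = k.edge t` (`kT_edge`, F);
* squeezed `k`, `p ∈ k.cell`: `E.symm p = E_k.symm p` is at distance `< e1` from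
  `k.fr (edgeB k.typ u) = k.edge t = PT t = M (edgeB true t)`, `t = k.t0 + (k.t1 - k.t0) u`; both points
  are in the ball (cells are in `cellB true`), so `dist (G.symm p) (edgeB true t) < e`;
* unsqueezed `k`, `p ∈ k.cell`: `M p = p`: otherwise `p ∈ Zone`, so `p ∈ {pai, pbi}` by `kT_unsq`, and
  `pai = edgeB true (1/4) = PT (1/4)`, `pbi = edgeB true (3/4) = PT (3/4)` are fixed by `M`; then
  `E p = p`: if `p ∈ k'.cellp` with `k'` squeezed, then `p ∈ k'.ends` by `kT_rel`;
* endpoints: `PT_zero`, `PT_one` and F (kids which contain the times `0` and `1`: `kT_cov`).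
-/

noncomputable section

namespace BOR

open Set

private theorem gth_symm_in (g : E3 ≃ₜ E3) (R : Set E3) (h : ∀ p, p ∉ R → g p = p) {p : E3}
    (hp : p ∈ R) : g.symm p ∈ R := by
  by_contra hn
  have h1 := h (g.symm p) hn
  rw [g.apply_symm_apply] at h1
  rw [← h1] at hn
  exact hn hp

private theorem gth_dT_le (x : ℝ) : dT x ≤ 1 := by
  refine (min_le_right _ _).trans ?_
  have h : w = g / 64 := rfl
  rw [h]
  have := g_le
  have := g_pos
  norm_num at *
  linarith

private theorem gth_ball {p : E3} (hp : p ∈ cellB true) : p ∈ Metric.closedBall (0 : E3) 10 := by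
  rw [mem_closedBall_zero_iff]
  have ha := al_pos
  have ha1 := al_lt
  have ha2 : al ^ 2 ≤ 2 := by nlinarith
  have hw : w ≤ 1 := by
    have h : w = g / 64 := rfl
    rw [h]
    have := g_le
    norm_num at *
    linarith
  have hz : -2 ≤ ze ∧ ze ≤ 0 := by
    have h : ze = -1 - eta := rfl
    have h2 : eta = g / 8 := rfl
    rw [h, h2]
    have := g_le
    have := g_pos
    norm_num at *
    constructor <;> linarith
  have hw0 := w_pos
  have hxi : xi ≤ 1 := by
    rw [xi_eq]
    have h1 := g_le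
    have h0 := g_pos
    have h2 : g ≤ 1 / 100 := by norm_num at h1 ⊢; linarith
    have h3 : 0 ≤ al ^ 2 := by positivity
    have h4 : g * al ^ 2 ≤ 1 / 100 * 2 := mul_le_mul h2 ha2 h3 (by norm_num)
    have h5 : 0 ≤ g * al ^ 2 := by positivity
    nlinarith
  have key : |p 0| ≤ 3 ∧ |p 1| ≤ 3 ∧ |p 2| ≤ 3 := by
    rcases hp with hp | hp
    · obtain ⟨h1, h2⟩ := hp
      rw [one_mul] at h1 h2
      have h3 := gth_dT_le (p 0)
      have h4 : 0 ≤ dT (p 0) := (abs_nonneg _).trans h1
      have h5 : 0 ≤ sg * (de - |p 0|) := h4.trans (min_le_left _ _)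
      have h6 : |p 0| ≤ de := by
        have : sg = 2 / 3 := rfl
        rw [this] at h5
        linarith
      have h7 : de = 2 * xi := rfl
      obtain ⟨h8, h9⟩ := abs_le.1 (h2.trans h3)
      refine ⟨by linarith, by linarith, ?_⟩
      rw [abs_le]
      constructor <;> linarith [hz.1, hz.2]
    · obtain ⟨h1, h2, h3, h4⟩ := hp
      refine ⟨by linarith, by linarith, ?_⟩
      rw [abs_le]
      constructor <;> linarith [hz.1, hz.2]
  have h := normsq p
  have h0 : p 0 ^ 2 ≤ 9 := by
    have := sq_le_sq' (by linarith [abs_nonneg (p 0)]) key.1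
    rw [sq_abs] at this
    linarith
  have h1 : p 1 ^ 2 ≤ 9 := by
    have := sq_le_sq' (by linarith [abs_nonneg (p 1)]) key.2.1
    rw [sq_abs] at this
    linarith
  have h2 : p 2 ^ 2 ≤ 9 := by
    have := sq_le_sq' (by linarith [abs_nonneg (p 2)]) key.2.2
    rw [sq_abs] at this
    linarith
  by_contra hc
  push Not at hc
  nlinarith [norm_nonneg p]

private theorem gth_unif (M : E3 ≃ₜ E3) {e : ℝ} (he : 0 < e) : ∃ e1 : ℝ, 0 < e1 ∧
    ∀ p ∈ cellB true, ∀ q ∈ cellB true, dist p q < e1 → dist (M.symm p) (M.symm q) < e := by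
  have h := (isCompact_closedBall (0 : E3) 10).uniformContinuousOn_of_continuous
    M.symm.continuous.continuousOn
  rw [Metric.uniformContinuousOn_iff] at h
  obtain ⟨d, hd, h1⟩ := h e he
  exact ⟨d, hd, fun p hp q hq hpq => h1 p (gth_ball hp) q (gth_ball hq) hpq⟩

private theorem gth_Ek (k : Node) {e1 : ℝ} (he1 : 0 < e1) : ∃ E : E3 ≃ₜ E3,
    (∀ p, p ∉ k.cellp → E p = p) ∧
    (∀ t ∈ Icc (0 : ℝ) 1, E (k.fr (edgeB k.typ t)) = k.fr (edgeB k.typ t)) ∧
    ∀ p ∈ k.cell, ∃ t ∈ Icc (0 : ℝ) 1, dist (E.symm p) (k.fr (edgeB k.typ t)) < e1 := by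
  obtain ⟨E, h1, h2, h3⟩ := sqz k.typ (e1 / k.fr.s) (div_pos he1 k.fr.s_pos)
  refine ⟨k.fr.homeo.symm.trans (E.trans k.fr.homeo), ?_, ?_, ?_⟩
  · intro p hp
    change k.fr (E (k.fr.inv p)) = p
    rw [h1, k.fr.app_inv]
    intro hc
    exact hp ⟨_, hc, k.fr.app_inv p⟩
  · intro t ht
    change k.fr (E (k.fr.inv (k.fr (edgeB k.typ t)))) = _
    rw [k.fr.inv_app, h2 t ht]
  · rintro _ ⟨x, hx, rfl⟩
    obtain ⟨t, ht, h4⟩ := h3 x hx
    refine ⟨t, ht, ?_⟩
    change dist (k.fr (E.symm (k.fr.inv (k.fr x)))) _ < e1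
    rw [k.fr.inv_app, k.fr.dist_app]
    have hs := k.fr.s_pos
    calc k.fr.s * dist (E.symm x) (edgeB k.typ t) < k.fr.s * (e1 / k.fr.s) :=
          mul_lt_mul_of_pos_left h4 hs
      _ = e1 := by field_simp

private theorem gth_PT1 : PT (1 / 4) = pai := by
  unfold PT
  rw [if_pos le_rfl]
  simp [sgm]

private theorem gth_PT2 : PT (3 / 4) = pbi := by
  unfold PT
  rw [if_neg (by norm_num), if_neg (by norm_num), if_neg (by norm_num), if_neg (by norm_num),
    if_neg (by norm_num), if_pos le_rfl]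
  unfold sgm
  rw [div_self (by norm_num)]
  simp

private theorem gth_e1 : edgeB true (1 / 4) = pai := by
  unfold edgeB pai de
  exact ext3 (by simp; ring) (by simp) (by simp)

private theorem gth_e2 : edgeB true (3 / 4) = pbi := by
  unfold edgeB pbi de
  exact ext3 (by simp; ring) (by simp) (by simp)

private theorem gth_rel_symm : Std.Symm Node.rel := ⟨fun _ _ h _ hp => by
  have := h ⟨hp.2, hp.1⟩
  exact ⟨this.2, this.1⟩⟩

theorem GT (b : Bool) (e : ℝ) (he : 0 < e) : ∃ G : E3 ≃ₜ E3,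
    (∀ p, p ∉ cellB b → G p = p) ∧
    (∀ k ∈ kids b, ∀ t ∈ Icc k.t0 k.t1, G (edgeB b t) = k.edge t) ∧
    (∀ k ∈ kids b, k.sq = true → ∀ p ∈ k.cell, ∃ t ∈ Icc k.t0 k.t1,
      dist (G.symm p) (edgeB b t) < e) ∧
    (∀ k ∈ kids b, k.sq = false → ∀ p ∈ k.cell, G p = p) ∧
    G (edgeB b 0) = edgeB b 0 ∧ G (edgeB b 1) = edgeB b 1 := by
  cases b with
  | false =>
    refine ⟨Homeomorph.refl E3, fun p _ => rfl, fun k hk t _ => (kS_edge hk t).symm, ?_,
      fun k _ _ p _ => rfl, rfl, rfl⟩
    intro k hk hs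
    rw [kS_sq hk] at hs
    cases hs
  | true =>
    obtain ⟨M, hM1, hM2⟩ := MT
    obtain ⟨e1, he1, hU⟩ := gth_unif M he
    choose Ek hk1 hk2 hk3 using fun k : Node => gth_Ek k he1
    have hends : ∀ k : Node, ∀ p ∈ k.ends, Ek k p = p := by
      intro k p hp
      rcases hp with rfl | hp
      · exact hk2 k 0 ⟨le_rfl, zero_le_one⟩
      · rw [mem_singleton_iff] at hp
        rw [hp]
        exact hk2 k 1 ⟨zero_le_one, le_rfl⟩
    obtain ⟨E, hE1, hE2, hE3⟩ := fold (kidsT.filter (fun k => k.sq)) Ek (fun k => k.cellp)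
      (fun k _ p hp => hk1 k p hp)
      ((kT_rel.filter _).imp (fun {k k'} h p hp => ⟨hends k p (h hp).1, hends k' p (h hp).2⟩))
    have hL : ∀ k, k ∈ kidsT.filter (fun k => k.sq) ↔ k ∈ kidsT ∧ k.sq = true := by
      intro k
      rw [List.mem_filter]
    have hun : ∀ k ∈ kidsT, k.sq = false → ∀ p ∈ k.cellp, E p = p := by
      intro k hk hs p hp
      by_cases hc : ∃ k' ∈ kidsT.filter (fun k => k.sq), p ∈ k'.cellp
      · obtain ⟨k', hk', hp'⟩ := hc
        have hk'' := (hL k').1 hk'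
        have hne : k' ≠ k := by
          rintro rfl
          rw [hs] at hk''
          cases hk''.2
        have hr : Node.rel k' k :=
          haveI := gth_rel_symm
          kT_rel.forall hk''.1 hk hne
        rw [hE1 k' hk' p hp']
        exact hends k' p (hr ⟨hp', hp⟩).1
      · push Not at hc
        exact hE2 p hc
    have hedge : ∀ k ∈ kidsT, ∀ t ∈ Icc k.t0 k.t1, E (k.edge t) = k.edge t := by
      intro k hk t ht
      obtain ⟨a0, a1, a2, _⟩ := kT_times hk
      have hmem := k.cell_sub (edge_mem k a1 ht)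
      have hd : 0 < k.t1 - k.t0 := sub_pos.2 a1
      cases hs : k.sq with
      | false => exact hun k hk hs _ hmem
      | true =>
        rw [hE1 k ((hL k).2 ⟨hk, hs⟩) _ hmem]
        exact hk2 k _ ⟨div_nonneg (by linarith [ht.1]) hd.le, (div_le_one hd).2 (by linarith [ht.2])⟩
    have hG2 : ∀ k ∈ kidsT, ∀ t ∈ Icc k.t0 k.t1, (M.trans E) (edgeB true t) = k.edge t := by
      intro k hk t ht
      obtain ⟨a0, a1, a2, _⟩ := kT_times hk
      change E (M (edgeB true t)) = k.edge t
      rw [hM2 t ⟨by linarith [ht.1], by linarith [ht.2]⟩, ← kT_edge hk ht]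
      exact hedge k hk t ht
    refine ⟨M.trans E, ?_, hG2, ?_, ?_, ?_, ?_⟩
    · intro p hp
      have h1 : M p = p := by
        by_contra hc
        exact hp (hM1 p hc).1
      change E (M p) = p
      rw [h1]
      refine hE2 p fun k hk hc => hp ?_
      have := (hL k).1 hk
      exact kT_cellp this.1 this.2 hc
    · intro k hk hs p hp
      have hk' : k ∈ kidsT := hk
      obtain ⟨a0, a1, a2, _⟩ := kT_times hk'
      have hd : 0 < k.t1 - k.t0 := sub_pos.2 a1
      have hp' := k.cell_sub hp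
      have h1 : E.symm p = (Ek k).symm p := hE3 k ((hL k).2 ⟨hk', hs⟩) p hp'
      obtain ⟨u, hu, h2⟩ := hk3 k p hp
      have ht : k.t0 + (k.t1 - k.t0) * u ∈ Icc k.t0 k.t1 := by
        have h3 := mul_nonneg hd.le hu.1
        have h4 := mul_le_mul_of_nonneg_left hu.2 hd.le
        constructor <;> linarith
      have he : k.edge (k.t0 + (k.t1 - k.t0) * u) = k.fr (edgeB k.typ u) := by
        unfold Node.edge
        have : (k.t0 + (k.t1 - k.t0) * u - k.t0) / (k.t1 - k.t0) = u := by
          field_simp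
          ring
        rw [this]
      refine ⟨_, ht, ?_⟩
      have h3 : edgeB true (k.t0 + (k.t1 - k.t0) * u) =
          M.symm (k.edge (k.t0 + (k.t1 - k.t0) * u)) := by
        rw [kT_edge hk' ht, ← hM2 _ ⟨by linarith [ht.1], by linarith [ht.2]⟩,
          M.symm_apply_apply]
      change dist (M.symm (E.symm p)) _ < _
      rw [h3, h1]
      refine hU _ ?_ _ ?_ ?_
      · exact kT_cellp hk' hs (gth_symm_in (Ek k) k.cellp (hk1 k) hp')
      · exact kT_cell hk' (edge_mem k a1 ht)
      · rw [he]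
        exact h2
    · intro k hk hs p hp
      have h1 : M p = p := by
        by_contra hc
        have h2 := kT_unsq hk hs ⟨hp, (hM1 p hc).2⟩
        apply hc
        rcases h2 with h2 | h2
        · rw [h2, ← gth_e1, hM2 _ (by constructor <;> norm_num), gth_PT1, gth_e1]
        · rw [mem_singleton_iff] at h2
          rw [h2, ← gth_e2, hM2 _ (by constructor <;> norm_num), gth_PT2, gth_e2]
      change E (M p) = p
      rw [h1]
      exact hun k hk hs p (k.cell_sub hp)
    · obtain ⟨k, hk, ht⟩ := kT_cov (t := 0) ⟨le_rfl, zero_le_one⟩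
      rw [hG2 k hk 0 ht, kT_edge hk ht, PT_zero]
    · obtain ⟨k, hk, ht⟩ := kT_cov (t := 1) ⟨zero_le_one, le_rfl⟩
      rw [hG2 k hk 1 ht, kT_edge hk ht, PT_one]

end BOR

end
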