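import Pool.Agent.BOR.STP

/-!
# BOR / HSA: properties of the sequence, images

Setting: `h`, `Ψ` as in `hseq`.

PROOF.
* `step_inv`: for `n ≤ m` and `v ∈ lev n`, `Ψ m` maps `v.cell` to itself, also its inverse. Let
  `p ∈ v.cell`. If `p` is in no cell of level `m`, it is fixed by `Ψ m` (`off`), hence also by the inverse.
  Otherwise `p ∈ u.cell`, `u ∈ lev m`; by `lev_anc` either `u.cell ⊆ v.cell`, then
  `Ψ m p ∈ u.cell ⊆ v.cell` (`map`, `symm_map`), or `p ∈ u.ends` and `Ψ m p = p` (`fix`), so also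
  `(Ψ m).symm p = p`.
* `h_edge`: `h n (gam0 t) = v.edge t` for `v ∈ lev n`, `t ∈ Icc v.t0 v.t1`. Induction: `n = 0`:
  `root_edge`. Step: `u = v.comp k ∈ lev (n+1)`, `t` in its interval; then `t ∈ Icc v.t0 v.t1`
  (`kid_times`) and `h (n+1) (gam0 t) = Ψ n (h n (gam0 t)) = Ψ n (v.edge t) = u.edge t`.
* `h_stay`: `h n x ∈ v.cell`, `v ∈ lev n`, `n ≤ m` imply `h m x ∈ v.cell`: induction with `step_inv`.
* `h_out`: if `h n x` is in no cell of level `n`, then `h m x = h n x` for `m ≥ n`: induction on `m`; if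
  `h m x = h n x` were in a cell of level `m`, it would be in a cell of level `n` (`lev_in`); so
  `Ψ m` fixes it (`off`).
* `h_symm_stay`: for `p ∈ v.cell`, `v ∈ lev n`, `n ≤ m`: `(h m).symm p ∈ (h n).symm '' v.cell`:
  induction, `(h (m+1)).symm p = (h m).symm ((Ψ m).symm p)` and `(Ψ m).symm p ∈ v.cell`.
* `h_symm_out`: if `p` is in no cell of level `n`, then `(h m).symm p = (h n).symm p` for `m ≥ n`.
-/

noncomputable section

namespace BOR

open Set

/-- the properties of the sequence given by `hseq` -/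
def IsSeq (h Ψ : ℕ → E3 ≃ₜ E3) : Prop := h 0 = Homeomorph.refl E3 ∧
    ∀ n, h (n + 1) = (h n).trans (Ψ n) ∧ IsStep n (h n) (Ψ n) ((1 / 2) ^ n)

theorem step_inv {h Ψ : ℕ → E3 ≃ₜ E3} (H : IsSeq h Ψ) {n m : ℕ} (hnm : n ≤ m) {v : Node}
    (hv : v ∈ lev n) {p : E3} (hp : p ∈ v.cell) : Ψ m p ∈ v.cell ∧ (Ψ m).symm p ∈ v.cell := by
  have hS := (H.2 m).2
  have fixed : Ψ m p = p → Ψ m p ∈ v.cell ∧ (Ψ m).symm p ∈ v.cell := by
    intro h1
    refine ⟨by rw [h1]; exact hp, ?_⟩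
    have h2 : (Ψ m).symm p = p := by
      rw [Homeomorph.symm_apply_eq]
      exact h1.symm
    rw [h2]
    exact hp
  by_cases hc : ∃ u ∈ lev m, p ∈ u.cell
  · obtain ⟨u, hu, hpu⟩ := hc
    rcases lev_anc hnm hv hu with h1 | h1
    · exact ⟨h1 (hS.map u hu p hpu), h1 (hS.symm_map u hu p hpu)⟩
    · exact fixed (hS.fix u hu p (h1 ⟨hpu, hp⟩))
  · push Not at hc
    exact fixed (hS.off p hc)

private theorem hsa_succ {h Ψ : ℕ → E3 ≃ₜ E3} (H : IsSeq h Ψ) (n : ℕ) (x : E3) :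
    h (n + 1) x = Ψ n (h n x) := by
  rw [(H.2 n).1]
  rfl

private theorem hsa_succ_symm {h Ψ : ℕ → E3 ≃ₜ E3} (H : IsSeq h Ψ) (n : ℕ) (p : E3) :
    (h (n + 1)).symm p = (h n).symm ((Ψ n).symm p) := by
  rw [(H.2 n).1]
  rfl

theorem h_edge {h Ψ : ℕ → E3 ≃ₜ E3} (H : IsSeq h Ψ) {n : ℕ} {v : Node} (hv : v ∈ lev n) {t : ℝ}
    (ht : t ∈ Icc v.t0 v.t1) : h n (gam0 t) = v.edge t := by
  induction n generalizing v with
  | zero =>
    rw [H.1]
    exact (root_edge hv ht).symm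
  | succ n ih =>
    obtain ⟨u, hu, k, hk, rfl⟩ := lev_succ.1 hv
    have hlt := (lev_times hu).2.1
    obtain ⟨k0, _, k1, _⟩ := kid_times hk
    have hd : 0 < u.t1 - u.t0 := sub_pos.2 hlt
    have ht' : t ∈ Icc u.t0 u.t1 := by
      have h1 : u.t0 + (u.t1 - u.t0) * k.t0 ≤ t := ht.1
      have h2 : t ≤ u.t0 + (u.t1 - u.t0) * k.t1 := ht.2
      have h3 := mul_nonneg hd.le k0
      have h4 := mul_le_mul_of_nonneg_left k1 hd.le
      constructor <;> linarith
    rw [hsa_succ H, ih hu ht']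
    exact (H.2 n).2.edge u hu k hk t ht

theorem h_stay {h Ψ : ℕ → E3 ≃ₜ E3} (H : IsSeq h Ψ) {n m : ℕ} (hnm : n ≤ m) {v : Node}
    (hv : v ∈ lev n) {x : E3} (hx : h n x ∈ v.cell) : h m x ∈ v.cell := by
  induction m, hnm using Nat.le_induction with
  | base => exact hx
  | succ m hm ih =>
    rw [hsa_succ H]
    exact (step_inv H hm hv ih).1

theorem h_out {h Ψ : ℕ → E3 ≃ₜ E3} (H : IsSeq h Ψ) {n m : ℕ} (hnm : n ≤ m) {x : E3}
    (hx : ∀ v ∈ lev n, h n x ∉ v.cell) : h m x = h n x := by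
  induction m, hnm using Nat.le_induction with
  | base => rfl
  | succ m hm ih =>
    rw [hsa_succ H, ih]
    refine (H.2 m).2.off _ fun u hu hc => ?_
    obtain ⟨v, hv, hsub⟩ := lev_in hm hu
    exact hx v hv (hsub hc)

theorem h_symm_stay {h Ψ : ℕ → E3 ≃ₜ E3} (H : IsSeq h Ψ) {n m : ℕ} (hnm : n ≤ m) {v : Node}
    (hv : v ∈ lev n) {p : E3} (hp : p ∈ v.cell) : ∃ q ∈ v.cell, (h m).symm p = (h n).symm q := by
  induction m, hnm using Nat.le_induction generalizing p with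
  | base => exact ⟨p, hp, rfl⟩
  | succ m hm ih =>
    rw [hsa_succ_symm H]
    exact ih (step_inv H hm hv hp).2

theorem h_symm_out {h Ψ : ℕ → E3 ≃ₜ E3} (H : IsSeq h Ψ) {n m : ℕ} (hnm : n ≤ m) {p : E3}
    (hp : ∀ v ∈ lev n, p ∉ v.cell) : (h m).symm p = (h n).symm p := by
  induction m, hnm using Nat.le_induction with
  | base => rfl
  | succ m hm ih =>
    have h1 : Ψ m p = p := by
      refine (H.2 m).2.off _ fun u hu hc => ?_
      obtain ⟨v, hv, hsub⟩ := lev_in hm hu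
      exact hp v hv (hsub hc)
    have h2 : (Ψ m).symm p = p := by
      rw [Homeomorph.symm_apply_eq]
      exact h1.symm
    rw [hsa_succ_symm H, h2]
    exact ih

end BOR

end
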