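import Pool.Agent.BOR.HSA

/-!
# BOR / HSB: the preimages of the cells are small

PROOF.
* `anc_sq`: for `v ∈ lev n` there is `m ≤ n` such that `(h n).symm = (h m).symm` on `v.cell`, and
  (`m = 0` or there is a squeezed `u ∈ lev m` with `v.cell ⊆ u.cell`). Induction on `n`; `n = 0`: `m = 0`.
  Step: `v.comp k ∈ lev (n+1)`. If `k.sq = true`, take `m = n+1`, `u = v.comp k`. If `k.sq = false` then
  `Ψ n` is the identity on `(v.comp k).cell` (`unsq`), so is its inverse, so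
  `(h (n+1)).symm p = (h n).symm p` for `p ∈ (v.comp k).cell ⊆ v.cell`; use the `m` of `v`.
* `sq_small`: if `u ∈ lev (m+1)` is squeezed, then for `p, q ∈ u.cell`
  `dist ((h (m+1)).symm p) ((h (m+1)).symm q) ≤ 2 (1/2)^m + 4 (1/2)^(m+1)`: `u = v.comp k`, `k.sq`;
  by `IsStep.sq` there are `s, t` in the time interval of `u` with
  `dist ((h (m+1)).symm p) ((h m).symm (v.edge t)) < (1/2)^m`, and `(h m).symm (v.edge t) = gam0 t`
  by `h_edge` (`t ∈ Icc v.t0 v.t1`), the same for `q`, `s`; `gam0_lip` and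
  `|s - t| ≤ u.t1 - u.t0 ≤ (1/2)^(m+1)`.
* `dom_small`: given `e > 0` choose `m0` with `8 (1/2)^m0 ≤ e`. The finitely many maps
  `(h m).symm`, `m ≤ m0`, are uniformly continuous on the compact ball `closedBall 0 3` which contains
  all cells: there is `δ > 0` such that `dist p q ≤ δ` implies `dist ((h m).symm p) ((h m).symm q) ≤ e`
  for `p, q` in the ball and `m ≤ m0`. Choose `N` with `8 (4/5)^N ≤ δ`. Let `n ≥ N`, `v ∈ lev n`, and
  `m` from `anc_sq`. If `m ≤ m0`: `dist p q ≤ 2 v.size ≤ 8 (4/5)^n ≤ δ` (`cell_diam`, `lev_size`). If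
  `m > m0`: `sq_small` for `u` (level `m = (m-1)+1`): `≤ 4 (1/2)^(m-1) ≤ 4 (1/2)^m0 ≤ e`.
-/

noncomputable section

namespace BOR

open Set

theorem anc_sq {h Ψ : ℕ → E3 ≃ₜ E3} (H : IsSeq h Ψ) {n : ℕ} {v : Node} (hv : v ∈ lev n) :
    ∃ m ≤ n, (∀ p ∈ v.cell, (h n).symm p = (h m).symm p) ∧
      (m = 0 ∨ ∃ u ∈ lev m, u.sq = true ∧ v.cell ⊆ u.cell) := by
  induction n generalizing v with
  | zero => exact ⟨0, le_rfl, fun p _ => rfl, Or.inl rfl⟩
  | succ n ih =>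
    obtain ⟨w, hw, k, hk, rfl⟩ := lev_succ.1 hv
    cases hsq : k.sq with
    | true => exact ⟨n + 1, le_rfl, fun p _ => rfl, Or.inr ⟨_, hv, hsq, Subset.rfl⟩⟩
    | false =>
      obtain ⟨m, hm, h1, h2⟩ := ih hw
      have hsub := kid_sub w hk
      refine ⟨m, by omega, fun p hp => ?_, ?_⟩
      · have hΨ := (H.2 n).2.unsq w hw k hk hsq p hp
        have h3 : (Ψ n).symm p = p := by
          rw [Homeomorph.symm_apply_eq]; exact hΨ.symm
        have h4 : (h (n + 1)).symm p = (h n).symm ((Ψ n).symm p) := by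
          rw [(H.2 n).1]; rfl
        rw [h4, h3]
        exact h1 p (hsub hp)
      · rcases h2 with h2 | ⟨u, hu, hus, hsu⟩
        · exact Or.inl h2
        · exact Or.inr ⟨u, hu, hus, hsub.trans hsu⟩

theorem sq_small {h Ψ : ℕ → E3 ≃ₜ E3} (H : IsSeq h Ψ) {m : ℕ} {u : Node} (hu : u ∈ lev (m + 1))
    (hs : u.sq = true) {p q : E3} (hp : p ∈ u.cell) (hq : q ∈ u.cell) :
    dist ((h (m + 1)).symm p) ((h (m + 1)).symm q) ≤ 4 * (1 / 2) ^ m := by
  have tu := lev_times hu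
  obtain ⟨v, hv, k, hk, rfl⟩ := lev_succ.1 hu
  have hks : k.sq = true := hs
  obtain ⟨s, hs1, hs2⟩ := (H.2 m).2.sq v hv k hk hks p hp
  obtain ⟨t, ht1, ht2⟩ := (H.2 m).2.sq v hv k hk hks q hq
  have tm := lev_times hv
  have ktm := kid_times hk
  have hsub : ∀ x ∈ Icc (v.comp k).t0 (v.comp k).t1, x ∈ Icc v.t0 v.t1 := by
    intro x hx
    have hx1 := hx.1
    have hx2 := hx.2
    simp only [Node.comp] at hx1 hx2
    constructor
    · nlinarith [mul_nonneg (sub_pos.2 tm.2.1).le ktm.1]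
    · nlinarith [mul_nonneg (sub_pos.2 tm.2.1).le (sub_nonneg.2 ktm.2.2.1)]
  have e1 : (h m).symm (v.edge s) = gam0 s := by
    rw [← h_edge H hv (hsub s hs1)]; simp
  have e2 : (h m).symm (v.edge t) = gam0 t := by
    rw [← h_edge H hv (hsub t ht1)]; simp
  have e3 : ∀ x, (h (m + 1)).symm x = (h m).symm ((Ψ m).symm x) := by
    intro x; rw [(H.2 m).1]; rfl
  rw [e1] at hs2
  rw [e2] at ht2
  rw [e3, e3]
  have s01 : s ∈ Icc (0 : ℝ) 1 := ⟨by linarith [(hsub s hs1).1], by linarith [(hsub s hs1).2]⟩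
  have t01 : t ∈ Icc (0 : ℝ) 1 := ⟨by linarith [(hsub t ht1).1], by linarith [(hsub t ht1).2]⟩
  have hl := gam0_lip s01 t01
  have hst : |s - t| ≤ (1 / 2) ^ (m + 1) := by
    rw [abs_le]
    have a1 := hs1.1
    have a2 := hs1.2
    have a3 := ht1.1
    have a4 := ht1.2
    constructor <;> linarith [tu.2.2.2]
  have hpow : ((1 : ℝ) / 2) ^ (m + 1) = (1 / 2) ^ m / 2 := by rw [pow_succ]; ring
  have tri1 := dist_triangle ((h m).symm ((Ψ m).symm p)) (gam0 s) ((h m).symm ((Ψ m).symm q))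
  have tri2 := dist_triangle (gam0 s) (gam0 t) ((h m).symm ((Ψ m).symm q))
  rw [dist_comm] at ht2
  rw [hpow] at hst
  linarith

theorem dom_small {h Ψ : ℕ → E3 ≃ₜ E3} (H : IsSeq h Ψ) (e : ℝ) (he : 0 < e) :
    ∃ N : ℕ, ∀ n ≥ N, ∀ v ∈ lev n, ∀ p ∈ v.cell, ∀ q ∈ v.cell,
      dist ((h n).symm p) ((h n).symm q) ≤ e := by
  obtain ⟨m0, hm0⟩ : ∃ m0 : ℕ, ((1 : ℝ) / 2) ^ m0 < e / 8 :=
    exists_pow_lt_of_lt_one (by positivity) (by norm_num)
  have hK : IsCompact (Metric.closedBall (0 : E3) 3) := isCompact_closedBall 0 3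
  -- uniform continuity of finitely many maps
  have hU : ∀ m : ℕ, ∃ δ : ℝ, 0 < δ ∧ ∀ p ∈ Metric.closedBall (0 : E3) 3,
      ∀ q ∈ Metric.closedBall (0 : E3) 3, dist p q < δ →
      dist ((h m).symm p) ((h m).symm q) < e := by
    intro m
    have huc := hK.uniformContinuousOn_of_continuous
      (f := fun x => (h m).symm x) ((h m).symm.continuous.continuousOn)
    rw [Metric.uniformContinuousOn_iff] at huc
    obtain ⟨δ, hδ, h1⟩ := huc e he
    exact ⟨δ, hδ, fun p hp q hq hd => h1 p hp q hq hd⟩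
  have hU2 : ∀ M : ℕ, ∃ δ : ℝ, 0 < δ ∧ ∀ m ≤ M, ∀ p ∈ Metric.closedBall (0 : E3) 3,
      ∀ q ∈ Metric.closedBall (0 : E3) 3, dist p q < δ →
      dist ((h m).symm p) ((h m).symm q) < e := by
    intro M
    induction M with
    | zero =>
      obtain ⟨δ, hδ, h1⟩ := hU 0
      refine ⟨δ, hδ, fun m hm => ?_⟩
      obtain rfl : m = 0 := by omega
      exact h1
    | succ M ih =>
      obtain ⟨δ, hδ, h1⟩ := hU (M + 1)
      obtain ⟨δ', hδ', h1'⟩ := ih
      refine ⟨min δ δ', lt_min hδ hδ', fun m hm p hp q hq hd => ?_⟩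
      rcases Nat.lt_or_ge M m with h3 | h3
      · obtain rfl : m = M + 1 := by omega
        exact h1 p hp q hq (lt_of_lt_of_le hd (min_le_left _ _))
      · exact h1' m h3 p hp q hq (lt_of_lt_of_le hd (min_le_right _ _))
  obtain ⟨δ, hδ, hd⟩ := hU2 m0
  obtain ⟨N, hN⟩ : ∃ N : ℕ, ((4 : ℝ) / 5) ^ N < δ / 8 :=
    exists_pow_lt_of_lt_one (by positivity) (by norm_num)
  refine ⟨N, fun n hn v hv p hp q hq => ?_⟩
  obtain ⟨m, hmn, h1, h2⟩ := anc_sq H hv
  rw [h1 p hp, h1 q hq]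
  have hpb : p ∈ Metric.closedBall (0 : E3) 3 := HB_ball (lev_HB hv hp)
  have hqb : q ∈ Metric.closedBall (0 : E3) 3 := HB_ball (lev_HB hv hq)
  rcases Nat.lt_or_ge m0 m with h3 | h3
  · rcases h2 with h2 | ⟨u, hu, hus, hsu⟩
    · omega
    · obtain ⟨m', rfl⟩ : ∃ m', m = m' + 1 := ⟨m - 1, by omega⟩
      have h4 := sq_small H hu hus (hsu hp) (hsu hq)
      have h5 : ((1 : ℝ) / 2) ^ m' ≤ (1 / 2) ^ m0 :=
        pow_le_pow_of_le_one (by norm_num) (by norm_num) (by omega)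
      linarith
  · refine (hd m h3 p hpb q hqb ?_).le
    have h6 := cell_diam v hp hq
    have h7 := lev_size hv
    have h8 : ((4 : ℝ) / 5) ^ n ≤ (4 / 5) ^ N :=
      pow_le_pow_of_le_one (by norm_num) (by norm_num) hn
    linarith

end BOR

end
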