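import Pool.Agent.BOR.Bas

/-!
# BOR / LIM: two-sided uniform limits of homeomorphisms

PROOF. For each `p` the sequence `h n p` is Cauchy; let `k p` be its limit. By uniformity
`dist (h n p) (k p) ≤ ε` for `n ≥ N(ε)` (let `m → ∞` in `h1`), so `k` is continuous as a uniform
limit. Similarly `(h n).symm` converges uniformly to a continuous `l`. `k (l y) = y`: `h n (l y)`
and `h n ((h n).symm y) = y`; given `ε`, for large `n` we have
`dist (k (l y)) y ≤ dist (k (l y)) (k ((h n).symm y)) + dist (k ((h n).symm y)) (h n ((h n).symm y))`;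
the first term tends to 0 by continuity of `k` (since `(h n).symm y → l y`), the second one by
uniform convergence. Symmetrically `l (k x) = x`.
-/

noncomputable section

namespace BOR

private theorem lim_aux (h : ℕ → E3 → E3) (hc : ∀ n, Continuous (h n))
    (h1 : ∀ ε : ℝ, 0 < ε → ∃ N : ℕ, ∀ m ≥ N, ∀ n ≥ N, ∀ p, dist (h m p) (h n p) ≤ ε) :
    ∃ k : E3 → E3, Continuous k ∧
      ∀ ε : ℝ, 0 < ε → ∃ N : ℕ, ∀ n ≥ N, ∀ p, dist (h n p) (k p) ≤ ε := by
  have hcau : ∀ p, CauchySeq (fun n => h n p) := by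
    intro p
    rw [Metric.cauchySeq_iff]
    intro ε hε
    obtain ⟨N, hN⟩ := h1 (ε/2) (by linarith)
    exact ⟨N, fun m hm n hn => lt_of_le_of_lt (hN m hm n hn p) (by linarith)⟩
  choose k hk using fun p => cauchySeq_tendsto_of_complete (hcau p)
  have hu : ∀ ε : ℝ, 0 < ε → ∃ N : ℕ, ∀ n ≥ N, ∀ p, dist (h n p) (k p) ≤ ε := by
    intro ε hε
    obtain ⟨N, hN⟩ := h1 ε hε
    refine ⟨N, fun n hn p => ?_⟩
    have ht : Filter.Tendsto (fun m => dist (h n p) (h m p)) Filter.atTop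
        (nhds (dist (h n p) (k p))) :=
      tendsto_const_nhds.dist (hk p)
    exact le_of_tendsto ht (Filter.eventually_atTop.2 ⟨N, fun m hm => hN n hn m hm p⟩)
  refine ⟨k, ?_, hu⟩
  have htu : TendstoUniformly h k Filter.atTop := by
    rw [Metric.tendstoUniformly_iff]
    intro ε hε
    obtain ⟨N, hN⟩ := hu (ε/2) (by linarith)
    refine Filter.eventually_atTop.2 ⟨N, fun n hn p => ?_⟩
    rw [dist_comm]
    exact lt_of_le_of_lt (hN n hn p) (by linarith)
  exact htu.continuous (Filter.Frequently.of_forall hc)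

/-- If `h n → k`, `g n → l` uniformly, `h n (g n y) = y` and `k` is continuous then
`k (l y) = y`. -/
private theorem lim_aux2 (h g : ℕ → E3 → E3) (k l : E3 → E3) (hk : Continuous k)
    (hhg : ∀ n y, h n (g n y) = y)
    (h1 : ∀ ε : ℝ, 0 < ε → ∃ N : ℕ, ∀ n ≥ N, ∀ p, dist (h n p) (k p) ≤ ε)
    (h2 : ∀ ε : ℝ, 0 < ε → ∃ N : ℕ, ∀ n ≥ N, ∀ p, dist (g n p) (l p) ≤ ε) (y : E3) :
    k (l y) = y := by
  have hgl : Filter.Tendsto (fun n => g n y) Filter.atTop (nhds (l y)) := by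
    rw [Metric.tendsto_atTop]
    intro ε hε
    obtain ⟨N, hN⟩ := h2 (ε/2) (by linarith)
    exact ⟨N, fun n hn => lt_of_le_of_lt (hN n hn y) (by linarith)⟩
  have hkg : Filter.Tendsto (fun n => k (g n y)) Filter.atTop (nhds (k (l y))) :=
    (hk.tendsto _).comp hgl
  have hky : Filter.Tendsto (fun n => k (g n y)) Filter.atTop (nhds y) := by
    rw [Metric.tendsto_atTop]
    intro ε hε
    obtain ⟨N, hN⟩ := h1 (ε/2) (by linarith)
    refine ⟨N, fun n hn => lt_of_le_of_lt ?_ (show ε/2 < ε by linarith)⟩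
    have := hN n hn (g n y)
    rw [hhg] at this
    rw [dist_comm]; exact this
  exact tendsto_nhds_unique hkg hky

theorem lim_homeo (h : ℕ → E3 ≃ₜ E3)
    (h1 : ∀ ε : ℝ, 0 < ε → ∃ N : ℕ, ∀ m ≥ N, ∀ n ≥ N, ∀ p, dist (h m p) (h n p) ≤ ε)
    (h2 : ∀ ε : ℝ, 0 < ε → ∃ N : ℕ, ∀ m ≥ N, ∀ n ≥ N, ∀ p,
      dist ((h m).symm p) ((h n).symm p) ≤ ε) :
    ∃ k : E3 ≃ₜ E3, ∀ ε : ℝ, 0 < ε → ∃ N : ℕ, ∀ n ≥ N, ∀ p, dist (h n p) (k p) ≤ ε := by
  obtain ⟨k, hkc, hk⟩ := lim_aux (fun n => h n) (fun n => (h n).continuous) h1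
  obtain ⟨l, hlc, hl⟩ := lim_aux (fun n => (h n).symm) (fun n => (h n).symm.continuous) h2
  refine ⟨⟨⟨k, l, ?_, ?_⟩, hkc, hlc⟩, hk⟩
  · exact lim_aux2 (fun n => (h n).symm) (fun n => h n) l k hlc
      (fun n y => (h n).symm_apply_apply y) hl hk
  · exact lim_aux2 (fun n => h n) (fun n => (h n).symm) k l hkc
      (fun n y => (h n).apply_symm_apply y) hk hl

end BOR

end
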