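import Pool.Agent.BOR.HSB
import Pool.Agent.BOR.LIM

/-!
# BOR / HSC: the limit homeomorphism

PROOF. Let `h, Ψ` be from `hseq`. Given `e > 0` choose `N` with `8 (4/5)^N ≤ e` and
`N ≥` the number from `dom_small`. For `m, n ≥ N` and `x`: if `h N x` is in no cell of level `N` then
`h m x = h N x = h n x` (`h_out`); otherwise `h N x ∈ v.cell` and both `h m x, h n x ∈ v.cell`
(`h_stay`), so the distance is `≤ 2 v.size ≤ 8 (4/5)^N ≤ e`. Inverses: by `h_symm_out`, or both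
`(h m).symm p, (h n).symm p ∈ (h N).symm '' v.cell` (`h_symm_stay`), whose diameter is `≤ e`. So
`lim_homeo` gives `k`.
* `h n (gam0 t) = v.edge t`: `h_edge`.
* `k (gam0 t) ∈ v.cell` for `v ∈ lev n`, `t ∈ Icc v.t0 v.t1`: `h m (gam0 t) ∈ v.cell` for `m ≥ n`
  (`edge_mem`, `h_stay`) and `v.cell` is closed (`cell_closed`), `h m x → k x`.
* `limit_fix`: by `lev_first` (iterated) for each `n` there is `u ∈ lev n` with `u.t0 = v.t0` and
  `u.edge u.t0 = v.edge v.t0`, so `h n (gam0 v.t0) = v.edge v.t0 = gam0 v.t0` for all `n` (`edge`;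
  `lev 0 = rootL`, `root_edge`), let `n → ∞`.
-/

noncomputable section

namespace BOR

open Set

/-- Everything which is needed about the limit curve: `k` is the limit homeomorphism, `h n` the
approximations. -/
structure IsLimit (k : E3 ≃ₜ E3) (h : ℕ → E3 ≃ₜ E3) : Prop where
  zero : h 0 = Homeomorph.refl E3
  unif : ∀ e : ℝ, 0 < e → ∃ N : ℕ, ∀ n ≥ N, ∀ p, dist (h n p) (k p) ≤ e
  edge : ∀ n, ∀ v ∈ lev n, ∀ t ∈ Icc v.t0 v.t1, h n (gam0 t) = v.edge t
  cell : ∀ n, ∀ v ∈ lev n, ∀ t ∈ Icc v.t0 v.t1, k (gam0 t) ∈ v.cell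

theorem exists_limit : ∃ k : E3 ≃ₜ E3, ∃ h : ℕ → E3 ≃ₜ E3, IsLimit k h := by
  obtain ⟨h, Ψ, h0, hs⟩ := hseq
  have H : IsSeq h Ψ := ⟨h0, hs⟩
  have h1 : ∀ ε : ℝ, 0 < ε → ∃ N : ℕ, ∀ m ≥ N, ∀ n ≥ N, ∀ p, dist (h m p) (h n p) ≤ ε := by
    intro ε hε
    obtain ⟨N, hN⟩ := exists_pow_lt_of_lt_one (show (0 : ℝ) < ε / 8 by positivity)
      (show (4 / 5 : ℝ) < 1 by norm_num)
    refine ⟨N, fun m hm n hn p => ?_⟩
    by_cases hc : ∃ v ∈ lev N, h N p ∈ v.cell
    · obtain ⟨v, hv, hx⟩ := hc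
      have e1 := cell_diam v (h_stay H hm hv hx) (h_stay H hn hv hx)
      have e2 := lev_size hv
      linarith
    · push Not at hc
      rw [h_out H hm hc, h_out H hn hc, dist_self]
      exact hε.le
  have h2 : ∀ ε : ℝ, 0 < ε → ∃ N : ℕ, ∀ m ≥ N, ∀ n ≥ N, ∀ p,
      dist ((h m).symm p) ((h n).symm p) ≤ ε := by
    intro ε hε
    obtain ⟨N, hN⟩ := dom_small H ε hε
    refine ⟨N, fun m hm n hn p => ?_⟩
    by_cases hc : ∃ v ∈ lev N, p ∈ v.cell
    · obtain ⟨v, hv, hx⟩ := hc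
      obtain ⟨q, hq, e1⟩ := h_symm_stay H hm hv hx
      obtain ⟨q', hq', e2⟩ := h_symm_stay H hn hv hx
      rw [e1, e2]
      exact hN N le_rfl v hv q hq q' hq'
    · push Not at hc
      rw [h_symm_out H hm hc, h_symm_out H hn hc, dist_self]
      exact hε.le
  obtain ⟨k, hk⟩ := lim_homeo h h1 h2
  refine ⟨k, h, ⟨h0, hk, fun n v hv t ht => h_edge H hv ht, fun n v hv t ht => ?_⟩⟩
  have hlt := (lev_times hv).2.1
  have hmem : h n (gam0 t) ∈ v.cell := by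
    rw [h_edge H hv ht]
    exact edge_mem v hlt ht
  have hlim : Filter.Tendsto (fun m => h m (gam0 t)) Filter.atTop (nhds (k (gam0 t))) := by
    rw [Metric.tendsto_atTop]
    intro ε hε
    obtain ⟨N, hN⟩ := hk (ε / 2) (by positivity)
    refine ⟨N, fun m hm => ?_⟩
    have := hN m hm (gam0 t)
    linarith
  refine (cell_closed v).mem_of_tendsto hlim ?_
  filter_upwards [Filter.eventually_ge_atTop n] with m hm
  exact h_stay H hm hv hmem

/-- starting points of the nodes of level `0` are fixed -/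
theorem limit_fix {k : E3 ≃ₜ E3} {h : ℕ → E3 ≃ₜ E3} (H : IsLimit k h) {v : Node} (hv : v ∈ lev 0) :
    k (gam0 v.t0) = gam0 v.t0 := by
  have key : ∀ n : ℕ, ∃ u ∈ lev n, u.t0 = v.t0 ∧ u.edge u.t0 = v.edge v.t0 := by
    intro n
    induction n with
    | zero => exact ⟨v, hv, rfl, rfl⟩
    | succ n ih =>
      obtain ⟨u, hu, e1, e2⟩ := ih
      obtain ⟨u', hu', e3, e4⟩ := lev_first hu
      exact ⟨u', hu', e3.trans e1, e4.trans e2⟩
  have hroot : v.edge v.t0 = gam0 v.t0 :=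
    root_edge hv ⟨le_rfl, (lev_times hv).2.1.le⟩
  have hfix : ∀ n : ℕ, h n (gam0 v.t0) = gam0 v.t0 := by
    intro n
    obtain ⟨u, hu, e1, e2⟩ := key n
    have e3 := H.edge n u hu u.t0 ⟨le_rfl, (lev_times hu).2.1.le⟩
    rw [e1] at e3
    rw [e1] at e2
    rw [e3, e2, hroot]
  refine eq_of_forall_dist_le (fun ε hε => ?_)
  obtain ⟨N, hN⟩ := H.unif ε hε
  have := hN N le_rfl (gam0 v.t0)
  rw [hfix N] at this
  rw [dist_comm]
  exact this

end BOR

end
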