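import Pool.Agent.BOR.TDef

/-!
# BOR / INA (part of the old INC): inclusions of the regions

PROOF. Linear arithmetic with `sg = 2/3`, `w = g/64`, `eta = g/8`, `0.6944 g < xi < 0.6946 g`,
`1.1021 g < ss < 1.1028 g`, `de = 2 xi`, `al² > 1.58`, `al > 1.25`, `g ≤ 10⁻¹²`.
* `rgOL 1 ⊆ bodyT 1`: there `-2xi ≤ p 0 ≤ -xi`, `|p 0| = - p 0`, so `sg (de - |p 0|) = sg (p 0 + 2xi)`;
  and `g/1536 ≤ w`. `rgOR 1`: mirror.
* `rgVL (6/5)`: `ze ≤ p 2 ≤ 0`. If `p 2 < ze + w/2` then `p ∈ bodyT 1`: `|p 0| ≤ xi + g/1280`, so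
  `sg (de - |p 0|) ≥ w`, `dT (p 0) = w`, `|p 1| ≤ g/1280 ≤ w`, `|p 2 - ze| ≤ w/2`. Otherwise
  `p ∈ boxT`. `rgVR`: mirror.
* `rgT1`, `rgT2`, `rgHB (6/5)` in `boxT` (`p 2 ≥ -1 + g/2 ≥ ze + w/2`).
* `HB`: clear.
* near `HB`: take `q = pt (p 0) (p 1) (max (p 2) (-1))`, `q ∈ HB`, distance `≤ -1 - ze + g/1000 ≤ g`.
* `DB`: all coordinates are small, `p 2 ∈ [ze - g, g]`.
* the endpoints `pa`, `pb` of the edge are not in the middle regions: `pa 0 = -2xi` and `pa 2 = ze`;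
  `rgVL`: `|p 0 + xi| = xi > g/1280`; `rgT1`, `rgT2`: `|p 2| < 1` for the box and the body;
  `rgHB`: `|p 2| ≤ g/1280`; `rgOR`: `p 0 ≥ xi`.
-/

noncomputable section

namespace BOR

open Set

private theorem ina_mn {x c a b : ℝ} (hc : 0 ≤ c) (h : |x| ≤ c * min a b) :
    (-(c * a) ≤ x ∧ x ≤ c * a) ∧ (-(c * b) ≤ x ∧ x ≤ c * b) := by
  refine ⟨abs_le.1 (h.trans (mul_le_mul_of_nonneg_left (min_le_left _ _) hc)),
    abs_le.1 (h.trans (mul_le_mul_of_nonneg_left (min_le_right _ _) hc))⟩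

private theorem ina_dT {x y : ℝ} (h1 : |y| ≤ 2 / 3 * (2 * xi - |x|)) (h2 : |y| ≤ g / 64) :
    |y| ≤ 1 * dT x := by
  rw [one_mul]
  unfold dT
  exact le_min h1 h2

theorem inOL : rgOL 1 ⊆ cellB true := by
  rintro p ⟨h1, h2, h3, h4⟩
  have hg := g_pos
  have hx := xi_pos
  rw [sg_def] at h1 h2
  obtain ⟨a1, a2⟩ := ina_mn (by norm_num) h1
  obtain ⟨b1, b2⟩ := ina_mn (by norm_num) h2
  have h0 : |p 0| = -p 0 := abs_of_nonpos (by linarith [a2.1, a2.2])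
  refine Or.inl ⟨ina_dT ?_ ?_, ina_dT ?_ ?_⟩
  · rw [h0, abs_le]; constructor <;> linarith [a1.1, a1.2]
  · linarith
  · rw [h0, abs_le]; constructor <;> linarith [b1.1, b1.2]
  · linarith

theorem inOR : rgOR 1 ⊆ cellB true := by
  rintro p ⟨h1, h2, h3, h4⟩
  have hg := g_pos
  have hx := xi_pos
  rw [sg_def] at h1 h2
  obtain ⟨a1, a2⟩ := ina_mn (by norm_num) h1
  obtain ⟨b1, b2⟩ := ina_mn (by norm_num) h2
  have h0 : |p 0| = p 0 := abs_of_nonneg (by linarith [a1.1, a1.2])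
  refine Or.inl ⟨ina_dT ?_ ?_, ina_dT ?_ ?_⟩
  · rw [h0, abs_le]; constructor <;> linarith [a2.1, a2.2]
  · linarith
  · rw [h0, abs_le]; constructor <;> linarith [b2.1, b2.2]
  · linarith

private theorem ina_V {p : E3} (h0 : |p 0| ≤ xi + g / 1280) (h1 : |p 1| ≤ g / 1280)
    (h2 : ze ≤ p 2) (h3 : p 2 ≤ 0) : p ∈ cellB true := by
  have hg := g_pos
  have hg2 := g_le
  have hx := xi_gt
  have hx2 := xi_lt
  have ha := al_gt
  have ha2 := al_sq_gt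
  by_cases h : p 2 < ze + w / 2
  · rw [w_def] at h
    refine Or.inl ⟨ina_dT ?_ ?_, ina_dT ?_ ?_⟩
    · linarith
    · linarith
    · rw [abs_le]; constructor <;> linarith
    · rw [abs_le]; constructor <;> linarith
  · push Not at h
    refine Or.inr ⟨?_, ?_, h, ?_⟩
    · linarith
    · linarith
    · linarith

theorem inVL : rgVL (6 / 5) ⊆ cellB true := by
  rintro p ⟨h1, h2, h3, h4⟩
  have hg := g_pos
  have hx := xi_pos
  rw [sg_def] at h1 h2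
  obtain ⟨a1, a2⟩ := ina_mn (by norm_num) h1
  have h3' := abs_le.1 h3
  refine ina_V ?_ ?_ ?_ ?_
  · rw [abs_le]; constructor <;> linarith [h3'.1, h3'.2]
  · linarith
  · linarith [a1.1, a1.2]
  · linarith [a2.1, a2.2]

theorem inVR : rgVR (6 / 5) ⊆ cellB true := by
  rintro p ⟨h1, h2, h3, h4⟩
  have hg := g_pos
  have hx := xi_pos
  rw [sg_def] at h1 h2
  obtain ⟨a1, a2⟩ := ina_mn (by norm_num) h1
  have h3' := abs_le.1 h3
  refine ina_V ?_ ?_ ?_ ?_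
  · rw [abs_le]; constructor <;> linarith [h3'.1, h3'.2]
  · linarith
  · linarith [a1.1, a1.2]
  · linarith [a2.1, a2.2]

private theorem ina_B {p : E3} (h0 : |p 0| ≤ al ^ 2) (h1 : |p 1| ≤ al) (h2 : |p 2| ≤ 1 - g / 2) :
    p ∈ cellB true ∩ HB := by
  have hg := g_pos
  obtain ⟨h3, h4⟩ := abs_le.1 h2
  refine ⟨Or.inr ⟨h0, h1, ?_, by linarith⟩, h0, h1, by linarith⟩
  rw [ze_def, eta_def, w_def]
  linarith

theorem inT1 : rgT1 ⊆ cellB true ∩ HB := by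
  rintro p hp
  have hg := g_pos
  have hg2 := g_le
  have hx := xi_gt
  have hx2 := xi_lt
  have hs := ss_gt
  have hs2 := ss_lt
  have ha := al_gt
  have ha2 := al_sq_gt
  rcases hp with ⟨h1, h2, h3, h4⟩ | ⟨h1, h2, h3, h4⟩
  · obtain ⟨a1, a2⟩ := ina_mn (by norm_num) h1
    obtain ⟨b1, b2⟩ := abs_le.1 h3
    refine ina_B ?_ ?_ ?_
    · rw [abs_le]; constructor <;> linarith
    · rw [abs_le]; constructor <;> linarith [a1.1, a1.2, a2.1, a2.2]
    · linarith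
  · refine ina_B ?_ h3 h4
    rw [abs_le]; constructor <;> linarith

theorem inT2 : rgT2 ⊆ cellB true ∩ HB := by
  rintro p hp
  have hg := g_pos
  have hg2 := g_le
  have hx := xi_gt
  have hx2 := xi_lt
  have hs := ss_gt
  have hs2 := ss_lt
  have ha := al_gt
  have ha2 := al_sq_gt
  rcases hp with ⟨h1, h2, h3, h4⟩ | ⟨h1, h2, h3, h4⟩
  · obtain ⟨a1, a2⟩ := ina_mn (by norm_num) h1
    obtain ⟨b1, b2⟩ := abs_le.1 h3
    refine ina_B ?_ ?_ ?_
    · rw [abs_le]; constructor <;> linarith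
    · rw [abs_le]; constructor <;> linarith [a1.1, a1.2, a2.1, a2.2]
    · linarith
  · refine ina_B ?_ h3 h4
    rw [abs_le]; constructor <;> linarith

theorem inHB : rgHB (6 / 5) ⊆ cellB true ∩ HB := by
  rintro p ⟨h1, h2, h3, h4⟩
  have hg := g_pos
  have hg2 := g_le
  have hx := xi_gt
  have hx2 := xi_lt
  have hs := ss_gt
  have hs2 := ss_lt
  have ha := al_gt
  have ha2 := al_sq_gt
  rw [sg_def] at h1 h2
  obtain ⟨a1, a2⟩ := ina_mn (by norm_num) h1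
  obtain ⟨b1, b2⟩ := abs_le.1 h3
  refine ina_B ?_ ?_ ?_
  · rw [abs_le]; constructor <;> linarith [a1.1, a1.2, a2.1, a2.2]
  · rw [abs_le]; constructor <;> linarith
  · linarith

theorem inCL : rgCL (6 / 5) ⊆ HB := by
  rintro p ⟨h1, h2, h3, h4⟩
  have hg := g_pos
  have hg2 := g_le
  have hx := xi_gt
  have hx2 := xi_lt
  have ha := al_gt
  have ha2 := al_sq_gt
  rw [sg_def] at h1 h2
  obtain ⟨a1, a2⟩ := ina_mn (by norm_num) h1
  obtain ⟨b1, b2⟩ := abs_le.1 h3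
  refine ⟨?_, ?_, ?_⟩
  · rw [abs_le]; constructor <;> linarith [a1.1, a1.2, a2.1, a2.2]
  · rw [abs_le]; constructor <;> linarith
  · linarith

end BOR

end
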