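import Pool.Agent.BOR.KTB
import Pool.Agent.BOR.KTA
import Pool.Agent.BOR.INC

/-!
# BOR / KRT (part of the old KID): facts on the kids for both types, and for the root

PROOF. Case split on `b` (files KTA, KTB, KTC, KSB). Root: `rootL` is the concatenation of T1, HB,
T2, CL; `grT1, grHB, grT2, grCL` (GRT), `inT1, inHB, inT2, inCL, in_VT` (INC); strings by STR.
* `root_edge`: as `kT_edge`: FT1 on `[0,1/4]` is `sgm (-xi,0,0) (-xi,2ss,0)`, HB on `[1/4,1/2]`, FT2 on
  `[1/2,3/4]`: `sgm (xi,2ss,0) (xi,0,0)`, CL on `[3/4,1]`: `FCL (pt u 0 0) = (xi - 2 xi u, 0, 0)`.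
* `kid_first`: `kT_first`, `kT_edge`, `PT_zero`; `kS_first`, `kS_edge`.
* `gam0_closed`: `gam0 0 = (-xi,0,0) = gam0 1`. `gam0_lip`: each piece is a segment of length `≤ 1`
  traversed in time `1/4`, and `gam0` is continuous at the division points.
-/

noncomputable section

namespace BOR

open Set

private theorem KRT_cases {k : Node} (hk : k ∈ rootL) :
    k = ⟨true, FT1, 0, 1 / 4, true⟩ ∨ k ∈ str FHB (NT (2 * xi)) (1 / 4) (1 / 2) true ∨
    k = ⟨true, FT2, 1 / 2, 3 / 4, true⟩ ∨ k ∈ str FCL (NT (2 * xi)) (3 / 4) 1 true := by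
  unfold rootL at hk
  simp only [List.mem_append, List.mem_singleton] at hk
  tauto

theorem root_T1 : (⟨true, FT1, 0, 1 / 4, true⟩ : Node) ∈ rootL := by
  unfold rootL
  simp only [List.mem_append]
  exact Or.inl (Or.inl (Or.inl (List.mem_singleton.2 rfl)))

theorem root_T2 : (⟨true, FT2, 1 / 2, 3 / 4, true⟩ : Node) ∈ rootL := by
  unfold rootL
  simp only [List.mem_append]
  exact Or.inl (Or.inr (List.mem_singleton.2 rfl))

private theorem KRT_mHB {k : Node} (h : k ∈ str FHB (NT (2 * xi)) (1 / 4) (1 / 2) true) :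
    k ∈ rootL := by
  unfold rootL
  simp only [List.mem_append]
  exact Or.inl (Or.inl (Or.inr h))

private theorem KRT_mCL {k : Node} (h : k ∈ str FCL (NT (2 * xi)) (3 / 4) 1 true) :
    k ∈ rootL := by
  unfold rootL
  simp only [List.mem_append]
  exact Or.inr h

theorem root_cell {k : Node} (hk : k ∈ rootL) : k.cell ⊆ HB := by
  rcases KRT_cases hk with h | h | h | h
  · subst h
    exact (image_mono (cellB_sub true)).trans (grT1.trans (inT1.trans inter_subset_right))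
  · exact (Node.cell_sub k).trans ((grHB h).2.trans (inHB.trans inter_subset_right))
  · subst h
    exact (image_mono (cellB_sub true)).trans (grT2.trans (inT2.trans inter_subset_right))
  · exact (Node.cell_sub k).trans ((grCL h).2.trans inCL)

theorem root_times {k : Node} (hk : k ∈ rootL) :
    0 ≤ k.t0 ∧ k.t0 < k.t1 ∧ k.t1 ≤ 1 := by
  rcases KRT_cases hk with h | h | h | h
  · subst h; norm_num
  · obtain ⟨a, b, c⟩ := str_times (by norm_num) h
    exact ⟨by linarith, b, by linarith⟩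
  · subst h; norm_num
  · obtain ⟨a, b, c⟩ := str_times (by norm_num) h
    exact ⟨by linarith, b, by linarith⟩

theorem root_cov {t : ℝ} (ht : t ∈ Icc (0 : ℝ) 1) : ∃ k ∈ rootL, t ∈ Icc k.t0 k.t1 := by
  obtain ⟨h0, h1⟩ := ht
  by_cases a1 : t ≤ 1 / 4
  · exact ⟨_, root_T1, ⟨h0, a1⟩⟩
  by_cases a2 : t ≤ 1 / 2
  · obtain ⟨k, hk, h⟩ := str_cov (F := FHB) (M := NT (2 * xi)) (ta := 1 / 4) (tb := 1 / 2)
      (q := true) (by norm_num) (t := t) ⟨by linarith, a2⟩
    exact ⟨k, KRT_mHB hk, h⟩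
  by_cases a3 : t ≤ 3 / 4
  · exact ⟨_, root_T2, ⟨by linarith, a3⟩⟩
  · obtain ⟨k, hk, h⟩ := str_cov (F := FCL) (M := NT (2 * xi)) (ta := 3 / 4) (tb := 1)
      (q := true) (by norm_num) (t := t) ⟨by linarith, h1⟩
    exact ⟨k, KRT_mCL hk, h⟩

private theorem KRT_str_size {F : Sim} {ta tb : ℝ} {q : Bool} {k : Node}
    (hk : k ∈ str F (NT F.s) ta tb q) : k.size ≤ 4 := by
  obtain ⟨h1, _, h3⟩ := str_data hk
  unfold Node.size sz
  rw [h1, h3]
  have h := NT_lt F.s
  have h4 : l0 ≤ 1 := by rw [l0_def]; have := g_le; norm_num at this ⊢; linarith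
  simp only [Bool.false_eq_true, if_false]
  linarith

theorem root_size {k : Node} (hk : k ∈ rootL) : k.size ≤ 4 := by
  rcases KRT_cases hk with h | h | h | h
  · subst h
    have := r_lt
    have e : FT1.s = r := rfl
    simp only [Node.size, sz, if_true, e]; linarith
  · exact KRT_str_size (F := FHB) h
  · subst h
    have := r_lt
    have e : FT2.s = r := rfl
    simp only [Node.size, sz, if_true, e]; linarith
  · exact KRT_str_size (F := FCL) h

private theorem KRT_FHB (u : ℝ) : FHB (pt u 0 0) = pt (-xi + 2 * xi * u) (2 * ss) 0 :=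
  ext3 (by simp [Sim.app_def, FHB]; ring) (by simp [Sim.app_def, FHB]) (by simp [Sim.app_def, FHB])

private theorem KRT_FCL (u : ℝ) : FCL (pt u 0 0) = pt (xi - 2 * xi * u) 0 0 :=
  ext3 (by simp [Sim.app_def, FCL, Uxm_app]; ring) (by simp [Sim.app_def, FCL, Uxm_app])
    (by simp [Sim.app_def, FCL, Uxm_app])

private theorem KRT_FT1 (u : ℝ) : FT1 (edgeB true u) = pt (-xi) (2 * ss * u) 0 := by
  have h := xi_id
  refine ext3 ?_ ?_ ?_
  · simp [Sim.app_def, FT1, UA1_app, edgeB]; linarith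
  · simp [Sim.app_def, FT1, UA1_app, edgeB, ss]; ring
  · simp [Sim.app_def, FT1, UA1_app, edgeB]

private theorem KRT_FT2 (u : ℝ) : FT2 (edgeB true u) = pt xi (2 * ss * (1 - u)) 0 := by
  have h := xi_id
  refine ext3 ?_ ?_ ?_
  · simp [Sim.app_def, FT2, UA2_app, edgeB]; linarith
  · simp [Sim.app_def, FT2, UA2_app, edgeB, ss]; ring
  · simp [Sim.app_def, FT2, UA2_app, edgeB]

private theorem KRT_left (p q : E3) (s t : ℝ) : sgm p q s t s = p := by simp [sgm]

private theorem KRT_right (p q : E3) {s t : ℝ} (h : s < t) : sgm p q s t t = q := by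
  have h2 : t - s ≠ 0 := by intro h3; linarith
  simp [sgm, div_self h2]

private theorem KRT_sgm (a b c a' b' c' s t τ : ℝ) :
    sgm (pt a b c) (pt a' b' c') s t τ =
      pt (a + (τ - s) / (t - s) * (a' - a)) (b + (τ - s) / (t - s) * (b' - b))
        (c + (τ - s) / (t - s) * (c' - c)) :=
  ext3 (by simp [sgm]) (by simp [sgm]) (by simp [sgm])

private theorem KRT_p1 {t : ℝ} (h' : t ≤ 1 / 4) :
    gam0 t = sgm (pt (-xi) 0 0) (pt (-xi) (2 * ss) 0) 0 (1 / 4) t := by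
  unfold gam0; rw [if_pos h']

private theorem KRT_p2 {t : ℝ} (h : 1 / 4 ≤ t) (h' : t ≤ 1 / 2) :
    gam0 t = sgm (pt (-xi) (2 * ss) 0) (pt xi (2 * ss) 0) (1 / 4) (1 / 2) t := by
  rcases h.eq_or_lt with h | h
  · rw [← h, KRT_p1 le_rfl, KRT_left, KRT_right _ _ (by norm_num)]
  · unfold gam0; rw [if_neg (not_le.2 h), if_pos h']

private theorem KRT_p3 {t : ℝ} (h : 1 / 2 ≤ t) (h' : t ≤ 3 / 4) :
    gam0 t = sgm (pt xi (2 * ss) 0) (pt xi 0 0) (1 / 2) (3 / 4) t := by
  rcases h.eq_or_lt with h | h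
  · rw [← h, KRT_p2 (by norm_num) le_rfl, KRT_left, KRT_right _ _ (by norm_num)]
  · unfold gam0; rw [if_neg (by intro h2; linarith), if_neg (not_le.2 h), if_pos h']

private theorem KRT_p4 {t : ℝ} (h : 3 / 4 ≤ t) :
    gam0 t = sgm (pt xi 0 0) (pt (-xi) 0 0) (3 / 4) 1 t := by
  rcases h.eq_or_lt with h | h
  · rw [← h, KRT_p3 (by norm_num) le_rfl, KRT_left, KRT_right _ _ (by norm_num)]
  · unfold gam0; rw [if_neg (by intro h2; linarith), if_neg (by intro h2; linarith),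
      if_neg (not_le.2 h)]

theorem root_edge {k : Node} (hk : k ∈ rootL) {t : ℝ} (ht : t ∈ Icc k.t0 k.t1) :
    k.edge t = gam0 t := by
  obtain ⟨h0, h1⟩ := ht
  rcases KRT_cases hk with h | h | h | h
  · subst h
    rw [KRT_p1 h1]
    unfold Node.edge
    simp only
    rw [KRT_FT1, KRT_sgm]
    exact ext3 (by simp) (by simp; ring) (by simp)
  · obtain ⟨a, b, c⟩ := str_times (by norm_num) h
    rw [str_edge (by norm_num) h, KRT_p2 (by linarith) (by linarith), KRT_FHB, KRT_sgm]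
    exact ext3 (by simp; ring) (by simp) (by simp)
  · subst h
    rw [KRT_p3 h0 h1]
    unfold Node.edge
    simp only
    rw [KRT_FT2, KRT_sgm]
    exact ext3 (by simp) (by simp; ring) (by simp)
  · obtain ⟨a, b, c⟩ := str_times (by norm_num) h
    rw [str_edge (by norm_num) h, KRT_p4 (by linarith), KRT_FCL, KRT_sgm]
    exact ext3 (by simp; ring) (by simp) (by simp)

private theorem KRT_str_thin {ta tb : ℝ} {q : Bool} {k : Node} {F : Sim}
    (hF : l0 ≤ F.s) (hk : k ∈ str F (NT F.s) ta tb q) (hc : k.cell ⊆ rgHB 1 ∪ rgCL 1) :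
    k.typ = false ∧ g / 1024 ≤ k.fr.s ∧ k.cell ⊆ VT := by
  obtain ⟨h1, _, h3⟩ := str_data hk
  refine ⟨h1, ?_, fun p hp => in_VT (hc hp)⟩
  rw [h3]
  have h := NT_ge hF
  rw [l0_def] at h
  linarith

theorem root_thin {k : Node} (hk : k ∈ rootL) :
    (k.typ = true ∧ (k.fr = FT1 ∨ k.fr = FT2)) ∨
    (k.typ = false ∧ g / 1024 ≤ k.fr.s ∧ k.cell ⊆ VT) := by
  have hx := xi_gt
  have hg := g_pos
  have hl := l0_def
  rcases KRT_cases hk with h | h | h | h
  · left; subst h; exact ⟨rfl, Or.inl rfl⟩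
  · right
    refine KRT_str_thin (F := FHB) ?_ h (fun p hp => Or.inl ((grHB h).1 hp))
    show l0 ≤ 2 * xi
    rw [hl]; linarith
  · left; subst h; exact ⟨rfl, Or.inr rfl⟩
  · right
    refine KRT_str_thin (F := FCL) ?_ h (fun p hp => Or.inr ((grCL h).1 hp))
    show l0 ≤ 2 * xi
    rw [hl]; linarith

theorem gam0_closed : gam0 0 = gam0 1 := by
  rw [KRT_p1 (by norm_num), KRT_p4 (by norm_num), KRT_left, KRT_right _ _ (by norm_num)]

private theorem KRT_glue (f : ℝ → E3) {a b c : ℝ}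
    (h1 : ∀ s t, a ≤ s → s ≤ t → t ≤ b → dist (f s) (f t) ≤ 4 * (t - s))
    (h2 : ∀ s t, b ≤ s → s ≤ t → t ≤ c → dist (f s) (f t) ≤ 4 * (t - s)) :
    ∀ s t, a ≤ s → s ≤ t → t ≤ c → dist (f s) (f t) ≤ 4 * (t - s) := by
  intro s t hs hst ht
  by_cases e1 : t ≤ b
  · exact h1 s t hs hst e1
  by_cases e2 : b ≤ s
  · exact h2 s t e2 hst ht
  push Not at e1 e2
  have a1 := h1 s b hs e2.le le_rfl
  have a2 := h2 b t le_rfl e1.le ht
  have := dist_triangle (f s) (f b) (f t)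
  linarith

private theorem KRT_seg (p q : E3) (a b : ℝ) (hab : b = a + 1 / 4) (hpq : dist p q ≤ 1)
    (s t : ℝ) (hst : s ≤ t) :
    dist (sgm p q a b s) (sgm p q a b t) ≤ 4 * (t - s) := by
  have e : sgm p q a b s - sgm p q a b t = (4 * (s - t)) • (q - p) := by
    unfold sgm
    have e1 : b - a = 1 / 4 := by linarith
    rw [e1]
    have e2 : (s - a) / (1 / 4 : ℝ) = 4 * (s - a) := by ring
    have e3 : (t - a) / (1 / 4 : ℝ) = 4 * (t - a) := by ring
    rw [e2, e3]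
    module
  rw [dist_eq_norm, e, norm_smul, ← dist_eq_norm, dist_comm q p, Real.norm_eq_abs, abs_mul,
    abs_of_nonpos (by linarith : s - t ≤ 0)]
  have h4 : |(4 : ℝ)| = 4 := by norm_num
  rw [h4]
  have : 4 * (-(s - t)) * dist p q ≤ 4 * (-(s - t)) * 1 :=
    mul_le_mul_of_nonneg_left hpq (by linarith)
  linarith

private theorem KRT_lip (s t : ℝ) (hs : 0 ≤ s) (hst : s ≤ t) (ht : t ≤ 1) :
    dist (gam0 s) (gam0 t) ≤ 4 * (t - s) := by
  have hg := g_le
  norm_num at hg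
  have hx := xi_lt
  have hx0 := xi_pos
  have hs1 := ss_lt
  have hs0 := ss_pos
  have b1 : ∀ s t, (0 : ℝ) ≤ s → s ≤ t → t ≤ 1 / 4 → dist (gam0 s) (gam0 t) ≤ 4 * (t - s) := by
    intro s t h0 h1 h2
    rw [KRT_p1 (h1.trans h2), KRT_p1 h2]
    refine KRT_seg _ _ _ _ (by norm_num) ?_ _ _ h1
    refine dist_le_of_coord (a := 0) (b := 1) (c := 0) (by simp) ?_ (by simp) (by norm_num)
      (by norm_num)
    simp only [pt_1]
    rw [abs_le]; constructor <;> linarith
  have b2 : ∀ s t, (1 / 4 : ℝ) ≤ s → s ≤ t → t ≤ 1 / 2 → dist (gam0 s) (gam0 t) ≤ 4 * (t - s) := by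
    intro s t h0 h1 h2
    rw [KRT_p2 h0 (h1.trans h2), KRT_p2 (h0.trans h1) h2]
    refine KRT_seg _ _ _ _ (by norm_num) ?_ _ _ h1
    refine dist_le_of_coord (a := 1) (b := 0) (c := 0) ?_ (by simp) (by simp) (by norm_num)
      (by norm_num)
    simp only [pt_0]
    rw [abs_le]; constructor <;> linarith
  have b3 : ∀ s t, (1 / 2 : ℝ) ≤ s → s ≤ t → t ≤ 3 / 4 → dist (gam0 s) (gam0 t) ≤ 4 * (t - s) := by
    intro s t h0 h1 h2
    rw [KRT_p3 h0 (h1.trans h2), KRT_p3 (h0.trans h1) h2]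
    refine KRT_seg _ _ _ _ (by norm_num) ?_ _ _ h1
    refine dist_le_of_coord (a := 0) (b := 1) (c := 0) (by simp) ?_ (by simp) (by norm_num)
      (by norm_num)
    simp only [pt_1]
    rw [abs_le]; constructor <;> linarith
  have b4 : ∀ s t, (3 / 4 : ℝ) ≤ s → s ≤ t → t ≤ 1 → dist (gam0 s) (gam0 t) ≤ 4 * (t - s) := by
    intro s t h0 h1 h2
    rw [KRT_p4 h0, KRT_p4 (h0.trans h1)]
    refine KRT_seg _ _ _ _ (by norm_num) ?_ _ _ h1
    refine dist_le_of_coord (a := 1) (b := 0) (c := 0) ?_ (by simp) (by simp) (by norm_num)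
      (by norm_num)
    simp only [pt_0]
    rw [abs_le]; constructor <;> linarith
  exact KRT_glue _ (KRT_glue _ (KRT_glue _ b1 b2) b3) b4 s t hs hst ht

theorem gam0_lip {s t : ℝ} (hs : s ∈ Icc (0 : ℝ) 1) (ht : t ∈ Icc (0 : ℝ) 1) :
    dist (gam0 s) (gam0 t) ≤ 4 * |s - t| := by
  rcases le_total s t with h | h
  · rw [abs_sub_comm, abs_of_nonneg (by linarith : 0 ≤ t - s)]
    exact KRT_lip s t hs.1 h ht.2
  · rw [abs_of_nonneg (by linarith : 0 ≤ s - t), dist_comm]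
    exact KRT_lip t s ht.1 h hs.2

end BOR

end
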