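import Pool.Agent.BOR.KTC
import Pool.Agent.BOR.KTB
import Pool.Agent.BOR.KSB
import Pool.Agent.BOR.KRT

/-!
# BOR / KID: facts on the kids for both types, and for the root

PROOF. Case split on `b` (files KTA, KTB, KTC, KSB). Root: `rootL` is the concatenation of T1, HB,
T2, CL; `grT1, grHB, grT2, grCL` (GRT), `inT1, inHB, inT2, inCL, in_VT` (INC); strings by STR.
* `root_edge`: as `kT_edge`: FT1 on `[0,1/4]` is `sgm (-xi,0,0) (-xi,2ss,0)`, HB on `[1/4,1/2]`, FT2 on
  `[1/2,3/4]`: `sgm (xi,2ss,0) (xi,0,0)`, CL on `[3/4,1]`: `FCL (pt u 0 0) = (xi - 2 xi u, 0, 0)`.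
* `kid_first`: `kT_first`, `kT_edge`, `PT_zero`; `kS_first`, `kS_edge`.
* `gam0_closed`: `gam0 0 = (-xi,0,0) = gam0 1`. `gam0_lip`: each piece is a segment of length `≤ 1`
  traversed in time `1/4`, and `gam0` is continuous at the division points.
-/

noncomputable section

namespace BOR

open Set

theorem kid_cell {b : Bool} {k : Node} (hk : k ∈ kids b) : k.cell ⊆ cellB b := by
  cases b
  · exact kS_cell hk
  · exact kT_cell hk

/-- the cells of `k`, `k'` meet only in common endpoints -/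
def Node.relC (k k' : Node) : Prop := k.cell ∩ k'.cell ⊆ k.ends ∩ k'.ends

private theorem kid_relC_of {k k' : Node} (h : k.rel k') : k.relC k' :=
  fun _ hp => h ⟨k.cell_sub hp.1, k'.cell_sub hp.2⟩

theorem kid_rel (b : Bool) : (kids b).Pairwise Node.relC := by
  cases b
  · exact kS_rel.imp (fun h => kid_relC_of h)
  · exact kT_rel.imp (fun h => kid_relC_of h)

theorem kid_ends {b : Bool} {k : Node} (hk : k ∈ kids b) :
    {edgeB b 0, edgeB b 1} ∩ k.cell ⊆ k.ends := by
  cases b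
  · exact kS_ends hk
  · exact kT_ends hk

theorem kid_times {b : Bool} {k : Node} (hk : k ∈ kids b) :
    0 ≤ k.t0 ∧ k.t0 < k.t1 ∧ k.t1 ≤ 1 ∧ k.t1 - k.t0 ≤ 1 / 2 := by
  cases b
  · exact kS_times hk
  · exact kT_times hk

theorem kid_cov (b : Bool) {t : ℝ} (ht : t ∈ Icc (0 : ℝ) 1) : ∃ k ∈ kids b, t ∈ Icc k.t0 k.t1 := by
  cases b
  · exact kS_cov ht
  · exact kT_cov ht

theorem kid_first (b : Bool) : ∃ k ∈ kids b, k.t0 = 0 ∧ k.edge 0 = edgeB b 0 := by
  cases b
  · obtain ⟨k, hk, h⟩ := kS_first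
    exact ⟨k, hk, h, kS_edge hk 0⟩
  · obtain ⟨k, hk, h⟩ := kT_first
    refine ⟨k, hk, h, ?_⟩
    have ht := kT_times hk
    rw [kT_edge hk (t := 0) ⟨h.le, by rw [h] at ht; exact ht.2.1.le⟩, PT_zero]

theorem kid_size {b : Bool} {k : Node} (hk : k ∈ kids b) : k.size ≤ 4 / 5 * sz b 1 := by
  cases b
  · have h := kS_size hk
    simpa [sz] using h
  · have h := kT_size hk
    simp only [sz, if_true]
    linarith

theorem root_relC : rootL.Pairwise Node.relC :=
  root_rel.imp (fun h => kid_relC_of h)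

end BOR

end
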