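import Pool.Agent.BOR.TDef

/-!
# BOR / KSI (part of the old KSA): kids of an S cell: regions

PROOF. `FSA (x,y,z) = (x0 x, x0 y, x0 z)`, `FSB = (x0 + ls x, ls y, ls z)`,
`FSC = (1/2 + rho x, rho y, rho (z - ze))`, `FSD = (1/2 + rho de + ls x, ls y, ls z)`,
`FSE = (1 - x0 + x0 x, x0 y, x0 z)`; `x0 + ls = 1/2 - rho de` and `1/2 + rho de + ls = 1 - x0`.
Strings: `str_cell`. For SB, SD: `M = NT (ls/rho)`, `(ls/rho)/(M+1) < l0`, so
`ls · 6/5 (sg/2)/(M+1) ≤ rho · 2/5 · l0 = rho g/1280`. For SA, SE (`M = 0`): the double cone scaled by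
`x0`. T kid: `|y|, |z - ze| ≤ 6/5 min (sg (de - |x|)) w` gives the body part (`6/5 w ≤ g/50`), the box
`|x| ≤ al² + g/16`, `|y| ≤ al + g/16`, `ze + w/4 ≤ z ≤ 1 + g/16` gives the box part
(`w/4 = g/256`, `1 + g/16 - ze = 2 + g/8 + g/16 ≤ 2 + g`).

Crossings: SA/SB: `p 0 ≤ x0` and `p 0 ≥ x0`, width zero there, so `p = (x0,0,0)`. SA/SC: SA has
`p 0 ≤ x0 = 1/2 - rho (al² + g/8)`, SC has `p 0 ≥ 1/2 - rho (al² + g/16)` (the body is in
`|p 0 - 1/2| ≤ rho de`). SB/SC: body: `p 0 ≤ 1/2 - rho de ≤ p 0`, width zero, so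
`p = (1/2 - rho de, 0, 0)`; box: `p 2 ≥ rho g/256 > rho g/1280`. SC/SD, SC/SE, SD/SE mirror.
SA, SB / SD, SE: `p 0 ≤ 1/2 - rho de < 1/2 + rho de ≤ p 0`.

Inclusions in `cellB false`: `rgSA 1`: `sg min (p 0) (x0 - p 0) ≤ sg min (p 0) (1 - p 0)`.
`rgSB`: `p 0 ∈ [x0, 1/2]`, widths `≤ rho g/1280`. `rgSC`: `|p 0 - 1/2| ≤ rho (al² + g/16) ≤ 0.1`,
`|p 1| ≤ 0.09`, `|p 2| ≤ rho (2 + g) ≤ 0.13`, and `sg min (p 0) (1 - p 0) ≥ 2/3 · 0.4 > 0.26`.
-/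

noncomputable section

namespace BOR

open Set

theorem ks_mid {p : E3} (h0 : 2 / 5 ≤ p 0) (h0' : p 0 ≤ 3 / 5) (h1 : |p 1| ≤ 1 / 5)
    (h2 : |p 2| ≤ 1 / 5) : p ∈ cellB false := by
  have h3 : (2 / 5 : ℝ) ≤ min (p 0) (1 - p 0) := le_min h0 (by linarith)
  have h4 : (1 / 5 : ℝ) ≤ 1 * dS (p 0) := by
    unfold dS
    rw [sg_def]
    linarith
  exact ⟨h1.trans h4, h2.trans h4⟩

theorem ks_x0 : 2 / 5 ≤ x0 ∧ x0 ≤ 1 / 2 := by
  have h1 := al_sq_lt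
  have h2 := al_sq_pos
  have h3 := g_le
  have h4 := g_pos
  rw [x0_def, rho_def]
  constructor
  · norm_num at h3 ⊢
    linarith
  · norm_num at h3 ⊢
    linarith

theorem ks_small : rho * (g / 1280) ≤ 1 / 10 ∧ rho * (g / 50) ≤ 1 / 10 ∧ rho * de ≤ 1 / 10 := by
  have h3 := g_le
  have h4 := g_pos
  have h5 := de_lt
  rw [rho_def]
  norm_num at h3 ⊢
  refine ⟨?_, ?_, ?_⟩ <;> linarith

theorem inSA : rgSA 1 ⊆ cellB false := by
  rintro p ⟨h1, h2⟩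
  have hx := ks_x0.2
  have h3 : min (p 0) (x0 - p 0) ≤ min (p 0) (1 - p 0) := min_le_min le_rfl (by linarith)
  have h4 : 1 * sg * min (p 0) (x0 - p 0) ≤ 1 * dS (p 0) := by
    unfold dS
    rw [sg_def]
    linarith
  exact ⟨h1.trans h4, h2.trans h4⟩

theorem inSB : rgSB ⊆ cellB false := by
  rintro p ⟨h1, _, h3, h4⟩
  have hx := ks_x0.1
  obtain ⟨e1, e2, e3⟩ := ks_small
  have h5 := abs_nonneg (p 1)
  have h6 : min (p 0 - x0) (1 / 2 - rho * de - p 0) ≤ p 0 - x0 := min_le_left _ _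
  have h7 : min (p 0 - x0) (1 / 2 - rho * de - p 0) ≤ 1 / 2 - rho * de - p 0 := min_le_right _ _
  have h8 : 0 < rho * de := mul_pos (by rw [rho_def]; norm_num) de_pos
  refine ks_mid ?_ ?_ ?_ ?_
  · linarith
  · linarith
  · linarith
  · linarith

theorem inSC : rgSC ⊆ cellB false := by
  rintro p (⟨h1, _, h3, h4⟩ | ⟨h1, h2, h3, h4⟩)
  · obtain ⟨e1, e2, e3⟩ := ks_small
    have h5 := abs_nonneg (p 1)
    have h6 : |p 0 - 1 / 2| ≤ 1 / 10 := by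
      linarith
    obtain ⟨h7, h8⟩ := abs_le.1 h6
    refine ks_mid ?_ ?_ ?_ ?_
    · linarith
    · linarith
    · linarith
    · linarith
  · have g1 := al_sq_lt
    have g2 := al_lt
    have g3 := g_le
    have g4 := g_pos
    rw [rho_def] at h1 h2 h3 h4
    have h6 : |p 0 - 1 / 2| ≤ 1 / 10 := by
      linarith
    obtain ⟨h7, h8⟩ := abs_le.1 h6
    have h9 : |p 2| ≤ 1 / 5 := by
      rw [abs_le]
      constructor
      · linarith
      · linarith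
    refine ks_mid ?_ ?_ ?_ h9
    · linarith
    · linarith
    · linarith

theorem inSD : rgSD ⊆ cellB false := by
  rintro p ⟨h1, _, h3, h4⟩
  have hx := ks_x0.1
  obtain ⟨e1, e2, e3⟩ := ks_small
  have h5 := abs_nonneg (p 1)
  have h6 : min (p 0 - (1 / 2 + rho * de)) (1 - x0 - p 0) ≤ p 0 - (1 / 2 + rho * de) :=
    min_le_left _ _
  have h7 : min (p 0 - (1 / 2 + rho * de)) (1 - x0 - p 0) ≤ 1 - x0 - p 0 := min_le_right _ _
  have h8 : 0 < rho * de := mul_pos (by rw [rho_def]; norm_num) de_pos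
  refine ks_mid ?_ ?_ ?_ ?_
  · linarith
  · linarith
  · linarith
  · linarith

theorem inSE : rgSE 1 ⊆ cellB false := by
  rintro p ⟨h1, h2⟩
  have hx := ks_x0.2
  have h3 : min (p 0 - (1 - x0)) (1 - p 0) ≤ min (p 0) (1 - p 0) :=
    min_le_min (by linarith) le_rfl
  have h4 : 1 * sg * min (p 0 - (1 - x0)) (1 - p 0) ≤ 1 * dS (p 0) := by
    unfold dS
    rw [sg_def]
    linarith
  exact ⟨h1.trans h4, h2.trans h4⟩

end BOR

end
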