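import Pool.Agent.BOR.TDef

/-!
# BOR / KSX (part of the old KSA): kids of an S cell: regions

PROOF. `FSA (x,y,z) = (x0 x, x0 y, x0 z)`, `FSB = (x0 + ls x, ls y, ls z)`,
`FSC = (1/2 + rho x, rho y, rho (z - ze))`, `FSD = (1/2 + rho de + ls x, ls y, ls z)`,
`FSE = (1 - x0 + x0 x, x0 y, x0 z)`; `x0 + ls = 1/2 - rho de` and `1/2 + rho de + ls = 1 - x0`.
Strings: `str_cell`. For SB, SD: `M = NT (ls/rho)`, `(ls/rho)/(M+1) < l0`, so
`ls · 6/5 (sg/2)/(M+1) ≤ rho · 2/5 · l0 = rho g/1280`. For SA, SE (`M = 0`): the double cone scaled by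
`x0`. T kid: `|y|, |z - ze| ≤ 6/5 min (sg (de - |x|)) w` gives the body part (`6/5 w ≤ g/50`), the box
`|x| ≤ al² + g/16`, `|y| ≤ al + g/16`, `ze + w/4 ≤ z ≤ 1 + g/16` gives the box part
(`w/4 = g/256`, `1 + g/16 - ze = 2 + g/8 + g/16 ≤ 2 + g`).

Crossings: SA/SB: `p 0 ≤ x0` and `p 0 ≥ x0`, width zero there, so `p = (x0,0,0)`. SA/SC: SA has
`p 0 ≤ x0 = 1/2 - rho (al² + g/8)`, SC has `p 0 ≥ 1/2 - rho (al² + g/16)` (the body is in
`|p 0 - 1/2| ≤ rho de`). SB/SC: body: `p 0 ≤ 1/2 - rho de ≤ p 0`, width zero, so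
`p = (1/2 - rho de, 0, 0)`; box: `p 2 ≥ rho g/256 > rho g/1280`. SC/SD, SC/SE, SD/SE mirror.
SA, SB / SD, SE: `p 0 ≤ 1/2 - rho de < 1/2 + rho de ≤ p 0`.

Inclusions in `cellB false`: `rgSA 1`: `sg min (p 0) (x0 - p 0) ≤ sg min (p 0) (1 - p 0)`.
`rgSB`: `p 0 ∈ [x0, 1/2]`, widths `≤ rho g/1280`. `rgSC`: `|p 0 - 1/2| ≤ rho (al² + g/16) ≤ 0.1`,
`|p 1| ≤ 0.09`, `|p 2| ≤ rho (2 + g) ≤ 0.13`, and `sg min (p 0) (1 - p 0) ≥ 2/3 · 0.4 > 0.26`.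
-/

noncomputable section

namespace BOR

open Set

private theorem KSX_min {a c u v : ℝ} (hc : 0 < c) (h : |a| ≤ c * min u v) :
    0 ≤ u ∧ 0 ≤ v ∧ |a| ≤ c * u ∧ |a| ≤ c * v := by
  have h0 : 0 ≤ c * min u v := (abs_nonneg a).trans h
  have h1 : 0 ≤ min u v := by
    by_contra h2
    push Not at h2
    have := mul_neg_of_pos_of_neg hc h2
    linarith
  refine ⟨h1.trans (min_le_left _ _), h1.trans (min_le_right _ _), ?_, ?_⟩
  · exact h.trans (mul_le_mul_of_nonneg_left (min_le_left _ _) hc.le)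
  · exact h.trans (mul_le_mul_of_nonneg_left (min_le_right _ _) hc.le)

private theorem KSX_zero {a c v : ℝ} (h : |a| ≤ c * v) (hv : v = 0) : a = 0 := by
  rw [hv, mul_zero] at h
  exact abs_nonpos_iff.1 h

private theorem KSX_c : (0 : ℝ) < 6 / 5 * sg := by unfold sg; norm_num

private theorem KSX_gnum : 0 < g ∧ g ≤ 1 / 10 ^ 12 := ⟨g_pos, g_le⟩

private theorem KSX_SA {p : E3} (hp : p ∈ rgSA (6 / 5)) :
    0 ≤ p 0 ∧ p 0 ≤ x0 ∧ (p 0 = x0 → p 1 = 0 ∧ p 2 = 0) := by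
  obtain ⟨h1, h2⟩ := hp
  obtain ⟨a1, a2, a3, a4⟩ := KSX_min KSX_c h1
  obtain ⟨b1, b2, b3, b4⟩ := KSX_min KSX_c h2
  exact ⟨a1, by linarith, fun h => ⟨KSX_zero a4 (by linarith), KSX_zero b4 (by linarith)⟩⟩

private theorem KSX_SE {p : E3} (hp : p ∈ rgSE (6 / 5)) :
    1 - x0 ≤ p 0 ∧ p 0 ≤ 1 ∧ (p 0 = 1 - x0 → p 1 = 0 ∧ p 2 = 0) := by
  obtain ⟨h1, h2⟩ := hp
  obtain ⟨a1, a2, a3, a4⟩ := KSX_min KSX_c h1
  obtain ⟨b1, b2, b3, b4⟩ := KSX_min KSX_c h2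
  exact ⟨by linarith, by linarith,
    fun h => ⟨KSX_zero a3 (by linarith), KSX_zero b3 (by linarith)⟩⟩

private theorem KSX_SB {p : E3} (hp : p ∈ rgSB) :
    x0 ≤ p 0 ∧ p 0 ≤ 1 / 2 - rho * de ∧ (p 0 = 1 / 2 - rho * de → p 1 = 0 ∧ p 2 = 0) ∧
      |p 2| ≤ rho * (g / 1280) := by
  obtain ⟨h1, h2, h3, h4⟩ := hp
  obtain ⟨a1, a2, a3, a4⟩ := KSX_min (by norm_num) h1
  obtain ⟨b1, b2, b3, b4⟩ := KSX_min (by norm_num) h2
  exact ⟨by linarith, by linarith,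
    fun h => ⟨KSX_zero a4 (by linarith), KSX_zero b4 (by linarith)⟩, h4⟩

private theorem KSX_SD {p : E3} (hp : p ∈ rgSD) :
    1 / 2 + rho * de ≤ p 0 ∧ p 0 ≤ 1 - x0 ∧ (p 0 = 1 / 2 + rho * de → p 1 = 0 ∧ p 2 = 0) ∧
      |p 2| ≤ rho * (g / 1280) := by
  obtain ⟨h1, h2, h3, h4⟩ := hp
  obtain ⟨a1, a2, a3, a4⟩ := KSX_min (by norm_num) h1
  obtain ⟨b1, b2, b3, b4⟩ := KSX_min (by norm_num) h2
  exact ⟨by linarith, by linarith,
    fun h => ⟨KSX_zero a3 (by linarith), KSX_zero b3 (by linarith)⟩, h4⟩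

/-- first coordinate on the region `SC`: in the body part it is within `rho de` of the middle;
in the box part the height is bigger than the strings -/
private theorem KSX_SC {p : E3} (hp : p ∈ rgSC) :
    (|p 0 - 1 / 2| ≤ rho * de) ∨
      (|p 0 - 1 / 2| ≤ rho * (al ^ 2 + g / 16) ∧ rho * (g / 256) ≤ p 2) := by
  rcases hp with ⟨h1, h2, h3, h4⟩ | ⟨h1, h2, h3, h4⟩
  · left
    have := (abs_nonneg (p 1)).trans h1
    linarith
  · right; exact ⟨h1, h3⟩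

private theorem KSX_al : rho * de ≤ rho * (al ^ 2 + g / 16) := by
  have h1 := de_lt
  have h2 := al_sq_gt
  have h3 := g_pos
  have h4 := g_le
  have h5 : (0 : ℝ) ≤ rho := by rw [rho_def]; norm_num
  refine mul_le_mul_of_nonneg_left ?_ h5
  norm_num at h4
  linarith

private theorem KSX_x0 : x0 < 1 / 2 - rho * (al ^ 2 + g / 16) := by
  have h3 := g_pos
  rw [x0_def, rho_def]
  linarith

private theorem KSX_rde : 0 < rho * de := by
  have := de_pos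
  rw [rho_def]; positivity

theorem csAB : rgSA (6 / 5) ∩ rgSB ⊆ {pt x0 0 0} := by
  rintro p ⟨hA, hB⟩
  obtain ⟨_, a2, a3⟩ := KSX_SA hA
  obtain ⟨b1, _, _, _⟩ := KSX_SB hB
  have e : p 0 = x0 := le_antisymm a2 b1
  obtain ⟨e1, e2⟩ := a3 e
  exact ext3 (by simp [e]) (by simp [e1]) (by simp [e2])

theorem csAC : rgSA (6 / 5) ∩ rgSC = ∅ := by
  refine Set.eq_empty_iff_forall_notMem.2 ?_
  rintro p ⟨hA, hC⟩
  obtain ⟨_, a2, _⟩ := KSX_SA hA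
  have h1 := KSX_x0
  have h2 := KSX_al
  have h3 : |p 0 - 1 / 2| ≤ rho * (al ^ 2 + g / 16) := by
    rcases KSX_SC hC with h | ⟨h, _⟩
    · exact h.trans h2
    · exact h
  have := neg_le_of_abs_le h3
  linarith

theorem csBC : rgSB ∩ rgSC ⊆ {pt (1 / 2 - rho * de) 0 0} := by
  rintro p ⟨hB, hC⟩
  obtain ⟨b1, b2, b3, b4⟩ := KSX_SB hB
  have hg := g_pos
  rcases KSX_SC hC with h | ⟨_, h⟩
  · have h5 := neg_le_of_abs_le h
    have e : p 0 = 1 / 2 - rho * de := by linarith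
    obtain ⟨e1, e2⟩ := b3 e
    exact ext3 (by rw [pt_0]; exact e) (by simp [e1]) (by simp [e2])
  · exfalso
    have h6 := (le_abs_self (p 2)).trans b4
    rw [rho_def] at h h6
    linarith

theorem csCD : rgSC ∩ rgSD ⊆ {pt (1 / 2 + rho * de) 0 0} := by
  rintro p ⟨hC, hD⟩
  obtain ⟨b1, b2, b3, b4⟩ := KSX_SD hD
  have hg := g_pos
  rcases KSX_SC hC with h | ⟨_, h⟩
  · have h5 := le_of_abs_le h
    have e : p 0 = 1 / 2 + rho * de := by linarith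
    obtain ⟨e1, e2⟩ := b3 e
    exact ext3 (by rw [pt_0]; exact e) (by simp [e1]) (by simp [e2])
  · exfalso
    have h6 := (le_abs_self (p 2)).trans b4
    rw [rho_def] at h h6
    linarith

theorem csCE : rgSC ∩ rgSE (6 / 5) = ∅ := by
  refine Set.eq_empty_iff_forall_notMem.2 ?_
  rintro p ⟨hC, hE⟩
  obtain ⟨a1, _, _⟩ := KSX_SE hE
  have h1 := KSX_x0
  have h2 := KSX_al
  have h3 : |p 0 - 1 / 2| ≤ rho * (al ^ 2 + g / 16) := by
    rcases KSX_SC hC with h | ⟨h, _⟩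
    · exact h.trans h2
    · exact h
  have := le_of_abs_le h3
  linarith

theorem csDE : rgSD ∩ rgSE (6 / 5) ⊆ {pt (1 - x0) 0 0} := by
  rintro p ⟨hD, hE⟩
  obtain ⟨a1, _, a3⟩ := KSX_SE hE
  obtain ⟨_, b2, _, _⟩ := KSX_SD hD
  have e : p 0 = 1 - x0 := le_antisymm b2 a1
  obtain ⟨e1, e2⟩ := a3 e
  exact ext3 (by simp [e]) (by simp [e1]) (by simp [e2])

theorem csLR : (rgSA (6 / 5) ∪ rgSB) ∩ (rgSD ∪ rgSE (6 / 5)) = ∅ := by
  refine Set.eq_empty_iff_forall_notMem.2 ?_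
  rintro p ⟨hL, hR⟩
  have h0 := KSX_rde
  have h1 := KSX_x0
  have h2 := KSX_al
  have hl : p 0 ≤ 1 / 2 - rho * de := by
    rcases hL with h | h
    · have := (KSX_SA h).2.1; linarith
    · exact (KSX_SB h).2.1
  have hr : 1 / 2 + rho * de ≤ p 0 := by
    rcases hR with h | h
    · exact (KSX_SD h).1
    · have := (KSX_SE h).1; linarith
  linarith

end BOR

end
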