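import Pool.Agent.BOR.STR

/-!
# BOR / KSR (part of the old KSA): kids of an S cell: regions

PROOF. `FSA (x,y,z) = (x0 x, x0 y, x0 z)`, `FSB = (x0 + ls x, ls y, ls z)`,
`FSC = (1/2 + rho x, rho y, rho (z - ze))`, `FSD = (1/2 + rho de + ls x, ls y, ls z)`,
`FSE = (1 - x0 + x0 x, x0 y, x0 z)`; `x0 + ls = 1/2 - rho de` and `1/2 + rho de + ls = 1 - x0`.
Strings: `str_cell`. For SB, SD: `M = NT (ls/rho)`, `(ls/rho)/(M+1) < l0`, so
`ls · 6/5 (sg/2)/(M+1) ≤ rho · 2/5 · l0 = rho g/1280`. For SA, SE (`M = 0`): the double cone scaled by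
`x0`. T kid: `|y|, |z - ze| ≤ 6/5 min (sg (de - |x|)) w` gives the body part (`6/5 w ≤ g/50`), the box
`|x| ≤ al² + g/16`, `|y| ≤ al + g/16`, `ze + w/4 ≤ z ≤ 1 + g/16` gives the box part
(`w/4 = g/256`, `1 + g/16 - ze = 2 + g/8 + g/16 ≤ 2 + g`).

Crossings: SA/SB: `p 0 ≤ x0` and `p 0 ≥ x0`, width zero there, so `p = (x0,0,0)`. SA/SC: SA has
`p 0 ≤ x0 = 1/2 - rho (al² + g/8)`, SC has `p 0 ≥ 1/2 - rho (al² + g/16)` (the body is in
`|p 0 - 1/2| ≤ rho de`). SB/SC: body: `p 0 ≤ 1/2 - rho de ≤ p 0`, width zero, so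
`p = (1/2 - rho de, 0, 0)`; box: `p 2 ≥ rho g/256 > rho g/1280`. SC/SD, SC/SE, SD/SE mirror.
SA, SB / SD, SE: `p 0 ≤ 1/2 - rho de < 1/2 + rho de ≤ p 0`.

Inclusions in `cellB false`: `rgSA 1`: `sg min (p 0) (x0 - p 0) ≤ sg min (p 0) (1 - p 0)`.
`rgSB`: `p 0 ∈ [x0, 1/2]`, widths `≤ rho g/1280`. `rgSC`: `|p 0 - 1/2| ≤ rho (al² + g/16) ≤ 0.1`,
`|p 1| ≤ 0.09`, `|p 2| ≤ rho (2 + g) ≤ 0.13`, and `sg min (p 0) (1 - p 0) ≥ 2/3 · 0.4 > 0.26`.
-/

noncomputable section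

namespace BOR

open Set

private theorem app0 {s : ℝ} (hs : 0 < s) (o : E3) (p : E3) (i : Fin 3) :
    (Sim.mk s hs (LinearIsometryEquiv.refl ℝ E3) o) p i = s * p i + o i := by
  simp [Sim.app_def]

private theorem mul_min_aux {s a b : ℝ} (hs : 0 ≤ s) : s * min a b = min (s * a) (s * b) :=
  mul_min_of_nonneg a b hs

private theorem tube_aux {s c x y : ℝ} (hs : 0 < s) (h : |y| ≤ c * dS x) :
    |s * y| ≤ c * sg * min (s * x) (s - s * x) := by
  rw [abs_mul, abs_of_pos hs]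
  have h1 : s * |y| ≤ s * (c * dS x) := mul_le_mul_of_nonneg_left h hs.le
  have h2 : s * (c * dS x) = c * sg * min (s * x) (s - s * x) := by
    have : s - s * x = s * (1 - x) := by ring
    rw [this, ← mul_min_aux hs.le]
    unfold dS
    ring
  linarith

private theorem thin_aux {y : ℝ} (h : |y| ≤ 6 / 5 * (sg / 2) / ((NT (ls / rho) : ℝ) + 1)) :
    |ls * y| ≤ rho * (g / 1280) := by
  have hls := ls_pos
  rw [abs_mul, abs_of_pos hls]
  have h1 := NT_lt (ls / rho)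
  have hN := NT_pos (ls / rho)
  have h2 : ls * |y| ≤ ls * (6 / 5 * (sg / 2) / ((NT (ls / rho) : ℝ) + 1)) :=
    mul_le_mul_of_nonneg_left h hls.le
  have h3 : ls * (6 / 5 * (sg / 2) / ((NT (ls / rho) : ℝ) + 1)) =
      2 / 5 * rho * (ls / rho / ((NT (ls / rho) : ℝ) + 1)) := by
    have hr : rho ≠ 0 := by rw [rho_def]; norm_num
    rw [sg_def]
    field_simp
    norm_num
  have h4 : 2 / 5 * rho * (ls / rho / ((NT (ls / rho) : ℝ) + 1)) ≤ 2 / 5 * rho * l0 := by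
    apply mul_le_mul_of_nonneg_left h1.le
    rw [rho_def]; norm_num
  have h5 : 2 / 5 * rho * l0 = rho * (g / 1280) := by rw [l0_def]; ring
  linarith

theorem gsA {ta tb : ℝ} {q : Bool} {k : Node} (hk : k ∈ str FSA 0 ta tb q) :
    k.cell ⊆ rgSA 1 ∧ k.cellp ⊆ rgSA (6 / 5) := by
  have key : ∀ c : ℝ, FSA '' tubeS c 0 ⊆ rgSA c := by
    rintro c _ ⟨p, ⟨⟨h1, h2⟩, -, -⟩, rfl⟩
    have e0 : FSA p 0 = x0 * p 0 := by unfold FSA; rw [app0]; simp
    have e1 : FSA p 1 = x0 * p 1 := by unfold FSA; rw [app0]; simp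
    have e2 : FSA p 2 = x0 * p 2 := by unfold FSA; rw [app0]; simp
    have a1 := tube_aux x0_pos h1
    have a2 := tube_aux x0_pos h2
    simp only [rgSA, Set.mem_setOf_eq, e0, e1, e2]
    exact ⟨a1, a2⟩
  exact ⟨(str_cell hk).1.trans (key 1), (str_cell hk).2.trans (key (6 / 5))⟩

theorem gsB {ta tb : ℝ} {q : Bool} {k : Node} (hk : k ∈ str FSB (NT (ls / rho)) ta tb q) :
    k.cellp ⊆ rgSB := by
  refine (str_cell hk).2.trans ?_
  rintro _ ⟨p, ⟨⟨h1, h2⟩, h3, h4⟩, rfl⟩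
  have e0 : FSB p 0 = ls * p 0 + x0 := by unfold FSB; rw [app0]; simp
  have e1 : FSB p 1 = ls * p 1 := by unfold FSB; rw [app0]; simp
  have e2 : FSB p 2 = ls * p 2 := by unfold FSB; rw [app0]; simp
  have a1 := tube_aux ls_pos h1
  have a2 := tube_aux ls_pos h2
  have a3 := thin_aux h3
  have a4 := thin_aux h4
  have f1 : ls * p 0 + x0 - x0 = ls * p 0 := by ring
  have f2 : 1 / 2 - rho * de - (ls * p 0 + x0) = ls - ls * p 0 := by
    have : x0 + ls = 1 / 2 - rho * de := by unfold x0 ls; ring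
    linarith
  have f3 : (6 / 5 : ℝ) * sg = 4 / 5 := by rw [sg_def]; norm_num
  rw [f3] at a1 a2
  simp only [rgSB, Set.mem_setOf_eq, e0, e1, e2, f1, f2]
  exact ⟨a1, a2, a3, a4⟩

theorem gsC : FSC '' cellP true ⊆ rgSC := by
  rintro _ ⟨p, hp, rfl⟩
  have hr : (0 : ℝ) < rho := by rw [rho_def]; norm_num
  have hg := g_pos
  have e0 : FSC p 0 = rho * p 0 + 1 / 2 := by unfold FSC; rw [app0]; simp
  have e1 : FSC p 1 = rho * p 1 := by unfold FSC; rw [app0]; simp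
  have e2 : FSC p 2 = rho * (p 2 - ze) := by unfold FSC; rw [app0]; simp; ring
  have f0 : |rho * p 0 + 1 / 2 - 1 / 2| = rho * |p 0| := by
    rw [add_sub_cancel_right, abs_mul, abs_of_pos hr]
  simp only [rgSC, Set.mem_setOf_eq, e0, e1, e2, f0]
  rcases hp with hp | hp
  · left
    obtain ⟨h1, h2⟩ := hp
    have aux : ∀ y : ℝ, |y| ≤ 6 / 5 * dT (p 0) →
        |rho * y| ≤ 4 / 5 * (rho * de - rho * |p 0|) ∧ |rho * y| ≤ rho * (g / 50) := by
      intro y hy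
      rw [abs_mul, abs_of_pos hr]
      have m1 : dT (p 0) ≤ sg * (de - |p 0|) := min_le_left _ _
      have m2 : dT (p 0) ≤ w := min_le_right _ _
      constructor
      · have : rho * |y| ≤ rho * (6 / 5 * (sg * (de - |p 0|))) :=
          mul_le_mul_of_nonneg_left (by linarith) hr.le
        have e : rho * (6 / 5 * (sg * (de - |p 0|))) = 4 / 5 * (rho * de - rho * |p 0|) := by
          rw [sg_def]; ring
        linarith
      · have : rho * |y| ≤ rho * (6 / 5 * w) := mul_le_mul_of_nonneg_left (by linarith) hr.le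
        have e : rho * (6 / 5 * w) ≤ rho * (g / 50) := by
          apply mul_le_mul_of_nonneg_left _ hr.le
          rw [w_def]; linarith
        linarith
    obtain ⟨b1, b2⟩ := aux _ h1
    obtain ⟨b3, b4⟩ := aux _ h2
    exact ⟨b1, b3, b2, b4⟩
  · right
    obtain ⟨h1, h2, h3, h4⟩ := hp
    refine ⟨mul_le_mul_of_nonneg_left h1 hr.le, ?_, ?_, ?_⟩
    · rw [abs_mul, abs_of_pos hr]
      exact mul_le_mul_of_nonneg_left h2 hr.le
    · apply mul_le_mul_of_nonneg_left _ hr.le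
      rw [w_def] at h3
      linarith
    · apply mul_le_mul_of_nonneg_left _ hr.le
      have : ze = -1 - g / 8 := by rw [ze_def, eta_def]
      rw [this]
      linarith

theorem gsD {ta tb : ℝ} {q : Bool} {k : Node} (hk : k ∈ str FSD (NT (ls / rho)) ta tb q) :
    k.cellp ⊆ rgSD := by
  refine (str_cell hk).2.trans ?_
  rintro _ ⟨p, ⟨⟨h1, h2⟩, h3, h4⟩, rfl⟩
  have e0 : FSD p 0 = ls * p 0 + (1 / 2 + rho * de) := by unfold FSD; rw [app0]; simp
  have e1 : FSD p 1 = ls * p 1 := by unfold FSD; rw [app0]; simp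
  have e2 : FSD p 2 = ls * p 2 := by unfold FSD; rw [app0]; simp
  have a1 := tube_aux ls_pos h1
  have a2 := tube_aux ls_pos h2
  have a3 := thin_aux h3
  have a4 := thin_aux h4
  have f1 : ls * p 0 + (1 / 2 + rho * de) - (1 / 2 + rho * de) = ls * p 0 := by ring
  have f2 : 1 - x0 - (ls * p 0 + (1 / 2 + rho * de)) = ls - ls * p 0 := by
    have : 1 / 2 + rho * de + ls = 1 - x0 := by unfold x0 ls; ring
    linarith
  have f3 : (6 / 5 : ℝ) * sg = 4 / 5 := by rw [sg_def]; norm_num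
  rw [f3] at a1 a2
  simp only [rgSD, Set.mem_setOf_eq, e0, e1, e2, f1, f2]
  exact ⟨a1, a2, a3, a4⟩

theorem gsE {ta tb : ℝ} {q : Bool} {k : Node} (hk : k ∈ str FSE 0 ta tb q) :
    k.cell ⊆ rgSE 1 ∧ k.cellp ⊆ rgSE (6 / 5) := by
  have key : ∀ c : ℝ, FSE '' tubeS c 0 ⊆ rgSE c := by
    rintro c _ ⟨p, ⟨⟨h1, h2⟩, -, -⟩, rfl⟩
    have e0 : FSE p 0 = x0 * p 0 + (1 - x0) := by unfold FSE; rw [app0]; simp
    have e1 : FSE p 1 = x0 * p 1 := by unfold FSE; rw [app0]; simp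
    have e2 : FSE p 2 = x0 * p 2 := by unfold FSE; rw [app0]; simp
    have a1 := tube_aux x0_pos h1
    have a2 := tube_aux x0_pos h2
    have f1 : x0 * p 0 + (1 - x0) - (1 - x0) = x0 * p 0 := by ring
    have f2 : 1 - (x0 * p 0 + (1 - x0)) = x0 - x0 * p 0 := by ring
    simp only [rgSE, Set.mem_setOf_eq, e0, e1, e2, f1, f2]
    exact ⟨a1, a2⟩
  exact ⟨(str_cell hk).1.trans (key 1), (str_cell hk).2.trans (key (6 / 5))⟩

end BOR

end
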