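import Pool.Agent.BOR.KID
import Pool.Agent.BOR.NDC

/-!
# BOR / LEA (part of the old LEV): facts on the levels

PROOF. Everything by induction on `n`; a node of level `n+1` is `v.comp k`, `v ∈ lev n`,
`k ∈ kids v.typ` (`lev_succ`).
* `lev_times`: `(v.comp k).t1 - (v.comp k).t0 = (v.t1 - v.t0)(k.t1 - k.t0)`.
* `lev_cov_kid`: `kid_cov` at `(t - v.t0)/(v.t1 - v.t0)`, `comp_time`.
* `kid_sub`: `(v.comp k).cell = v.fr '' k.cell ⊆ v.fr '' cellB v.typ = v.cell`.
* `kid_ends_sub`: `v.ends ∩ (v.comp k).cell ⊆ (v.comp k).ends`: apply `v.fr` (injective) to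
  `kid_ends`.
* `lev_rel`: `List.pairwise_flatMap` and `List.pairwise_map`. Inside one parent: `kid_rel` and
  injectivity of `v.fr`. Different parents `v`, `v'` with kids `u`, `u'`: a point of
  `u.cell ∩ u'.cell` is in `v.cell ∩ v'.cell ⊆ v.ends ∩ v'.ends`, so by `kid_ends_sub` it is in `u.ends`
  and in `u'.ends`.
* `lev_size`: `(v.comp k).size = v.fr.s * k.size ≤ 4/5 v.size` (`sz b s = s * sz b 1`).
* `cell_diam`: `cellB true` is in `|x| ≤ al²`, `|y| ≤ al`, `ze - w ≤ z ≤ 1`, diameter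
  `≤ 2 sqrt (al⁴ + al² + 1.01) ≤ 5 ≤ 2 · 5`; `cellB false` is in `[0,1] × [-1/3,1/3]²`, diameter
  `≤ sqrt (1 + 4/9 + 4/9) ≤ 2`. Apply the similarity.
* `lev_HB`: `root_cell`, `kid_sub`.
* `lev_anc`: induction on `m` for `m ≥ n`. `m = n`: `w = v` or (by `lev_rel`, symmetric,
  `List.Pairwise.forall`) `w.cell ∩ v.cell ⊆ w.ends`. Step: `w' = w.comp k`: if `w.cell ⊆ v.cell`
  then `w'.cell ⊆ v.cell`; otherwise a point of `w'.cell ∩ v.cell` is in `w.cell ∩ v.cell`, so in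
  `w.ends`, so in `w'.ends` by `kid_ends_sub`.
* `lev_first`: `kid_first`: the kid with `k.t0 = 0` gives `(v.comp k).t0 = v.t0`.
-/

noncomputable section

namespace BOR

open Set

theorem lev_succ {n : ℕ} {u : Node} :
    u ∈ lev (n + 1) ↔ ∃ v ∈ lev n, ∃ k ∈ kids v.typ, u = v.comp k := by
  simp only [lev, List.mem_flatMap, Node.kids, List.mem_map]
  constructor
  · rintro ⟨v, hv, k, hk, rfl⟩
    exact ⟨v, hv, k, hk, rfl⟩
  · rintro ⟨v, hv, k, hk, rfl⟩
    exact ⟨v, hv, k, hk, rfl⟩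

private theorem mem_rootL {v : Node} (hv : v ∈ rootL) :
    v = ⟨true, FT1, 0, 1 / 4, true⟩ ∨ v ∈ str FHB (NT (2 * xi)) (1 / 4) (1 / 2) true ∨
      v = ⟨true, FT2, 1 / 2, 3 / 4, true⟩ ∨ v ∈ str FCL (NT (2 * xi)) (3 / 4) 1 true := by
  simp only [rootL, List.mem_append, List.mem_singleton] at hv
  tauto

private theorem str_t {F : Sim} {M : ℕ} {ta tb : ℝ} {q : Bool} {k : Node} (hab : ta < tb)
    (hk : k ∈ str F M ta tb q) : ta ≤ k.t0 ∧ k.t0 < k.t1 ∧ k.t1 ≤ tb := by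
  simp only [str, List.mem_map, List.mem_range] at hk
  obtain ⟨j, hj, rfl⟩ := hk
  have hN : (0 : ℝ) < (M : ℝ) + 1 := by positivity
  have hj' : ((j : ℝ) + 1) ≤ (M : ℝ) + 1 := by exact_mod_cast hj
  have hd : 0 < tb - ta := sub_pos.2 hab
  have h1 : (0 : ℝ) ≤ (j : ℝ) / ((M : ℝ) + 1) := by positivity
  have h2 : (j : ℝ) / ((M : ℝ) + 1) < ((j : ℝ) + 1) / ((M : ℝ) + 1) :=
    div_lt_div_of_pos_right (by linarith) hN
  have h3 : ((j : ℝ) + 1) / ((M : ℝ) + 1) ≤ 1 := (div_le_one hN).2 hj'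
  simp only [strN]
  refine ⟨?_, ?_, ?_⟩ <;> nlinarith

private theorem str_c {F : Sim} {M : ℕ} {ta tb : ℝ} {q : Bool} (hab : ta < tb) {t : ℝ}
    (ht : t ∈ Icc ta tb) : ∃ k ∈ str F M ta tb q, t ∈ Icc k.t0 k.t1 := by
  have hN : (0 : ℝ) < (M : ℝ) + 1 := by positivity
  have hd : 0 < tb - ta := sub_pos.2 hab
  rcases eq_or_lt_of_le ht.2 with h | h
  · refine ⟨strN F M ta tb q M, ?_, ?_⟩
    · exact List.mem_map.2 ⟨M, List.mem_range.2 (Nat.lt_succ_self M), rfl⟩
    · simp only [strN, mem_Icc]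
      rw [div_self hN.ne']
      have : (M : ℝ) / ((M : ℝ) + 1) ≤ 1 := (div_le_one hN).2 (by linarith)
      constructor <;> nlinarith
  · set x : ℝ := ((M : ℝ) + 1) * (t - ta) / (tb - ta) with hx
    have hx0 : 0 ≤ x := by
      have := ht.1
      have h2 : 0 ≤ t - ta := by linarith
      positivity
    have hx1 : x < (M : ℝ) + 1 := by
      rw [hx, div_lt_iff₀ hd]
      exact mul_lt_mul_of_pos_left (by linarith) hN
    have hj : ⌊x⌋₊ < M + 1 := by
      rw [Nat.floor_lt hx0]; exact_mod_cast hx1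
    refine ⟨strN F M ta tb q ⌊x⌋₊, ?_, ?_⟩
    · exact List.mem_map.2 ⟨_, List.mem_range.2 hj, rfl⟩
    · have h1 := Nat.floor_le hx0
      have h2 := (Nat.lt_floor_add_one x).le
      have e : ta + (tb - ta) * (x / ((M : ℝ) + 1)) = t := by
        rw [hx]; field_simp; ring
      simp only [strN, mem_Icc]
      constructor
      · calc ta + (tb - ta) * (((⌊x⌋₊ : ℕ) : ℝ) / ((M : ℝ) + 1))
            ≤ ta + (tb - ta) * (x / ((M : ℝ) + 1)) := by gcongr
          _ = t := e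
      · calc t = ta + (tb - ta) * (x / ((M : ℝ) + 1)) := e.symm
          _ ≤ _ := by gcongr

theorem lev_times {n : ℕ} {v : Node} (hv : v ∈ lev n) :
    0 ≤ v.t0 ∧ v.t0 < v.t1 ∧ v.t1 ≤ 1 ∧ v.t1 - v.t0 ≤ (1 / 2) ^ n := by
  induction n generalizing v with
  | zero =>
    have hv' : v ∈ rootL := hv
    rcases mem_rootL hv' with rfl | h | rfl | h
    · norm_num
    · obtain ⟨h1, h2, h3⟩ := str_t (by norm_num) h
      refine ⟨by linarith, h2, by linarith, by norm_num; linarith⟩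
    · norm_num
    · obtain ⟨h1, h2, h3⟩ := str_t (by norm_num) h
      refine ⟨by linarith, h2, by linarith, by norm_num; linarith⟩
  | succ n ih =>
    obtain ⟨u, hu, k, hk, rfl⟩ := lev_succ.1 hv
    obtain ⟨a0, a1, a2, a3⟩ := ih hu
    obtain ⟨b0, b1, b2, b3⟩ := kid_times hk
    have hd : 0 < u.t1 - u.t0 := sub_pos.2 a1
    simp only [Node.comp]
    refine ⟨?_, ?_, ?_, ?_⟩
    · have := mul_nonneg hd.le b0
      linarith
    · have := mul_lt_mul_of_pos_left b1 hd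
      linarith
    · have := mul_le_mul_of_nonneg_left b2 hd.le
      linarith
    · have h1 : (u.t1 - u.t0) * (k.t1 - k.t0) ≤ (1 / 2) ^ n * (1 / 2) :=
        mul_le_mul a3 b3 (by linarith) (by positivity)
      rw [pow_succ]
      linarith

theorem lev_cov_kid {n : ℕ} {v : Node} (hv : v ∈ lev n) {t : ℝ} (ht : t ∈ Icc v.t0 v.t1) :
    ∃ k ∈ kids v.typ, t ∈ Icc (v.comp k).t0 (v.comp k).t1 := by
  have h := (lev_times hv).2.1
  have hd : 0 < v.t1 - v.t0 := sub_pos.2 h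
  obtain ⟨k, hk, hk2⟩ := kid_cov v.typ (t := (t - v.t0) / (v.t1 - v.t0))
    ⟨div_nonneg (by linarith [ht.1]) hd.le, (div_le_one hd).2 (by linarith [ht.2])⟩
  exact ⟨k, hk, (comp_time v k h t).2 hk2⟩

theorem lev_cov (n : ℕ) {t : ℝ} (ht : t ∈ Icc (0 : ℝ) 1) : ∃ v ∈ lev n, t ∈ Icc v.t0 v.t1 := by
  induction n with
  | zero =>
    have hr : ∀ v, v ∈ rootL → v ∈ lev 0 := fun v hv => hv
    obtain ⟨h0, h1⟩ := ht
    rcases le_total t (1 / 4) with h | h
    · exact ⟨⟨true, FT1, 0, 1 / 4, true⟩, hr _ (by simp [rootL]), ⟨h0, h⟩⟩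
    rcases le_total t (1 / 2) with h' | h'
    · obtain ⟨k, hk, hk2⟩ := str_c (F := FHB) (M := NT (2 * xi)) (ta := 1 / 4) (tb := 1 / 2)
        (q := true) (by norm_num) ⟨h, h'⟩
      refine ⟨k, hr _ ?_, hk2⟩
      simp only [rootL, List.mem_append]
      exact Or.inl (Or.inl (Or.inr hk))
    rcases le_total t (3 / 4) with h'' | h''
    · exact ⟨⟨true, FT2, 1 / 2, 3 / 4, true⟩, hr _ (by simp [rootL]), ⟨h', h''⟩⟩
    · obtain ⟨k, hk, hk2⟩ := str_c (F := FCL) (M := NT (2 * xi)) (ta := 3 / 4) (tb := 1)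
        (q := true) (by norm_num) ⟨h'', h1⟩
      refine ⟨k, hr _ ?_, hk2⟩
      simp only [rootL, List.mem_append]
      exact Or.inr hk
  | succ n ih =>
    obtain ⟨v, hv, hv2⟩ := ih
    obtain ⟨k, hk, hk2⟩ := lev_cov_kid hv hv2
    exact ⟨v.comp k, lev_succ.2 ⟨v, hv, k, hk, rfl⟩, hk2⟩

theorem kid_sub (v : Node) {k : Node} (hk : k ∈ kids v.typ) : (v.comp k).cell ⊆ v.cell := by
  rw [comp_cell]
  exact image_mono (kid_cell hk)

theorem kid_ends_sub (v : Node) {k : Node} (hk : k ∈ kids v.typ) :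
    v.ends ∩ (v.comp k).cell ⊆ (v.comp k).ends := by
  rw [comp_cell, comp_ends, ends_eq, ← image_inter v.fr.injective]
  exact image_mono (kid_ends hk)

theorem lev_rel (n : ℕ) : (lev n).Pairwise Node.relC := by
  induction n with
  | zero => exact root_relC
  | succ n ih =>
    show ((lev n).flatMap Node.kids).Pairwise Node.relC
    rw [List.pairwise_flatMap]
    refine ⟨?_, ?_⟩
    · intro v hv
      unfold Node.kids
      rw [List.pairwise_map]
      refine (kid_rel v.typ).imp ?_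
      intro a b hab
      unfold Node.relC at hab ⊢
      rw [comp_cell, comp_cell, comp_ends, comp_ends, ← image_inter v.fr.injective,
        ← image_inter v.fr.injective]
      exact image_mono hab
    · refine ih.imp ?_
      intro v v' hvv' u hu u' hu'
      obtain ⟨k, hk, rfl⟩ := List.mem_map.1 hu
      obtain ⟨k', hk', rfl⟩ := List.mem_map.1 hu'
      rintro p ⟨hp, hp'⟩
      have h1 : p ∈ v.cell ∩ v'.cell := ⟨kid_sub v hk hp, kid_sub v' hk' hp'⟩
      have h2 := hvv' h1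
      exact ⟨kid_ends_sub v hk ⟨h2.1, hp⟩, kid_ends_sub v' hk' ⟨h2.2, hp'⟩⟩

end BOR

end
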