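import Pool.Agent.BOR.NDC

/-!
# BOR / LEB (part of the old LEV): facts on the levels

PROOF. Everything by induction on `n`; a node of level `n+1` is `v.comp k`, `v ∈ lev n`,
`k ∈ kids v.typ` (`lev_succ`).
* `lev_times`: `(v.comp k).t1 - (v.comp k).t0 = (v.t1 - v.t0)(k.t1 - k.t0)`.
* `lev_cov_kid`: `kid_cov` at `(t - v.t0)/(v.t1 - v.t0)`, `comp_time`.
* `kid_sub`: `(v.comp k).cell = v.fr '' k.cell ⊆ v.fr '' cellB v.typ = v.cell`.
* `kid_ends_sub`: `v.ends ∩ (v.comp k).cell ⊆ (v.comp k).ends`: apply `v.fr` (injective) to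
  `kid_ends`.
* `lev_rel`: `List.pairwise_flatMap` and `List.pairwise_map`. Inside one parent: `kid_rel` and
  injectivity of `v.fr`. Different parents `v`, `v'` with kids `u`, `u'`: a point of
  `u.cell ∩ u'.cell` is in `v.cell ∩ v'.cell ⊆ v.ends ∩ v'.ends`, so by `kid_ends_sub` it is in `u.ends`
  and in `u'.ends`.
* `lev_size`: `(v.comp k).size = v.fr.s * k.size ≤ 4/5 v.size` (`sz b s = s * sz b 1`).
* `cell_diam`: `cellB true` is in `|x| ≤ al²`, `|y| ≤ al`, `ze - w ≤ z ≤ 1`, diameter
  `≤ 2 sqrt (al⁴ + al² + 1.01) ≤ 5 ≤ 2 · 5`; `cellB false` is in `[0,1] × [-1/3,1/3]²`, diameter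
  `≤ sqrt (1 + 4/9 + 4/9) ≤ 2`. Apply the similarity.
* `lev_HB`: `root_cell`, `kid_sub`.
* `lev_anc`: induction on `m` for `m ≥ n`. `m = n`: `w = v` or (by `lev_rel`, symmetric,
  `List.Pairwise.forall`) `w.cell ∩ v.cell ⊆ w.ends`. Step: `w' = w.comp k`: if `w.cell ⊆ v.cell`
  then `w'.cell ⊆ v.cell`; otherwise a point of `w'.cell ∩ v.cell` is in `w.cell ∩ v.cell`, so in
  `w.ends`, so in `w'.ends` by `kid_ends_sub`.
* `lev_first`: `kid_first`: the kid with `k.t0 = 0` gives `(v.comp k).t0 = v.t0`.
-/

noncomputable section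

namespace BOR

open Set

theorem size_pos (v : Node) : 0 < v.size := by
  unfold Node.size sz
  have := v.fr.s_pos
  split_ifs <;> positivity

theorem cell_diam (v : Node) {p q : E3} (hp : p ∈ v.cell) (hq : q ∈ v.cell) :
    dist p q ≤ 2 * v.size := by
  obtain ⟨a, ha, rfl⟩ := hp
  obtain ⟨b, hb, rfl⟩ := hq
  rw [Sim.dist_app]
  have hs := v.fr.s_pos
  have key : dist a b ≤ 2 * sz v.typ 1 := by
    cases ht : v.typ
    · rw [ht] at ha hb
      simp only [cellB, bodyS, mem_ofPred_eq, one_mul] at ha hb
      have bd : ∀ c : E3, |c 1| ≤ dS (c 0) ∧ |c 2| ≤ dS (c 0) →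
          0 ≤ c 0 ∧ c 0 ≤ 1 ∧ |c 1| ≤ 1 / 3 ∧ |c 2| ≤ 1 / 3 := by
        intro c hc
        unfold dS sg at hc
        have h1 : min (c 0) (1 - c 0) ≤ c 0 := min_le_left _ _
        have h2 : min (c 0) (1 - c 0) ≤ 1 - c 0 := min_le_right _ _
        have h3 := abs_nonneg (c 1)
        refine ⟨by linarith [hc.1], by linarith [hc.1], by linarith [hc.1, hc.2],
          by linarith [hc.1, hc.2]⟩
      obtain ⟨a0, a1, a2, a3⟩ := bd a ha
      obtain ⟨b0, b1, b2, b3⟩ := bd b hb
      rw [abs_le] at a2 a3 b2 b3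
      refine dist_le_of_coord (a := 1) (b := 2 / 3) (c := 2 / 3) ?_ ?_ ?_ (by unfold sz; norm_num)
        (by unfold sz; norm_num)
      · rw [abs_le]; constructor <;> linarith
      · rw [abs_le]; constructor <;> linarith
      · rw [abs_le]; constructor <;> linarith
    · rw [ht] at ha hb
      have hal := al_lt
      have hal2 := al_sq_lt
      have hal1 := al_gt
      have hw := w_def
      have hg := g_le
      have hg0 := g_pos
      have hde := de_lt
      have hde0 := de_pos
      have hze := ze_def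
      have het := eta_def
      have bd : ∀ c : E3, c ∈ cellB true → |c 0| ≤ 1.6 ∧ |c 1| ≤ 1.26 ∧ -1.01 ≤ c 2 ∧ c 2 ≤ 1 := by
        intro c hc
        rcases hc with hc | hc
        · simp only [bodyT, mem_ofPred_eq, one_mul] at hc
          unfold dT sg at hc
          have h1 : min (2 / 3 * (de - |c 0|)) w ≤ 2 / 3 * (de - |c 0|) := min_le_left _ _
          have h2 : min (2 / 3 * (de - |c 0|)) w ≤ w := min_le_right _ _
          have h3 := abs_nonneg (c 1)
          have h4 := hc.2
          rw [abs_le] at h4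
          refine ⟨by linarith [hc.1], by linarith [hc.1], by linarith [h4.1], by linarith [h4.2]⟩
        · simp only [boxT, mem_ofPred_eq] at hc
          refine ⟨by linarith [hc.1], by linarith [hc.2.1], by linarith [hc.2.2.1], by linarith [hc.2.2.2]⟩
      obtain ⟨a0, a1, a2, a3⟩ := bd a ha
      obtain ⟨b0, b1, b2, b3⟩ := bd b hb
      rw [abs_le] at a0 a1 b0 b1
      refine dist_le_of_coord (a := 3.2) (b := 2.52) (c := 2.01) ?_ ?_ ?_ (by unfold sz; norm_num)
        (by unfold sz; norm_num)
      · rw [abs_le]; constructor <;> linarith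
      · rw [abs_le]; constructor <;> linarith
      · rw [abs_le]; constructor <;> linarith
  have e : v.size = v.fr.s * sz v.typ 1 := by
    unfold Node.size sz
    split_ifs <;> ring
  rw [e]
  have := mul_le_mul_of_nonneg_left key hs.le
  linarith

theorem HB_ball : HB ⊆ Metric.closedBall 0 3 := by
  intro p hp
  simp only [HB, mem_ofPred_eq] at hp
  rw [Metric.mem_closedBall]
  have hal := al_lt
  have hal2 := al_sq_lt
  refine dist_le_of_coord (a := 1.6) (b := 1.26) (c := 1) ?_ ?_ ?_ (by norm_num) (by norm_num)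
  · simp only [PiLp.zero_apply, sub_zero]; linarith [hp.1]
  · simp only [PiLp.zero_apply, sub_zero]; linarith [hp.2.1]
  · simp only [PiLp.zero_apply, sub_zero]; linarith [hp.2.2]

theorem cell_closed (v : Node) : IsClosed v.cell := by
  unfold Node.cell
  apply Sim.isClosed_image
  have c0 : Continuous (fun p : E3 => p 0) := continuous_coord 0
  have c1 : Continuous (fun p : E3 => p 1) := continuous_coord 1
  have c2 : Continuous (fun p : E3 => p 2) := continuous_coord 2
  cases v.typ
  · simp only [cellB]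
    have hS : Continuous (fun p : E3 => 1 * dS (p 0)) := by
      unfold dS
      fun_prop
    exact (isClosed_le c1.abs hS).inter (isClosed_le c2.abs hS)
  · simp only [cellB]
    have hT : Continuous (fun p : E3 => 1 * dT (p 0)) := by
      unfold dT
      fun_prop
    apply IsClosed.union
    · exact (isClosed_le c1.abs hT).inter (isClosed_le (c2.sub continuous_const).abs hT)
    · exact (isClosed_le c0.abs continuous_const).inter ((isClosed_le c1.abs continuous_const).inter
        ((isClosed_le continuous_const c2).inter (isClosed_le c2 continuous_const)))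

end BOR

end
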