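import Pool.Agent.BOR.LEA
import Pool.Agent.BOR.LEB

/-!
# BOR / LEV: facts on the levels

PROOF. Everything by induction on `n`; a node of level `n+1` is `v.comp k`, `v ∈ lev n`,
`k ∈ kids v.typ` (`lev_succ`).
* `lev_times`: `(v.comp k).t1 - (v.comp k).t0 = (v.t1 - v.t0)(k.t1 - k.t0)`.
* `lev_cov_kid`: `kid_cov` at `(t - v.t0)/(v.t1 - v.t0)`, `comp_time`.
* `kid_sub`: `(v.comp k).cell = v.fr '' k.cell ⊆ v.fr '' cellB v.typ = v.cell`.
* `kid_ends_sub`: `v.ends ∩ (v.comp k).cell ⊆ (v.comp k).ends`: apply `v.fr` (injective) to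
  `kid_ends`.
* `lev_rel`: `List.pairwise_flatMap` and `List.pairwise_map`. Inside one parent: `kid_rel` and
  injectivity of `v.fr`. Different parents `v`, `v'` with kids `u`, `u'`: a point of
  `u.cell ∩ u'.cell` is in `v.cell ∩ v'.cell ⊆ v.ends ∩ v'.ends`, so by `kid_ends_sub` it is in `u.ends`
  and in `u'.ends`.
* `lev_size`: `(v.comp k).size = v.fr.s * k.size ≤ 4/5 v.size` (`sz b s = s * sz b 1`).
* `cell_diam`: `cellB true` is in `|x| ≤ al²`, `|y| ≤ al`, `ze - w ≤ z ≤ 1`, diameter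
  `≤ 2 sqrt (al⁴ + al² + 1.01) ≤ 5 ≤ 2 · 5`; `cellB false` is in `[0,1] × [-1/3,1/3]²`, diameter
  `≤ sqrt (1 + 4/9 + 4/9) ≤ 2`. Apply the similarity.
* `lev_HB`: `root_cell`, `kid_sub`.
* `lev_anc`: induction on `m` for `m ≥ n`. `m = n`: `w = v` or (by `lev_rel`, symmetric,
  `List.Pairwise.forall`) `w.cell ∩ v.cell ⊆ w.ends`. Step: `w' = w.comp k`: if `w.cell ⊆ v.cell`
  then `w'.cell ⊆ v.cell`; otherwise a point of `w'.cell ∩ v.cell` is in `w.cell ∩ v.cell`, so in
  `w.ends`, so in `w'.ends` by `kid_ends_sub`.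
* `lev_first`: `kid_first`: the kid with `k.t0 = 0` gives `(v.comp k).t0 = v.t0`.
-/

noncomputable section

namespace BOR

open Set

private theorem relC_symm {a b : Node} (h : Node.relC a b) : Node.relC b a := by
  intro p hp
  exact ⟨(h ⟨hp.2, hp.1⟩).2, (h ⟨hp.2, hp.1⟩).1⟩

theorem lev_size {n : ℕ} {v : Node} (hv : v ∈ lev n) : v.size ≤ 4 * (4 / 5) ^ n := by
  induction n generalizing v with
  | zero =>
    have h : v.size ≤ 4 := root_size hv
    simpa using h
  | succ n ih =>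
    obtain ⟨u, hu, k, hk, rfl⟩ := lev_succ.1 hv
    have h1 := ih hu
    rw [comp_size]
    have h2 := kid_size hk
    have h3 : u.size = u.fr.s * sz u.typ 1 := by
      unfold Node.size sz
      split_ifs <;> ring
    have h4 := u.fr.s_pos
    calc u.fr.s * k.size ≤ u.fr.s * (4 / 5 * sz u.typ 1) := mul_le_mul_of_nonneg_left h2 h4.le
      _ = 4 / 5 * u.size := by rw [h3]; ring
      _ ≤ 4 / 5 * (4 * (4 / 5) ^ n) := by linarith
      _ = _ := by ring

theorem lev_HB {n : ℕ} {v : Node} (hv : v ∈ lev n) : v.cell ⊆ HB := by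
  induction n generalizing v with
  | zero => exact root_cell hv
  | succ n ih =>
    obtain ⟨u, hu, k, hk, rfl⟩ := lev_succ.1 hv
    exact (kid_sub u hk).trans (ih hu)

theorem lev_anc {n m : ℕ} (hnm : n ≤ m) {v u : Node} (hv : v ∈ lev n) (hu : u ∈ lev m) :
    u.cell ⊆ v.cell ∨ u.cell ∩ v.cell ⊆ u.ends := by
  induction m, hnm using Nat.le_induction generalizing u with
  | base =>
    by_cases h : u = v
    · left
      rw [h]
    · right
      have h1 : Node.relC u v :=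
        haveI : Std.Symm Node.relC := ⟨fun _ _ hab => relC_symm hab⟩
        (lev_rel n).forall hu hv h
      exact fun p hp => (h1 hp).1
  | succ m _ ih =>
    obtain ⟨w, hw, k, hk, rfl⟩ := lev_succ.1 hu
    rcases ih hw with h | h
    · exact Or.inl ((kid_sub w hk).trans h)
    · right
      intro p hp
      exact kid_ends_sub w hk ⟨h ⟨kid_sub w hk hp.1, hp.2⟩, hp.1⟩

/-- every cell of level `m ≥ n` is contained in a cell of level `n` -/
theorem lev_in {n m : ℕ} (hnm : n ≤ m) {u : Node} (hu : u ∈ lev m) :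
    ∃ v ∈ lev n, u.cell ⊆ v.cell := by
  induction m, hnm using Nat.le_induction generalizing u with
  | base => exact ⟨u, hu, subset_rfl⟩
  | succ m _ ih =>
    obtain ⟨w, hw, k, hk, rfl⟩ := lev_succ.1 hu
    obtain ⟨v, hv, h⟩ := ih hw
    exact ⟨v, hv, (kid_sub w hk).trans h⟩

theorem lev_first {n : ℕ} {v : Node} (hv : v ∈ lev n) : ∃ u ∈ lev (n + 1), u.t0 = v.t0 ∧
    u.edge u.t0 = v.edge v.t0 := by
  obtain ⟨k, hk, h0, he⟩ := kid_first v.typ
  obtain ⟨-, hlt, -, -⟩ := lev_times hv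
  have ht : (v.comp k).t0 = v.t0 := by
    show v.t0 + (v.t1 - v.t0) * k.t0 = v.t0
    rw [h0]
    ring
  refine ⟨v.comp k, lev_succ.2 ⟨v, hv, k, hk, rfl⟩, ht, ?_⟩
  rw [ht, comp_edge v k hlt, sub_self, zero_div, he, edge_t0 v hlt]

end BOR

end
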