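import Pool.Agent.BOR.DEN

/-!
# BOR / LMG: nested cells of two curves force the curves to meet

PROOF. Facts: `HB ⊆ closedBall 0 2.27` (`al⁴ + al² + 1 ≤ 5.11`), `closedBall 0 1 ⊆ HB`, so
`closedBall (F 0) F.s ⊆ F '' HB` and `dist (F 0) p ≤ 2.27 F.s` for `p ∈ F '' HB`, the diameter of
`F '' HB` is `≤ 4.54 F.s`.
(A) If `F' '' HB ⊆ F '' HB` then `F'.s ≤ 1.5 F.s`: the points `F' (± (al²,0,0))` have distance
`2 al² F'.s ≥ 3.17 F'.s`, at most `4.54 F.s`.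
`stepG`: let `n` be the least number with `r^n F.s ≤ 0.15 F'.s` (exists, `r < 1`). By (A) `n ≥ 1`, and
so `r^n F.s > r · 0.15 F'.s ≥ 0.119 F'.s`. `dens n F` with `z = F' 0 ∈ F '' HB` gives `l` of length `n`
and `q ∈ F'' '' HB`, `F'' = F.comp (Fw l)`, `F''.s = r^n F.s` (`Fw_s`), with
`dist z q ≤ 15 g F.s ≤ 15 · 10⁻¹² · 10⁸ F'.s = 0.0015 F'.s`. Every point of `F'' '' HB` is at distance
`≤ 0.0015 F'.s + 4.54 · 0.15 F'.s < F'.s` from `F' 0`, so `F'' '' HB ⊆ F' '' HB`.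
`F'' ∈ 𝓕` by `fam_word`.
`lemmaG_aux` (induction on `m`): `m = 0`: `dist k k' ≤ 5 F.s + 2.27 F.s + 5 · 1.5 F.s ≤ 20 F.s`.
Step: `stepG` for `(F, F')` gives `F'' ∈ 𝓕`, then `stepG` for `(F', F'')` (roles exchanged) gives
`F''' ∈ 𝓕'` with `F''' '' HB ⊆ F'' '' HB` and `10⁻⁸ F''.s ≤ F'''.s`; the induction hypothesis for
`(F'', F''')` gives `k, k'` at distance `≤ 20 (1/2)^m F''.s` and
`F''.s ≤ 0.15 F'.s ≤ 0.15 · 1.5 F.s ≤ F.s/2`.
-/

noncomputable section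

namespace BOR

open Set

/-- A family of similarities closed under the two children, with base points near `K`. -/
structure TFam (𝓕 : Set Sim) (K : Set E3) : Prop where
  cl1 : ∀ F ∈ 𝓕, F.comp FT1 ∈ 𝓕
  cl2 : ∀ F ∈ 𝓕, F.comp FT2 ∈ 𝓕
  near : ∀ F ∈ 𝓕, ∃ k ∈ K, dist (F 0) k ≤ 5 * F.s

theorem fam_word {𝓕 : Set Sim} {K : Set E3} (h : TFam 𝓕 K) {F : Sim} (hF : F ∈ 𝓕)
    (l : List Bool) : F.comp (Fw l) ∈ 𝓕 := by
  induction l generalizing F with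
  | nil => show F.comp Sim.one ∈ 𝓕; rw [Sim.comp_one]; exact hF
  | cons i l ih =>
    show F.comp ((if i then FT1 else FT2).comp (Fw l)) ∈ 𝓕
    rw [← Sim.comp_assoc]
    refine ih ?_
    cases i
    · exact h.cl2 F hF
    · exact h.cl1 F hF

theorem HB_sub_ball (F : Sim) {p : E3} (hp : p ∈ F '' HB) : dist (F 0) p ≤ 2.27 * F.s := by
  obtain ⟨q, hq, rfl⟩ := hp
  rw [F.dist_app, mul_comm]
  refine mul_le_mul_of_nonneg_right ?_ F.s_pos.le
  obtain ⟨h0, h1, h2⟩ := hq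
  have e1 := al_sq_lt
  have e2 := al_sq_pos
  have e3 := al_pos
  refine dist_le_of_coord (a := al ^ 2) (b := al) (c := 1) ?_ ?_ ?_ (by norm_num) ?_
  · simpa using h0
  · simpa using h1
  · simpa using h2
  · nlinarith

theorem ball_sub_HB (F : Sim) {p : E3} (hp : dist (F 0) p ≤ F.s) : p ∈ F '' HB := by
  refine ⟨F.inv p, ?_, F.app_inv p⟩
  have h1 : dist (F 0) p = F.s * dist 0 (F.inv p) := by
    rw [← F.dist_app, F.app_inv]
  rw [h1] at hp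
  have h2 : dist 0 (F.inv p) ≤ 1 := by
    by_contra hc
    push Not at hc
    have := mul_lt_mul_of_pos_left hc F.s_pos
    linarith
  have c : ∀ i, |(F.inv p) i| ≤ 1 := by
    intro i
    have := abs_coord_sub_le 0 (F.inv p) i
    simp only [PiLp.zero_apply, zero_sub, abs_neg] at this
    exact this.trans h2
  have e1 := al_sq_gt
  have e2 := al_gt
  exact ⟨(c 0).trans (by linarith), (c 1).trans (by linarith), c 2⟩

private theorem zero_mem_HB : (0 : E3) ∈ HB := by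
  have e2 := al_sq_pos
  have e3 := al_pos
  refine ⟨?_, ?_, ?_⟩ <;> simp [e2.le, e3.le]

private theorem size_le {F F' : Sim} (hsub : F' '' HB ⊆ F '' HB) : F'.s ≤ 1.5 * F.s := by
  have e1 := al_sq_gt
  have e2 := al_sq_pos
  have e3 := al_pos
  have h1 : pt (al ^ 2) 0 0 ∈ HB := by
    refine ⟨?_, ?_, ?_⟩ <;> simp [e3.le]
  have h2 : pt (-al ^ 2) 0 0 ∈ HB := by
    refine ⟨?_, ?_, ?_⟩ <;> simp [e3.le]
  have a1 := HB_sub_ball F (hsub ⟨_, h1, rfl⟩)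
  have a2 := HB_sub_ball F (hsub ⟨_, h2, rfl⟩)
  have a3 : dist (F' (pt (al ^ 2) 0 0)) (F' (pt (-al ^ 2) 0 0)) ≤ 4.54 * F.s := by
    have := dist_triangle_left (F' (pt (al ^ 2) 0 0)) (F' (pt (-al ^ 2) 0 0)) (F 0)
    linarith
  rw [F'.dist_app] at a3
  have a4 : 2 * al ^ 2 ≤ dist (pt (al ^ 2) 0 0) (pt (-al ^ 2) 0 0) := by
    have := abs_coord_sub_le (pt (al ^ 2) 0 0) (pt (-al ^ 2) 0 0) 0
    simp only [pt_0] at this
    have h := le_abs_self (al ^ 2 - -al ^ 2)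
    linarith
  have a5 : F'.s * (2 * al ^ 2) ≤ 4.54 * F.s := (mul_le_mul_of_nonneg_left a4 F'.s_pos.le).trans a3
  have := F'.s_pos
  have := F.s_pos
  nlinarith

theorem stepG {𝓕 : Set Sim} {K : Set E3} (h : TFam 𝓕 K) {F F' : Sim} (hF : F ∈ 𝓕)
    (hsub : F' '' HB ⊆ F '' HB) (hs : 1 / 10 ^ 8 * F.s ≤ F'.s) :
    ∃ F'' ∈ 𝓕, F'' '' HB ⊆ F' '' HB ∧ 1 / 10 ^ 8 * F'.s ≤ F''.s ∧ F''.s ≤ 0.15 * F'.s := by
  have hA := size_le hsub
  have hs1 := F.s_pos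
  have hs2 := F'.s_pos
  have hr0 := r_pos
  have hr1 := r_lt
  have hr2 := r_gt
  have hex : ∃ n : ℕ, r ^ n * F.s ≤ 0.15 * F'.s := by
    obtain ⟨n, hn⟩ := exists_pow_lt_of_lt_one (show 0 < 0.15 * F'.s / F.s by positivity)
      (show r < 1 by linarith)
    refine ⟨n, ?_⟩
    rw [lt_div_iff₀ hs1] at hn
    exact hn.le
  classical
  set n := Nat.find hex with hn
  have hn1 : r ^ n * F.s ≤ 0.15 * F'.s := Nat.find_spec hex
  have hn0 : n ≠ 0 := by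
    intro h0
    rw [h0] at hn1
    simp only [pow_zero, one_mul] at hn1
    linarith
  obtain ⟨m, hm⟩ := Nat.exists_eq_succ_of_ne_zero hn0
  have hn2 : 0.15 * F'.s < r ^ m * F.s := by
    have : ¬ (r ^ m * F.s ≤ 0.15 * F'.s) := Nat.find_min hex (by rw [← hn, hm]; exact Nat.lt_succ_self m)
    linarith
  have hn3 : r * (0.15 * F'.s) < r ^ n * F.s := by
    rw [hm, pow_succ]
    have := mul_lt_mul_of_pos_left hn2 hr0
    linarith
  obtain ⟨l, hl, q, hq, hd⟩ := dens n F (z := F' 0) (hsub ⟨0, zero_mem_HB, rfl⟩)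
  have hfs : (F.comp (Fw l)).s = r ^ n * F.s := by
    rw [Sim.comp_s, Fw_s, hl, mul_comm]
  refine ⟨F.comp (Fw l), fam_word h hF l, ?_, ?_, ?_⟩
  · intro p hp
    apply ball_sub_HB
    have b1 := HB_sub_ball _ hp
    have b2 := HB_sub_ball _ hq
    have b3 : dist q p ≤ 4.54 * (F.comp (Fw l)).s := by
      have := dist_triangle_left q p ((F.comp (Fw l)) 0)
      linarith
    have b4 := dist_triangle (F' 0) q p
    have b5 : 15 * g * F.s ≤ 0.0015 * F'.s := by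
      unfold g
      have : F.s ≤ 10 ^ 8 * F'.s := by
        have := mul_le_mul_of_nonneg_left hs (show (0:ℝ) ≤ 10 ^ 8 by norm_num)
        linarith
      linarith
    rw [hfs] at b3
    linarith
  · rw [hfs]
    have : r * (0.15 * F'.s) ≥ 0.7936 * (0.15 * F'.s) :=
      mul_le_mul_of_nonneg_right hr2.le (by positivity)
    linarith
  · rw [hfs]; exact hn1

theorem lemmaG_aux (m : ℕ) {𝓕 𝓕' : Set Sim} {K K' : Set E3} (h : TFam 𝓕 K) (h' : TFam 𝓕' K')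
    {F F' : Sim} (hF : F ∈ 𝓕) (hF' : F' ∈ 𝓕') (hsub : F' '' HB ⊆ F '' HB)
    (hs : 1 / 10 ^ 8 * F.s ≤ F'.s) :
    ∃ k ∈ K, ∃ k' ∈ K', dist k k' ≤ 20 * (1 / 2) ^ m * F.s := by
  induction m generalizing F F' with
  | zero =>
    obtain ⟨k, hk, hk2⟩ := h.near F hF
    obtain ⟨k', hk', hk2'⟩ := h'.near F' hF'
    refine ⟨k, hk, k', hk', ?_⟩
    have hA := size_le hsub
    have a1 := HB_sub_ball F (hsub ⟨0, zero_mem_HB, rfl⟩)
    have a2 := dist_triangle_left k k' (F 0)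
    have a3 := dist_triangle (F 0) (F' 0) k'
    have hs1 := F.s_pos
    simp only [pow_zero, mul_one]
    linarith
  | succ m ih =>
    obtain ⟨F'', hF'', b1, b2, b3⟩ := stepG h hF hsub hs
    obtain ⟨F''', hF''', c1, c2, c3⟩ := stepG h' hF' b1 b2
    obtain ⟨k, hk, k', hk', hd⟩ := ih hF'' hF''' c1 c2
    refine ⟨k, hk, k', hk', hd.trans ?_⟩
    have hA := size_le hsub
    have h1 : F''.s ≤ 1 / 2 * F.s := by
      have hs1 := F.s_pos
      linarith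
    rw [pow_succ]
    have : 20 * (1 / 2 : ℝ) ^ m * F''.s ≤ 20 * (1 / 2 : ℝ) ^ m * (1 / 2 * F.s) :=
      mul_le_mul_of_nonneg_left h1 (by positivity)
    linarith

theorem lemmaG {𝓕 𝓕' : Set Sim} {K K' : Set E3} (h : TFam 𝓕 K) (h' : TFam 𝓕' K')
    {F F' : Sim} (hF : F ∈ 𝓕) (hF' : F' ∈ 𝓕') (hsub : F' '' HB ⊆ F '' HB)
    (hs : 1 / 10 ^ 8 * F.s ≤ F'.s) (e : ℝ) (he : 0 < e) :
    ∃ k ∈ K, ∃ k' ∈ K', dist k k' < e := by
  have hs1 := F.s_pos
  obtain ⟨m, hm⟩ := exists_pow_lt_of_lt_one (show 0 < e / (20 * F.s) by positivity)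
    (show (1 / 2 : ℝ) < 1 by norm_num)
  obtain ⟨k, hk, k', hk', hd⟩ := lemmaG_aux m h h' hF hF' hsub hs
  refine ⟨k, hk, k', hk', hd.trans_lt ?_⟩
  rw [lt_div_iff₀ (by positivity)] at hm
  linarith

end BOR

end
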