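import Pool.Agent.BOR.FIB

/-!
# BOR / LSQ: lateral squeeze around an axis

PROOF. Write `x,y,z` for the coordinates and `u = z - z0`. For `i = 1, 2` define
`K p = max 0 (6 d x - 5 max |y| |u|)` and the displacement
`D₁ p = -(1-e) clamp y (-K) K`, `D₂ p = -(1-e) clamp u (-K) K`, where
`clamp y (-K) K = max (-K) (min y K)`. Both are continuous and bounded by `2`: if `K > 0` then
`|y|, |u| < 6/5 d x ≤ 6/5`, and `|clamp y| ≤ |y|`; if `K = 0` then `D = 0`.
Monotonicity: let `c(y) = clamp y (-K(y)) K(y)`, `K(y)` is even in `y` and nonincreasing in `|y|`.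
Claim `c(y₂) - c(y₁) ≤ y₂ - y₁` for `y₁ < y₂`. For `0 ≤ y₁`: `c = min y K`; if `c(y₁) = y₁` use
`c(y₂) ≤ y₂`; otherwise `c(y₁) = K(y₁) ≥ K(y₂) ≥ c(y₂)`. For `y₂ ≤ 0`: by oddness. For
`y₁ < 0 < y₂`: `c(y₂) ≤ y₂`, `c(y₁) ≥ y₁`. Hence `(1-e)(c(y₂) - c(y₁)) < y₂ - y₁`. So `fiber` gives
homeomorphisms `Ly`, `Lz` (for `D₁`, `i = 1` and `D₂`, `i = 2`). Put `E = (Lz ∘ Ly)⁻¹`.
* Off the support `K = 0` so `Ly p = p`, `Lz p = p`.
* At `(x,0,z0)`: `clamp 0 = 0`, both are fixed.
* If `|y|, |u| ≤ d x`: `K ≥ 6 d - 5 d = d ≥ |y|`, so `Ly` gives `(x, e y, z)`; there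
  `K ≥ d ≥ |u|`, so `Lz` gives `(x, e y, z0 + e u)`, and `|e y|, |e u| ≤ e d ≤ e`.
-/

noncomputable section

namespace BOR

open Set

private def cl (x k : ℝ) : ℝ := max (-k) (min x k)

private theorem cl_of_abs {x k : ℝ} (h : |x| ≤ k) : cl x k = x := by
  have h1 := abs_le.1 h
  unfold cl
  rw [min_eq_left h1.2, max_eq_right h1.1]

private theorem cl_zero (x : ℝ) : cl x 0 = 0 := by
  unfold cl
  rw [neg_zero]
  exact max_eq_left (min_le_right x 0)

private theorem abs_cl_le {x k : ℝ} (hk : 0 ≤ k) : |cl x k| ≤ k := by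
  unfold cl
  rw [abs_le]
  exact ⟨le_max_left _ _, max_le (by linarith) (min_le_right _ _)⟩

private def kk (A v y : ℝ) : ℝ := max 0 (A - 5 * max |y| v)

private theorem kk_nonneg (A v y : ℝ) : 0 ≤ kk A v y := le_max_left _ _

private theorem kk_anti {A v y z : ℝ} (h : |y| ≤ |z|) : kk A v z ≤ kk A v y := by
  unfold kk
  refine max_le_max le_rfl ?_
  have : max |y| v ≤ max |z| v := max_le_max h le_rfl
  linarith

private theorem cl_step (A v y t : ℝ) (ht : 0 < t) :
    cl (y + t) (kk A v (y + t)) - cl y (kk A v y) ≤ t := by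
  have k0 := kk_nonneg A v y
  have k1 := kk_nonneg A v (y + t)
  rcases le_total 0 y with hy | hy
  · have hk : kk A v (y + t) ≤ kk A v y := kk_anti (by
      rw [abs_of_nonneg hy, abs_of_nonneg (by linarith)]; linarith)
    have e1 : cl y (kk A v y) = min y (kk A v y) := by
      unfold cl
      exact max_eq_right (le_min (by linarith) (by linarith))
    have e2 : cl (y + t) (kk A v (y + t)) ≤ min (y + t) (kk A v y) := by
      unfold cl
      refine max_le (le_min (by linarith) (by linarith)) (min_le_min le_rfl hk)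
    have e3 : min (y + t) (kk A v y) ≤ min y (kk A v y) + t := by
      rcases le_total y (kk A v y) with h | h
      · rw [min_eq_left h]; exact min_le_left _ _
      · rw [min_eq_right h]; exact (min_le_right _ _).trans (by linarith)
    linarith
  · rcases le_total (y + t) 0 with hy2 | hy2
    · have hk : kk A v y ≤ kk A v (y + t) := kk_anti (by
        rw [abs_of_nonpos hy, abs_of_nonpos hy2]; linarith)
      have e1 : cl (y + t) (kk A v (y + t)) = max (-kk A v (y + t)) (y + t) := by
        unfold cl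
        rw [min_eq_left (by linarith)]
      have e2 : max (-kk A v y) y ≤ cl y (kk A v y) := by
        unfold cl
        rw [min_eq_left (by linarith)]
      have e3 : max (-kk A v (y + t)) (y + t) ≤ max (-kk A v y) y + t := by
        refine max_le ?_ ?_
        · have := le_max_left (-kk A v y) y
          linarith
        · have := le_max_right (-kk A v y) y
          linarith
      linarith
    · have e1 : cl (y + t) (kk A v (y + t)) ≤ y + t := by
        unfold cl
        exact max_le (by linarith) (min_le_left _ _)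
      have e2 : y ≤ cl y (kk A v y) := by
        unfold cl
        exact le_trans (le_min le_rfl (by linarith)) (le_max_right _ _)
      linarith

private theorem scaled {e c1 c2 t : ℝ} (he : 0 < e) (he1 : e < 1) (ht : 0 < t)
    (h : c2 - c1 ≤ t) : -((1 - e) * c1) < -((1 - e) * c2) + t := by
  nlinarith [mul_le_mul_of_nonneg_left h (by linarith : (0 : ℝ) ≤ 1 - e), mul_pos he ht]

private theorem single_add_0 (p : E3) (c : ℝ) (i j : Fin 3) (h : j ≠ i) :
    (p + c • EuclideanSpace.single i (1 : ℝ)) j = p j := by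
  simp [h]

private theorem single_add_1 (p : E3) (c : ℝ) (i : Fin 3) :
    (p + c • EuclideanSpace.single i (1 : ℝ)) i = p i + c := by
  simp

theorem lsq (d : ℝ → ℝ) (hd : Continuous d) (hd1 : ∀ x, d x ≤ 1) (z0 e : ℝ) (he : 0 < e)
    (he1 : e < 1) : ∃ E : E3 ≃ₜ E3,
      (∀ p, ¬ (|p 1| ≤ 6 / 5 * d (p 0) ∧ |p 2 - z0| ≤ 6 / 5 * d (p 0)) → E p = p) ∧
      (∀ x, E (pt x 0 z0) = pt x 0 z0) ∧
      (∀ p, |p 1| ≤ d (p 0) → |p 2 - z0| ≤ d (p 0) →
        (E.symm p) 0 = p 0 ∧ |(E.symm p) 1| ≤ e ∧ |(E.symm p) 2 - z0| ≤ e) := by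
  let K : E3 → ℝ := fun p => kk (6 * d (p 0)) |p 2 - z0| (p 1)
  have hK2 : ∀ p : E3, K p = kk (6 * d (p 0)) |p 1| (p 2 - z0) := by
    intro p
    simp only [K, kk]
    rw [max_comm |p 1|]
  have hKc : Continuous K := by
    simp only [K, kk]
    exact continuous_const.max ((continuous_const.mul (hd.comp (continuous_coord 0))).sub
      (continuous_const.mul ((continuous_coord 1).abs.max
        ((continuous_coord 2).sub continuous_const).abs)))
  have hK0 : ∀ p, 0 ≤ K p := fun p => kk_nonneg _ _ _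
  have hK6 : ∀ p, K p ≤ 6 := by
    intro p
    simp only [K, kk]
    refine max_le (by norm_num) ?_
    have h1 := hd1 (p 0)
    have h2 : 0 ≤ max |p 1| |p 2 - z0| := (abs_nonneg _).trans (le_max_left _ _)
    linarith
  let D1 : E3 → ℝ := fun p => -((1 - e) * cl (p 1) (K p))
  let D2 : E3 → ℝ := fun p => -((1 - e) * cl (p 2 - z0) (K p))
  have hcl : ∀ f : E3 → ℝ, Continuous f → Continuous (fun p => -((1 - e) * cl (f p) (K p))) := by
    intro f hf
    unfold cl
    exact (continuous_const.mul (hKc.neg.max (hf.min hKc))).neg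
  have hD1c : Continuous D1 := hcl _ (continuous_coord 1)
  have hD2c : Continuous D2 := hcl _ ((continuous_coord 2).sub continuous_const)
  have hb : ∀ (x : ℝ) (p : E3), |-((1 - e) * cl x (K p))| ≤ 6 := by
    intro x p
    rw [abs_neg, abs_mul, abs_of_pos (by linarith : (0 : ℝ) < 1 - e)]
    have h1 := abs_cl_le (x := x) (hK0 p)
    have h2 := hK6 p
    have h3 := abs_nonneg (cl x (K p))
    nlinarith
  obtain ⟨Ly, hLy⟩ := fiber 1 D1 hD1c 6 (fun p => hb _ p) (by
    intro p t ht
    have h1 := cl_step (6 * d (p 0)) |p 2 - z0| (p 1) t ht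
    have e1 : K (p + t • EuclideanSpace.single 1 (1 : ℝ)) =
        kk (6 * d (p 0)) |p 2 - z0| (p 1 + t) := by
      simp only [K]
      rw [single_add_0 p t 1 0 (by decide), single_add_0 p t 1 2 (by decide), single_add_1]
    simp only [D1]
    rw [e1, single_add_1]
    exact scaled he he1 ht h1)
  obtain ⟨Lz, hLz⟩ := fiber 2 D2 hD2c 6 (fun p => hb _ p) (by
    intro p t ht
    have h1 := cl_step (6 * d (p 0)) |p 1| (p 2 - z0) t ht
    have e1 : K (p + t • EuclideanSpace.single 2 (1 : ℝ)) =
        kk (6 * d (p 0)) |p 1| (p 2 - z0 + t) := by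
      rw [hK2, single_add_0 p t 2 0 (by decide), single_add_0 p t 2 1 (by decide), single_add_1]
      congr 1
      ring
    have e2 : p 2 + t - z0 = p 2 - z0 + t := by ring
    simp only [D2]
    rw [e1, single_add_1, e2, hK2 p]
    exact scaled he he1 ht h1)
  have hfix : ∀ p, D1 p = 0 → D2 p = 0 → Lz (Ly p) = p := by
    intro p h1 h2
    have e1 : Ly p = p := by rw [hLy, h1]; simp
    rw [e1, hLz, h2]
    simp
  refine ⟨(Ly.trans Lz).symm, ?_, ?_, ?_⟩
  · intro p hp
    rw [Homeomorph.symm_apply_eq]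
    symm
    have hk : K p = 0 := by
      simp only [K, kk]
      refine max_eq_left ?_
      by_contra hcon
      push Not at hcon
      refine hp ⟨?_, ?_⟩
      · have := le_max_left |p 1| |p 2 - z0|
        linarith
      · have := le_max_right |p 1| |p 2 - z0|
        linarith
    exact hfix p (by simp only [D1]; rw [hk, cl_zero]; ring)
      (by simp only [D2]; rw [hk, cl_zero]; ring)
  · intro x
    rw [Homeomorph.symm_apply_eq]
    symm
    refine hfix _ ?_ ?_
    · simp only [D1]
      rw [pt_1, cl_of_abs (by simpa using hK0 _)]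
      ring
    · simp only [D2]
      rw [pt_2, cl_of_abs (by simpa using hK0 _)]
      ring
  · intro p h1 h2
    have hdn : 0 ≤ d (p 0) := (abs_nonneg _).trans h1
    have hk : d (p 0) ≤ K p := by
      simp only [K, kk]
      refine le_trans ?_ (le_max_right _ _)
      have := max_le h1 h2
      linarith
    have e1 : Ly p = p + (-((1 - e) * p 1)) • EuclideanSpace.single 1 (1 : ℝ) := by
      rw [hLy]
      simp only [D1]
      rw [cl_of_abs (h1.trans hk)]
    have c0 : (Ly p) 0 = p 0 := by rw [e1, single_add_0 _ _ 1 0 (by decide)]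
    have c1 : (Ly p) 1 = e * p 1 := by rw [e1, single_add_1]; ring
    have c2 : (Ly p) 2 = p 2 := by rw [e1, single_add_0 _ _ 1 2 (by decide)]
    have h3 : |e * p 1| ≤ d (p 0) := by
      rw [abs_mul, abs_of_pos he]
      nlinarith [abs_nonneg (p 1)]
    have hk' : d (p 0) ≤ K (Ly p) := by
      simp only [K, kk]
      rw [c0, c1, c2]
      refine le_trans ?_ (le_max_right _ _)
      have := max_le h3 h2
      linarith
    have e2 : Lz (Ly p) = Ly p + (-((1 - e) * (p 2 - z0))) •
        EuclideanSpace.single 2 (1 : ℝ) := by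
      rw [hLz]
      simp only [D2]
      rw [c2, cl_of_abs (h2.trans hk')]
    have es : (Ly.trans Lz).symm.symm p = Lz (Ly p) := rfl
    rw [es, e2, single_add_0 _ _ 2 0 (by decide), single_add_0 _ _ 2 1 (by decide),
      single_add_1, c0, c1, c2]
    have hp1 := hd1 (p 0)
    refine ⟨rfl, ?_, ?_⟩
    · rw [abs_mul, abs_of_pos he]
      nlinarith [abs_nonneg (p 1)]
    · have : p 2 + -((1 - e) * (p 2 - z0)) - z0 = e * (p 2 - z0) := by ring
      rw [this, abs_mul, abs_of_pos he]
      nlinarith [abs_nonneg (p 2 - z0)]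

end BOR

end
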