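import Pool.Agent.BOR.FIB

/-!
# BOR / TM0: the standard triangle move

`TE e` is a thin open neighbourhood of the open triangle with vertices `(-1,0,0)`, `(1,0,0)`,
`(0,0,1)` (a double wedge at the first two vertices).

PROOF of `tm0`. Use `fiber` with `i = 2` and
`D p = max 0 (min (S + z/e) (S - z/(1+e)) - |y|/e)`, `S = 1 - |x|` (`x,y,z` the coordinates of `p`).
Continuous; `0 ≤ D ≤ S ≤ 1` where positive (for `z ≥ 0` the second argument is `≤ S`, for `z ≤ 0` the
first one is `≤ S`), so `C = 1`. Monotonicity: replacing `z` by `z + t`, `t > 0`, decreases `D` by at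
most `t/(1+e) < t`. If `D p > 0` then `|y|/e < min(..) `, and with `|y| ≥ 0`: `S + z/e > 0`,
`S - z/(1+e) > 0`, and `min ≤ S` gives `|y| < e S`, `S > 0`; so `p ∈ TE e`. Hence `Φ p = p` off `TE e`.
`D (X,0,0) = max 0 S = 1 - |X|`.

PROOF of `tmg`. `Φ = A ∘ Φ₀ ∘ A⁻¹` with `Φ₀` from `tm0`. For `τ ∈ [s,t]` put
`X = 2 (τ - s)/(t - s) - 1 ∈ [-1,1]`: `sgm (m-u) (m+u) s t τ = m + X • u = A (pt X 0 0)`, which is
mapped to `A (pt X 0 (1-|X|)) = m + X • u + (1 - |X|) • v`. If `τ ≤ (s+t)/2` then `X ≤ 0` and this is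
`(m - u) + (1+X) • (u + v) = sgm (m-u) (m+v) s ((s+t)/2) τ`; otherwise `X ≥ 0` and it is
`m + X • u + (1-X) • v = sgm (m+v) (m+u) ((s+t)/2) t τ`.
-/

noncomputable section

namespace BOR

open Set

theorem tm0 (e : ℝ) (he : 0 < e) : ∃ Φ : E3 ≃ₜ E3, (∀ p, p ∉ TE e → Φ p = p) ∧
    ∀ X ∈ Icc (-1 : ℝ) 1, Φ (pt X 0 0) = pt X 0 (1 - |X|) := by
  have he1 : 0 < 1 + e := by linarith
  let D : E3 → ℝ := fun p =>
    max 0 (min (1 - |p 0| + p 2 / e) (1 - |p 0| - p 2 / (1 + e)) - |p 1| / e)
  have hD : Continuous D := by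
    have h0 := continuous_coord 0
    have h1 := continuous_coord 1
    have h2 := continuous_coord 2
    refine continuous_const.max ((Continuous.min ?_ ?_).sub (h1.abs.div_const _))
    · exact (continuous_const.sub h0.abs).add (h2.div_const _)
    · exact (continuous_const.sub h0.abs).sub (h2.div_const _)
  have hmin : ∀ p : E3, min (1 - |p 0| + p 2 / e) (1 - |p 0| - p 2 / (1 + e)) ≤ 1 - |p 0| := by
    intro p
    rcases le_total 0 (p 2) with h | h
    · refine (min_le_right _ _).trans ?_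
      have : 0 ≤ p 2 / (1 + e) := div_nonneg h he1.le
      linarith
    · refine (min_le_left _ _).trans ?_
      have : p 2 / e ≤ 0 := div_nonpos_of_nonpos_of_nonneg h he.le
      linarith
  have hC : ∀ p, |D p| ≤ 1 := by
    intro p
    have h0 : 0 ≤ D p := le_max_left _ _
    rw [abs_of_nonneg h0]
    refine max_le zero_le_one ?_
    have h1 := hmin p
    have h2 := abs_nonneg (p 0)
    have h3 : 0 ≤ |p 1| / e := div_nonneg (abs_nonneg _) he.le
    linarith
  have hmono : ∀ (p : E3) (t : ℝ), 0 < t →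
      D p < D (p + t • EuclideanSpace.single 2 (1 : ℝ)) + t := by
    intro p t ht
    have e0 : (p + t • EuclideanSpace.single 2 (1 : ℝ) : E3) 0 = p 0 := by simp
    have e1 : (p + t • EuclideanSpace.single 2 (1 : ℝ) : E3) 1 = p 1 := by simp
    have e2 : (p + t • EuclideanSpace.single 2 (1 : ℝ) : E3) 2 = p 2 + t := by simp
    have ht1 : t / (1 + e) < t := by
      rw [div_lt_iff₀ he1]; nlinarith
    have ht0 : 0 < t / (1 + e) := div_pos ht he1
    have hte : 0 < t / e := div_pos ht he
    suffices h : D p ≤ D (p + t • EuclideanSpace.single 2 (1 : ℝ)) + t / (1 + e) by linarith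
    refine max_le ?_ ?_
    · have : 0 ≤ D (p + t • EuclideanSpace.single 2 (1 : ℝ)) := le_max_left _ _
      linarith
    · have h1 : min (1 - |p 0| + (p 2 + t) / e) (1 - |p 0| - (p 2 + t) / (1 + e)) - |p 1| / e ≤
          D (p + t • EuclideanSpace.single 2 (1 : ℝ)) := by
        change _ ≤ max 0 _
        rw [e0, e1, e2]
        exact le_max_right _ _
      have h2 : min (1 - |p 0| + p 2 / e) (1 - |p 0| - p 2 / (1 + e)) - t / (1 + e) ≤
          min (1 - |p 0| + (p 2 + t) / e) (1 - |p 0| - (p 2 + t) / (1 + e)) := by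
        rw [add_div, add_div]
        refine le_min ?_ ?_
        · have := min_le_left (1 - |p 0| + p 2 / e) (1 - |p 0| - p 2 / (1 + e))
          linarith
        · have := min_le_right (1 - |p 0| + p 2 / e) (1 - |p 0| - p 2 / (1 + e))
          linarith
      linarith
  obtain ⟨Φ, hΦ⟩ := fiber 2 D hD 1 hC hmono
  refine ⟨Φ, ?_, ?_⟩
  · intro p hp
    have h0 : D p = 0 := by
      by_contra hne
      have hpos : 0 < D p := lt_of_le_of_ne (le_max_left _ _) (Ne.symm hne)
      have hpos' : 0 < min (1 - |p 0| + p 2 / e) (1 - |p 0| - p 2 / (1 + e)) - |p 1| / e := by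
        rcases lt_max_iff.1 hpos with h | h
        · exact absurd h (lt_irrefl _)
        · exact h
      have h1 := hmin p
      have h2 := min_le_left (1 - |p 0| + p 2 / e) (1 - |p 0| - p 2 / (1 + e))
      have h3 := min_le_right (1 - |p 0| + p 2 / e) (1 - |p 0| - p 2 / (1 + e))
      have h4 : 0 ≤ |p 1| / e := div_nonneg (abs_nonneg _) he.le
      have h5 : |p 1| / e < 1 - |p 0| := by linarith
      have h6 : -(1 - |p 0|) < p 2 / e := by linarith
      have h7 : p 2 / (1 + e) < 1 - |p 0| := by linarith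
      rw [div_lt_iff₀ he] at h5
      rw [lt_div_iff₀ he] at h6
      rw [div_lt_iff₀ he1] at h7
      apply hp
      refine ⟨by linarith, by linarith, by linarith, by linarith⟩
    rw [hΦ, h0, zero_smul, add_zero]
  · intro X hX
    have hX' : |X| ≤ 1 := abs_le.2 hX
    have h0 : D (pt X 0 0) = 1 - |X| := by
      change max 0 _ = _
      rw [pt_0, pt_1, pt_2]
      simp [hX']
    rw [hΦ, h0]
    apply ext3 <;> simp

/-- triangle move in an affine frame -/
theorem tmg (A : E3 ≃ₜ E3) (m u n v : E3)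
    (hA : ∀ X Y Z : ℝ, A (pt X Y Z) = m + X • u + Y • n + Z • v) (e : ℝ) (he : 0 < e) :
    ∃ Φ : E3 ≃ₜ E3, (∀ p, A.symm p ∉ TE e → Φ p = p) ∧
      ∀ s t τ : ℝ, s < t → s ≤ τ → τ ≤ t → Φ (sgm (m - u) (m + u) s t τ) =
        if τ ≤ (s + t) / 2 then sgm (m - u) (m + v) s ((s + t) / 2) τ
        else sgm (m + v) (m + u) ((s + t) / 2) t τ := by
  obtain ⟨Φ, h1, h2⟩ := tm0 e he
  refine ⟨(A.symm.trans Φ).trans A, ?_, ?_⟩
  · intro p hp
    change A (Φ (A.symm p)) = p
    rw [h1 _ hp, A.apply_symm_apply]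
  · intro s t τ hst hs ht
    have hd : 0 < t - s := sub_pos.2 hst
    obtain ⟨X, hX⟩ : ∃ X : ℝ, X = 2 * ((τ - s) / (t - s)) - 1 := ⟨_, rfl⟩
    have hk0 : 0 ≤ (τ - s) / (t - s) := div_nonneg (by linarith) hd.le
    have hk1 : (τ - s) / (t - s) ≤ 1 := (div_le_one hd).2 (by linarith)
    have e1 : sgm (m - u) (m + u) s t τ = A (pt X 0 0) := by
      rw [hA, sgm, hX]
      module
    change A (Φ (A.symm (sgm (m - u) (m + u) s t τ))) = _
    rw [e1, A.symm_apply_apply, h2 X ⟨by linarith, by linarith⟩, hA]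
    split_ifs with h
    · have hX0 : X ≤ 0 := by
        have : (τ - s) / (t - s) ≤ 1 / 2 := by rw [div_le_iff₀ hd]; linarith
        linarith
      have e2 : (τ - s) / ((s + t) / 2 - s) = 1 + X := by
        rw [hX]
        have h3 : (s + t) / 2 - s ≠ 0 := by
          have : (s + t) / 2 - s = (t - s) / 2 := by ring
          rw [this]; positivity
        have hk : (τ - s) / (t - s) * (t - s) = τ - s := div_mul_cancel₀ _ hd.ne'
        rw [div_eq_iff h3]
        linear_combination (-1) * hk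
      rw [abs_of_nonpos hX0, sgm, e2]
      module
    · push Not at h
      have hX0 : 0 ≤ X := by
        have : 1 / 2 ≤ (τ - s) / (t - s) := by rw [le_div_iff₀ hd]; linarith
        linarith
      have e2 : (τ - (s + t) / 2) / (t - (s + t) / 2) = X := by
        rw [hX]
        have h3 : t - (s + t) / 2 ≠ 0 := by
          have : t - (s + t) / 2 = (t - s) / 2 := by ring
          rw [this]; positivity
        have hk : (τ - s) / (t - s) * (t - s) = τ - s := div_mul_cancel₀ _ hd.ne'
        rw [div_eq_iff h3]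
        linear_combination (-1) * hk
      rw [abs_of_nonneg hX0, sgm, e2]
      module

end BOR

end
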