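import Pool.Agent.BOR.TDef
import Pool.Agent.BOR.TM0

/-!
# BOR / MTA: the four triangle moves

PROOF. Each is `tmg` (file TM0) with `e = g/100` and an explicit affine homeomorphism `A` with
`A.symm = c_i` (build `A` with `Homeomorph.mk`/`Equiv`, both maps are given by `pt` of continuous
functions of the coordinates, use `continuous_pt`; `xi, hh, ss > 0`). The vectors are
* 1: `m = (0,0,ze)`, `u = (xi,0,0)`, `n = (0,1,0)`, `v = (xi,0,hh)`; `m - u = pai`, `m + u = pbi`,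
  `m + v = (xi,0,0) = P2m` (because `ze + hh = 0`); `A (X,Y,Z) = (xi (X+Z), Y, ze + hh Z)`.
* 2: `m = (0,0,-hh/2)`, `u = (xi,0,hh/2)`, `n = (0,1,0)`, `v = (-xi,0,hh/2)`; `m - u = pai`,
  `m + u = P2m`, `m + v = P1m`.
* 3: `m = 0`, `u = (xi,0,0)`, `n = (0,0,1)`, `v = (xi,2ss,0)`; `m - u = P1m`, `m + u = P2m`,
  `m + v = (xi, 2ss, 0) = P2p`.
* 4: `m = (0,ss,0)`, `u = (xi,ss,0)`, `n = (0,0,1)`, `v = (-xi,ss,0)`; `m - u = P1m`, `m + u = P2p`,
  `m + v = (-xi,2ss,0) = P1p`.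
-/

noncomputable section

namespace BOR

open Set

private def mkA (f c : E3 → E3) (hf : Continuous f) (hc : Continuous c) (h1 : ∀ p, c (f p) = p)
    (h2 : ∀ p, f (c p) = p) : E3 ≃ₜ E3 where
  toFun := f
  invFun := c
  left_inv := h1
  right_inv := h2
  continuous_toFun := hf
  continuous_invFun := hc

private theorem mtgen (f c : E3 → E3) (hf : Continuous f) (hc : Continuous c)
    (h1 : ∀ p, c (f p) = p) (h2 : ∀ p, f (c p) = p) (m u n v : E3)
    (hA : ∀ X Y Z : ℝ, f (pt X Y Z) = m + X • u + Y • n + Z • v) {p q r : E3}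
    (hp : p = m - u) (hq : q = m + u) (hr : r = m + v) : ∃ Φ : E3 ≃ₜ E3, IsTM Φ c p q r := by
  obtain ⟨Φ, hΦ1, hΦ2⟩ := tmg (mkA f c hf hc h1 h2) m u n v hA (g / 100)
    (by have := g_pos; positivity)
  refine ⟨Φ, hΦ1, ?_⟩
  rw [hp, hq, hr]
  exact hΦ2

theorem mt1 : ∃ Φ : E3 ≃ₜ E3, IsTM Φ c1 pai pbi P2m := by
  have hx := xi_pos.ne'
  have hh0 := hh_pos.ne'
  refine mtgen (fun p => pt (xi * (p 0 + p 2)) (p 1) (ze + hh * p 2)) c1 ?_ ?_ ?_ ?_
    (pt 0 0 ze) (pt xi 0 0) (pt 0 1 0) (pt xi 0 hh) ?_ ?_ ?_ ?_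
  · refine continuous_pt ?_ ?_ ?_ <;> fun_prop
  · refine continuous_pt ?_ ?_ ?_ <;> fun_prop
  · intro p
    apply ext3
    · simp only [c1, pt_0, pt_2]; field_simp; ring
    · simp only [c1, pt_1]
    · simp only [c1, pt_2]; field_simp; ring
  · intro p
    apply ext3
    · simp only [c1, pt_0, pt_2]; field_simp; ring
    · simp only [c1, pt_1]
    · simp only [c1, pt_2]; field_simp; ring
  · intro X Y Z
    apply ext3 <;> simp <;> ring
  · apply ext3 <;> simp [pai]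
  · apply ext3 <;> simp [pbi]
  · apply ext3 <;> simp [P2m, ze, hh]

theorem mt2 : ∃ Φ : E3 ≃ₜ E3, IsTM Φ c2 pai P2m P1m := by
  have hx := xi_pos.ne'
  have hh0 := hh_pos.ne'
  refine mtgen (fun p => pt (xi * (p 0 - p 2)) (p 1) (-hh / 2 + hh / 2 * (p 0 + p 2))) c2 ?_ ?_ ?_ ?_
    (pt 0 0 (-hh / 2)) (pt xi 0 (hh / 2)) (pt 0 1 0) (pt (-xi) 0 (hh / 2)) ?_ ?_ ?_ ?_
  · refine continuous_pt ?_ ?_ ?_ <;> fun_prop
  · refine continuous_pt ?_ ?_ ?_ <;> fun_prop
  · intro p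
    apply ext3
    · simp only [c2, pt_0, pt_2]; field_simp; ring
    · simp only [c2, pt_1]
    · simp only [c2, pt_0, pt_2]; field_simp; ring
  · intro p
    apply ext3
    · simp only [c2, pt_0, pt_2]; field_simp; ring
    · simp only [c2, pt_1]
    · simp only [c2, pt_0, pt_2]; field_simp; ring
  · intro X Y Z
    apply ext3 <;> simp <;> ring
  · apply ext3
    · simp [pai]
    · simp [pai]
    · simp [pai, ze, hh]; ring
  · apply ext3
    · simp [P2m]
    · simp [P2m]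
    · simp [P2m]; ring
  · apply ext3
    · simp [P1m]
    · simp [P1m]
    · simp [P1m]; ring

theorem mt3 : ∃ Φ : E3 ≃ₜ E3, IsTM Φ c3 P1m P2m P2p := by
  have hx := xi_pos.ne'
  have hs0 := ss_pos.ne'
  refine mtgen (fun p => pt (xi * (p 0 + p 2)) (2 * ss * p 2) (p 1)) c3 ?_ ?_ ?_ ?_
    (pt 0 0 0) (pt xi 0 0) (pt 0 0 1) (pt xi (2 * ss) 0) ?_ ?_ ?_ ?_
  · refine continuous_pt ?_ ?_ ?_ <;> fun_prop
  · refine continuous_pt ?_ ?_ ?_ <;> fun_prop
  · intro p
    apply ext3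
    · simp only [c3, pt_0, pt_1]; field_simp; ring
    · simp only [c3, pt_1, pt_2]
    · simp only [c3, pt_1, pt_2]; field_simp
  · intro p
    apply ext3
    · simp only [c3, pt_0, pt_2]; field_simp; ring
    · simp only [c3, pt_1, pt_2]; field_simp
    · simp only [c3, pt_1, pt_2]
  · intro X Y Z
    apply ext3 <;> simp <;> ring
  · apply ext3 <;> simp [P1m]
  · apply ext3 <;> simp [P2m]
  · apply ext3 <;> simp [P2p]

theorem mt4 : ∃ Φ : E3 ≃ₜ E3, IsTM Φ c4 P1m P2p P1p := by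
  have hx := xi_pos.ne'
  have hs0 := ss_pos.ne'
  refine mtgen (fun p => pt (xi * (p 0 - p 2)) (ss + ss * (p 0 + p 2)) (p 1)) c4 ?_ ?_ ?_ ?_
    (pt 0 ss 0) (pt xi ss 0) (pt 0 0 1) (pt (-xi) ss 0) ?_ ?_ ?_ ?_
  · refine continuous_pt ?_ ?_ ?_ <;> fun_prop
  · refine continuous_pt ?_ ?_ ?_ <;> fun_prop
  · intro p
    apply ext3
    · simp only [c4, pt_0, pt_1]; field_simp; ring
    · simp only [c4, pt_1, pt_2]
    · simp only [c4, pt_0, pt_1, pt_2]; field_simp; ring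
  · intro p
    apply ext3
    · simp only [c4, pt_0, pt_2]; field_simp; ring
    · simp only [c4, pt_0, pt_1, pt_2]; field_simp; ring
    · simp only [c4, pt_1, pt_2]
  · intro X Y Z
    apply ext3 <;> simp <;> ring
  · apply ext3 <;> simp [P1m]
  · apply ext3
    · simp [P2p]
    · simp [P2p]; ring
    · simp [P2p]
  · apply ext3
    · simp [P1p]
    · simp [P1p]; ring
    · simp [P1p]

end BOR

end
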