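import Pool.Agent.BOR.TDef

/-!
# BOR / MTB: the composition of the four moves maps the edge to the path

PROOF. `e = g/100 < 1`. A point `x` with `c x = (X,Y,Z)` is fixed if `|X| ≥ 1`, or
`Z ≤ -(e (1-|X|))`.
* `τ ≤ 1/4`: `edgeB true τ = sgm pa pai 0 (1/4) τ = (x,0,ze)` with `x = -2xi + 4 xi τ ∈ [-2xi,-xi]`. It is
  fixed by all four: c1: `X = x/xi ≤ -1`; c2: `X = (-1 + x/xi)/2 ≤ -1`; c3: `X = x/xi ≤ -1`;
  c4: `X = (-1 + x/xi)/2 ≤ -1` (here `p 2 = ze = -hh`, `p 1 = 0`).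
* `τ ≥ 3/4`: `(x,0,ze)`, `x ∈ [xi,2xi]`, equal to `sgm pbi pb (3/4) 1 τ`: c1: `X ≥ 1`; c2:
  `X = (-1 + x/xi)/2 ∈ [0,1/2]`, `Z = (-1 - x/xi)/2 ≤ -1`, fixed; c3: `X ≥ 1`; c4: as c2.
* `τ ∈ [1/4,3/4]`: `edgeB true τ = sgm pai pbi (1/4) (3/4) τ`. Move 1 gives `sgm pai P2m (1/4) (1/2) τ`
  for `τ ≤ 1/2`, else `sgm P2m pbi (1/2) (3/4) τ`.
  - `τ ∈ [1/2,3/4]`: point `(xi,0,z)`, `z ∈ [ze,0]`: c2: `X = 1 + z/hh ∈ [0,1]`, `Z = z/hh = X - 1`, so
    `Z = -(1-|X|) ≤ -(e(1-|X|))`, fixed; c3: `X = 1`, fixed; c4: `X = 0`, `Z = -1`, fixed.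
  - `τ ∈ [1/4,1/2]`: move 2 gives `sgm pai P1m (1/4) (3/8) τ` for `τ ≤ 3/8` and
    `sgm P1m P2m (3/8) (1/2) τ` after. On `[1/4,3/8]`: point `(-xi,0,z)`: c3: `X = -1`, c4: `X = -1`:
    fixed. On `[3/8,1/2]` move 3 gives `sgm P1m P2p (3/8) (7/16) τ` for `τ ≤ 7/16` and
    `sgm P2p P2m (7/16) (1/2) τ` after. On `[7/16,1/2]`: point `(xi,y,0)`, `y ∈ [0,2ss]`: c4:
    `X = y/(2ss)`, `Z = X - 1`, fixed. On `[3/8,7/16]` move 4 gives `sgm P1m P1p (3/8) (13/32) τ` for
    `τ ≤ 13/32` and `sgm P1p P2p (13/32) (7/16) τ` after.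
At the division times the two descriptions agree, take care of the `if` in `PT` (e.g. at `τ = 1/2` the
point `sgm P2p P2m (7/16) (1/2) (1/2) = P2m`).
-/

noncomputable section

namespace BOR

open Set

private theorem mc1 (a y b : ℝ) : c1 (pt (xi * a) y (ze + hh * b)) = pt (a - b) y b := by
  have hx := xi_pos.ne'
  have hh0 := hh_pos.ne'
  apply ext3
  · simp only [c1, pt_0, pt_2]; field_simp; ring
  · simp only [c1, pt_1]
  · simp only [c1, pt_2]; field_simp; ring

private theorem mc2 (a y b : ℝ) : c2 (pt (xi * a) y (hh * b)) =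
    pt ((1 + 2 * b + a) / 2) y ((1 + 2 * b - a) / 2) := by
  have hx := xi_pos.ne'
  have hh0 := hh_pos.ne'
  apply ext3
  · simp only [c2, pt_0, pt_2]; field_simp
  · simp only [c2, pt_1]
  · simp only [c2, pt_0, pt_2]; field_simp

private theorem mc3 (a b z : ℝ) : c3 (pt (xi * a) (2 * ss * b) z) = pt (a - b) z b := by
  have hx := xi_pos.ne'
  have hs0 := ss_pos.ne'
  apply ext3
  · simp only [c3, pt_0, pt_1]; field_simp
  · simp only [c3, pt_1, pt_2]
  · simp only [c3, pt_1, pt_2]; field_simp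

private theorem mc4 (a b z : ℝ) : c4 (pt (xi * a) (ss * b) z) =
    pt ((b - 1 + a) / 2) z ((b - 1 - a) / 2) := by
  have hx := xi_pos.ne'
  have hs0 := ss_pos.ne'
  apply ext3
  · simp only [c4, pt_0, pt_1]; field_simp
  · simp only [c4, pt_1, pt_2]
  · simp only [c4, pt_0, pt_1, pt_2]; field_simp

private theorem nX {X Y Z : ℝ} (h : 1 ≤ |X|) : pt X Y Z ∉ TE (g / 100) := by
  rintro ⟨h1, -⟩
  rw [pt_0] at h1
  linarith

private theorem nZ {X Y Z : ℝ} (h0 : |X| ≤ 1) (h : Z ≤ -(1 - |X|)) : pt X Y Z ∉ TE (g / 100) := by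
  rintro ⟨h1, -, h3, -⟩
  rw [pt_0, pt_2] at h3
  have hg := g_le
  have hg0 := g_pos
  have : g / 100 * (1 - |X|) ≤ 1 * (1 - |X|) :=
    mul_le_mul_of_nonneg_right (by norm_num at hg ⊢; linarith) (by linarith)
  linarith

theorem MT_path (Φ1 Φ2 Φ3 Φ4 : E3 ≃ₜ E3) (h1 : IsTM Φ1 c1 pai pbi P2m)
    (h2 : IsTM Φ2 c2 pai P2m P1m) (h3 : IsTM Φ3 c3 P1m P2m P2p) (h4 : IsTM Φ4 c4 P1m P2p P1p)
    (τ : ℝ) (hτ : τ ∈ Icc (0 : ℝ) 1) : Φ4 (Φ3 (Φ2 (Φ1 (edgeB true τ)))) = PT τ := by
  obtain ⟨hτ0, hτ1⟩ := hτ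
  have hze : ze = hh * (-1) := by unfold ze hh; ring
  have hE : edgeB true τ = pt (xi * (4 * τ - 2)) 0 ze := by
    change pt (-de + 2 * de * τ) 0 ze = _
    apply ext3
    · simp [de]; ring
    · simp
    · simp
  -- the edge outside of the middle half is fixed by all moves
  have hfix : 1 ≤ |4 * τ - 2| → Φ4 (Φ3 (Φ2 (Φ1 (edgeB true τ)))) = edgeB true τ := by
    intro hab
    have f1 : Φ1 (edgeB true τ) = edgeB true τ := by
      apply h1.1
      have := mc1 (4 * τ - 2) 0 0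
      rw [mul_zero, add_zero, sub_zero] at this
      rw [hE, this]
      exact nX hab
    have f2 : Φ2 (edgeB true τ) = edgeB true τ := by
      apply h2.1
      have := mc2 (4 * τ - 2) 0 (-1)
      rw [hE, hze, this]
      rcases le_abs.1 hab with h | h
      · apply nZ
        · rw [abs_le]; constructor <;> linarith
        · rw [abs_of_nonneg (by linarith)]; linarith
      · apply nX
        rw [le_abs]; right; linarith
    have f3 : Φ3 (edgeB true τ) = edgeB true τ := by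
      apply h3.1
      have := mc3 (4 * τ - 2) 0 ze
      rw [mul_zero, sub_zero] at this
      rw [hE, this]
      exact nX hab
    have f4 : Φ4 (edgeB true τ) = edgeB true τ := by
      apply h4.1
      have := mc4 (4 * τ - 2) 0 ze
      rw [mul_zero] at this
      rw [hE, this]
      rcases le_abs.1 hab with h | h
      · apply nZ
        · rw [abs_le]; constructor <;> linarith
        · rw [abs_of_nonneg (by linarith)]; linarith
      · apply nX
        rw [le_abs]; right; linarith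
    rw [f1, f2, f3, f4]
  rcases le_or_gt τ (1 / 4) with c14 | c14
  · rw [hfix (by rw [le_abs]; right; linarith), PT, if_pos c14, hE]
    apply ext3
    · simp [sgm, pa, pai]; ring
    · simp [sgm, pa, pai]
    · simp [sgm, pa, pai]
  rcases le_or_gt τ (3 / 4) with c34 | c34
  swap
  · rw [hfix (by rw [le_abs]; left; linarith), PT, if_neg (by linarith), if_neg (by linarith),
      if_neg (by linarith), if_neg (by linarith), if_neg (by linarith), if_neg (by linarith), hE]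
    apply ext3
    · simp [sgm, pbi, pb]; ring
    · simp [sgm, pbi, pb]
    · simp [sgm, pbi, pb]
  have hE2 : edgeB true τ = sgm pai pbi (1 / 4) (3 / 4) τ := by
    rw [hE]
    apply ext3
    · simp [sgm, pai, pbi]; ring
    · simp [sgm, pai, pbi]
    · simp [sgm, pai, pbi]
  have m1 : ((1 / 4 : ℝ) + 3 / 4) / 2 = 1 / 2 := by norm_num
  have m2 : ((1 / 4 : ℝ) + 1 / 2) / 2 = 3 / 8 := by norm_num
  have m3 : ((3 / 8 : ℝ) + 1 / 2) / 2 = 7 / 16 := by norm_num
  have m4 : ((3 / 8 : ℝ) + 7 / 16) / 2 = 13 / 32 := by norm_num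
  rw [hE2, h1.2 (1 / 4) (3 / 4) τ (by norm_num) c14.le c34, m1]
  rcases le_or_gt τ (1 / 2) with c12 | c12
  swap
  · rw [if_neg (by linarith), PT, if_neg (by linarith), if_neg (by linarith),
      if_neg (by linarith), if_neg (by linarith), if_neg (by linarith), if_pos c34]
    have hq : sgm P2m pbi (1 / 2) (3 / 4) τ = pt (xi * 1) 0 (hh * (2 - 4 * τ)) := by
      apply ext3
      · simp [sgm, P2m, pbi]
      · simp [sgm, P2m, pbi]
      · simp [sgm, P2m, pbi, ze, hh]; ring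
    have f2 : Φ2 (pt (xi * 1) 0 (hh * (2 - 4 * τ))) = pt (xi * 1) 0 (hh * (2 - 4 * τ)) := by
      apply h2.1
      rw [mc2]
      apply nZ
      · rw [abs_le]; constructor <;> linarith
      · rw [abs_of_nonneg (by linarith)]; linarith
    have f3 : Φ3 (pt (xi * 1) 0 (hh * (2 - 4 * τ))) = pt (xi * 1) 0 (hh * (2 - 4 * τ)) := by
      apply h3.1
      have := mc3 1 0 (hh * (2 - 4 * τ))
      rw [mul_zero (2 * ss)] at this
      rw [this]
      apply nX
      norm_num
    have f4 : Φ4 (pt (xi * 1) 0 (hh * (2 - 4 * τ))) = pt (xi * 1) 0 (hh * (2 - 4 * τ)) := by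
      apply h4.1
      have := mc4 1 0 (hh * (2 - 4 * τ))
      rw [mul_zero ss] at this
      rw [this]
      apply nZ
      · norm_num
      · norm_num
    rw [hq, f2, f3, f4]
  rw [if_pos c12, h2.2 (1 / 4) (1 / 2) τ (by norm_num) c14.le c12, m2]
  rcases le_or_gt τ (3 / 8) with c38 | c38
  · rw [if_pos c38, PT, if_neg (by linarith), if_pos c38]
    have hq : sgm pai P1m (1 / 4) (3 / 8) τ = pt (xi * (-1)) 0 (hh * (8 * τ - 3)) := by
      apply ext3
      · simp [sgm, pai, P1m]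
      · simp [sgm, pai, P1m]
      · simp [sgm, pai, P1m, ze, hh]; ring
    have f3 : Φ3 (pt (xi * (-1)) 0 (hh * (8 * τ - 3))) = pt (xi * (-1)) 0 (hh * (8 * τ - 3)) := by
      apply h3.1
      have := mc3 (-1) 0 (hh * (8 * τ - 3))
      rw [mul_zero (2 * ss)] at this
      rw [this]
      apply nX
      norm_num
    have f4 : Φ4 (pt (xi * (-1)) 0 (hh * (8 * τ - 3))) = pt (xi * (-1)) 0 (hh * (8 * τ - 3)) := by
      apply h4.1
      have := mc4 (-1) 0 (hh * (8 * τ - 3))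
      rw [mul_zero ss] at this
      rw [this]
      apply nX
      norm_num
    rw [hq, f3, f4]
  rw [if_neg (by linarith), h3.2 (3 / 8) (1 / 2) τ (by norm_num) c38.le c12, m3]
  rcases le_or_gt τ (7 / 16) with c716 | c716
  swap
  · rw [if_neg (by linarith), PT, if_neg (by linarith), if_neg (by linarith),
      if_neg (by linarith), if_neg (by linarith), if_pos c12]
    have hq : sgm P2p P2m (7 / 16) (1 / 2) τ = pt (xi * 1) (ss * (2 * (8 - 16 * τ))) 0 := by
      apply ext3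
      · simp [sgm, P2p, P2m]
      · simp [sgm, P2p, P2m]; ring
      · simp [sgm, P2p, P2m]
    have f4 : Φ4 (pt (xi * 1) (ss * (2 * (8 - 16 * τ))) 0) =
        pt (xi * 1) (ss * (2 * (8 - 16 * τ))) 0 := by
      apply h4.1
      rw [mc4]
      apply nZ
      · rw [abs_le]; constructor <;> linarith
      · rw [abs_of_nonneg (by linarith)]; linarith
    rw [hq, f4]
  rw [if_pos c716, h4.2 (3 / 8) (7 / 16) τ (by norm_num) c38.le c716, m4]
  rcases le_or_gt τ (13 / 32) with c1332 | c1332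
  · rw [if_pos c1332, PT, if_neg (by linarith), if_neg (by linarith), if_pos c1332]
  · rw [if_neg (by linarith), PT, if_neg (by linarith), if_neg (by linarith),
      if_neg (by linarith), if_pos c716]

end BOR

end
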