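import Pool.Agent.BOR.TDef

/-!
# BOR / MTC: supports of the four triangle moves

PROOF. `e = g/100`; `(X,Y,Z)` are the coordinates `c_i p`, so `|X| < 1`, `|Y| < e (1-|X|)`,
`-(e (1-|X|)) < Z < (1+e)(1-|X|)`.
1. `p 0 = xi (X+Z)`, `p 1 = Y`, `p 2 = ze + hh Z`. `-1 ≤ X + Z ≤ 1 + e`. So `|p 0| ≤ (1+e) xi`,
   `|p 1| ≤ e`, `ze - hh e ≤ p 2 ≤ ze + hh (1+e) = hh e`. If `p 2 < ze + w/2`: `p ∈ bodyT 1`, because
   `sg (de - |p 0|) ≥ 2/3 (1-e) xi ≥ w`, so `dT (p 0) = w`, and `|p 1| ≤ g/100 ≤ w = g/64`,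
   `|p 2 - ze| ≤ max (w/2) (hh g/100) ≤ w`. Otherwise `p ∈ boxT`.
   Zone: if `p 0 ≥ xi` then `X + Z ≥ 1`, `Z ≥ 1 - X > 0`, and `p 0 - xi = xi (X + Z - 1) ≤ xi Z ≤ hh Z`
   `= p 2 - ze`. If `p 0 ≤ -xi` then `X + Z ≤ -1`, impossible: `X + Z > X - e (1-|X|) ≥ -1`
   (as `1 - |X| > 0`, `e < 1`; if `X < 0`: `X = -(|X|)`, `-|X| - e(1-|X|) > -|X| - (1-|X|) = -1`).
2. `p 0 = xi (X-Z)`, `p 1 = Y`, `p 2 = -hh/2 + hh/2 (X+Z)`. `-(1+e) ≤ X - Z ≤ 1`, `-1 < X + Z ≤ 1+e`, so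
   `ze < p 2 ≤ hh e/2`, `|p 0| ≤ (1+e) xi`, `|p 1| ≤ e`; same two cases for the cell. Zone: `p 0 ≥ xi`
   means `X - Z ≥ 1`, impossible (`Z > -(e(1-|X|)) > -(1-|X|)`). `p 0 ≤ -xi`: `Z ≥ 1 + X`,
   `|p 0| - xi = xi (Z - X - 1)`, `p 2 - ze = hh/2 (1+X+Z) ≥ hh/2 (Z - X - 1) ≥ xi (Z - X - 1)` since
   `1 + X ≥ 0`.
3. `p 0 = xi (X+Z)`, `p 1 = 2 ss Z`, `p 2 = Y`: `|p 0| ≤ (1+e) xi`, `|p 1| ≤ 2 ss (1+e)`, `|p 2| ≤ e`;
   in `boxT`. Zone: `|p 0| - xi ≤ e xi ≤ 1/2 ≤ p 2 - ze`.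
4. `p 0 = xi (X-Z)`, `p 1 = ss + ss (X+Z)`, `p 2 = Y`: the same.
-/

noncomputable section

namespace BOR

open Set

private theorem inCell {p : E3} (h0 : |p 0| ≤ (1 + g / 100) * xi) (h1 : |p 1| ≤ g / 100)
    (h2 : -(hh * (g / 100)) ≤ p 2 - ze) (h3 : p 2 ≤ 1) : p ∈ cellB true := by
  have hg := g_pos
  have hg1 := g_le
  norm_num at hg1
  have hx := xi_gt
  have hx2 := xi_lt
  have hx0 := xi_pos
  have ha := al_sq_gt
  have ha1 := al_gt
  have hgx : g * xi ≤ 1 / 1000 * xi := mul_le_mul_of_nonneg_right (by linarith) hx0.le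
  have hgg : g * g ≤ 1 / 1000 * g := mul_le_mul_of_nonneg_right (by linarith) hg.le
  have hde := de_def
  have hw := w_def
  have hhh : hh = 1 + g / 8 := by unfold hh eta; ring
  rcases lt_or_ge (p 2) (ze + w / 2) with hlt | hge
  · left
    have hdT : dT (p 0) = w := by
      unfold dT
      apply min_eq_right
      rw [sg_def, hde, hw]
      nlinarith
    constructor
    · rw [hdT, hw]; linarith
    · rw [hdT, hw, abs_le]
      rw [hhh] at h2
      rw [hw] at hlt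
      constructor <;> nlinarith
  · right
    refine ⟨by nlinarith, by linarith, hge, h3⟩

private theorem inBox {p : E3} (h0 : |p 0| ≤ (1 + g / 100) * xi)
    (h1 : |p 1| ≤ 2 * ss * (1 + g / 100)) (h2 : |p 2| ≤ g / 100) : p ∈ cellB true := by
  have hg := g_pos
  have hg1 := g_le
  norm_num at hg1
  have hx2 := xi_lt
  have hx0 := xi_pos
  have hs := ss_lt
  have hs0 := ss_pos
  have ha := al_sq_gt
  have ha1 := al_gt
  have hgx : g * xi ≤ 1 / 1000 * xi := mul_le_mul_of_nonneg_right (by linarith) hx0.le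
  have hgs : g * ss ≤ 1 / 1000 * ss := mul_le_mul_of_nonneg_right (by linarith) hs0.le
  have hw := w_def
  have hze : ze = -1 - g / 8 := by unfold ze eta; ring
  have h3 := abs_le.1 h2
  right
  refine ⟨by nlinarith, by nlinarith, ?_, by linarith⟩
  rw [hze, hw]
  linarith

/-- elementary bounds for the coordinates in the support -/
private theorem tri {X Z e : ℝ} (he : 0 < e) (he1 : e < 1) (hX : |X| < 1)
    (hZ1 : -(e * (1 - |X|)) < Z) (hZ2 : Z < (1 + e) * (1 - |X|)) :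
    (-1 < X + Z ∧ X + Z ≤ 1 + e) ∧ (X - Z < 1 ∧ -(1 + e) ≤ X - Z) ∧ -e ≤ Z ∧ Z ≤ 1 + e := by
  have h1 : X ≤ |X| := le_abs_self X
  have h2 : -|X| ≤ X := neg_abs_le X
  have h3 : 0 ≤ |X| := abs_nonneg X
  have hk : 0 < 1 - |X| := by linarith
  have h4 : e * (1 - |X|) < 1 - |X| := by nlinarith
  have h5 : e * (1 - |X|) ≤ e := by nlinarith
  refine ⟨⟨by linarith, by linarith⟩, ⟨by linarith, by linarith⟩, by linarith, by linarith⟩

theorem supp1 {p : E3} (h : c1 p ∈ TE (g / 100)) : p ∈ cellB true ∧ p ∈ Zone := by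
  have hx0 := xi_pos
  have hh0 := hh_pos
  have hg := g_pos
  have hg1 := g_le
  norm_num at hg1
  obtain ⟨h1, h2, h3, h4⟩ := h
  simp only [c1, pt_0, pt_1, pt_2] at h1 h2 h3 h4
  obtain ⟨Z, hZ⟩ : ∃ Z, Z = (p 2 - ze) / hh := ⟨_, rfl⟩
  obtain ⟨X, hX⟩ : ∃ X, X = p 0 / xi - (p 2 - ze) / hh := ⟨_, rfl⟩
  rw [← hX] at h1 h2 h3 h4
  rw [← hZ] at h3 h4
  have hp2 : p 2 - ze = hh * Z := by rw [hZ]; field_simp
  have hp0 : p 0 = xi * (X + Z) := by
    rw [hX, hZ]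
    have := hx0.ne'
    field_simp
    ring
  obtain ⟨⟨a1, a2⟩, ⟨a3, a4⟩, a5, a6⟩ := tri (by positivity) (by linarith) h1 h3 h4
  have hhh : hh = 1 + g / 8 := by unfold hh eta; ring
  have hze : ze = -hh := by unfold ze hh; ring
  have hxhh : xi ≤ hh := by
    have := xi_lt
    rw [hhh]; linarith
  have hb0 : |p 0| ≤ (1 + g / 100) * xi := by
    rw [hp0, abs_le]
    constructor <;> nlinarith
  refine ⟨inCell hb0 ?_ ?_ ?_, ?_⟩
  · have : g / 100 * (1 - |X|) ≤ g / 100 * 1 :=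
      mul_le_mul_of_nonneg_left (by linarith [abs_nonneg X]) (by positivity)
    linarith
  · rw [hp2]
    nlinarith
  · have h5 : p 2 = hh * (Z - 1) := by rw [mul_sub, ← hp2, hze]; ring
    rw [h5]
    have h6 : hh * (Z - 1) ≤ hh * (g / 100) := mul_le_mul_of_nonneg_left (by linarith) hh0.le
    have h7 : hh * (g / 100) ≤ 2 * (g / 100) :=
      mul_le_mul_of_nonneg_right (by rw [hhh]; linarith) (by positivity)
    linarith
  · rcases lt_or_ge |p 0| xi with h5 | h5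
    · exact Or.inl h5
    · right
      change |p 0| - xi ≤ p 2 - ze
      have h6 : 0 ≤ p 0 := by
        by_contra hneg
        push Not at hneg
        rw [abs_of_neg hneg, hp0] at h5
        nlinarith
      rw [abs_of_nonneg h6] at h5 ⊢
      rw [hp2]
      rw [hp0] at h5 ⊢
      have h7 : 1 ≤ X + Z := by
        by_contra hneg
        push Not at hneg
        nlinarith
      have h8 : X ≤ 1 := (le_abs_self X).trans h1.le
      have h9 : 0 ≤ Z := by linarith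
      have h10 : xi * Z ≤ hh * Z := mul_le_mul_of_nonneg_right hxhh h9
      nlinarith

theorem supp2 {p : E3} (h : c2 p ∈ TE (g / 100)) : p ∈ cellB true ∧ p ∈ Zone := by
  have hx0 := xi_pos
  have hh0 := hh_pos
  have hg := g_pos
  have hg1 := g_le
  norm_num at hg1
  obtain ⟨h1, h2, h3, h4⟩ := h
  simp only [c2, pt_0, pt_1, pt_2] at h1 h2 h3 h4
  obtain ⟨Z, hZ⟩ : ∃ Z, Z = (1 + 2 * p 2 / hh - p 0 / xi) / 2 := ⟨_, rfl⟩
  obtain ⟨X, hX⟩ : ∃ X, X = (1 + 2 * p 2 / hh + p 0 / xi) / 2 := ⟨_, rfl⟩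
  rw [← hX] at h1 h2 h3 h4
  rw [← hZ] at h3 h4
  have hze : ze = -hh := by unfold ze hh; ring
  have hp2 : p 2 - ze = hh / 2 * (1 + (X + Z)) := by
    rw [hZ, hX, hze]
    have := hh0.ne'
    field_simp
    ring
  have hp0 : p 0 = xi * (X - Z) := by
    rw [hX, hZ]
    have := hx0.ne'
    field_simp
    ring
  obtain ⟨⟨a1, a2⟩, ⟨a3, a4⟩, a5, a6⟩ := tri (by positivity) (by linarith) h1 h3 h4
  have hhh : hh = 1 + g / 8 := by unfold hh eta; ring
  have hxhh : xi ≤ hh / 2 := by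
    have := xi_lt
    rw [hhh]; linarith
  have hb0 : |p 0| ≤ (1 + g / 100) * xi := by
    rw [hp0, abs_le]
    constructor <;> nlinarith
  refine ⟨inCell hb0 ?_ ?_ ?_, ?_⟩
  · have : g / 100 * (1 - |X|) ≤ g / 100 * 1 :=
      mul_le_mul_of_nonneg_left (by linarith [abs_nonneg X]) (by positivity)
    linarith
  · rw [hp2]
    have : 0 ≤ hh / 2 * (1 + (X + Z)) := mul_nonneg (by linarith) (by linarith)
    nlinarith
  · have h5 : p 2 = hh / 2 * (X + Z - 1) := by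
      have : p 2 = hh / 2 * (1 + (X + Z)) + ze := by linarith
      rw [this, hze]; ring
    rw [h5]
    have h6 : hh / 2 * (X + Z - 1) ≤ hh / 2 * (g / 100) :=
      mul_le_mul_of_nonneg_left (by linarith) (by linarith)
    have h7 : hh / 2 * (g / 100) ≤ 1 * (g / 100) :=
      mul_le_mul_of_nonneg_right (by rw [hhh]; linarith) (by positivity)
    linarith
  · rcases lt_or_ge |p 0| xi with h5 | h5
    · exact Or.inl h5
    · right
      change |p 0| - xi ≤ p 2 - ze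
      have h6 : p 0 < 0 := by
        by_contra hneg
        push Not at hneg
        rw [abs_of_nonneg hneg, hp0] at h5
        nlinarith
      rw [abs_of_neg h6] at h5 ⊢
      rw [hp2]
      rw [hp0] at h5 ⊢
      have h7 : 1 ≤ Z - X := by
        by_contra hneg
        push Not at hneg
        nlinarith
      have h8 : -1 ≤ X := by
        have := neg_abs_le X
        linarith
      have h10 : xi * (Z - X - 1) ≤ hh / 2 * (Z - X - 1) :=
        mul_le_mul_of_nonneg_right hxhh (by linarith)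
      have h11 : hh / 2 * (Z - X - 1) ≤ hh / 2 * (1 + (X + Z)) :=
        mul_le_mul_of_nonneg_left (by linarith) (by linarith)
      nlinarith

theorem supp3 {p : E3} (h : c3 p ∈ TE (g / 100)) : p ∈ cellB true ∧ p ∈ Zone := by
  have hx0 := xi_pos
  have hs0 := ss_pos
  have hg := g_pos
  have hg1 := g_le
  norm_num at hg1
  obtain ⟨h1, h2, h3, h4⟩ := h
  simp only [c3, pt_0, pt_1, pt_2] at h1 h2 h3 h4
  obtain ⟨Z, hZ⟩ : ∃ Z, Z = p 1 / (2 * ss) := ⟨_, rfl⟩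
  obtain ⟨X, hX⟩ : ∃ X, X = p 0 / xi - p 1 / (2 * ss) := ⟨_, rfl⟩
  rw [← hX] at h1 h2 h3 h4
  rw [← hZ] at h3 h4
  have hp1 : p 1 = 2 * ss * Z := by
    rw [hZ]
    have := hs0.ne'
    field_simp
  have hp0 : p 0 = xi * (X + Z) := by
    rw [hX, hZ]
    have := hx0.ne'
    field_simp
    ring
  obtain ⟨⟨a1, a2⟩, ⟨a3, a4⟩, a5, a6⟩ := tri (by positivity) (by linarith) h1 h3 h4
  have hze : ze = -1 - g / 8 := by unfold ze eta; ring
  have hb0 : |p 0| ≤ (1 + g / 100) * xi := by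
    rw [hp0, abs_le]
    constructor <;> nlinarith
  have hb2 : |p 2| ≤ g / 100 := by
    have : g / 100 * (1 - |X|) ≤ g / 100 * 1 :=
      mul_le_mul_of_nonneg_left (by linarith [abs_nonneg X]) (by positivity)
    linarith
  refine ⟨inBox hb0 ?_ hb2, ?_⟩
  · rw [hp1, abs_le]
    constructor <;> nlinarith
  · right
    change |p 0| - xi ≤ p 2 - ze
    have := abs_le.1 hb2
    have h7 : g / 100 * xi ≤ 1 * xi := mul_le_mul_of_nonneg_right (by linarith) hx0.le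
    have := xi_lt
    rw [hze]
    linarith

theorem supp4 {p : E3} (h : c4 p ∈ TE (g / 100)) : p ∈ cellB true ∧ p ∈ Zone := by
  have hx0 := xi_pos
  have hs0 := ss_pos
  have hg := g_pos
  have hg1 := g_le
  norm_num at hg1
  obtain ⟨h1, h2, h3, h4⟩ := h
  simp only [c4, pt_0, pt_1, pt_2] at h1 h2 h3 h4
  obtain ⟨Z, hZ⟩ : ∃ Z, Z = (p 1 / ss - 1 - p 0 / xi) / 2 := ⟨_, rfl⟩
  obtain ⟨X, hX⟩ : ∃ X, X = (p 1 / ss - 1 + p 0 / xi) / 2 := ⟨_, rfl⟩
  rw [← hX] at h1 h2 h3 h4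
  rw [← hZ] at h3 h4
  have hp1 : p 1 = ss * (1 + (X + Z)) := by
    rw [hZ, hX]
    have := hs0.ne'
    field_simp
    ring
  have hp0 : p 0 = xi * (X - Z) := by
    rw [hX, hZ]
    have := hx0.ne'
    field_simp
    ring
  obtain ⟨⟨a1, a2⟩, ⟨a3, a4⟩, a5, a6⟩ := tri (by positivity) (by linarith) h1 h3 h4
  have hze : ze = -1 - g / 8 := by unfold ze eta; ring
  have hb0 : |p 0| ≤ (1 + g / 100) * xi := by
    rw [hp0, abs_le]
    constructor <;> nlinarith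
  have hb2 : |p 2| ≤ g / 100 := by
    have : g / 100 * (1 - |X|) ≤ g / 100 * 1 :=
      mul_le_mul_of_nonneg_left (by linarith [abs_nonneg X]) (by positivity)
    linarith
  refine ⟨inBox hb0 ?_ hb2, ?_⟩
  · rw [hp1, abs_le]
    constructor <;> nlinarith
  · right
    change |p 0| - xi ≤ p 2 - ze
    have := abs_le.1 hb2
    have h7 : g / 100 * xi ≤ 1 * xi := mul_le_mul_of_nonneg_right (by linarith) hx0.le
    have := xi_lt
    rw [hze]
    linarith

end BOR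

end
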