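import Pool.Agent.BOR.MTA
import Pool.Agent.BOR.MTB
import Pool.Agent.BOR.MTC

/-!
# BOR / MTD: the homeomorphism which maps the edge of a T cell to the path

PROOF. `M p = Φ4 (Φ3 (Φ2 (Φ1 p)))`. If `M p ≠ p`, let `i` be the first index such that `Φ_i` moves
`p` (the previous ones fix `p`); then `c_i p ∈ TE (g/100)` and `supp_i` applies. The path: `MT_path`.
-/

noncomputable section

namespace BOR

open Set

theorem MT : ∃ M : E3 ≃ₜ E3, (∀ p, M p ≠ p → p ∈ cellB true ∧ p ∈ Zone) ∧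
    ∀ τ ∈ Icc (0 : ℝ) 1, M (edgeB true τ) = PT τ := by
  obtain ⟨Φ1, h1⟩ := mt1
  obtain ⟨Φ2, h2⟩ := mt2
  obtain ⟨Φ3, h3⟩ := mt3
  obtain ⟨Φ4, h4⟩ := mt4
  refine ⟨((Φ1.trans Φ2).trans Φ3).trans Φ4, ?_, ?_⟩
  · intro p hp
    change Φ4 (Φ3 (Φ2 (Φ1 p))) ≠ p at hp
    by_cases m1 : c1 p ∈ TE (g / 100)
    · exact supp1 m1
    rw [h1.1 p m1] at hp
    by_cases m2 : c2 p ∈ TE (g / 100)
    · exact supp2 m2
    rw [h2.1 p m2] at hp
    by_cases m3 : c3 p ∈ TE (g / 100)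
    · exact supp3 m3
    rw [h3.1 p m3] at hp
    by_cases m4 : c4 p ∈ TE (g / 100)
    · exact supp4 m4
    exact absurd (h4.1 p m4) hp
  · intro τ hτ
    exact MT_path Φ1 Φ2 Φ3 Φ4 h1 h2 h3 h4 τ hτ

end BOR

end
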