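import Pool.Agent.BOR.VSG
import Pool.Agent.BOR.BLK

/-!
# BOR / NLC: a copy of the curve is contractible in the complement of a closed set disjoint from the
copy and from its region `V`

PROOF. Let `X = K0` (compact, as a subtype) and `Y = Bᶜ` (subtype). For continuous maps
`f, f' : X → E3` such that `segment (f x) (f' x)` avoids `B` for all `x` the straight homotopy shows that
`f, f'` are homotopic as maps to `Y` (`ContinuousMap.Homotopic`, an equivalence relation). Maps:
`f∞ x = G (k x)`, `f_n x = G (h n x)`. For `x ∈ K0`, `x = gam0 t`, by `seg_VV` and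
`Sim.map_comb` the segment from `f_n x` to `f_(n+1) x` is in `G '' VV`, which is disjoint from `B`; in
particular `f_n x ∉ B`. So all `f_n` are homotopic to `f_0 = G` restricted to `K0`, which has values in
the convex set `G '' VT ⊆ G '' VV` (`gam0_VT`), so it is homotopic to a constant. Finally
`G '' (k '' K0)` is compact and disjoint from the closed set `B`, so there is `δ > 0` with
`dist p q > δ` for `p` in the copy, `q ∈ B`; for large `n` `dist (h n x) (k x) ≤ δ/G.s`
(`IsLimit.unif`), so the segment from `f∞ x` to `f_n x` is in the closed `δ`-ball of `f∞ x` and avoids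
`B`. Hence `f∞` is homotopic in `Bᶜ` to a constant, by a homotopy `Θ : [0,1] × X → Y` (use
`ContinuousMap.Homotopy` with unitInterval). Put `H t y = Θ (clamp t) ((G ∘ k)⁻¹ y)` for `y` in the
copy (any value elsewhere), continuous on `Icc 0 1 ×ˢ G '' (k '' K0)`.
-/

noncomputable section

namespace BOR

open Set

/-- straight homotopy in the complement of `B` -/
theorem homotopic_of_seg {X : Type*} [TopologicalSpace X] {B : Set E3}
    (f f' : C(X, {p : E3 // p ∉ B}))
    (hh : ∀ x, ∀ s ∈ Icc (0 : ℝ) 1, (f x : E3) + s • ((f' x : E3) - f x) ∉ B) :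
    f.Homotopic f' := by
  refine ⟨{ toFun := fun q => ⟨(f q.2 : E3) + (q.1 : ℝ) • ((f' q.2 : E3) - f q.2),
              hh q.2 q.1 q.1.2⟩,
            continuous_toFun := ?_, map_zero_left := ?_, map_one_left := ?_ }⟩
  · refine Continuous.subtype_mk ?_ _
    fun_prop
  · intro x
    apply Subtype.ext
    simp
  · intro x
    apply Subtype.ext
    simp

theorem null_of_homotopy {A B K1 : Set E3} (j : E3 → E3) (hj : Continuous j)
    (hjA : ∀ y ∈ A, j y ∈ K1) (Θ : C(unitInterval × K1, {p : E3 // p ∉ B}))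
    (h0 : ∀ y (hy : y ∈ A), (Θ (0, ⟨j y, hjA y hy⟩) : E3) = y) (p0 : E3)
    (h1 : ∀ y (hy : y ∈ A), (Θ (1, ⟨j y, hjA y hy⟩) : E3) = p0) : NullIn A B := by
  classical
  refine ⟨fun t y => if hy : y ∈ A then
    (Θ (projIcc 0 1 zero_le_one t, ⟨j y, hjA y hy⟩) : E3) else 0, ?_, ?_, ⟨p0, ?_⟩, ?_⟩
  · rw [continuousOn_iff_continuous_domRestrict]
    have heq : ((Icc (0:ℝ) 1 ×ˢ A).domRestrict (fun q : ℝ × E3 =>
        if hy : q.2 ∈ A then
          (Θ (projIcc 0 1 zero_le_one q.1, ⟨j q.2, hjA q.2 hy⟩) : E3) else 0)) =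
        fun q => (Θ (projIcc 0 1 zero_le_one q.1.1, ⟨j q.1.2, hjA q.1.2 q.2.2⟩) : E3) := by
      funext q
      exact dif_pos q.2.2
    rw [heq]
    refine continuous_subtype_val.comp (Θ.continuous.comp ?_)
    refine Continuous.prodMk ?_ ?_
    · exact continuous_projIcc.comp (continuous_fst.comp continuous_subtype_val)
    · refine Continuous.subtype_mk ?_ _
      exact hj.comp (continuous_snd.comp continuous_subtype_val)
  · intro y hy
    simp only [dif_pos hy]
    rw [projIcc_left]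
    exact h0 y hy
  · intro y hy
    simp only [dif_pos hy]
    rw [projIcc_right]
    exact h1 y hy
  · intro t ht y hy
    simp only [dif_pos hy]
    exact (Θ (projIcc 0 1 zero_le_one t, ⟨_, _⟩)).2

theorem null_copy {k : E3 ≃ₜ E3} {h : ℕ → E3 ≃ₜ E3} (H : IsLimit k h) (G : Sim) {B : Set E3}
    (hB : IsClosed B) (h1 : Disjoint (G '' (k '' K0)) B) (h2 : Disjoint (G '' VV) B) :
    NullIn (G '' (k '' K0)) B := by
  classical
  have hK0 : IsCompact K0 := K0_compact
  have hseg : ∀ n, ∀ x ∈ K0, ∀ s ∈ Icc (0:ℝ) 1,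
      G (h n x) + s • (G (h (n+1) x) - G (h n x)) ∉ B := by
    intro n x hx s hs hB'
    obtain ⟨t, ht, rfl⟩ := hx
    have h3 := seg_VV H n ht
    have h4 : h n (gam0 t) + s • (h (n+1) (gam0 t) - h n (gam0 t)) ∈
        segment ℝ (h n (gam0 t)) (h (n + 1) (gam0 t)) := by
      rw [segment_eq_image']; exact ⟨s, hs, rfl⟩
    have h5 := h3 h4
    rw [← G.map_comb] at hB'
    exact (Set.disjoint_left.1 h2) ⟨_, h5, rfl⟩ hB'
  have hnB : ∀ n, ∀ x ∈ K0, G (h n x) ∉ B := by
    intro n x hx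
    have := hseg n x hx 0 ⟨le_refl _, zero_le_one⟩
    simpa using this
  have hkB : ∀ x ∈ K0, G (k x) ∉ B := fun x hx hb =>
    (Set.disjoint_left.1 h1) ⟨_, ⟨x, hx, rfl⟩, rfl⟩ hb
  let F : ℕ → C(K0, {p : E3 // p ∉ B}) := fun n =>
    ⟨fun x => ⟨G (h n x), hnB n x x.2⟩,
      Continuous.subtype_mk (G.continuous.comp ((h n).continuous.comp continuous_subtype_val)) _⟩
  let Fi : C(K0, {p : E3 // p ∉ B}) :=
    ⟨fun x => ⟨G (k x), hkB x x.2⟩,
      Continuous.subtype_mk (G.continuous.comp (k.continuous.comp continuous_subtype_val)) _⟩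
  have hF : ∀ n, (F n).Homotopic (F (n+1)) := by
    intro n
    exact homotopic_of_seg _ _ (fun x s hs => hseg n x x.2 s hs)
  have hF0 : ∀ n, (F 0).Homotopic (F n) := by
    intro n
    induction n with
    | zero => exact ContinuousMap.Homotopic.refl _
    | succ n ih => exact ih.trans (hF n)
  -- the base point
  have h0mem : gam0 0 ∈ K0 := ⟨0, ⟨le_refl _, zero_le_one⟩, rfl⟩
  let p0 : {p : E3 // p ∉ B} := ⟨G (h 0 (gam0 0)), hnB 0 _ h0mem⟩
  have hc : (F 0).Homotopic (ContinuousMap.const _ p0) := by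
    apply homotopic_of_seg
    intro x s hs hb
    obtain ⟨t, ht, hx⟩ := x.2
    have e1 : (F 0 x : E3) = G (x : E3) := by simp [F, H.zero]
    have e2 : ((ContinuousMap.const K0 p0 : C(K0, {p : E3 // p ∉ B})) x : E3) = G (gam0 0) := by
      simp [p0, H.zero]
    rw [e1, e2, ← G.map_comb] at hb
    have hx1 : (x : E3) ∈ VT := hx ▸ gam0_VT ht
    have hx0 : gam0 0 ∈ VT := gam0_VT ⟨le_refl _, zero_le_one⟩
    have hs1 : (x : E3) + s • (gam0 0 - x) ∈ VT := by
      have : (x : E3) + s • (gam0 0 - x) ∈ segment ℝ (x : E3) (gam0 0) := by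
        rw [segment_eq_image']; exact ⟨s, hs, rfl⟩
      exact VT_convex.segment_subset hx1 hx0 this
    exact (Set.disjoint_left.1 h2) ⟨_, VT_sub hs1, rfl⟩ hb
  -- the last step
  have hKc : IsCompact (G '' (k '' K0)) := (hK0.image k.continuous).image G.continuous
  obtain ⟨δ, hδ, hdist⟩ : ∃ δ : ℝ, 0 < δ ∧ ∀ p ∈ G '' (k '' K0), ∀ q ∈ B, δ < dist p q := by
    obtain ⟨r, hr, hr2⟩ := hKc.exists_cthickening_subset_open hB.isOpen_compl
      (fun p hp hb => (Set.disjoint_left.1 h1) hp hb)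
    refine ⟨r, hr, fun p hp q hq => ?_⟩
    by_contra hcon
    push Not at hcon
    exact hr2 (Metric.mem_cthickening_of_dist_le q p r _ hp (by rwa [dist_comm])) hq
  obtain ⟨N, hN⟩ := H.unif (δ / G.s) (div_pos hδ G.s_pos)
  have hlast : Fi.Homotopic (F N) := by
    apply homotopic_of_seg
    intro x s hs hb
    have e1 : (Fi x : E3) = G (k x) := rfl
    have e2 : (F N x : E3) = G (h N x) := rfl
    rw [e1, e2] at hb
    have := hdist (G (k x)) ⟨_, ⟨x, x.2, rfl⟩, rfl⟩ _ hb
    have h3 : dist (G (k x)) (G (k x) + s • (G (h N x) - G (k x))) ≤ δ := by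
      rw [dist_self_add_right, norm_smul, ← dist_eq_norm, G.dist_app, Real.norm_eq_abs,
        abs_of_nonneg hs.1]
      have h4 := hN N le_rfl x
      have h5 : G.s * dist ((h N) ↑x) (k ↑x) ≤ δ := by
        have := mul_le_mul_of_nonneg_left h4 G.s_pos.le
        rwa [mul_div_cancel₀ _ G.s_pos.ne'] at this
      have h6 : 0 ≤ G.s * dist ((h N) ↑x) (k ↑x) := mul_nonneg G.s_pos.le dist_nonneg
      nlinarith [hs.2]
    linarith
  obtain ⟨Θ⟩ := (hlast.trans (hF0 N).symm).trans hc
  have hsy : ∀ y ∈ G '' (k '' K0), k.symm (G.inv y) ∈ K0 ∧ G (k (k.symm (G.inv y))) = y := by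
    rintro _ ⟨_, ⟨x, hx, rfl⟩, rfl⟩
    have e : k.symm (G.inv (G (k x))) = x := by rw [G.inv_app]; exact k.symm_apply_apply x
    rw [e]
    exact ⟨hx, rfl⟩
  refine null_of_homotopy (fun y => k.symm (G.inv y)) (k.symm.continuous.comp G.inv.continuous)
    (fun y hy => (hsy y hy).1) Θ.toContinuousMap ?_ (p0 : E3) ?_
  · intro y hy
    have e1 : Θ.toContinuousMap (0, ⟨k.symm (G.inv y), (hsy y hy).1⟩) =
        Fi ⟨k.symm (G.inv y), (hsy y hy).1⟩ := Θ.map_zero_left _
    rw [e1]
    exact (hsy y hy).2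
  · intro y hy
    have e1 : Θ.toContinuousMap (1, ⟨k.symm (G.inv y), (hsy y hy).1⟩) =
        (ContinuousMap.const _ p0 : C(K0, {p : E3 // p ∉ B}))
          ⟨k.symm (G.inv y), (hsy y hy).1⟩ := Θ.map_one_left _
    rw [e1]
    rfl

end BOR

end
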