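import Pool.Agent.BOR.Bas

/-!
# BOR / Pat: the pattern of the curve

Constants, cells, edges, frames, nodes and the kids of a node.
`T` cells (flag `true`) are thick boxes `|x| ≤ α²`, `|y| ≤ α`, `|z| ≤ 1` with an edge `e` just
below them; `S` cells (flag `false`) are square double cones about the edge `[0,1]` of the
first axis.
-/

noncomputable section

namespace BOR

open Set

/-! ## Constants -/

/-- `α` is the cube root of `2`. -/
def al : ℝ := (2 : ℝ) ^ ((1 : ℝ) / 3)
/-- the relative size of all gaps -/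
def g : ℝ := 1 / 10 ^ 12
/-- ratio of the two big children of a T cell -/
def r : ℝ := (1 - g) * al ^ 2 / 2
/-- distance of the edge of a T cell below the box -/
def eta : ℝ := g / 8
/-- thickness parameter of the neck of a T cell -/
def w : ℝ := g / 64
/-- height of the edge of a T cell -/
def ze : ℝ := -1 - eta
/-- minus `ze` -/
def hh : ℝ := 1 + eta
def xi : ℝ := g * al ^ 2 / 2 - r * eta
/-- half of the length of the edge of a T cell -/
def de : ℝ := 2 * xi
def ss : ℝ := r * de
/-- scale of the strings -/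
def l0 : ℝ := g / 512
/-- opening of the cones -/
def sg : ℝ := 2 / 3
/-- ratio of the T child of an S cell -/
def rho : ℝ := 1 / 16
def x0 : ℝ := 1 / 2 - rho * (al ^ 2 + g / 8)
/-- length of the strings near the T child of an S cell -/
def ls : ℝ := rho * (al ^ 2 + g / 8 - de)

/-! ## Cells (standard position) -/

/-- The big box of a T cell. -/
def HB : Set E3 := {p | |p 0| ≤ al ^ 2 ∧ |p 1| ≤ al ∧ |p 2| ≤ 1}

/-- The open deep part of the big box. -/
def VT : Set E3 := {p | |p 0| < al ^ 2 - 1 / 4 ∧ |p 1| < al - 1 / 4 ∧ |p 2| < 1 - 1 / 4}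

/-- A box which contains the skeleton of a T cell and lies in the deep part of the parent. -/
def DB : Set E3 := {p | |p 0| ≤ 1 / 2 ∧ |p 1| ≤ 1 / 2 ∧ -(11 / 10) ≤ p 2 ∧ p 2 ≤ 1 / 10}

/-- width function of the neck of a T cell (negative outside of the edge) -/
def dT (x : ℝ) : ℝ := min (sg * (de - |x|)) w

/-- width function of an S cell (negative outside of the edge) -/
def dS (x : ℝ) : ℝ := sg * min x (1 - x)

def bodyT (c : ℝ) : Set E3 := {p | |p 1| ≤ c * dT (p 0) ∧ |p 2 - ze| ≤ c * dT (p 0)}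

def boxT : Set E3 := {p | |p 0| ≤ al ^ 2 ∧ |p 1| ≤ al ∧ ze + w / 2 ≤ p 2 ∧ p 2 ≤ 1}

def boxTp : Set E3 :=
  {p | |p 0| ≤ al ^ 2 + g / 16 ∧ |p 1| ≤ al + g / 16 ∧ ze + w / 4 ≤ p 2 ∧ p 2 ≤ 1 + g / 16}

def bodyS (c : ℝ) : Set E3 := {p | |p 1| ≤ c * dS (p 0) ∧ |p 2| ≤ c * dS (p 0)}

/-- The cell of type `b` in standard position (`true` = T, `false` = S). -/
def cellB : Bool → Set E3
  | true => bodyT 1 ∪ boxT
  | false => bodyS 1

/-- The slightly bigger cell of type `b`. -/
def cellP : Bool → Set E3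
  | true => bodyT (6 / 5) ∪ boxTp
  | false => bodyS (6 / 5)

/-- The edge of a cell of type `b`, parametrised by `[0,1]`. -/
def edgeB : Bool → ℝ → E3
  | true => fun t => pt (-de + 2 * de * t) 0 ze
  | false => fun t => pt t 0 0

/-- size of a cell of type `b` and scale `s` -/
def sz (b : Bool) (s : ℝ) : ℝ := if b then 5 * s else s

/-! ## Nodes -/

/-- A node: type, frame, time interval, and the flag `sq` (squeezed). -/
structure Node where
  typ : Bool
  fr : Sim
  t0 : ℝ
  t1 : ℝ
  sq : Bool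

def Node.cell (v : Node) : Set E3 := v.fr '' cellB v.typ
def Node.cellp (v : Node) : Set E3 := v.fr '' cellP v.typ
/-- the edge of the node, parametrised by its time interval -/
def Node.edge (v : Node) (t : ℝ) : E3 := v.fr (edgeB v.typ ((t - v.t0) / (v.t1 - v.t0)))
/-- the two endpoints of the edge -/
def Node.ends (v : Node) : Set E3 := {v.fr (edgeB v.typ 0), v.fr (edgeB v.typ 1)}
def Node.size (v : Node) : ℝ := sz v.typ v.fr.s

/-- The node `k`, given relatively to `v`, in absolute position. -/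
def Node.comp (v k : Node) : Node where
  typ := k.typ
  fr := v.fr.comp k.fr
  t0 := v.t0 + (v.t1 - v.t0) * k.t0
  t1 := v.t0 + (v.t1 - v.t0) * k.t1
  sq := k.sq

/-- The frame of the `j`-th of `M+1` equal parts of the edge `[0,1]`. -/
def stepF (M j : ℕ) : Sim :=
  ⟨1 / ((M : ℝ) + 1), by positivity, LinearIsometryEquiv.refl ℝ E3, pt ((j : ℝ) / ((M : ℝ) + 1)) 0 0⟩

/-- The `j`-th node of a string. -/
def strN (F : Sim) (M : ℕ) (ta tb : ℝ) (q : Bool) (j : ℕ) : Node where
  typ := false
  fr := F.comp (stepF M j)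
  t0 := ta + (tb - ta) * ((j : ℝ) / ((M : ℝ) + 1))
  t1 := ta + (tb - ta) * (((j : ℝ) + 1) / ((M : ℝ) + 1))
  sq := q

/-- A string: the edge `F [0,1]` is divided into `M+1` equal S edges. -/
def str (F : Sim) (M : ℕ) (ta tb : ℝ) (q : Bool) : List Node :=
  (List.range (M + 1)).map (strN F M ta tb q)

/-! ## Frames of the pattern of a T cell -/

theorem al_pos : 0 < al := by unfold al; positivity

theorem al_cube : al ^ 3 = 2 := by
  unfold al
  rw [← Real.rpow_natCast, ← Real.rpow_mul (by norm_num)]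
  norm_num

theorem al_gt : (1.2599 : ℝ) < al := by
  by_contra h
  push Not at h
  have h1 := al_cube
  have h0 := al_pos
  nlinarith [mul_pos h0 h0, pow_le_pow_left₀ h0.le h 3]

theorem al_lt : al < 1.26 := by
  by_contra h
  push Not at h
  have h1 := al_cube
  nlinarith [pow_le_pow_left₀ (by norm_num : (0:ℝ) ≤ 1.26) h 3]

theorem g_pos : 0 < g := by unfold g; norm_num
theorem g_le : g ≤ 1 / 10 ^ 12 := by unfold g; norm_num

theorem r_pos : 0 < r := by
  unfold r
  have := al_pos
  have : g < 1 := by unfold g; norm_num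
  have h : 0 < 1 - g := by linarith
  positivity

theorem eta_pos : 0 < eta := by unfold eta; have := g_pos; positivity
theorem hh_pos : 0 < hh := by unfold hh; have := eta_pos; linarith

/-- `xi = g al² (7 + g) / 16` -/
theorem xi_eq : xi = g * al ^ 2 * (7 + g) / 16 := by unfold xi r eta; ring

theorem xi_pos : 0 < xi := by
  rw [xi_eq]; have := g_pos; have := al_pos; positivity

theorem de_pos : 0 < de := by unfold de; have := xi_pos; positivity
theorem ss_pos : 0 < ss := by unfold ss; have := de_pos; have := r_pos; positivity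
theorem l0_pos : 0 < l0 := by unfold l0; have := g_pos; positivity

/-- `(x,y,z) ↦ (-al²/2 - r z, ss + r x, r y)` -/
def FT1 : Sim := ⟨r, r_pos, UA1, pt (-al ^ 2 / 2) ss 0⟩
/-- `(x,y,z) ↦ (al²/2 + r z, ss - r x, r y)` -/
def FT2 : Sim := ⟨r, r_pos, UA2, pt (al ^ 2 / 2) ss 0⟩
/-- outer left string, from `a = (-2 xi, 0, ze)` to `(-xi, 0, ze)` -/
def FOL : Sim := ⟨xi, xi_pos, LinearIsometryEquiv.refl ℝ E3, pt (-(2 * xi)) 0 ze⟩
/-- left vertical string, from `(-xi, 0, ze)` to `(-xi, 0, 0)` -/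
def FVL : Sim := ⟨hh, hh_pos, Uzp, pt (-xi) 0 ze⟩
/-- hub string, from `(-xi, 2 ss, 0)` to `(xi, 2 ss, 0)` -/
def FHB : Sim := ⟨2 * xi, by have := xi_pos; positivity, LinearIsometryEquiv.refl ℝ E3,
  pt (-xi) (2 * ss) 0⟩
/-- right vertical string, from `(xi, 0, 0)` to `(xi, 0, ze)` -/
def FVR : Sim := ⟨hh, hh_pos, Uzm, pt xi 0 0⟩
/-- outer right string, from `(xi, 0, ze)` to `b = (2 xi, 0, ze)` -/
def FOR : Sim := ⟨xi, xi_pos, LinearIsometryEquiv.refl ℝ E3, pt xi 0 ze⟩
/-- closing string of the root, from `(xi, 0, 0)` to `(-xi, 0, 0)` -/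
def FCL : Sim := ⟨2 * xi, by have := xi_pos; positivity, Uxm, pt xi 0 0⟩

/-- the number of pieces (minus one) of a string of length `L` in a T cell -/
def NT (L : ℝ) : ℕ := ⌊L / l0⌋₊

/-- The kids of a T cell, in the order of the path. -/
def kidsT : List Node :=
  str FOL (NT xi) 0 (1 / 4) false ++ str FVL (NT hh) (1 / 4) (3 / 8) true ++
  [⟨true, FT1, 3 / 8, 13 / 32, true⟩] ++ str FHB (NT (2 * xi)) (13 / 32) (7 / 16) true ++
  [⟨true, FT2, 7 / 16, 1 / 2, true⟩] ++ str FVR (NT hh) (1 / 2) (3 / 4) true ++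
  str FOR (NT xi) (3 / 4) 1 false

/-! ## Frames of the pattern of an S cell -/

theorem x0_pos : 0 < x0 := by
  unfold x0 rho g
  nlinarith [al_lt, al_pos]

theorem ls_pos : 0 < ls := by
  unfold ls de rho
  rw [xi_eq]
  have h1 := al_gt
  have h2 := al_lt
  have h3 : g = 1 / 10 ^ 12 := rfl
  rw [h3]
  nlinarith

/-- the first and the last kid of an S cell -/
def FSA : Sim := ⟨x0, x0_pos, LinearIsometryEquiv.refl ℝ E3, pt 0 0 0⟩
def FSE : Sim := ⟨x0, x0_pos, LinearIsometryEquiv.refl ℝ E3, pt (1 - x0) 0 0⟩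
/-- the two strings, from `x0` to `1/2 - rho de` and from `1/2 + rho de` to `1 - x0` -/
def FSB : Sim := ⟨ls, ls_pos, LinearIsometryEquiv.refl ℝ E3, pt x0 0 0⟩
def FSD : Sim := ⟨ls, ls_pos, LinearIsometryEquiv.refl ℝ E3, pt (1 / 2 + rho * de) 0 0⟩
/-- the T child of an S cell -/
def FSC : Sim := ⟨rho, by unfold rho; norm_num, LinearIsometryEquiv.refl ℝ E3,
  pt (1 / 2) 0 (-(rho * ze))⟩

/-- The kids of an S cell, in the order of the edge. -/
def kidsS : List Node :=
  str FSA 0 0 x0 false ++ str FSB (NT (ls / rho)) x0 (1 / 2 - rho * de) false ++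
  [⟨true, FSC, 1 / 2 - rho * de, 1 / 2 + rho * de, false⟩] ++
  str FSD (NT (ls / rho)) (1 / 2 + rho * de) (1 - x0) false ++
  str FSE 0 (1 - x0) 1 false

/-- The kids of a cell of type `b` in standard position. -/
def kids : Bool → List Node
  | true => kidsT
  | false => kidsS

/-- The kids of a node. -/
def Node.kids (v : Node) : List Node := (BOR.kids v.typ).map v.comp

/-! ## The root and the levels -/

/-- The nodes of level `0`: they cover the rectangle with vertices `(∓xi, 0, 0)`,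
`(∓xi, 2 ss, 0)`. -/
def rootL : List Node :=
  [⟨true, FT1, 0, 1 / 4, true⟩] ++ str FHB (NT (2 * xi)) (1 / 4) (1 / 2) true ++
  [⟨true, FT2, 1 / 2, 3 / 4, true⟩] ++ str FCL (NT (2 * xi)) (3 / 4) 1 true

/-- The nodes of level `n`. -/
def lev : ℕ → List Node
  | 0 => rootL
  | n + 1 => (lev n).flatMap Node.kids

/-- The parametrised rectangle. -/
def gam0 (τ : ℝ) : E3 :=
  if τ ≤ 1 / 4 then sgm (pt (-xi) 0 0) (pt (-xi) (2 * ss) 0) 0 (1 / 4) τ
  else if τ ≤ 1 / 2 then sgm (pt (-xi) (2 * ss) 0) (pt xi (2 * ss) 0) (1 / 4) (1 / 2) τ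
  else if τ ≤ 3 / 4 then sgm (pt xi (2 * ss) 0) (pt xi 0 0) (1 / 2) (3 / 4) τ
  else sgm (pt xi 0 0) (pt (-xi) 0 0) (3 / 4) 1 τ

/-- The rectangle. -/
def K0 : Set E3 := gam0 '' Icc 0 1

/-! ## The frames of the pure T nodes -/

/-- The frame given by a word in the two T children (`true` = first child); the frame of
`i :: l` is the frame of `i` followed inside by the frame of `l`. -/
def Fw : List Bool → Sim
  | [] => Sim.one
  | i :: l => (if i then FT1 else FT2).comp (Fw l)

/-- The region `V`: union of the deep parts of all pure T nodes. -/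
def VV : Set E3 := {p | ∃ l : List Bool, p ∈ Fw l '' VT}

end BOR

end
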