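import Pool.Agent.BOR.LEV
import Pool.Agent.BOR.GTH

/-!
# BOR / STP: one step of the construction

PROOF. The cells of level `n` are in `HB ⊆ closedBall 0 3`, compact. `φ.symm` is uniformly continuous on
this ball: there is `δ > 0` with `dist p q < δ → dist (φ.symm p) (φ.symm q) < e` for `p, q` in the ball.
For every node `v` let `G_v = v.fr.homeo.symm.trans (G.trans v.fr.homeo)`, `G` from
`GT v.typ (δ / v.fr.s)` (choice). Then `G_v = id` off `v.cell`; `G_v` fixes `v.ends`;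
`G_v (v.edge t) = (v.comp k).edge t` for `k ∈ kids v.typ`, `t ∈ Icc (v.comp k).t0 (v.comp k).t1`
(`comp_edge`, `comp_time`); for squeezed `k` and `p ∈ (v.comp k).cell` there is such `t` with
`dist (G_v.symm p) (v.edge t) < δ`; for unsqueezed `k`, `G_v = id` on `(v.comp k).cell`. Apply `fold` to
the list `lev n` with `R v = v.cell`; pairwise hypothesis: `lev_rel`, points of `v.ends` are fixed by
`G_v`. The result `Ψ` equals `G_v` on `v.cell` (and `Ψ.symm = G_v.symm` there). `G_v` and its inverse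
preserve `v.cell` (identity off it). The distances: `G_v.symm p ∈ v.cell` and `v.edge t ∈ v.cell`
(`edge_mem`) are in the ball.
-/

noncomputable section

namespace BOR

open Set

/-- `Ψ` is an admissible step at level `n` for the homeomorphism `φ` with error `e`. -/
structure IsStep (n : ℕ) (φ Ψ : E3 ≃ₜ E3) (e : ℝ) : Prop where
  off : ∀ p, (∀ v ∈ lev n, p ∉ v.cell) → Ψ p = p
  map : ∀ v ∈ lev n, ∀ p ∈ v.cell, Ψ p ∈ v.cell
  symm_map : ∀ v ∈ lev n, ∀ p ∈ v.cell, Ψ.symm p ∈ v.cell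
  fix : ∀ v ∈ lev n, ∀ p ∈ v.ends, Ψ p = p
  edge : ∀ v ∈ lev n, ∀ k ∈ kids v.typ, ∀ t ∈ Icc (v.comp k).t0 (v.comp k).t1,
    Ψ (v.edge t) = (v.comp k).edge t
  sq : ∀ v ∈ lev n, ∀ k ∈ kids v.typ, k.sq = true → ∀ p ∈ (v.comp k).cell,
    ∃ t ∈ Icc (v.comp k).t0 (v.comp k).t1, dist (φ.symm (Ψ.symm p)) (φ.symm (v.edge t)) < e
  unsq : ∀ v ∈ lev n, ∀ k ∈ kids v.typ, k.sq = false → ∀ p ∈ (v.comp k).cell, Ψ p = p

/-- the homeomorphism of a cell in absolute position -/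
private def Gh (v : Node) (G : E3 ≃ₜ E3) : E3 ≃ₜ E3 := v.fr.homeo.symm.trans (G.trans v.fr.homeo)

private theorem Gh_app (v : Node) (G : E3 ≃ₜ E3) (q : E3) : Gh v G (v.fr q) = v.fr (G q) := by
  simp [Gh, Sim.inv_app]

private theorem Gh_symm_app (v : Node) (G : E3 ≃ₜ E3) (q : E3) :
    (Gh v G).symm (v.fr q) = v.fr (G.symm q) := by
  rw [Homeomorph.symm_apply_eq, Gh_app, Homeomorph.apply_symm_apply]

private theorem map_of_off {G : E3 ≃ₜ E3} {R : Set E3} (h : ∀ p, p ∉ R → G p = p) {p : E3}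
    (hp : p ∈ R) : G p ∈ R := by
  by_contra hc
  have h1 := h _ hc
  exact hc ((G.injective h1).symm ▸ hp)

private theorem symm_map_of_off {G : E3 ≃ₜ E3} {R : Set E3} (h : ∀ p, p ∉ R → G p = p) {p : E3}
    (hp : p ∈ R) : G.symm p ∈ R := by
  by_contra hc
  have h1 := h _ hc
  rw [Homeomorph.apply_symm_apply] at h1
  exact hc (h1 ▸ hp)

private theorem ends_sub (v : Node) (hv : v.t0 < v.t1) : v.ends ⊆ v.cell := by
  intro p hp
  rcases hp with rfl | hp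
  · rw [← edge_t0 v hv]
    exact edge_mem v hv ⟨le_rfl, hv.le⟩
  · rw [mem_singleton_iff] at hp
    rw [hp, ← edge_t1 v hv]
    exact edge_mem v hv ⟨hv.le, le_rfl⟩

theorem step (n : ℕ) (φ : E3 ≃ₜ E3) (e : ℝ) (he : 0 < e) : ∃ Ψ : E3 ≃ₜ E3, IsStep n φ Ψ e := by
  have huc : UniformContinuousOn φ.symm (Metric.closedBall (0 : E3) 3) :=
    (isCompact_closedBall (0 : E3) 3).uniformContinuousOn_of_continuous
      φ.symm.continuous.continuousOn
  obtain ⟨δ, hδ, hδ'⟩ := Metric.uniformContinuousOn_iff.1 huc e he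
  have hG : ∀ v : Node, ∃ G : E3 ≃ₜ E3,
      (∀ p, p ∉ cellB v.typ → G p = p) ∧
      (∀ k ∈ kids v.typ, ∀ t ∈ Icc k.t0 k.t1, G (edgeB v.typ t) = k.edge t) ∧
      (∀ k ∈ kids v.typ, k.sq = true → ∀ p ∈ k.cell, ∃ t ∈ Icc k.t0 k.t1,
        dist (G.symm p) (edgeB v.typ t) < δ / v.fr.s) ∧
      (∀ k ∈ kids v.typ, k.sq = false → ∀ p ∈ k.cell, G p = p) ∧
      G (edgeB v.typ 0) = edgeB v.typ 0 ∧ G (edgeB v.typ 1) = edgeB v.typ 1 := fun v =>
    GT v.typ (δ / v.fr.s) (div_pos hδ v.fr.s_pos)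
  choose G g1 g2 g3 g4 g5 g6 using hG
  have hoff : ∀ v : Node, ∀ p, p ∉ v.cell → Gh v (G v) p = p := by
    intro v p hp
    have e1 : v.fr (v.fr.inv p) = p := v.fr.app_inv p
    have h1 : v.fr.inv p ∉ cellB v.typ := fun h => hp ⟨_, h, e1⟩
    have h2 := Gh_app v (G v) (v.fr.inv p)
    rw [g1 v _ h1, e1] at h2
    exact h2
  have hfix : ∀ v : Node, ∀ p ∈ v.ends, Gh v (G v) p = p := by
    intro v p hp
    rcases hp with rfl | hp
    · rw [Gh_app, g5]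
    · rw [mem_singleton_iff] at hp
      rw [hp, Gh_app, g6]
  obtain ⟨Ψ, hΨ1, hΨ2, hΨ3⟩ := fold (lev n) (fun v => Gh v (G v)) Node.cell
    (fun v _ p hp => hoff v p hp)
    ((lev_rel n).imp fun {v v'} h p hp => ⟨hfix v p (h hp).1, hfix v' p (h hp).2⟩)
  have hball : ∀ v ∈ lev n, ∀ p ∈ v.cell, p ∈ Metric.closedBall (0 : E3) 3 := fun v hv p hp =>
    HB_ball (lev_HB hv hp)
  have htime : ∀ v ∈ lev n, ∀ k ∈ kids v.typ, ∀ t ∈ Icc (v.comp k).t0 (v.comp k).t1,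
      (t - v.t0) / (v.t1 - v.t0) ∈ Icc k.t0 k.t1 ∧ t ∈ Icc v.t0 v.t1 := by
    intro v hv k hk t ht
    obtain ⟨-, hv1, -, -⟩ := lev_times hv
    have h1 := (comp_time v k hv1 t).1 ht
    refine ⟨h1, ?_⟩
    obtain ⟨k0, -, k1, -⟩ := kid_times hk
    have hp : 0 < v.t1 - v.t0 := by linarith
    have h2 : 0 ≤ (t - v.t0) / (v.t1 - v.t0) := k0.trans h1.1
    have h3 : (t - v.t0) / (v.t1 - v.t0) ≤ 1 := h1.2.trans k1
    rw [le_div_iff₀ hp] at h2
    rw [div_le_iff₀ hp] at h3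
    constructor <;> linarith
  refine ⟨Ψ, ⟨hΨ2, ?_, ?_, ?_, ?_, ?_, ?_⟩⟩
  · intro v hv p hp
    rw [hΨ1 v hv p hp]
    exact map_of_off (hoff v) hp
  · intro v hv p hp
    rw [hΨ3 v hv p hp]
    exact symm_map_of_off (hoff v) hp
  · intro v hv p hp
    obtain ⟨-, hv1, -, -⟩ := lev_times hv
    rw [hΨ1 v hv p (ends_sub v hv1 hp)]
    exact hfix v p hp
  · intro v hv k hk t ht
    obtain ⟨-, hv1, -, -⟩ := lev_times hv
    obtain ⟨h1, h2⟩ := htime v hv k hk t ht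
    rw [hΨ1 v hv _ (edge_mem v hv1 h2), comp_edge v k hv1 t, Node.edge, Gh_app, g2 v k hk _ h1]
  · intro v hv k hk hsq p hp
    obtain ⟨-, hv1, -, -⟩ := lev_times hv
    have hpv : p ∈ v.cell := kid_sub v hk hp
    rw [hΨ3 v hv p hpv]
    have hpc := hp
    rw [comp_cell] at hpc
    obtain ⟨q, hq, rfl⟩ := hpc
    obtain ⟨u, hu, hd⟩ := g3 v k hk hsq q hq
    have hpos : 0 < v.t1 - v.t0 := by linarith
    have hut : (v.t0 + (v.t1 - v.t0) * u - v.t0) / (v.t1 - v.t0) = u := by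
      field_simp
      ring
    have hT : v.t0 + (v.t1 - v.t0) * u ∈ Icc (v.comp k).t0 (v.comp k).t1 := by
      rw [comp_time v k hv1, hut]
      exact hu
    refine ⟨v.t0 + (v.t1 - v.t0) * u, hT, ?_⟩
    obtain ⟨-, h2⟩ := htime v hv k hk _ hT
    apply hδ'
    · exact hball v hv _ (symm_map_of_off (hoff v) hpv)
    · exact hball v hv _ (edge_mem v hv1 h2)
    · rw [Gh_symm_app, Node.edge, hut, Sim.dist_app]
      rw [lt_div_iff₀ v.fr.s_pos] at hd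
      linarith
  · intro v hv k hk hsq p hp
    have hpv : p ∈ v.cell := kid_sub v hk hp
    rw [hΨ1 v hv p hpv]
    rw [comp_cell] at hp
    obtain ⟨q, hq, rfl⟩ := hp
    rw [Gh_app, g4 v k hk hsq q hq]

/-- The sequence of homeomorphisms. -/
theorem hseq : ∃ h : ℕ → E3 ≃ₜ E3, ∃ Ψ : ℕ → E3 ≃ₜ E3, h 0 = Homeomorph.refl E3 ∧
    ∀ n, h (n + 1) = (h n).trans (Ψ n) ∧ IsStep n (h n) (Ψ n) ((1 / 2) ^ n) := by
  choose S hS using fun (n : ℕ) (φ : E3 ≃ₜ E3) => step n φ ((1 / 2 : ℝ) ^ n) (by positivity)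
  let h : ℕ → E3 ≃ₜ E3 := fun n => Nat.rec (Homeomorph.refl E3) (fun n φ => φ.trans (S n φ)) n
  exact ⟨h, fun n => S n (h n), rfl, fun n => ⟨rfl, hS n (h n)⟩⟩

end BOR

end
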