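import Pool.Agent.BOR.TDef

/-!
# BOR / STR: strings of S nodes

PROOF. `N = M + 1`, `stepF M j` maps `(x,y,z)` to `((x + j)/N, y/N, z/N)`. For `p ∈ bodyS c` (so
`0 ≤ x ≤ 1`, since the widths must be nonnegative, `c > 0`) the image `q` satisfies
`|q 1|, |q 2| ≤ c sg min (q 0 - j/N) ((j+1)/N - q 0)`, in particular `j/N ≤ q 0 ≤ (j+1)/N`, and as
`0 ≤ j/N`, `(j+1)/N ≤ 1` this is `≤ c sg min (q 0) (1 - q 0)`; also `min x (1-x) ≤ 1/2`.
* `str_cell`: apply `F` (`comp_image`).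
* `str_rel`: for `i < j`: a common point `F q`: `q 0 ≤ (i+1)/N ≤ j/N ≤ q 0`, so `i + 1 = j`,
  `q 0 = j/N` and `q 1 = q 2 = 0`; this is the end point (parameter 1) of node `i` and the start
  point (parameter 0) of node `j`. (`List.pairwise_map`, `List.pairwise_lt_range`; `F` injective.)
* `str_start`: `F (pt 0 0 0) ∈ cellp` of node `j` means `(0,0,0)` is in the image of `bodyS` under
  `stepF M j`, so `j/N ≤ 0`, `j = 0`, start point of node `0`. Similarly `str_end`.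
* `str_edge`: `(t - t0)/(t1 - t0)` with `t0 = ta + (tb-ta) j/N`, `t1 - t0 = (tb - ta)/N`.
* `str_cov`: `j = ⌊N (t-ta)/(tb-ta)⌋`, or `j = M` if `t = tb`.
-/

noncomputable section

namespace BOR

open Set

/-- double cone intersected with a thin tube -/
def tubeS (c : ℝ) (M : ℕ) : Set E3 := {p | p ∈ bodyS c ∧ |p 1| ≤ c * (sg / 2) / ((M : ℝ) + 1) ∧
  |p 2| ≤ c * (sg / 2) / ((M : ℝ) + 1)}

private theorem memstr {F : Sim} {M : ℕ} {ta tb : ℝ} {q : Bool} {k : Node}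
    (hk : k ∈ str F M ta tb q) : ∃ j : ℕ, j < M + 1 ∧ k = strN F M ta tb q j := by
  simp only [str, List.mem_map, List.mem_range] at hk
  obtain ⟨j, hj, rfl⟩ := hk
  exact ⟨j, hj, rfl⟩

private theorem step_app (M j : ℕ) (p : E3) :
    stepF M j p = pt ((p 0 + j) / ((M : ℝ) + 1)) (p 1 / ((M : ℝ) + 1)) (p 2 / ((M : ℝ) + 1)) := by
  have hN : ((M : ℝ) + 1) ≠ 0 := by positivity
  rw [Sim.app_def]
  refine ext3 ?_ ?_ ?_
  · simp [stepF]; field_simp
  · simp [stepF]; field_simp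
  · simp [stepF]; field_simp

private theorem dS_le {x : ℝ} : dS x ≤ sg / 2 := by
  unfold dS
  have h : min x (1 - x) ≤ 1 / 2 := by
    rcases le_total x (1 / 2) with h | h
    · exact (min_le_left _ _).trans h
    · exact (min_le_right _ _).trans (by linarith)
  have : sg * min x (1 - x) ≤ sg * (1 / 2) := mul_le_mul_of_nonneg_left h (by unfold sg; norm_num)
  linarith

private theorem body_range {c : ℝ} (hc : 0 < c) {p : E3} (hp : p ∈ bodyS c) :
    0 ≤ p 0 ∧ p 0 ≤ 1 := by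
  have h1 : 0 ≤ c * dS (p 0) := (abs_nonneg _).trans hp.1
  have h2 : 0 ≤ dS (p 0) := nonneg_of_mul_nonneg_right h1 hc
  unfold dS at h2
  have h3 : 0 ≤ min (p 0) (1 - p 0) := nonneg_of_mul_nonneg_right h2 (by unfold sg; norm_num)
  exact ⟨h3.trans (min_le_left _ _), by linarith [h3.trans (min_le_right _ _)]⟩

private theorem core {c : ℝ} (hc : 0 < c) {M j : ℕ} (hj : j < M + 1) {p : E3}
    (hp : p ∈ bodyS c) :
    stepF M j p ∈ tubeS c M ∧ (j : ℝ) / ((M : ℝ) + 1) ≤ stepF M j p 0 ∧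
      stepF M j p 0 ≤ ((j : ℝ) + 1) / ((M : ℝ) + 1) ∧
      |stepF M j p 1| ≤ c * sg * min (stepF M j p 0 - (j : ℝ) / ((M : ℝ) + 1))
        (((j : ℝ) + 1) / ((M : ℝ) + 1) - stepF M j p 0) ∧
      |stepF M j p 2| ≤ c * sg * min (stepF M j p 0 - (j : ℝ) / ((M : ℝ) + 1))
        (((j : ℝ) + 1) / ((M : ℝ) + 1) - stepF M j p 0) := by
  have hN : (0 : ℝ) < (M : ℝ) + 1 := by positivity
  obtain ⟨h0, h1⟩ := body_range hc hp
  have hj' : ((j : ℝ) + 1) ≤ (M : ℝ) + 1 := by exact_mod_cast hj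
  have hj0 : (0 : ℝ) ≤ j := Nat.cast_nonneg j
  have hsg : 0 < sg := by unfold sg; norm_num
  have e0 : stepF M j p 0 = (p 0 + j) / ((M : ℝ) + 1) := by rw [step_app]; simp
  have e1 : |stepF M j p 1| = |p 1| / ((M : ℝ) + 1) := by
    rw [step_app]; simp only [pt_1]; rw [abs_div, abs_of_pos hN]
  have e2 : |stepF M j p 2| = |p 2| / ((M : ℝ) + 1) := by
    rw [step_app]; simp only [pt_2]; rw [abs_div, abs_of_pos hN]
  have a0 : (j : ℝ) / ((M : ℝ) + 1) ≤ stepF M j p 0 := by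
    rw [e0]; gcongr; linarith
  have a1 : stepF M j p 0 ≤ ((j : ℝ) + 1) / ((M : ℝ) + 1) := by
    rw [e0]; exact div_le_div_of_nonneg_right (by linarith) hN.le
  have b1 : |p 1| / ((M : ℝ) + 1) ≤ c * sg * min (stepF M j p 0 - (j : ℝ) / ((M : ℝ) + 1))
        (((j : ℝ) + 1) / ((M : ℝ) + 1) - stepF M j p 0) ∧
      |p 2| / ((M : ℝ) + 1) ≤ c * sg * min (stepF M j p 0 - (j : ℝ) / ((M : ℝ) + 1))
        (((j : ℝ) + 1) / ((M : ℝ) + 1) - stepF M j p 0) := by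
    have e : min (stepF M j p 0 - (j : ℝ) / ((M : ℝ) + 1))
        (((j : ℝ) + 1) / ((M : ℝ) + 1) - stepF M j p 0)
        = min (p 0) (1 - p 0) / ((M : ℝ) + 1) := by
      rw [e0, ← sub_div, ← sub_div, min_div_div_right hN.le]
      congr 2 <;> ring
    rw [e]
    have h3 := hp.1
    have h4 := hp.2
    unfold dS at h3 h4
    constructor
    · calc |p 1| / ((M : ℝ) + 1) ≤ c * (sg * min (p 0) (1 - p 0)) / ((M : ℝ) + 1) := by gcongr
        _ = _ := by ring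
    · calc |p 2| / ((M : ℝ) + 1) ≤ c * (sg * min (p 0) (1 - p 0)) / ((M : ℝ) + 1) := by gcongr
        _ = _ := by ring
  have m0 : c * sg * min (stepF M j p 0 - (j : ℝ) / ((M : ℝ) + 1))
        (((j : ℝ) + 1) / ((M : ℝ) + 1) - stepF M j p 0) ≤ c * dS (stepF M j p 0) := by
    unfold dS
    rw [mul_assoc]
    have q0 : (0 : ℝ) ≤ (j : ℝ) / ((M : ℝ) + 1) := by positivity
    have q1 : ((j : ℝ) + 1) / ((M : ℝ) + 1) ≤ 1 := (div_le_one hN).2 hj'
    refine mul_le_mul_of_nonneg_left (mul_le_mul_of_nonneg_left ?_ hsg.le) hc.le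
    exact min_le_min (by linarith) (by linarith)
  refine ⟨⟨⟨?_, ?_⟩, ?_, ?_⟩, a0, a1, ?_, ?_⟩
  · rw [e1]; exact b1.1.trans m0
  · rw [e2]; exact b1.2.trans m0
  · rw [e1]
    have h3 : |p 1| ≤ c * (sg / 2) := hp.1.trans (mul_le_mul_of_nonneg_left dS_le hc.le)
    gcongr
  · rw [e2]
    have h3 : |p 2| ≤ c * (sg / 2) := hp.2.trans (mul_le_mul_of_nonneg_left dS_le hc.le)
    gcongr
  · rw [e1]; exact b1.1
  · rw [e2]; exact b1.2

theorem str_cell {F : Sim} {M : ℕ} {ta tb : ℝ} {q : Bool} {k : Node} (hk : k ∈ str F M ta tb q) :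
    k.cell ⊆ F '' tubeS 1 M ∧ k.cellp ⊆ F '' tubeS (6 / 5) M := by
  obtain ⟨j, hj, rfl⟩ := memstr hk
  constructor
  · show (F.comp (stepF M j)) '' bodyS 1 ⊆ _
    rw [Sim.comp_image]
    refine image_mono ?_
    rintro _ ⟨p, hp, rfl⟩
    exact (core one_pos hj hp).1
  · show (F.comp (stepF M j)) '' bodyS (6 / 5) ⊆ _
    rw [Sim.comp_image]
    refine image_mono ?_
    rintro _ ⟨p, hp, rfl⟩
    exact (core (by norm_num) hj hp).1

private theorem start_eq (F : Sim) (M : ℕ) (ta tb : ℝ) (q : Bool) (j : ℕ) :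
    F (pt ((j : ℝ) / ((M : ℝ) + 1)) 0 0) ∈ (strN F M ta tb q j).ends := by
  left
  show F (pt ((j : ℝ) / ((M : ℝ) + 1)) 0 0) = (F.comp (stepF M j)) (pt 0 0 0)
  rw [Sim.comp_app, step_app]
  congr 1
  refine ext3 ?_ ?_ ?_ <;> simp

private theorem end_eq (F : Sim) (M : ℕ) (ta tb : ℝ) (q : Bool) (j : ℕ) :
    F (pt (((j : ℝ) + 1) / ((M : ℝ) + 1)) 0 0) ∈ (strN F M ta tb q j).ends := by
  right
  show F (pt (((j : ℝ) + 1) / ((M : ℝ) + 1)) 0 0) = (F.comp (stepF M j)) (pt 1 0 0)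
  rw [Sim.comp_app, step_app]
  congr 1
  refine ext3 ?_ ?_ ?_ <;> simp [add_comm]

private theorem abs_zero {x c m : ℝ} (h : |x| ≤ c * m) (hc : 0 ≤ c) (hm : m ≤ 0) : x = 0 := by
  have : c * m ≤ 0 := mul_nonpos_of_nonneg_of_nonpos hc hm
  exact abs_nonpos_iff.1 (h.trans this)

theorem str_rel (F : Sim) (M : ℕ) (ta tb : ℝ) (q : Bool) :
    (str F M ta tb q).Pairwise Node.rel := by
  unfold str
  rw [List.pairwise_map]
  refine (List.pairwise_lt_range (n := M + 1)).imp_of_mem ?_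
  intro i j hi hj hij
  rw [List.mem_range] at hi hj
  have hN : (0 : ℝ) < (M : ℝ) + 1 := by positivity
  rintro x ⟨hx1, hx2⟩
  have hx1' : x ∈ (F.comp (stepF M i)) '' bodyS (6 / 5) := hx1
  have hx2' : x ∈ (F.comp (stepF M j)) '' bodyS (6 / 5) := hx2
  rw [Sim.comp_image] at hx1' hx2'
  obtain ⟨_, ⟨p, hp, rfl⟩, rfl⟩ := hx1'
  obtain ⟨_, ⟨p', hp', rfl⟩, he⟩ := hx2'
  have he' := F.injective he
  obtain ⟨-, a0, a1, a2, a3⟩ := core (by norm_num) hi hp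
  obtain ⟨-, b0, b1, b2, b3⟩ := core (by norm_num) hj hp'
  rw [he'] at b0 b1 b2 b3
  have h1 : ((i : ℝ) + 1) ≤ (j : ℝ) := by exact_mod_cast hij
  have h2 : ((i : ℝ) + 1) / ((M : ℝ) + 1) ≤ (j : ℝ) / ((M : ℝ) + 1) := by gcongr
  have h3 : stepF M i p 0 = (j : ℝ) / ((M : ℝ) + 1) := le_antisymm (a1.trans h2) b0
  have h4 : stepF M i p 0 = ((i : ℝ) + 1) / ((M : ℝ) + 1) := le_antisymm a1 (h2.trans b0)
  have h5 : stepF M i p 1 = 0 := by
    refine abs_zero a2 (by unfold sg; norm_num) ?_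
    exact (min_le_right _ _).trans (by linarith)
  have h6 : stepF M i p 2 = 0 := by
    refine abs_zero a3 (by unfold sg; norm_num) ?_
    exact (min_le_right _ _).trans (by linarith)
  have h7 : stepF M i p = pt (((i : ℝ) + 1) / ((M : ℝ) + 1)) 0 0 :=
    ext3 (by simp [h4]) (by simp [h5]) (by simp [h6])
  have h8 : stepF M i p = pt ((j : ℝ) / ((M : ℝ) + 1)) 0 0 :=
    ext3 (by simp [h3]) (by simp [h5]) (by simp [h6])
  constructor
  · rw [h7]; exact end_eq F M ta tb q i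
  · rw [h8]; exact start_eq F M ta tb q j

theorem str_start {F : Sim} {M : ℕ} {ta tb : ℝ} {q : Bool} {k : Node}
    (hk : k ∈ str F M ta tb q) (h : F (pt 0 0 0) ∈ k.cellp) : F (pt 0 0 0) ∈ k.ends := by
  obtain ⟨j, hj, rfl⟩ := memstr hk
  have h' : F (pt 0 0 0) ∈ (F.comp (stepF M j)) '' bodyS (6 / 5) := h
  rw [Sim.comp_image] at h'
  obtain ⟨_, ⟨p, hp, rfl⟩, he⟩ := h'
  have he' := F.injective he
  obtain ⟨-, a0, -, -, -⟩ := core (by norm_num) hj hp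
  rw [he'] at a0
  have hN : (0 : ℝ) < (M : ℝ) + 1 := by positivity
  simp only [pt_0] at a0
  have h2 : (j : ℝ) ≤ 0 := by
    by_contra hc
    push Not at hc
    have : 0 < (j : ℝ) / ((M : ℝ) + 1) := by positivity
    linarith
  have h3 : (j : ℝ) = 0 := le_antisymm h2 (Nat.cast_nonneg j)
  have := start_eq F M ta tb q j
  rwa [h3, zero_div] at this

theorem str_end {F : Sim} {M : ℕ} {ta tb : ℝ} {q : Bool} {k : Node}
    (hk : k ∈ str F M ta tb q) (h : F (pt 1 0 0) ∈ k.cellp) : F (pt 1 0 0) ∈ k.ends := by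
  obtain ⟨j, hj, rfl⟩ := memstr hk
  have h' : F (pt 1 0 0) ∈ (F.comp (stepF M j)) '' bodyS (6 / 5) := h
  rw [Sim.comp_image] at h'
  obtain ⟨_, ⟨p, hp, rfl⟩, he⟩ := h'
  have he' := F.injective he
  obtain ⟨-, -, a1, -, -⟩ := core (by norm_num) hj hp
  rw [he'] at a1
  have hN : (0 : ℝ) < (M : ℝ) + 1 := by positivity
  simp only [pt_0] at a1
  have hj' : ((j : ℝ) + 1) ≤ (M : ℝ) + 1 := by exact_mod_cast hj
  have h3 : ((j : ℝ) + 1) / ((M : ℝ) + 1) = 1 := le_antisymm ((div_le_one hN).2 hj') a1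
  have := end_eq F M ta tb q j
  rwa [h3] at this

theorem str_edge {F : Sim} {M : ℕ} {ta tb : ℝ} {q : Bool} {k : Node} (hab : ta < tb)
    (hk : k ∈ str F M ta tb q) (t : ℝ) :
    k.edge t = F (pt ((t - ta) / (tb - ta)) 0 0) := by
  obtain ⟨j, hj, rfl⟩ := memstr hk
  have hN : (0 : ℝ) < (M : ℝ) + 1 := by positivity
  have hd : 0 < tb - ta := sub_pos.2 hab
  show (F.comp (stepF M j)) (pt ((t - (ta + (tb - ta) * ((j : ℝ) / ((M : ℝ) + 1)))) /
    (ta + (tb - ta) * (((j : ℝ) + 1) / ((M : ℝ) + 1)) -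
      (ta + (tb - ta) * ((j : ℝ) / ((M : ℝ) + 1))))) 0 0) = _
  rw [Sim.comp_app, step_app]
  congr 1
  have e : ta + (tb - ta) * (((j : ℝ) + 1) / ((M : ℝ) + 1)) -
      (ta + (tb - ta) * ((j : ℝ) / ((M : ℝ) + 1))) = (tb - ta) / ((M : ℝ) + 1) := by
    field_simp; ring
  rw [e]
  refine ext3 ?_ ?_ ?_
  · simp only [pt_0]
    field_simp
    ring
  · simp
  · simp

theorem str_cov {F : Sim} {M : ℕ} {ta tb : ℝ} {q : Bool} (hab : ta < tb) {t : ℝ}
    (ht : t ∈ Icc ta tb) : ∃ k ∈ str F M ta tb q, t ∈ Icc k.t0 k.t1 := by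
  have hN : (0 : ℝ) < (M : ℝ) + 1 := by positivity
  have hd : 0 < tb - ta := sub_pos.2 hab
  rcases eq_or_lt_of_le ht.2 with h | h
  · refine ⟨strN F M ta tb q M, ?_, ?_⟩
    · exact List.mem_map.2 ⟨M, List.mem_range.2 (Nat.lt_succ_self M), rfl⟩
    · simp only [strN, mem_Icc]
      rw [div_self hN.ne']
      have : (M : ℝ) / ((M : ℝ) + 1) ≤ 1 := (div_le_one hN).2 (by linarith)
      constructor <;> nlinarith
  · set x : ℝ := ((M : ℝ) + 1) * (t - ta) / (tb - ta) with hx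
    have hx0 : 0 ≤ x := by
      have := ht.1
      have h2 : 0 ≤ t - ta := by linarith
      positivity
    have hx1 : x < (M : ℝ) + 1 := by
      rw [hx, div_lt_iff₀ hd]
      exact mul_lt_mul_of_pos_left (by linarith) hN
    have hj : ⌊x⌋₊ < M + 1 := by
      rw [Nat.floor_lt hx0]; exact_mod_cast hx1
    refine ⟨strN F M ta tb q ⌊x⌋₊, ?_, ?_⟩
    · exact List.mem_map.2 ⟨_, List.mem_range.2 hj, rfl⟩
    · have h1 := Nat.floor_le hx0
      have h2 := (Nat.lt_floor_add_one x).le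
      have e : ta + (tb - ta) * (x / ((M : ℝ) + 1)) = t := by
        rw [hx]; field_simp; ring
      simp only [strN, mem_Icc]
      constructor
      · calc ta + (tb - ta) * (((⌊x⌋₊ : ℕ) : ℝ) / ((M : ℝ) + 1))
            ≤ ta + (tb - ta) * (x / ((M : ℝ) + 1)) := by gcongr
          _ = t := e
      · calc t = ta + (tb - ta) * (x / ((M : ℝ) + 1)) := e.symm
          _ ≤ _ := by gcongr

theorem str_times {F : Sim} {M : ℕ} {ta tb : ℝ} {q : Bool} {k : Node} (hab : ta < tb)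
    (hk : k ∈ str F M ta tb q) : ta ≤ k.t0 ∧ k.t0 < k.t1 ∧ k.t1 ≤ tb := by
  obtain ⟨j, hj, rfl⟩ := memstr hk
  have hN : (0 : ℝ) < (M : ℝ) + 1 := by positivity
  have hj' : ((j : ℝ) + 1) ≤ (M : ℝ) + 1 := by exact_mod_cast hj
  have hd : 0 < tb - ta := sub_pos.2 hab
  have h1 : (0 : ℝ) ≤ (j : ℝ) / ((M : ℝ) + 1) := by positivity
  have h2 : (j : ℝ) / ((M : ℝ) + 1) < ((j : ℝ) + 1) / ((M : ℝ) + 1) :=
    div_lt_div_of_pos_right (by linarith) hN
  have h3 : ((j : ℝ) + 1) / ((M : ℝ) + 1) ≤ 1 := (div_le_one hN).2 hj'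
  simp only [strN]
  refine ⟨?_, ?_, ?_⟩ <;> nlinarith

theorem str_data {F : Sim} {M : ℕ} {ta tb : ℝ} {q : Bool} {k : Node}
    (hk : k ∈ str F M ta tb q) : k.typ = false ∧ k.sq = q ∧ k.fr.s = F.s / ((M : ℝ) + 1) := by
  obtain ⟨j, hj, rfl⟩ := memstr hk
  refine ⟨rfl, rfl, ?_⟩
  show F.s * (1 / ((M : ℝ) + 1)) = _
  ring

theorem str_first (F : Sim) (M : ℕ) (ta tb : ℝ) (q : Bool) :
    ∃ k ∈ str F M ta tb q, k.t0 = ta := by
  refine ⟨strN F M ta tb q 0, List.mem_map.2 ⟨0, List.mem_range.2 (Nat.succ_pos M), rfl⟩, ?_⟩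
  simp [strN]

theorem str_last (F : Sim) (M : ℕ) (ta tb : ℝ) (q : Bool) :
    ∃ k ∈ str F M ta tb q, k.t1 = tb := by
  refine ⟨strN F M ta tb q M, List.mem_map.2 ⟨M, List.mem_range.2 (Nat.lt_succ_self M), rfl⟩, ?_⟩
  have hN : ((M : ℝ) + 1) ≠ 0 := by positivity
  simp only [strN]
  rw [div_self hN]; ring

end BOR

end
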