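import Pool.Agent.BOR.Num

/-!
# BOR / TDef: definitions for the geometry of the T pattern

Affine coordinates for the four triangle moves, the path through the T cell, and the regions which
contain the groups of kids. Points: `a = (-2 xi, 0, ze)`, `ain = (-xi, 0, ze)`, `P1m = (-xi, 0, 0)`,
`P1p = (-xi, 2 ss, 0)`, `P2p = (xi, 2 ss, 0)`, `P2m = (xi, 0, 0)`, `bin = (xi, 0, ze)`,
`b = (2 xi, 0, ze)`.
-/

noncomputable section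

namespace BOR

open Set

def pa : E3 := pt (-(2 * xi)) 0 ze
def pai : E3 := pt (-xi) 0 ze
def P1m : E3 := pt (-xi) 0 0
def P1p : E3 := pt (-xi) (2 * ss) 0
def P2p : E3 := pt xi (2 * ss) 0
def P2m : E3 := pt xi 0 0
def pbi : E3 := pt xi 0 ze
def pb : E3 := pt (2 * xi) 0 ze

/-- the path through a T cell -/
def PT (τ : ℝ) : E3 :=
  if τ ≤ 1 / 4 then sgm pa pai 0 (1 / 4) τ
  else if τ ≤ 3 / 8 then sgm pai P1m (1 / 4) (3 / 8) τ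
  else if τ ≤ 13 / 32 then sgm P1m P1p (3 / 8) (13 / 32) τ
  else if τ ≤ 7 / 16 then sgm P1p P2p (13 / 32) (7 / 16) τ
  else if τ ≤ 1 / 2 then sgm P2p P2m (7 / 16) (1 / 2) τ
  else if τ ≤ 3 / 4 then sgm P2m pbi (1 / 2) (3 / 4) τ
  else sgm pbi pb (3 / 4) 1 τ

/-- affine coordinates of the four triangle moves; inverse maps are
`(X,Y,Z) ↦ (xi (X+Z), Y, ze + hh Z)`, `(xi (X-Z), Y, -hh/2 + (hh/2)(X+Z))`,
`(xi (X+Z), 2 ss Z, Y)`, `(xi (X-Z), ss + ss (X+Z), Y)` -/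
def c1 (p : E3) : E3 := pt (p 0 / xi - (p 2 - ze) / hh) (p 1) ((p 2 - ze) / hh)
def c2 (p : E3) : E3 :=
  pt ((1 + 2 * p 2 / hh + p 0 / xi) / 2) (p 1) ((1 + 2 * p 2 / hh - p 0 / xi) / 2)
def c3 (p : E3) : E3 := pt (p 0 / xi - p 1 / (2 * ss)) (p 2) (p 1 / (2 * ss))
def c4 (p : E3) : E3 :=
  pt ((p 1 / ss - 1 + p 0 / xi) / 2) (p 2) ((p 1 / ss - 1 - p 0 / xi) / 2)

/-- The statement that `Φ` is a triangle move which inserts the vertex `r` in the segment from `p`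
to `q`, with support described by the coordinates `c`. -/
def IsTM (Φ : E3 ≃ₜ E3) (c : E3 → E3) (p q r : E3) : Prop :=
  (∀ x, c x ∉ TE (g / 100) → Φ x = x) ∧
    ∀ s t τ : ℝ, s < t → s ≤ τ → τ ≤ t → Φ (sgm p q s t τ) =
      if τ ≤ (s + t) / 2 then sgm p r s ((s + t) / 2) τ else sgm r q ((s + t) / 2) t τ

/-- zone which contains the supports of the triangle moves; it meets the cells of the outer
strings only in `pai`, `pbi` -/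
def Zone : Set E3 := {p | |p 0| < xi ∨ |p 0| - xi ≤ p 2 - ze}

/-! ## Regions of the groups of kids (`c = 1` for cells, `c = 6/5` for the bigger cells) -/

def rgOL (c : ℝ) : Set E3 := {p |
  |p 1| ≤ c * sg * min (p 0 + 2 * xi) (-xi - p 0) ∧
  |p 2 - ze| ≤ c * sg * min (p 0 + 2 * xi) (-xi - p 0) ∧
  |p 1| ≤ c * (g / 1536) ∧ |p 2 - ze| ≤ c * (g / 1536)}

def rgVL (c : ℝ) : Set E3 := {p |
  |p 0 + xi| ≤ c * sg * min (p 2 - ze) (-p 2) ∧ |p 1| ≤ c * sg * min (p 2 - ze) (-p 2) ∧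
  |p 0 + xi| ≤ c * (g / 1536) ∧ |p 1| ≤ c * (g / 1536)}

/-- region of the first T kid (bigger cell): body and box -/
def rgT1 : Set E3 := {p |
  (|p 0 + xi| ≤ 4 / 5 * min (p 1) (2 * ss - p 1) ∧ |p 2| ≤ 4 / 5 * min (p 1) (2 * ss - p 1) ∧
    |p 0 + xi| ≤ g / 50 ∧ |p 2| ≤ g / 50) ∨
  (-al ^ 2 ≤ p 0 ∧ p 0 ≤ -xi - g / 400 ∧ |p 1| ≤ al ∧ |p 2| ≤ 1 - g / 2)}

def rgHB (c : ℝ) : Set E3 := {p |
  |p 1 - 2 * ss| ≤ c * sg * min (p 0 + xi) (xi - p 0) ∧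
  |p 2| ≤ c * sg * min (p 0 + xi) (xi - p 0) ∧
  |p 1 - 2 * ss| ≤ c * (g / 1536) ∧ |p 2| ≤ c * (g / 1536)}

def rgT2 : Set E3 := {p |
  (|p 0 - xi| ≤ 4 / 5 * min (p 1) (2 * ss - p 1) ∧ |p 2| ≤ 4 / 5 * min (p 1) (2 * ss - p 1) ∧
    |p 0 - xi| ≤ g / 50 ∧ |p 2| ≤ g / 50) ∨
  (p 0 ≤ al ^ 2 ∧ xi + g / 400 ≤ p 0 ∧ |p 1| ≤ al ∧ |p 2| ≤ 1 - g / 2)}

def rgVR (c : ℝ) : Set E3 := {p |
  |p 0 - xi| ≤ c * sg * min (p 2 - ze) (-p 2) ∧ |p 1| ≤ c * sg * min (p 2 - ze) (-p 2) ∧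
  |p 0 - xi| ≤ c * (g / 1536) ∧ |p 1| ≤ c * (g / 1536)}

def rgOR (c : ℝ) : Set E3 := {p |
  |p 1| ≤ c * sg * min (p 0 - xi) (2 * xi - p 0) ∧
  |p 2 - ze| ≤ c * sg * min (p 0 - xi) (2 * xi - p 0) ∧
  |p 1| ≤ c * (g / 1536) ∧ |p 2 - ze| ≤ c * (g / 1536)}

/-- region of the closing string of the root -/
def rgCL (c : ℝ) : Set E3 := {p |
  |p 1| ≤ c * sg * min (p 0 + xi) (xi - p 0) ∧ |p 2| ≤ c * sg * min (p 0 + xi) (xi - p 0) ∧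
  |p 1| ≤ c * (g / 1536) ∧ |p 2| ≤ c * (g / 1536)}

/-! ## Regions of the kids of an S cell -/

def rgSA (c : ℝ) : Set E3 := {p |
  |p 1| ≤ c * sg * min (p 0) (x0 - p 0) ∧ |p 2| ≤ c * sg * min (p 0) (x0 - p 0)}
def rgSB : Set E3 := {p |
  |p 1| ≤ 4 / 5 * min (p 0 - x0) (1 / 2 - rho * de - p 0) ∧
  |p 2| ≤ 4 / 5 * min (p 0 - x0) (1 / 2 - rho * de - p 0) ∧
  |p 1| ≤ rho * (g / 1280) ∧ |p 2| ≤ rho * (g / 1280)}
def rgSC : Set E3 := {p |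
  (|p 1| ≤ 4 / 5 * (rho * de - |p 0 - 1 / 2|) ∧ |p 2| ≤ 4 / 5 * (rho * de - |p 0 - 1 / 2|) ∧
    |p 1| ≤ rho * (g / 50) ∧ |p 2| ≤ rho * (g / 50)) ∨
  (|p 0 - 1 / 2| ≤ rho * (al ^ 2 + g / 16) ∧ |p 1| ≤ rho * (al + g / 16) ∧
    rho * (g / 256) ≤ p 2 ∧ p 2 ≤ rho * (2 + g))}
def rgSD : Set E3 := {p |
  |p 1| ≤ 4 / 5 * min (p 0 - (1 / 2 + rho * de)) (1 - x0 - p 0) ∧
  |p 2| ≤ 4 / 5 * min (p 0 - (1 / 2 + rho * de)) (1 - x0 - p 0) ∧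
  |p 1| ≤ rho * (g / 1280) ∧ |p 2| ≤ rho * (g / 1280)}
def rgSE (c : ℝ) : Set E3 := {p |
  |p 1| ≤ c * sg * min (p 0 - (1 - x0)) (1 - p 0) ∧
  |p 2| ≤ c * sg * min (p 0 - (1 - x0)) (1 - p 0)}

/-- The bigger cells of `k`, `k'` meet only in common endpoints. -/
def Node.rel (k k' : Node) : Prop := k.cellp ∩ k'.cellp ⊆ k.ends ∩ k'.ends

end BOR

end
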