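import Pool.Agent.BOR.HSC
import Pool.Agent.BOR.LMG

/-!
# BOR / THK: the curve is thick at all points and all scales

`TFs` is the set of frames of all T nodes, with the identity as the frame of the root.

PROOF of `TF_fam`. `cl1`: for the identity: `Sim.one.comp FT1 = FT1` is the frame of `root_T1`; for a T
node `v ∈ lev n`: `v.comp ⟨true, FT1, 3/8, 13/32, true⟩ ∈ lev (n+1)` (`kT_T1`, `lev_succ`). `cl2` the
same. `near`: for a T node `v`, `k (gam0 v.t0) ∈ v.cell` (`IsLimit.cell`), and the points of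
`cellB true` have norm `≤ 5`; for the identity use any point of the curve, it lies in a cell of level
`0`, which is in `HB`.

PROOF of `thick`. `y = k (gam0 t)`. By `lev_cov`, `lev_cov_kid` there are `v_n ∈ lev n`,
`t ∈ Icc v_n.t0 v_n.t1`, `v_(n+1) = v_n.comp k_n`, `k_n ∈ kids v_n.typ`, and `y ∈ v_n.cell` for all `n`.
Sizes tend to zero (`lev_size`). Let `n` be the least number with `v_n.size ≤ ρ/4`; `v = v_n`. Let `S` be
the size of the parent, `S = 5` for `n = 0` (parent: the identity, of type T). `S > ρ/4`. All points of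
`v.cell` are at distance `≤ ρ/2` from `y` (`cell_diam`). `HB ⊆ boxT ⊆ cellB true`. Cases (`root_thin`,
`kT_thin`, `kS_thin`):
* `v` has type T: `v.size ≥ 0.3 S` (parent T: `v.fr.s = r · parent`; parent S: `v.fr.s = rho · parent.fr.s`,
  `5 rho ≥ 0.3`). `F = v.fr`, `F.s = v.size/5 ≥ 0.3 · ρ/4/5 ≥ 0.01 ρ`.
* `v` has type S, parent of type S and `v.fr.s = x0 · parent.fr.s`, `x0 ≥ 0.4`: `v.size ≥ 0.1 ρ`. Take
  the T child of `v`: `F = v.fr.comp FSC` (`kS_T`), `F '' HB ⊆ v.cell`, `F.s = v.size/16 ≥ 0.006 ρ`.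
* otherwise `v` has type S and there is `τ ∈ TFs` with `v.size ≥ (g/1024) τ.s`, `S ≤ 16 τ.s`, and every
  point of `v.cell` is within `g τ.s` of `τ '' HB`: parent `u` of type T: `τ = u.fr`, `S = 5 τ.s`; root:
  `τ = 1`, `v.cell ⊆ VT ⊆ HB`; parent `u` of type S: `τ = u.fr.comp FSC`, `τ.s = u.size/16`. So
  `ρ < 64 τ.s`.
  - `ρ ≥ 80 g τ.s`: let `q ∈ τ '' HB`, `dist y q ≤ g τ.s`; let `j` be the least number with
    `r^j τ.s ≤ ρ/20`; `dens j τ` at `q` gives `l` and `q' ∈ F '' HB`, `F = τ.comp (Fw l) ∈ TFs`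
    (`fam_word`), `dist q q' ≤ 15 g τ.s`. Points of `F '' HB` are at distance `≤ 4.54 F.s ≤ 0.23 ρ` from
    `q'` (`HB_sub_ball` twice), so at distance `≤ 16 g τ.s + 0.23 ρ ≤ 0.43 ρ` from `y`. `F.s ≥ ρ/64` if
    `j = 0`, otherwise `F.s > r ρ/20`.
  - `ρ < 80 g τ.s`: `v.size ≥ (g/1024) τ.s > ρ/81920`; take `F = v.fr.comp FSC`,
    `F.s = v.size/16 ≥ ρ/1310720 ≥ 5 · 10⁻⁷ ρ`.
-/

noncomputable section

namespace BOR

open Set

def TFs : Set Sim := {F | F = Sim.one ∨ ∃ n, ∃ v ∈ lev n, v.typ = true ∧ F = v.fr}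

theorem HB_sub_cell : HB ⊆ cellB true := by
  rintro p ⟨h0, h1, h2⟩
  right
  have h3 := abs_le.1 h2
  refine ⟨h0, h1, ?_, h3.2⟩
  have := g_pos
  unfold ze eta w
  linarith [h3.1]

private theorem cellT_dist {p : E3} (hp : p ∈ cellB true) : dist 0 p ≤ 5 := by
  have e0 := g_pos
  have e1 := g_le
  have e2 := al_sq_lt
  have e3 := al_lt
  have e4 := al_pos
  have e5 := de_lt
  have e6 := al_sq_pos
  rcases hp with ⟨h1, h2⟩ | ⟨h0, h1, h2, h3⟩
  · have hd : 0 ≤ dT (p 0) := by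
      have := (abs_nonneg _).trans h1
      linarith
    have hw : dT (p 0) ≤ w := min_le_right _ _
    have hx : 0 ≤ sg * (de - |p 0|) := hd.trans (min_le_left _ _)
    have hx' : |p 0| ≤ de := by
      unfold sg at hx
      linarith
    have h2' := abs_le.1 h2
    have hz : ze = -1 - eta := rfl
    have he : eta = g / 8 := rfl
    have hw' : w = g / 64 := rfl
    refine dist_le_of_coord (a := 2) (b := 2) (c := 2) ?_ ?_ ?_ (by norm_num) (by norm_num)
    · simp only [PiLp.zero_apply, zero_sub, abs_neg]; linarith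
    · simp only [PiLp.zero_apply, zero_sub, abs_neg]; linarith
    · simp only [PiLp.zero_apply, zero_sub, abs_neg]
      rw [abs_le]
      constructor <;> linarith [h2'.1, h2'.2]
  · have hz : ze = -1 - eta := rfl
    have he : eta = g / 8 := rfl
    have hw' : w = g / 64 := rfl
    refine dist_le_of_coord (a := 2) (b := 2) (c := 2) ?_ ?_ ?_ (by norm_num) (by norm_num)
    · simp only [PiLp.zero_apply, zero_sub, abs_neg]; linarith
    · simp only [PiLp.zero_apply, zero_sub, abs_neg]; linarith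
    · simp only [PiLp.zero_apply, zero_sub, abs_neg]
      rw [abs_le]
      constructor <;> linarith

private theorem TFs_S {n : ℕ} {v : Node} (hv : v ∈ lev n) (ht : v.typ = false) :
    v.fr.comp FSC ∈ TFs ∧ (v.fr.comp FSC) '' HB ⊆ v.cell := by
  have hk : (⟨true, FSC, 1 / 2 - rho * de, 1 / 2 + rho * de, false⟩ : Node) ∈ kids v.typ := by
    rw [ht]; exact kS_T
  constructor
  · right
    exact ⟨n + 1, v.comp ⟨true, FSC, 1 / 2 - rho * de, 1 / 2 + rho * de, false⟩,
      lev_succ.2 ⟨v, hv, _, hk, rfl⟩, rfl, rfl⟩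
  · refine Subset.trans ?_ (kid_sub v hk)
    show (v.fr.comp FSC) '' HB ⊆ (v.fr.comp FSC) '' cellB true
    exact image_mono HB_sub_cell

theorem TF_fam {k : E3 ≃ₜ E3} {h : ℕ → E3 ≃ₜ E3} (H : IsLimit k h) : TFam TFs (k '' K0) := by
  refine ⟨?_, ?_, ?_⟩
  · rintro F (rfl | ⟨n, v, hv, ht, rfl⟩)
    · rw [Sim.one_comp]
      exact Or.inr ⟨0, _, root_T1, rfl, rfl⟩
    · refine Or.inr ⟨n + 1, v.comp ⟨true, FT1, 3 / 8, 13 / 32, true⟩,
        lev_succ.2 ⟨v, hv, _, ?_, rfl⟩, rfl, rfl⟩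
      rw [ht]; exact kT_T1
  · rintro F (rfl | ⟨n, v, hv, ht, rfl⟩)
    · rw [Sim.one_comp]
      exact Or.inr ⟨0, _, root_T2, rfl, rfl⟩
    · refine Or.inr ⟨n + 1, v.comp ⟨true, FT2, 7 / 16, 1 / 2, true⟩,
        lev_succ.2 ⟨v, hv, _, ?_, rfl⟩, rfl, rfl⟩
      rw [ht]; exact kT_T2
  · rintro F (rfl | ⟨n, v, hv, ht, rfl⟩)
    · obtain ⟨v, hv, hvt⟩ := lev_cov 0 (t := 0) ⟨le_rfl, zero_le_one⟩
      have h1 := H.cell 0 v hv 0 hvt
      refine ⟨k (gam0 0), mem_image_of_mem _ (mem_image_of_mem _ ⟨le_rfl, zero_le_one⟩), ?_⟩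
      rw [Sim.one_app, Sim.one_s, mul_one]
      exact cellT_dist (HB_sub_cell (lev_HB hv h1))
    · obtain ⟨a0, a1, a2, -⟩ := lev_times hv
      have h1 := H.cell n v hv v.t0 ⟨le_rfl, a1.le⟩
      refine ⟨k (gam0 v.t0), mem_image_of_mem _ (mem_image_of_mem _ ⟨a0, by linarith⟩), ?_⟩
      have h2 : k (gam0 v.t0) ∈ v.fr '' cellB v.typ := h1
      obtain ⟨p, hp, hpe⟩ := h2
      rw [ht] at hp
      rw [← hpe, Sim.dist_app, mul_comm]
      exact mul_le_mul_of_nonneg_right (cellT_dist hp) v.fr.s_pos.le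

private theorem caseA {n : ℕ} {v : Node} (hv : v ∈ lev n) (ht : v.typ = true) {y : E3}
    (hy : y ∈ v.cell) {ρ : ℝ} (h0 : 0 < ρ) (hs : v.size ≤ ρ / 4) (hl : 3 / 40 * ρ ≤ v.size) :
    ∃ F ∈ TFs, F '' HB ⊆ Metric.closedBall y ρ ∧ 5 / 10 ^ 7 * ρ ≤ F.s := by
  refine ⟨v.fr, Or.inr ⟨n, v, hv, ht, rfl⟩, ?_, ?_⟩
  · intro p hp
    have hp' : p ∈ v.cell := by
      show p ∈ v.fr '' cellB v.typ
      rw [ht]
      exact image_mono HB_sub_cell hp
    rw [Metric.mem_closedBall]
    have := cell_diam v hp' hy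
    linarith
  · have e : v.size = 5 * v.fr.s := by unfold Node.size; rw [ht]; rfl
    rw [e] at hl
    linarith

private theorem caseB {n : ℕ} {v : Node} (hv : v ∈ lev n) (ht : v.typ = false) {y : E3}
    (hy : y ∈ v.cell) {ρ : ℝ} (h0 : 0 < ρ) (hs : v.size ≤ ρ / 4) (hl : 1 / 125000 * ρ ≤ v.size) :
    ∃ F ∈ TFs, F '' HB ⊆ Metric.closedBall y ρ ∧ 5 / 10 ^ 7 * ρ ≤ F.s := by
  obtain ⟨h1, h2⟩ := TFs_S hv ht
  refine ⟨v.fr.comp FSC, h1, ?_, ?_⟩
  · intro p hp
    rw [Metric.mem_closedBall]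
    have := cell_diam v (h2 hp) hy
    linarith
  · have e : v.size = v.fr.s := by unfold Node.size; rw [ht]; rfl
    rw [e] at hl
    have : (v.fr.comp FSC).s = v.fr.s * (1 / 16) := rfl
    rw [this]
    linarith

private theorem caseC {n : ℕ} {v : Node} (hv : v ∈ lev n) (ht : v.typ = false) {y : E3}
    (hy : y ∈ v.cell) {ρ : ℝ} (h0 : 0 < ρ) (hs : v.size ≤ ρ / 4) {τ : Sim} (hτ : τ ∈ TFs)
    {K : Set E3} (hK : TFam TFs K)
    (hl : g / 1024 * τ.s ≤ v.size) (hρ : ρ < 64 * τ.s) {q : E3} (hq : q ∈ τ '' HB)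
    (hyq : dist y q ≤ g * τ.s) :
    ∃ F ∈ TFs, F '' HB ⊆ Metric.closedBall y ρ ∧ 5 / 10 ^ 7 * ρ ≤ F.s := by
  have hg := g_pos
  have hτs := τ.s_pos
  rcases lt_or_ge ρ (80 * g * τ.s) with h | h
  · refine caseB hv ht hy h0 hs ?_
    linarith
  · have hr0 := r_pos
    have hr1 := r_lt
    have hr2 := r_gt
    have hex : ∃ n : ℕ, r ^ n * τ.s ≤ ρ / 20 := by
      obtain ⟨n, hn⟩ := exists_pow_lt_of_lt_one (show 0 < ρ / 20 / τ.s by positivity)
        (show r < 1 by linarith)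
      refine ⟨n, ?_⟩
      rw [lt_div_iff₀ hτs] at hn
      exact hn.le
    classical
    set j := Nat.find hex with hj
    have hj1 : r ^ j * τ.s ≤ ρ / 20 := Nat.find_spec hex
    obtain ⟨l, hlen, q', hq', hd⟩ := dens j τ hq
    have hfs : (τ.comp (Fw l)).s = r ^ j * τ.s := by
      rw [Sim.comp_s, Fw_s, hlen, mul_comm]
    refine ⟨τ.comp (Fw l), fam_word hK hτ l, ?_, ?_⟩
    · intro p hp
      rw [Metric.mem_closedBall, dist_comm]
      have b1 := HB_sub_ball _ hp
      have b2 := HB_sub_ball _ hq'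
      have b3 : dist q' p ≤ 4.54 * (τ.comp (Fw l)).s := by
        have := dist_triangle_left q' p ((τ.comp (Fw l)) 0)
        linarith
      have b4 := dist_triangle y q p
      have b5 := dist_triangle q q' p
      rw [hfs] at b3
      linarith
    · rw [hfs]
      rcases Nat.eq_zero_or_pos j with hj0 | hj0
      · rw [hj0, pow_zero, one_mul]
        linarith
      · obtain ⟨m, hm⟩ := Nat.exists_eq_succ_of_ne_zero hj0.ne'
        have hn2 : ρ / 20 < r ^ m * τ.s := by
          have : ¬ (r ^ m * τ.s ≤ ρ / 20) :=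
            Nat.find_min hex (by rw [← hj, hm]; exact Nat.lt_succ_self m)
          linarith
        have he : r ^ j * τ.s = r * (r ^ m * τ.s) := by
          rw [hm, Nat.succ_eq_add_one, pow_succ]; ring
        rw [he]
        have h5 : r * (ρ / 20) < r * (r ^ m * τ.s) := mul_lt_mul_of_pos_left hn2 hr0
        have h6 : 0.7936 * (ρ / 20) ≤ r * (ρ / 20) :=
          mul_le_mul_of_nonneg_right hr2.le (by positivity)
        linarith

theorem thick {k : E3 ≃ₜ E3} {h : ℕ → E3 ≃ₜ E3} (H : IsLimit k h) {y : E3} (hy : y ∈ k '' K0)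
    {ρ : ℝ} (h0 : 0 < ρ) (h1 : ρ ≤ 1) :
    ∃ F ∈ TFs, F '' HB ⊆ Metric.closedBall y ρ ∧ 5 / 10 ^ 7 * ρ ≤ F.s := by
  have hF := TF_fam H
  obtain ⟨_, ⟨t, ht, rfl⟩, rfl⟩ := hy
  have hex : ∃ n : ℕ, ∃ v ∈ lev n, t ∈ Icc v.t0 v.t1 ∧ v.size ≤ ρ / 4 := by
    obtain ⟨n, hn⟩ := exists_pow_lt_of_lt_one (show 0 < ρ / 16 by positivity)
      (show (4 / 5 : ℝ) < 1 by norm_num)
    obtain ⟨v, hv, hvt⟩ := lev_cov n ht
    exact ⟨n, v, hv, hvt, (lev_size hv).trans (by linarith)⟩
  classical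
  obtain ⟨v, hv, hvt, hvs⟩ := Nat.find_spec hex
  have hmin := fun m (hm : m < Nat.find hex) => Nat.find_min hex hm
  have hy := H.cell _ v hv t hvt
  rcases Nat.eq_zero_or_pos (Nat.find hex) with hn0 | hn0
  · have hvr : v ∈ rootL := by rw [hn0] at hv; exact hv
    have hg := g_pos
    have hr2 := r_gt
    rcases root_thin hvr with ⟨a1, a2⟩ | ⟨a1, a2, a3⟩
    · refine caseA hv a1 hy h0 hvs ?_
      have e : v.size = 5 * v.fr.s := by unfold Node.size; rw [a1]; rfl
      have e2 : v.fr.s = r := by rcases a2 with a2 | a2 <;> rw [a2] <;> rfl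
      rw [e, e2]
      linarith
    · have e : v.size = v.fr.s := by unfold Node.size; rw [a1]; rfl
      refine caseC hv a1 hy h0 hvs (τ := Sim.one) (Or.inl rfl) hF ?_ ?_ (q := k (gam0 t)) ?_ ?_
      · rw [e, Sim.one_s]; linarith
      · rw [Sim.one_s]; linarith
      · obtain ⟨b0, b1, b2⟩ := a3 hy
        exact ⟨k (gam0 t), ⟨by linarith, by linarith, by linarith⟩, Sim.one_app _⟩
      · rw [dist_self, Sim.one_s]; linarith
  · obtain ⟨m, hm⟩ := Nat.exists_eq_succ_of_ne_zero hn0.ne'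
    have hv' : v ∈ lev (m + 1) := by rw [hm] at hv; exact hv
    obtain ⟨u, hu, c, hc, rfl⟩ := lev_succ.1 hv'
    obtain ⟨a0, a1, a2, -⟩ := lev_times hu
    have hut : t ∈ Icc u.t0 u.t1 := by
      obtain ⟨b0, b1, b2, -⟩ := kid_times hc
      have hd : 0 < u.t1 - u.t0 := sub_pos.2 a1
      obtain ⟨c0, c1⟩ := hvt
      simp only [Node.comp] at c0 c1
      constructor
      · have := mul_nonneg hd.le b0
        linarith
      · have := mul_le_mul_of_nonneg_left b2 hd.le
        linarith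
    have hus : ρ / 4 < u.size := by
      by_contra hcon
      push Not at hcon
      exact hmin m (by omega) ⟨u, hu, hut, hcon⟩
    have hsz : (u.comp c).size = u.fr.s * c.size := comp_size u c
    have hyc : k (gam0 t) ∈ u.fr '' c.cell := by rw [← comp_cell]; exact hy
    have hup := u.fr.s_pos
    have hg := g_pos
    have hr2 := r_gt
    cases hut' : u.typ with
    | true =>
      have eu : u.size = 5 * u.fr.s := by unfold Node.size; rw [hut']; rfl
      rw [hut'] at hc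
      rcases kT_thin hc with ⟨d1, d2⟩ | ⟨d1, d2, d3, d4⟩
      · refine caseA hv' d1 hy h0 hvs ?_
        have e : c.size = 5 * c.fr.s := by unfold Node.size; rw [d1]; rfl
        have e2 : c.fr.s = r := by rcases d2 with d2 | d2 <;> rw [d2] <;> rfl
        rw [hsz, e, e2]
        nlinarith
      · have e : c.size = c.fr.s := by unfold Node.size; rw [d1]; rfl
        obtain ⟨p, hp, hpe⟩ := hyc
        obtain ⟨q, hq, hpq⟩ := d4 p hp
        refine caseC hv' d1 hy h0 hvs (τ := u.fr) (Or.inr ⟨m, u, hu, hut', rfl⟩) hF ?_ ?_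
          (q := u.fr q) (mem_image_of_mem _ hq) ?_
        · rw [hsz, e, mul_comm]
          exact mul_le_mul_of_nonneg_left d2 hup.le
        · linarith
        · rw [← hpe, Sim.dist_app, mul_comm]
          exact mul_le_mul_of_nonneg_right hpq hup.le
    | false =>
      have eu : u.size = u.fr.s := by unfold Node.size; rw [hut']; rfl
      rw [hut'] at hc
      rcases kS_thin hc with ⟨d1, d2⟩ | ⟨d1, d2⟩ | ⟨d1, d2, d4⟩
      · refine caseA hv' d1 hy h0 hvs ?_
        have e : c.size = 5 * c.fr.s := by unfold Node.size; rw [d1]; rfl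
        have e2 : c.fr.s = 1 / 16 := by rw [d2]; rfl
        rw [hsz, e, e2]
        linarith
      · refine caseB hv' d1 hy h0 hvs ?_
        have e : c.size = c.fr.s := by unfold Node.size; rw [d1]; rfl
        rw [hsz, e, d2]
        have hx : (1 / 10 : ℝ) ≤ x0 := by
          unfold x0 rho
          have := al_sq_lt
          have := g_le
          linarith
        nlinarith
      · have e : c.size = c.fr.s := by unfold Node.size; rw [d1]; rfl
        obtain ⟨p, hp, hpe⟩ := hyc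
        obtain ⟨_, ⟨q, hq, rfl⟩, hpq⟩ := d4 p hp
        have hts : (u.fr.comp FSC).s = u.fr.s * (1 / 16) := rfl
        refine caseC hv' d1 hy h0 hvs (τ := u.fr.comp FSC) (TFs_S hu hut').1 hF ?_ ?_
          (q := (u.fr.comp FSC) q) (mem_image_of_mem _ hq) ?_
        · rw [hsz, e, hts]
          unfold rho at d2
          have := mul_le_mul_of_nonneg_left d2 hup.le
          linarith
        · rw [hts]; linarith
        · rw [← hpe, Sim.comp_app, Sim.dist_app, hts]
          unfold rho at hpq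
          have := mul_le_mul_of_nonneg_left hpq hup.le
          linarith

end BOR

end
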