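import Pool.Agent.BOR.HSC
import Pool.Agent.BOR.DEN

/-!
# BOR / VSG: the straight homotopies between consecutive approximations stay in `V`

PROOF.
* `VT` is convex and open (intersection of slabs), `VT ⊆ VV` (`l = []`, `Sim.one`).
* `DB_VT`: `FT1 '' DB ⊆ VT`: `p 0 = -al²/2 - r z ∈ [-0.9, 0.1]`, `|p 1| ≤ ss + r/2 ≤ 0.4`,
  `|p 2| ≤ r/2 ≤ 0.4`, and `al² - 1/4 > 1.33`, `al - 1/4 > 1`. `FT2` mirror.
* `edgeB true t ∈ DB`, `PT t ∈ DB` for `t ∈ [0,1]`: all vertices are in the convex set `DB`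
  (`|p 0| ≤ 2 xi`, `|p 1| ≤ 2 ss`, `ze ≤ p 2 ≤ 0`); `sgm p q s t τ` is in the segment.
* `lev_pure` by induction. Level 0: `root_thin`: T nodes: `l = []`, `Sim.one_comp`; S nodes:
  `C = VT`. Step `u = v.comp k`. If `v` is in the first case, `v.fr = (Fw l).comp FT_i`, then by
  `kT_thin` for `k`: T kid: `u.fr = v.fr.comp FT_j = (Fw (l ++ [i])).comp FT_j` (`Fw_append`,
  `Sim.comp_assoc`, `Sim.comp_one`); S kid: `k.cell ⊆ DB`, so
  `u.cell ⊆ v.fr '' DB = Fw l '' (FT_i '' DB) ⊆ Fw l '' VT =: C`, convex (`Sim.convex_image`), in `VV`.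
  If `v` is in the second case, `u.cell ⊆ v.cell ⊆ C` (`kid_sub`).
* `seg_VV`: let `v ∈ lev n`, `t ∈ Icc v.t0 v.t1` (`lev_cov`), `k` a kid with `t` in the interval of
  `v.comp k` (`lev_cov_kid`). `h n (gam0 t) = v.edge t`, `h (n+1) (gam0 t) = (v.comp k).edge t`. First
  case of `lev_pure`: both are in `v.fr '' DB` (`comp_edge`, `kT_edge`), contained in the convex set
  `Fw l '' VT ⊆ VV`. Second case: both are in `v.cell ⊆ C` (`edge_mem`, `kid_sub`), `C` convex.
* `gam0_VT`: four pieces.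
-/

noncomputable section

namespace BOR

open Set

private theorem comb_lt {a b x y c : ℝ} (ha : 0 ≤ a) (hb : 0 ≤ b) (hab : a + b = 1)
    (hx : |x| < c) (hy : |y| < c) : |a * x + b * y| < c := by
  rw [abs_lt] at hx hy ⊢
  have := (convex_Ioo (-c) c) (show x ∈ Ioo (-c) c from hx) (show y ∈ Ioo (-c) c from hy) ha hb hab
  simpa only [smul_eq_mul, mem_Ioo] using this

private theorem comb_Icc {a b x y c d : ℝ} (ha : 0 ≤ a) (hb : 0 ≤ b) (hab : a + b = 1)
    (hx : c ≤ x ∧ x ≤ d) (hy : c ≤ y ∧ y ≤ d) : c ≤ a * x + b * y ∧ a * x + b * y ≤ d := by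
  have := (convex_Icc c d) (show x ∈ Icc c d from hx) (show y ∈ Icc c d from hy) ha hb hab
  simpa only [smul_eq_mul, mem_Icc] using this

theorem VT_convex : Convex ℝ VT := by
  intro p hp q hq a b ha hb hab
  refine ⟨?_, ?_, ?_⟩
  · simpa using comb_lt ha hb hab hp.1 hq.1
  · simpa using comb_lt ha hb hab hp.2.1 hq.2.1
  · simpa using comb_lt ha hb hab hp.2.2 hq.2.2

private theorem DB_convex : Convex ℝ DB := by
  intro p hp q hq a b ha hb hab
  have h0 := comb_Icc ha hb hab (abs_le.1 hp.1) (abs_le.1 hq.1)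
  have h1 := comb_Icc ha hb hab (abs_le.1 hp.2.1) (abs_le.1 hq.2.1)
  have h2 := comb_Icc ha hb hab hp.2.2 hq.2.2
  refine ⟨abs_le.2 ?_, abs_le.2 ?_, ?_⟩
  · simpa using h0
  · simpa using h1
  · simpa using h2

private theorem sgm_mem {C : Set E3} (hC : Convex ℝ C) {p q : E3} (hp : p ∈ C) (hq : q ∈ C)
    {s t τ : ℝ} (hst : s < t) (h1 : s ≤ τ) (h2 : τ ≤ t) : sgm p q s t τ ∈ C := by
  have h0 : 0 < t - s := by linarith
  refine hC.add_smul_sub_mem hp hq ⟨?_, ?_⟩
  · exact div_nonneg (by linarith) h0.le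
  · rw [div_le_one h0]; linarith

theorem VT_sub : VT ⊆ VV := by
  intro p hp
  exact ⟨[], p, hp, Sim.one_app p⟩

theorem DB_VT (i : Bool) : (if i then FT1 else FT2 : Sim) '' DB ⊆ VT := by
  have a1 := al_gt
  have a2 := al_lt
  have a3 := al_sq_gt
  have a4 := al_sq_lt
  have r1 := r_gt
  have r2 := r_lt
  have s1 := ss_gt
  have s2 := ss_lt
  have g1 := g_pos
  have g2 := g_le
  rintro _ ⟨p, ⟨h0, h1, h2, h3⟩, rfl⟩
  rw [abs_le] at h0 h1
  cases i with
  | true =>
    have e0 : (FT1 p) 0 = -al ^ 2 / 2 - r * p 2 := by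
      simp [Sim.app_def, FT1, UA1_app]; ring
    have e1 : (FT1 p) 1 = ss + r * p 0 := by
      simp [Sim.app_def, FT1, UA1_app]; ring
    have e2 : (FT1 p) 2 = r * p 1 := by
      simp [Sim.app_def, FT1, UA1_app]
    refine ⟨?_, ?_, ?_⟩
    · show |(FT1 p) 0| < _
      rw [e0, abs_lt]
      constructor <;> nlinarith
    · show |(FT1 p) 1| < _
      rw [e1, abs_lt]
      constructor <;> nlinarith
    · show |(FT1 p) 2| < _
      rw [e2, abs_lt]
      constructor <;> nlinarith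
  | false =>
    have e0 : (FT2 p) 0 = al ^ 2 / 2 + r * p 2 := by
      simp [Sim.app_def, FT2, UA2_app]; ring
    have e1 : (FT2 p) 1 = ss - r * p 0 := by
      simp [Sim.app_def, FT2, UA2_app]; ring
    have e2 : (FT2 p) 2 = r * p 1 := by
      simp [Sim.app_def, FT2, UA2_app]
    refine ⟨?_, ?_, ?_⟩
    · show |(FT2 p) 0| < _
      rw [e0, abs_lt]
      constructor <;> nlinarith
    · show |(FT2 p) 1| < _
      rw [e1, abs_lt]
      constructor <;> nlinarith
    · show |(FT2 p) 2| < _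
      rw [e2, abs_lt]
      constructor <;> nlinarith

private theorem Fw_snoc (l : List Bool) (i : Bool) :
    Fw (l ++ [i]) = (Fw l).comp (if i then FT1 else FT2) := by
  rw [Fw_append]
  show (Fw l).comp ((if i then FT1 else FT2 : Sim).comp Sim.one) = _
  rw [Sim.comp_one]

theorem lev_pure {n : ℕ} {v : Node} (hv : v ∈ lev n) :
    (∃ l : List Bool, ∃ i : Bool, v.typ = true ∧ v.fr = (Fw l).comp (if i then FT1 else FT2)) ∨
    (∃ C : Set E3, Convex ℝ C ∧ C ⊆ VV ∧ v.cell ⊆ C) := by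
  induction n generalizing v with
  | zero =>
    rcases root_thin (show v ∈ rootL from hv) with ⟨h1, h2⟩ | ⟨h1, _, h2⟩
    · left
      rcases h2 with h2 | h2
      · refine ⟨[], true, h1, ?_⟩
        rw [h2]; exact (Sim.one_comp FT1).symm
      · refine ⟨[], false, h1, ?_⟩
        rw [h2]; exact (Sim.one_comp FT2).symm
    · exact Or.inr ⟨VT, VT_convex, VT_sub, h2⟩
  | succ n ih =>
    obtain ⟨w, hw, k, hk, rfl⟩ := lev_succ.1 hv
    rcases ih hw with ⟨l, i, h1, h2⟩ | ⟨C, hC, hCV, hwC⟩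
    · have hk' : k ∈ kidsT := by
        rw [h1] at hk; exact hk
      rcases kT_thin hk' with ⟨h3, h4⟩ | ⟨h3, _, h4, _⟩
      · left
        rcases h4 with h4 | h4
        · refine ⟨l ++ [i], true, h3, ?_⟩
          show w.fr.comp k.fr = _
          rw [Fw_snoc, h2, h4]; rfl
        · refine ⟨l ++ [i], false, h3, ?_⟩
          show w.fr.comp k.fr = _
          rw [Fw_snoc, h2, h4]; rfl
      · right
        refine ⟨Fw l '' VT, Sim.convex_image _ VT_convex, fun p hp => ⟨l, hp⟩, ?_⟩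
        rw [comp_cell, h2, Sim.comp_image]
        exact image_mono ((image_mono h4).trans (DB_VT i))
    · exact Or.inr ⟨C, hC, hCV, (kid_sub w hk).trans hwC⟩

private theorem edge_DB {t : ℝ} (ht : t ∈ Icc (0 : ℝ) 1) : edgeB true t ∈ DB := by
  have g1 := g_pos
  have g2 := g_le
  have d1 := de_gt
  have d2 := de_lt
  obtain ⟨t0, t1⟩ := ht
  have d0 : 0 < de := de_pos
  have h1 : 0 ≤ de * t := by positivity
  have h2 : de * t ≤ de := by nlinarith
  refine ⟨?_, ?_, ?_, ?_⟩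
  · simp only [edgeB, pt_0]
    rw [abs_le]
    constructor <;> nlinarith
  · simp only [edgeB, pt_1]
    norm_num
  · simp only [edgeB, pt_2, ze_def, eta_def]
    linarith
  · simp only [edgeB, pt_2, ze_def, eta_def]
    linarith

private theorem PT_DB {t : ℝ} (ht : t ∈ Icc (0 : ℝ) 1) : PT t ∈ DB := by
  have g1 := g_pos
  have g2 := g_le
  have x1 := xi_gt
  have x2 := xi_lt
  have s1 := ss_gt
  have s2 := ss_lt
  have key : ∀ x y z : ℝ, |x| ≤ 1 / 2 → |y| ≤ 1 / 2 → -(11 / 10) ≤ z → z ≤ 1 / 10 →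
      pt x y z ∈ DB := by
    intro x y z hx hy hz hz'
    exact ⟨by simpa using hx, by simpa using hy, by simpa using hz, by simpa using hz'⟩
  have m1 : pa ∈ DB := key _ _ _ (by rw [abs_le]; constructor <;> linarith) (by norm_num)
    (by rw [ze_def, eta_def]; linarith) (by rw [ze_def, eta_def]; linarith)
  have m2 : pai ∈ DB := key _ _ _ (by rw [abs_le]; constructor <;> linarith) (by norm_num)
    (by rw [ze_def, eta_def]; linarith) (by rw [ze_def, eta_def]; linarith)
  have m3 : P1m ∈ DB := key _ _ _ (by rw [abs_le]; constructor <;> linarith) (by norm_num)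
    (by norm_num) (by norm_num)
  have m4 : P1p ∈ DB := key _ _ _ (by rw [abs_le]; constructor <;> linarith)
    (by rw [abs_le]; constructor <;> linarith) (by norm_num) (by norm_num)
  have m5 : P2p ∈ DB := key _ _ _ (by rw [abs_le]; constructor <;> linarith)
    (by rw [abs_le]; constructor <;> linarith) (by norm_num) (by norm_num)
  have m6 : P2m ∈ DB := key _ _ _ (by rw [abs_le]; constructor <;> linarith) (by norm_num)
    (by norm_num) (by norm_num)
  have m7 : pbi ∈ DB := key _ _ _ (by rw [abs_le]; constructor <;> linarith) (by norm_num)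
    (by rw [ze_def, eta_def]; linarith) (by rw [ze_def, eta_def]; linarith)
  have m8 : pb ∈ DB := key _ _ _ (by rw [abs_le]; constructor <;> linarith) (by norm_num)
    (by rw [ze_def, eta_def]; linarith) (by rw [ze_def, eta_def]; linarith)
  obtain ⟨t0, t1⟩ := ht
  unfold PT
  split_ifs with c1 c2 c3 c4 c5 c6
  · exact sgm_mem DB_convex m1 m2 (by norm_num) t0 c1
  · exact sgm_mem DB_convex m2 m3 (by norm_num) (not_le.1 c1).le c2
  · exact sgm_mem DB_convex m3 m4 (by norm_num) (not_le.1 c2).le c3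
  · exact sgm_mem DB_convex m4 m5 (by norm_num) (not_le.1 c3).le c4
  · exact sgm_mem DB_convex m5 m6 (by norm_num) (not_le.1 c4).le c5
  · exact sgm_mem DB_convex m6 m7 (by norm_num) (not_le.1 c5).le c6
  · exact sgm_mem DB_convex m7 m8 (by norm_num) (not_le.1 c6).le t1

theorem seg_VV {k : E3 ≃ₜ E3} {h : ℕ → E3 ≃ₜ E3} (H : IsLimit k h) (n : ℕ) {t : ℝ}
    (ht : t ∈ Icc (0 : ℝ) 1) : segment ℝ (h n (gam0 t)) (h (n + 1) (gam0 t)) ⊆ VV := by
  obtain ⟨v, hv, htv⟩ := lev_cov n ht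
  obtain ⟨c, hc, htc⟩ := lev_cov_kid hv htv
  have tv := lev_times hv
  have e1 : h n (gam0 t) = v.edge t := H.edge n v hv t htv
  have e2 : h (n + 1) (gam0 t) = (v.comp c).edge t :=
    H.edge (n + 1) _ (lev_succ.2 ⟨v, hv, c, hc, rfl⟩) t htc
  rw [e1, e2]
  rcases lev_pure hv with ⟨l, i, h1, h2⟩ | ⟨C, hC, hCV, hvC⟩
  · have hc' : c ∈ kidsT := by
      rw [h1] at hc; exact hc
    have hsub : v.fr '' DB ⊆ Fw l '' VT := by
      rw [h2, Sim.comp_image]
      exact image_mono (DB_VT i)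
    have hconv : Convex ℝ (Fw l '' VT) := Sim.convex_image _ VT_convex
    have hu : (t - v.t0) / (v.t1 - v.t0) ∈ Icc (0 : ℝ) 1 := by
      have h0 : 0 < v.t1 - v.t0 := by linarith [tv.2.1]
      exact ⟨div_nonneg (by linarith [htv.1]) h0.le, by rw [div_le_one h0]; linarith [htv.2]⟩
    have m1 : v.edge t ∈ v.fr '' DB := by
      refine ⟨edgeB v.typ ((t - v.t0) / (v.t1 - v.t0)), ?_, rfl⟩
      rw [h1]
      exact edge_DB hu
    have m2 : (v.comp c).edge t ∈ v.fr '' DB := by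
      rw [comp_edge v c tv.2.1]
      refine ⟨_, ?_, rfl⟩
      rw [kT_edge hc' ((comp_time v c tv.2.1 t).1 htc)]
      exact PT_DB hu
    exact (hconv.segment_subset (hsub m1) (hsub m2)).trans (fun p hp => ⟨l, hp⟩)
  · have m1 : v.edge t ∈ v.cell := edge_mem v tv.2.1 htv
    have tc := lev_times (lev_succ.2 ⟨v, hv, c, hc, rfl⟩ : v.comp c ∈ lev (n + 1))
    have m2 : (v.comp c).edge t ∈ (v.comp c).cell := edge_mem _ tc.2.1 htc
    exact (hC.segment_subset (hvC m1) (hvC (kid_sub v hc m2))).trans hCV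

theorem gam0_VT {t : ℝ} (ht : t ∈ Icc (0 : ℝ) 1) : gam0 t ∈ VT := by
  have g1 := g_pos
  have g2 := g_le
  have x1 := xi_gt
  have x2 := xi_lt
  have s1 := ss_gt
  have s2 := ss_lt
  have a1 := al_gt
  have a3 := al_sq_gt
  have key : ∀ x y : ℝ, |x| ≤ 1 / 2 → |y| ≤ 1 / 2 → pt x y 0 ∈ VT := by
    intro x y hx hy
    refine ⟨?_, ?_, ?_⟩
    · rw [pt_0]; linarith
    · rw [pt_1]; linarith
    · rw [pt_2]; norm_num
  have m1 : pt (-xi) 0 0 ∈ VT := key _ _ (by rw [abs_le]; constructor <;> linarith) (by norm_num)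
  have m2 : pt (-xi) (2 * ss) 0 ∈ VT := key _ _ (by rw [abs_le]; constructor <;> linarith)
    (by rw [abs_le]; constructor <;> linarith)
  have m3 : pt xi (2 * ss) 0 ∈ VT := key _ _ (by rw [abs_le]; constructor <;> linarith)
    (by rw [abs_le]; constructor <;> linarith)
  have m4 : pt xi 0 0 ∈ VT := key _ _ (by rw [abs_le]; constructor <;> linarith) (by norm_num)
  obtain ⟨t0, t1⟩ := ht
  unfold gam0
  split_ifs with c1 c2 c3
  · exact sgm_mem VT_convex m1 m2 (by norm_num) t0 c1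
  · exact sgm_mem VT_convex m2 m3 (by norm_num) (not_le.1 c1).le c2
  · exact sgm_mem VT_convex m3 m4 (by norm_num) (not_le.1 c2).le c3
  · exact sgm_mem VT_convex m4 m1 (by norm_num) (not_le.1 c3).le t1

end BOR

end
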